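import Pool.Agent.NH69.MI.Stm3

/-! # N1, N2: Bezout at a point, rank of a box -/

set_option autoImplicit false

open NumberField Module MvPolynomial

namespace Pool.Agent.NH69.MI

namespace BezAux

/-- polynomials of degree less than `a` in the first and less than `b` in the second variable -/
noncomputable def VV (a b : ℕ) : Submodule ℚ (MvPolynomial (Fin 2) ℚ) :=
  restrictSupport ℚ {m : Fin 2 →₀ ℕ | m 0 < a ∧ m 1 < b}

theorem mem_VV {a b : ℕ} {p : MvPolynomial (Fin 2) ℚ} :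
    p ∈ VV a b ↔ ∀ m ∈ p.support, m 0 < a ∧ m 1 < b := Iff.rfl

/-- the exponents -/
noncomputable def eqv (a b : ℕ) : {m : Fin 2 →₀ ℕ | m 0 < a ∧ m 1 < b} ≃ Fin a × Fin b where
  toFun m := (⟨m.1 0, m.2.1⟩, ⟨m.1 1, m.2.2⟩)
  invFun k := ⟨Finsupp.equivFunOnFinite.symm ![k.1, k.2], by
    constructor <;> simp⟩
  left_inv m := by
    apply Subtype.ext
    ext i
    fin_cases i <;> simp
  right_inv k := by
    ext <;> simp

theorem finrank_VV (a b : ℕ) : finrank ℚ (VV a b) = a * b := by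
  have h := Module.finrank_eq_card_basis
    ((basisRestrictSupport ℚ {m : Fin 2 →₀ ℕ | m 0 < a ∧ m 1 < b}).reindex (eqv a b))
  rw [Fintype.card_prod, Fintype.card_fin, Fintype.card_fin] at h
  exact h

instance fdVV (a b : ℕ) : FiniteDimensional ℚ (VV a b) :=
  Module.Finite.of_basis
    ((basisRestrictSupport ℚ {m : Fin 2 →₀ ℕ | m 0 < a ∧ m 1 < b}).reindex (eqv a b))

theorem mul_mem {p q : MvPolynomial (Fin 2) ℚ} {a b : ℕ}
    (hq : q ∈ VV (a - degreeOf 0 p) (b - degreeOf 1 p)) : p * q ∈ VV a b := by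
  classical
  rw [mem_VV] at hq ⊢
  intro m hm
  have h1 := support_mul p q hm
  rw [Finset.mem_add] at h1
  obtain ⟨m1, hm1, m2, hm2, rfl⟩ := h1
  have h2 := monomial_le_degreeOf 0 hm1
  have h3 := monomial_le_degreeOf 1 hm1
  have h4 := hq m2 hm2
  rw [Finsupp.add_apply, Finsupp.add_apply]
  omega

theorem div_mem {p q : MvPolynomial (Fin 2) ℚ} {a b : ℕ} (hp : p ≠ 0) (h : p * q ∈ VV a b) :
    q ∈ VV (a - degreeOf 0 p) (b - degreeOf 1 p) := by
  classical
  by_cases hq : q = 0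
  · rw [hq]; exact Submodule.zero_mem _
  rw [mem_VV] at h ⊢
  have hpq : p * q ≠ 0 := mul_ne_zero hp hq
  obtain ⟨m0, hm0⟩ : (p * q).support.Nonempty := by
    rw [Finset.nonempty_iff_ne_empty]
    intro he
    exact hpq (support_eq_empty.1 he)
  have ha : 0 < a := lt_of_le_of_lt (Nat.zero_le _) (h m0 hm0).1
  have hb : 0 < b := lt_of_le_of_lt (Nat.zero_le _) (h m0 hm0).2
  have h0 : degreeOf 0 (p * q) < a := (degreeOf_lt_iff ha).2 fun m hm => (h m hm).1
  have h1 : degreeOf 1 (p * q) < b := (degreeOf_lt_iff hb).2 fun m hm => (h m hm).2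
  rw [degreeOf_mul_eq hp hq] at h0 h1
  intro m hm
  have h2 := monomial_le_degreeOf 0 hm
  have h3 := monomial_le_degreeOf 1 hm
  omega

/-- multiplication by `p` -/
noncomputable def mulL (p : MvPolynomial (Fin 2) ℚ) {a b a' b' : ℕ}
    (h : ∀ q ∈ VV a b, p * q ∈ VV a' b') : VV a b →ₗ[ℚ] VV a' b' :=
  LinearMap.restrict (LinearMap.mulLeft ℚ p) h

theorem mulL_coe (p : MvPolynomial (Fin 2) ℚ) {a b a' b' : ℕ}
    (h : ∀ q ∈ VV a b, p * q ∈ VV a' b') (q : VV a b) :
    ((mulL p h q : VV a' b') : MvPolynomial (Fin 2) ℚ) = p * q := rfl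

/-- evaluation -/
noncomputable def phi {K : Type} [Field K] [NumberField K] (z : Fin 2 → K) (a b : ℕ) :
    VV a b →ₗ[ℚ] K :=
  ((aeval z : MvPolynomial (Fin 2) ℚ →ₐ[ℚ] K).toLinearMap).domRestrict (VV a b)

theorem phi_apply {K : Type} [Field K] [NumberField K] (z : Fin 2 → K) (a b : ℕ) (q : VV a b) :
    phi z a b q = aeval z (q : MvPolynomial (Fin 2) ℚ) := rfl

/-- base change -/
noncomputable def toQ (P : MvPolynomial (Fin 2) ℤ) : MvPolynomial (Fin 2) ℚ :=
  map (algebraMap ℤ ℚ) P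

theorem toQ_inj {P Q : MvPolynomial (Fin 2) ℤ} (h : toQ P = toQ Q) : P = Q :=
  map_injective (algebraMap ℤ ℚ) (RingHom.injective_int _) h

theorem toQ_mul (P Q : MvPolynomial (Fin 2) ℤ) : toQ (P * Q) = toQ P * toQ Q := map_mul _ _ _

theorem toQ_ne {P : MvPolynomial (Fin 2) ℤ} (h : P ≠ 0) : toQ P ≠ 0 := by
  intro h0
  apply h
  apply toQ_inj
  rw [h0]
  exact (map_zero (map (algebraMap ℤ ℚ))).symm

theorem toQ_deg (P : MvPolynomial (Fin 2) ℤ) (i : Fin 2) : degreeOf i (toQ P) ≤ degreeOf i P := by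
  rw [degreeOf_le_iff]
  intro m hm
  exact monomial_le_degreeOf i (support_map_subset (algebraMap ℤ ℚ) P hm)

theorem aeval_toQ {K : Type} [Field K] [NumberField K] (z : Fin 2 → K)
    (P : MvPolynomial (Fin 2) ℤ) : aeval z (toQ P) = aeval z P :=
  aeval_map_algebraMap ℚ z P

theorem clear (B : MvPolynomial (Fin 2) ℚ) : ∃ N : ℤ, N ≠ 0 ∧ ∃ B0 : MvPolynomial (Fin 2) ℤ,
    toQ B0 = C (N : ℚ) * B := by
  classical
  obtain ⟨b, hb⟩ := IsLocalization.exist_integer_multiples (nonZeroDivisors ℤ) B.support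
    (fun m => B.coeff m)
  choose! f hf using hb
  refine ⟨b, nonZeroDivisors.ne_zero b.2, ∑ m ∈ B.support, monomial m (f m), ?_⟩
  unfold toQ
  rw [map_sum]
  simp only [map_monomial]
  conv_rhs => rw [B.as_sum, Finset.mul_sum]
  apply Finset.sum_congr rfl
  intro m hm
  rw [C_mul_monomial]
  congr 1
  rw [hf m hm, Algebra.smul_def]
  rfl

theorem exists_quot {P G : MvPolynomial (Fin 2) ℤ} (hP : Irreducible P) (hPG : ¬ P ∣ G)
    (A B : MvPolynomial (Fin 2) ℚ) (h : toQ P * A + toQ G * B = 0) :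
    ∃ D : MvPolynomial (Fin 2) ℚ, B = toQ P * D ∧ A = - (toQ G * D) := by
  obtain ⟨N1, hN1, A0, hA0⟩ := clear A
  obtain ⟨N2, hN2, B0, hB0⟩ := clear B
  have h1 : P * (C N2 * A0) + G * (C N1 * B0) = 0 := by
    apply toQ_inj
    have e : toQ (P * (C N2 * A0) + G * (C N1 * B0)) =
        C ((N1 : ℚ) * N2) * (toQ P * A + toQ G * B) := by
      have e1 : toQ (P * (C N2 * A0) + G * (C N1 * B0)) =
          toQ P * (toQ (C N2) * toQ A0) + toQ G * (toQ (C N1) * toQ B0) := by
        unfold toQ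
        simp only [map_add, map_mul]
      have e2 : ∀ N : ℤ, toQ (C N) = C (N : ℚ) := fun N => map_C _ _
      rw [e1, hA0, hB0, e2, e2, C_mul]
      ring
    rw [e, h, mul_zero]
    exact (map_zero (map (algebraMap ℤ ℚ))).symm
  have hPp : Prime P := hP.prime
  have h2 : P ∣ G * (C N1 * B0) := by
    refine ⟨-(C N2 * A0), ?_⟩
    linear_combination h1
  have h3 : P ∣ C N1 * B0 := (hPp.dvd_or_dvd h2).resolve_left hPG
  obtain ⟨D0, hD0⟩ := h3
  have hN12 : ((N1 : ℚ) * N2) ≠ 0 := by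
    apply mul_ne_zero <;> exact_mod_cast (by assumption)
  have hB : B = toQ P * (C (((N1 : ℚ) * N2)⁻¹) * toQ D0) := by
    have e3 : toQ (C N1 * B0) = C ((N1 : ℚ) * N2) * B := by
      have e2 : toQ (C N1) = C (N1 : ℚ) := map_C _ _
      rw [toQ_mul, e2, hB0, C_mul]
      ring
    rw [hD0, toQ_mul] at e3
    have e4 : C (((N1 : ℚ) * N2)⁻¹) * (toQ P * toQ D0) = B := by
      rw [e3, ← mul_assoc, ← C_mul, inv_mul_cancel₀ hN12, C_1, one_mul]
    rw [← e4]
    ring
  refine ⟨_, hB, ?_⟩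
  have hP0 : toQ P ≠ 0 := toQ_ne hP.ne_zero
  apply mul_left_cancel₀ hP0
  linear_combination h - toQ G * hB

end BezAux

open BezAux

/-- N2 -/
theorem t_rk : S_RK := by
  intro K _ _ z P ω L hP hz hω
  have hdim := LinearMap.finrank_range_add_finrank_ker (phi z (L + 1) (L + 1))
  rw [finrank_VV] at hdim
  have hW : W L (z 0) (z 1) ≤ LinearMap.range (phi z (L + 1) (L + 1)) := by
    unfold W
    rw [Submodule.span_le]
    rintro w ⟨i, j, hi, hj, rfl⟩
    refine ⟨⟨monomial (Finsupp.equivFunOnFinite.symm ![i, j]) 1, ?_⟩, ?_⟩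
    · unfold VV
      rw [monomial_mem_restrictSupport]
      left
      constructor
      · simp; omega
      · simp; omega
    · rw [phi_apply]
      simp only [aeval_monomial, map_one, one_mul]
      rw [Finsupp.prod_fintype _ _ (fun i => pow_zero _)]
      simp
  have h1 : finrank ℚ (W L (z 0) (z 1)) ≤ finrank ℚ (LinearMap.range (phi z (L + 1) (L + 1))) :=
    Submodule.finrank_mono hW
  have hzQ : aeval z (toQ P) = 0 := by rw [aeval_toQ, hz]
  have h2 : (L + 1 - degreeOf 0 (toQ P)) * (L + 1 - degreeOf 1 (toQ P)) ≤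
      finrank ℚ (LinearMap.ker (phi z (L + 1) (L + 1))) := by
    rw [← finrank_VV]
    let m := mulL (toQ P) (a := L + 1 - degreeOf 0 (toQ P)) (b := L + 1 - degreeOf 1 (toQ P))
      (a' := L + 1) (b' := L + 1) (fun q hq => mul_mem hq)
    have hm : ∀ q, m q ∈ LinearMap.ker (phi z (L + 1) (L + 1)) := by
      intro q
      rw [LinearMap.mem_ker, phi_apply, mulL_coe, map_mul, hzQ, zero_mul]
    have hinj : Function.Injective (m.codRestrict _ hm) := by
      intro q q' hqq
      have h3 : (toQ P) * (q : MvPolynomial (Fin 2) ℚ) = toQ P * q' := by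
        have := congrArg (fun x => ((x : VV (L + 1) (L + 1)) : MvPolynomial (Fin 2) ℚ)) 
          (congrArg Subtype.val hqq)
        exact this
      exact Subtype.ext (mul_left_cancel₀ (toQ_ne hP) h3)
    exact LinearMap.finrank_le_finrank_of_injective hinj
  have h3 : degreeOf 0 (toQ P) ≤ ω := (toQ_deg P 0).trans (hω 0)
  have h4 : degreeOf 1 (toQ P) ≤ ω := (toQ_deg P 1).trans (hω 1)
  generalize degreeOf 0 (toQ P) = d0 at *
  generalize degreeOf 1 (toQ P) = d1 at *
  have h5 : (L + 1) * (L + 1) ≤ (L + 1 - d0) * (L + 1 - d1) + 2 * ω * (L + 1) := by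
    rcases le_or_gt d0 (L + 1) with h6 | h6
    · rcases le_or_gt d1 (L + 1) with h7 | h7
      · obtain ⟨u, hu⟩ := Nat.exists_eq_add_of_le h6
        obtain ⟨v, hv⟩ := Nat.exists_eq_add_of_le h7
        have e1 : L + 1 - d0 = u := by omega
        have e2 : L + 1 - d1 = v := by omega
        rw [e1, e2]
        have h8 : (L + 1) * (L + 1) = (d0 + u) * (d1 + v) := by rw [← hu, ← hv]
        have h9 : (d0 + u) * d1 ≤ (L + 1) * ω := by rw [← hu]; exact Nat.mul_le_mul_left _ h4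
        have h10 : d0 * v ≤ ω * (L + 1) := Nat.mul_le_mul h3 (by omega)
        nlinarith
      · have : (L + 1) * (L + 1) ≤ ω * (L + 1) := Nat.mul_le_mul_right _ (by omega)
        nlinarith [Nat.zero_le ((L + 1 - d0) * (L + 1 - d1))]
    · have : (L + 1) * (L + 1) ≤ ω * (L + 1) := Nat.mul_le_mul_right _ (by omega)
      nlinarith [Nat.zero_le ((L + 1 - d0) * (L + 1 - d1))]
  omega

/-- N1 -/
theorem t_bez : S_BEZ := by
  intro K _ _ z P G ω g htop hP hzP hzG hω hg hlt
  by_contra hPG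
  have hG0 : G ≠ 0 := by rintro rfl; exact hPG (dvd_zero P)
  have hP0 : P ≠ 0 := hP.ne_zero
  have hzP' : aeval z (toQ P) = 0 := by rw [aeval_toQ, hzP]
  have hzG' : aeval z (toQ G) = 0 := by rw [aeval_toQ, hzG]
  set a0 := degreeOf 0 (toQ P) with ha0
  set a1 := degreeOf 1 (toQ P) with ha1
  set g0 := degreeOf 0 (toQ G) with hg0
  set g1 := degreeOf 1 (toQ G) with hg1
  have hsurj : ∃ M0 : ℕ, ∀ M, M0 ≤ M → LinearMap.range (phi z M M) = ⊤ := by
    classical
    have hal : ∀ x : K, ∃ p : MvPolynomial (Fin 2) ℚ, aeval z p = x := by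
      intro x
      have h1 : x ∈ Algebra.adjoin ℚ (Set.range z) := by rw [htop]; exact Algebra.mem_top
      rw [Algebra.adjoin_range_eq_range_aeval] at h1
      exact h1
    let b := Module.finBasis ℚ K
    choose p hp using fun i => hal (b i)
    refine ⟨∑ i, (degreeOf 0 (p i) + degreeOf 1 (p i)) + 1, fun M hM => ?_⟩
    rw [eq_top_iff, ← b.span_eq, Submodule.span_le]
    rintro _ ⟨i, rfl⟩
    refine ⟨⟨p i, ?_⟩, ?_⟩
    · rw [mem_VV]
      intro m hm
      have h2 := monomial_le_degreeOf 0 hm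
      have h3 := monomial_le_degreeOf 1 hm
      have h4 : degreeOf 0 (p i) + degreeOf 1 (p i) ≤
          ∑ i, (degreeOf 0 (p i) + degreeOf 1 (p i)) :=
        Finset.single_le_sum (f := fun i => degreeOf 0 (p i) + degreeOf 1 (p i))
          (fun _ _ => Nat.zero_le _) (Finset.mem_univ i)
      omega
    · rw [phi_apply]; exact hp i
  obtain ⟨M0, hM0⟩ := hsurj
  obtain ⟨M, hM1, hM2, hM3⟩ : ∃ M, M0 ≤ M ∧ a0 + g0 ≤ M ∧ a1 + g1 ≤ M :=
    ⟨M0 + (a0 + g0) + (a1 + g1), by omega, by omega, by omega⟩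
  have hdim := LinearMap.finrank_range_add_finrank_ker (phi z M M)
  rw [finrank_VV, hM0 M hM1, finrank_top] at hdim
  let mP := mulL (toQ P) (a := M - a0) (b := M - a1) (a' := M) (b' := M) (fun q hq => mul_mem hq)
  let mG := mulL (toQ G) (a := M - g0) (b := M - g1) (a' := M) (b' := M) (fun q hq => mul_mem hq)
  let psi : (VV (M - a0) (M - a1) × VV (M - g0) (M - g1)) →ₗ[ℚ] VV M M := mP.coprod mG
  have hpsi : ∀ x, ((psi x : VV M M) : MvPolynomial (Fin 2) ℚ) = toQ P * x.1 + toQ G * x.2 :=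
    fun x => rfl
  have h1 : LinearMap.range psi ≤ LinearMap.ker (phi z M M) := by
    rintro _ ⟨x, rfl⟩
    rw [LinearMap.mem_ker, phi_apply, hpsi, map_add, map_mul, map_mul, hzP', hzG', zero_mul,
      zero_mul, add_zero]
  have h2 : finrank ℚ (LinearMap.range psi) ≤ finrank ℚ (LinearMap.ker (phi z M M)) :=
    Submodule.finrank_mono h1
  have h3 := LinearMap.finrank_range_add_finrank_ker psi
  rw [Module.finrank_prod, finrank_VV, finrank_VV] at h3
  let cP := mulL (toQ P) (a := M - a0 - g0) (b := M - a1 - g1) (a' := M - g0) (b' := M - g1)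
    (fun q hq => mul_mem (by
      rw [show M - g0 - degreeOf 0 (toQ P) = M - a0 - g0 by omega,
        show M - g1 - degreeOf 1 (toQ P) = M - a1 - g1 by omega]
      exact hq))
  let cG := mulL (toQ G) (a := M - a0 - g0) (b := M - a1 - g1) (a' := M - a0) (b' := M - a1)
    (fun q hq => mul_mem hq)
  let chi : VV (M - a0 - g0) (M - a1 - g1) →ₗ[ℚ]
      (VV (M - a0) (M - a1) × VV (M - g0) (M - g1)) := (-cG).prod cP
  have h4 : LinearMap.ker psi ≤ LinearMap.range chi := by
    rintro ⟨A, B⟩ hAB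
    rw [LinearMap.mem_ker] at hAB
    have h5 : toQ P * (A : MvPolynomial (Fin 2) ℚ) + toQ G * (B : MvPolynomial (Fin 2) ℚ) = 0 := by
      have := congrArg (fun x : VV M M => (x : MvPolynomial (Fin 2) ℚ)) hAB
      exact this
    obtain ⟨D, hD1, hD2⟩ := exists_quot hP hPG A B h5
    have hDmem : D ∈ VV (M - a0 - g0) (M - a1 - g1) := by
      have h6 : toQ P * D ∈ VV (M - g0) (M - g1) := by rw [← hD1]; exact B.2
      have h7 := div_mem (toQ_ne hP0) h6
      rw [show M - a0 - g0 = M - g0 - degreeOf 0 (toQ P) by omega,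
        show M - a1 - g1 = M - g1 - degreeOf 1 (toQ P) by omega]
      exact h7
    refine ⟨⟨D, hDmem⟩, ?_⟩
    apply Prod.ext
    · apply Subtype.ext
      exact hD2.symm
    · apply Subtype.ext
      exact hD1.symm
  have h5 : finrank ℚ (LinearMap.ker psi) ≤ (M - a0 - g0) * (M - a1 - g1) := by
    calc finrank ℚ (LinearMap.ker psi) ≤ finrank ℚ (LinearMap.range chi) := Submodule.finrank_mono h4
      _ ≤ finrank ℚ (VV (M - a0 - g0) (M - a1 - g1)) := LinearMap.finrank_range_le chi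
      _ = _ := finrank_VV _ _
  have hb0 : a0 ≤ ω := (toQ_deg P 0).trans (hω 0)
  have hb1 : a1 ≤ ω := (toQ_deg P 1).trans (hω 1)
  have hc0 : g0 ≤ g := (toQ_deg G 0).trans (hg 0)
  have hc1 : g1 ≤ g := (toQ_deg G 1).trans (hg 1)
  obtain ⟨s, hs⟩ := Nat.exists_eq_add_of_le hM2
  obtain ⟨t, ht⟩ := Nat.exists_eq_add_of_le hM3
  have e1 : M - a0 = g0 + s := by omega
  have e2 : M - a1 = g1 + t := by omega
  have e3 : M - g0 = a0 + s := by omega
  have e4 : M - g1 = a1 + t := by omega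
  have e5 : M - a0 - g0 = s := by omega
  have e6 : M - a1 - g1 = t := by omega
  rw [e5, e6] at h5
  generalize finrank ℚ (LinearMap.range psi) = r1 at h2 h3
  generalize finrank ℚ (LinearMap.ker psi) = r2 at h3 h5
  generalize finrank ℚ (LinearMap.ker (phi z M M)) = r3 at h2 hdim
  rw [e1, e2, e3, e4] at h3
  have e7 : M * M = (a0 + g0 + s) * (a1 + g1 + t) := by rw [← hs, ← ht]
  rw [e7] at hdim
  have h8 : finrank ℚ K ≤ a0 * g1 + g0 * a1 := by nlinarith
  have h9 : a0 * g1 ≤ ω * g := Nat.mul_le_mul hb0 hc1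
  have h10 : g0 * a1 ≤ g * ω := Nat.mul_le_mul hc0 hb1
  nlinarith

end Pool.Agent.NH69.MI
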