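import Pool.Agent.NH69.MI.Stm3

/-!
# N3: polynomials with complex coefficients vanishing at all conjugates
-/

set_option autoImplicit false

open NumberField Module MvPolynomial Pool.Agent.H225R3.Marg

namespace Pool.Agent.NH69.MI

/-- apply a map (with `f 0 = 0` in the applications) to the coefficients -/
noncomputable def coef {R S : Type} [CommRing R] [CommRing S] (f : R → S)
    (H : MvPolynomial (Fin 2) R) : MvPolynomial (Fin 2) S :=
  ∑ m ∈ H.support, monomial m (f (coeff m H))

lemma coeff_coef {R S : Type} [CommRing R] [CommRing S] (f : R → S) (hf : f 0 = 0)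
    (H : MvPolynomial (Fin 2) R) (m : Fin 2 →₀ ℕ) : coeff m (coef f H) = f (coeff m H) := by
  classical
  rw [coef, coeff_sum]
  simp only [coeff_monomial]
  rw [Finset.sum_ite_eq' H.support m (fun x => f (coeff x H))]
  split_ifs with h
  · rfl
  · rw [notMem_support_iff.mp h, hf]

lemma degreeOf_coef {R S : Type} [CommRing R] [CommRing S] (f : R → S) (hf : f 0 = 0)
    (H : MvPolynomial (Fin 2) R) (i : Fin 2) (g : ℕ) (h : H.degreeOf i ≤ g) :
    (coef f H).degreeOf i ≤ g := by
  rw [degreeOf_le_iff] at h ⊢
  intro m hm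
  apply h m
  rw [MvPolynomial.mem_support_iff] at hm ⊢
  intro h0
  apply hm
  rw [coeff_coef f hf, h0, hf]

/-- the case of rational coefficients -/
lemma bezq (h : S_BEZ) (K : Type) [Field K] [NumberField K] (z : Fin 2 → K)
    (P : MvPolynomial (Fin 2) ℤ) (G : MvPolynomial (Fin 2) ℚ) (ω g : ℕ)
    (htop : Algebra.adjoin ℚ (Set.range z) = ⊤) (hP : Irreducible P) (hPz : aeval z P = 0)
    (hGz : aeval z G = 0) (hPd : ∀ i, P.degreeOf i ≤ ω) (hGd : ∀ i, G.degreeOf i ≤ g)
    (hlt : 2 * ω * g < finrank ℚ K) :
    map (Int.castRingHom ℂ) P ∣ map (algebraMap ℚ ℂ) G := by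
  classical
  obtain ⟨N, hN⟩ := IsLocalization.exist_integer_multiples (nonZeroDivisors ℤ) G.support
    (fun m => (coeff m G : ℚ))
  have hN0 : ((N : ℤ) : ℚ) ≠ 0 := by
    have := nonZeroDivisors.coe_ne_zero N
    exact_mod_cast this
  -- the integral coefficients
  have hex : ∀ m, ∃ a : ℤ, (a : ℚ) = (N : ℤ) * coeff m G := by
    intro m
    by_cases hm : m ∈ G.support
    · obtain ⟨a, ha⟩ := hN m hm
      refine ⟨a, ?_⟩
      rw [← eq_intCast (algebraMap ℤ ℚ) a, ha, zsmul_eq_mul]
    · refine ⟨0, ?_⟩
      rw [notMem_support_iff.mp hm]; simp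
  choose a ha using hex
  have ha0 : ∀ m, m ∉ G.support → a m = 0 := by
    intro m hm
    have := ha m
    rw [notMem_support_iff.mp hm, mul_zero] at this
    exact_mod_cast this
  set G' : MvPolynomial (Fin 2) ℤ := ∑ m ∈ G.support, monomial m (a m) with hG'
  have hc : ∀ m, coeff m G' = a m := by
    intro m
    rw [hG', coeff_sum]
    simp only [coeff_monomial]
    rw [Finset.sum_ite_eq' G.support m a]
    split_ifs with hm
    · rfl
    · rw [ha0 m hm]
  have hmap : map (Int.castRingHom ℚ) G' = C ((N : ℤ) : ℚ) * G := by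
    ext m
    rw [coeff_map, hc, coeff_C_mul, ← ha m]
    simp
  have hdiv : P ∣ G' := by
    apply h K z P G' ω g htop hP hPz _ hPd _ hlt
    · have h1 : aeval z G' = aeval z (map (Int.castRingHom ℚ) G') := by
        rw [aeval_def, aeval_def, eval₂_map]
        congr 1
        exact RingHom.ext_int _ _
      rw [h1, hmap, map_mul, hGz, mul_zero]
    · intro i
      rw [degreeOf_le_iff]
      intro m hm
      have hm' : m ∈ G.support := by
        by_contra h'
        rw [MvPolynomial.mem_support_iff, hc, ha0 m h'] at hm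
        exact hm rfl
      exact (degreeOf_le_iff.mp (hGd i)) m hm'
  have h2 : map (Int.castRingHom ℂ) P ∣ map (Int.castRingHom ℂ) G' :=
    map_dvd (map (Int.castRingHom ℂ)) hdiv
  have h3 : map (Int.castRingHom ℂ) G' = C ((N : ℤ) : ℂ) * map (algebraMap ℚ ℂ) G := by
    have : (Int.castRingHom ℂ) = (algebraMap ℚ ℂ).comp (Int.castRingHom ℚ) := RingHom.ext_int _ _
    rw [this, ← MvPolynomial.map_map, hmap, map_mul, map_C]
    congr 2
  rw [h3] at h2
  have hu : IsUnit (C ((N : ℤ) : ℂ) : MvPolynomial (Fin 2) ℂ) := by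
    apply IsUnit.map C
    apply IsUnit.mk0
    have := nonZeroDivisors.coe_ne_zero N
    exact_mod_cast this
  exact (hu.dvd_mul_left).mp h2

theorem t_bezc (h : S_BEZ) : S_BEZC := by
  classical
  intro K _ _ z P H ω g htop hP hPz hH hPd hHd hlt
  -- the trace identity
  have key : ∀ (f : ℂ →ₗ[ℚ] ℚ), aeval z (coef f H) = 0 := by
    intro f
    have htr : ∀ t : K, Algebra.trace ℚ K (t * aeval z (coef f H)) = 0 := by
      intro t
      have hz : ∑ ρ : K →+* ℂ, ρ t * eval (fun i => ρ (z i)) H = 0 := by
        apply Finset.sum_eq_zero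
        intro ρ _
        rw [hH ρ, mul_zero]
      have hsum : ∑ ρ : K →+* ℂ, ρ t * eval (fun i => ρ (z i)) H =
          ∑ m ∈ H.support, (Algebra.trace ℚ K (t * ∏ i, z i ^ m i)) • coeff m H := by
        have e1 : ∀ ρ : K →+* ℂ, ρ t * eval (fun i => ρ (z i)) H =
            ∑ m ∈ H.support, ρ (t * ∏ i, z i ^ m i) * coeff m H := by
          intro ρ
          rw [eval_eq', Finset.mul_sum]
          apply Finset.sum_congr rfl
          intro m _
          rw [map_mul, map_prod]
          simp only [map_pow]
          ring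
        rw [Finset.sum_congr rfl (fun ρ _ => e1 ρ), Finset.sum_comm]
        apply Finset.sum_congr rfl
        intro m _
        rw [← Finset.sum_mul]
        have e2 : ∑ ρ : K →+* ℂ, ρ (t * ∏ i, z i ^ m i) =
            algebraMap ℚ ℂ (Algebra.trace ℚ K (t * ∏ i, z i ^ m i)) := by
          rw [trace_eq_sum_embeddings ℂ]
          exact (Fintype.sum_equiv (RingHom.equivRatAlgHom K ℂ) _ _ (fun ρ => rfl))
        rw [e2, Algebra.smul_def]
      rw [hsum] at hz
      have hz2 := congrArg f hz
      rw [map_sum, map_zero] at hz2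
      simp only [map_smul, smul_eq_mul] at hz2
      have e3 : t * aeval z (coef f H) = ∑ m ∈ H.support, f (coeff m H) • (t * ∏ i, z i ^ m i) := by
        rw [coef, map_sum, Finset.mul_sum]
        apply Finset.sum_congr rfl
        intro m _
        rw [aeval_monomial, Finsupp.prod_fintype _ _ (fun i => pow_zero _), Algebra.smul_def]
        ring
      rw [e3, map_sum]
      simp only [map_smul, smul_eq_mul]
      rw [← hz2]
      apply Finset.sum_congr rfl
      intro m _
      ring
    by_contra hne
    have := traceForm_nondegenerate ℚ K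
    apply hne
    apply this.1
    intro t
    rw [Algebra.traceForm_apply, mul_comm]
    exact htr t
  -- decomposition with respect to a basis
  let b := Basis.ofVectorSpace ℚ ℂ
  let T := H.support.biUnion (fun m => (b.repr (coeff m H)).support)
  have hdec : H = ∑ j ∈ T, C (b j) * map (algebraMap ℚ ℂ) (coef (b.coord j) H) := by
    ext m
    rw [coeff_sum]
    have e4 : ∀ j ∈ T, coeff m (C (b j) * map (algebraMap ℚ ℂ) (coef (b.coord j) H)) =
        (b.repr (coeff m H) j) • b j := by
      intro j _
      rw [coeff_C_mul, coeff_map, coeff_coef _ (map_zero _), Basis.coord_apply, Algebra.smul_def,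
        mul_comm]
    rw [Finset.sum_congr rfl e4]
    have e5 : (b.repr (coeff m H)).support ⊆ T := by
      intro j hj
      by_cases hm : m ∈ H.support
      · exact Finset.mem_biUnion.mpr ⟨m, hm, hj⟩
      · rw [notMem_support_iff.mp hm] at hj
        simp at hj
    conv_lhs => rw [← b.linearCombination_repr (coeff m H)]
    rw [Finsupp.linearCombination_apply, Finsupp.sum]
    apply Finset.sum_subset e5
    intro j _ hj
    rw [Finsupp.notMem_support_iff.mp hj, zero_smul]
  rw [hdec]
  apply Finset.dvd_sum
  intro j _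
  apply Dvd.dvd.mul_left
  exact bezq h K z P _ ω g htop hP hPz (key (b.coord j)) hPd
    (fun i => degreeOf_coef _ (map_zero _) H i g (hHd i)) hlt

end Pool.Agent.NH69.MI
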