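import Pool.Agent.NH69.MI.Stm

/-!
# Project MI, job MI-D3: the Chinese remainder zero estimate
-/

set_option autoImplicit false

open NumberField Module

namespace Pool.Agent.NH69.MI.Crt

/-! ### spans of monomials in an algebra -/

section alg

variable {B : Type} [CommRing B] [Algebra ℚ B]

/-- the span of the monomials with exponents at most `M` -/
def V (M : ℕ) (x y : B) : Submodule ℚ B :=
  Submodule.span ℚ {z : B | ∃ i j : ℕ, i ≤ M ∧ j ≤ M ∧ z = x ^ i * y ^ j}

theorem V_mono {M M' : ℕ} (h : M ≤ M') (x y : B) : V M x y ≤ V M' x y := by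
  apply Submodule.span_mono
  rintro z ⟨i, j, hi, hj, hz⟩
  exact ⟨i, j, hi.trans h, hj.trans h, hz⟩

theorem V_mul {M M' : ℕ} {x y w w' : B} (h : w ∈ V M x y) (h' : w' ∈ V M' x y) :
    w * w' ∈ V (M + M') x y := by
  have h1 : w * w' ∈ V M x y * V M' x y := Submodule.mul_mem_mul h h'
  have h2 : V M x y * V M' x y ≤ V (M + M') x y := by
    unfold V
    rw [Submodule.span_mul_span]
    apply Submodule.span_mono
    rintro z ⟨a, ⟨i, j, hi, hj, rfl⟩, b, ⟨i', j', hi', hj', rfl⟩, rfl⟩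
    refine ⟨i + i', j + j', by omega, by omega, ?_⟩
    dsimp only
    ring
  exact h2 h1

theorem V_one (M : ℕ) (x y : B) : (1 : B) ∈ V M x y :=
  Submodule.subset_span ⟨0, 0, Nat.zero_le _, Nat.zero_le _, by simp⟩

theorem V_x {M : ℕ} (hM : 1 ≤ M) (x y : B) : x ∈ V M x y :=
  Submodule.subset_span ⟨1, 0, hM, Nat.zero_le _, by simp⟩

theorem V_prod {ι : Type} (s : Finset ι) (f : ι → B) (M : ℕ) (x y : B)
    (h : ∀ i ∈ s, f i ∈ V M x y) : ∏ i ∈ s, f i ∈ V (M * s.card) x y := by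
  classical
  induction s using Finset.induction_on with
  | empty =>
    rw [Finset.prod_empty]
    exact V_one _ _ _
  | insert a s ha ih =>
    rw [Finset.prod_insert ha, Finset.card_insert_of_notMem ha]
    have h1 := V_mul (h a (Finset.mem_insert_self _ _))
      (ih fun i hi => h i (Finset.mem_insert_of_mem hi))
    have h2 : M + M * s.card = M * (s.card + 1) := by ring
    rwa [h2] at h1

end alg

theorem V_eq_W {K : Type} [Field K] [NumberField K] (L : ℕ) (x y : K) : V L x y = W L x y := rfl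

/-! ### the points -/

section points

variable {K : Type} [Field K] [NumberField K] (α β : K) (A : Finset ℕ)

/-- the first coordinates of the points -/
def xx : A → K := fun p => α ^ (p : ℕ)

variable {α β A}

theorem proj_mem {M : ℕ} {w : A → K} (h : w ∈ V M (xx α A) (xx β A)) (p : A) :
    w p ∈ V M (α ^ (p : ℕ)) (β ^ (p : ℕ)) := by
  have h1 : V M (xx α A) (xx β A) ≤ (V M (α ^ (p : ℕ)) (β ^ (p : ℕ))).comap
      (LinearMap.proj (R := ℚ) (φ := fun _ : A => K) p) := by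
    apply Submodule.span_le.2
    rintro z ⟨i, j, hi, hj, rfl⟩
    exact Submodule.subset_span ⟨i, j, hi, hj, rfl⟩
  exact h1 h

theorem proj_surj {M : ℕ} (p : A) {u : K} (hu : u ∈ V M (α ^ (p : ℕ)) (β ^ (p : ℕ))) :
    ∃ w ∈ V M (xx α A) (xx β A), w p = u := by
  have h1 : V M (α ^ (p : ℕ)) (β ^ (p : ℕ)) ≤ (V M (xx α A) (xx β A)).map
      (LinearMap.proj (R := ℚ) (φ := fun _ : A => K) p) := by
    apply Submodule.span_le.2
    rintro z ⟨i, j, hi, hj, rfl⟩
    refine ⟨xx α A ^ i * xx β A ^ j, Submodule.subset_span ⟨i, j, hi, hj, rfl⟩, rfl⟩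
  obtain ⟨w, hw, hwu⟩ := h1 hu
  exact ⟨w, hw, hwu⟩

/-- the conjugates of powers -/
theorem no_conj (hα : α ≠ 0) (hρ : ∃ ρ : K →+* ℂ, ‖ρ α‖ ≠ 1) {p q : ℕ}
    (h : minpoly ℚ (α ^ q) = minpoly ℚ (α ^ p)) : q ≤ p := by
  obtain ⟨ρ0, hρ0⟩ := Finite.exists_max fun ρ : K →+* ℂ => |Real.log ‖ρ α‖|
  have hpos : 0 < |Real.log ‖ρ0 α‖| := by
    obtain ⟨ρ, hρ⟩ := hρ
    refine lt_of_lt_of_le ?_ (hρ0 ρ)
    rw [abs_pos]
    intro h0
    have h1 : 0 < ‖ρ α‖ := by
      rw [norm_pos_iff]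
      exact (map_ne_zero ρ).2 hα
    exact hρ (Real.eq_one_of_pos_of_log_eq_zero h1 h0)
  have h1 : ρ0 (α ^ q) ∈ (minpoly ℚ (α ^ q)).rootSet ℂ := by
    rw [← NumberField.Embeddings.range_eval_eq_rootSet_minpoly]
    exact ⟨ρ0, rfl⟩
  rw [h, ← NumberField.Embeddings.range_eval_eq_rootSet_minpoly] at h1
  obtain ⟨ρ1, h2'⟩ := h1
  have h2 : ρ1 (α ^ p) = ρ0 (α ^ q) := h2'
  rw [map_pow, map_pow] at h2
  have h3 : (p : ℝ) * |Real.log ‖ρ1 α‖| = q * |Real.log ‖ρ0 α‖| := by
    have h4 : |Real.log ‖ρ1 α ^ p‖| = |Real.log ‖ρ0 α ^ q‖| :=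
      congrArg (fun z : ℂ => |Real.log ‖z‖|) h2
    rw [norm_pow, norm_pow, Real.log_pow, Real.log_pow, abs_mul, abs_mul, Nat.abs_cast,
      Nat.abs_cast] at h4
    exact h4
  have h5 : (q : ℝ) * |Real.log ‖ρ0 α‖| ≤ p * |Real.log ‖ρ0 α‖| := by
    rw [← h3]
    exact mul_le_mul_of_nonneg_left (hρ0 ρ1) (Nat.cast_nonneg _)
  have h6 := le_of_mul_le_mul_right h5 hpos
  exact_mod_cast h6

theorem exists_sep (hα : α ≠ 0) (hρ : ∃ ρ : K →+* ℂ, ‖ρ α‖ ≠ 1) {L : ℕ} (hL : 1 ≤ L)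
    (hW : ∀ p ∈ A, W L (α ^ p) (β ^ p) =
      Subalgebra.toSubmodule (Algebra.adjoin ℚ {α ^ p, β ^ p})) {p q : A} (hpq : p ≠ q) :
    ∃ w ∈ V (2 * L) (xx α A) (xx β A), w q = 0 ∧ w p ≠ 0 := by
  by_contra hcon
  push Not at hcon
  have step : ∀ k : ℕ, ∃ g ∈ V L (xx α A) (xx β A), g q = (α ^ (q : ℕ)) ^ k ∧
      g p = (α ^ (p : ℕ)) ^ k := by
    intro k
    induction k with
    | zero => exact ⟨1, V_one _ _ _, by simp, by simp⟩
    | succ k ih =>
      obtain ⟨g, hg, g1, g2⟩ := ih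
      have h1 : (α ^ (q : ℕ)) ^ (k + 1) ∈ V L (α ^ (q : ℕ)) (β ^ (q : ℕ)) := by
        rw [V_eq_W, hW q q.2, Subalgebra.mem_toSubmodule]
        exact Subalgebra.pow_mem _ (Algebra.subset_adjoin (Set.mem_insert _ _)) _
      obtain ⟨g', hg', g1'⟩ := proj_surj q h1
      have h2 : xx α A * g - g' ∈ V (2 * L) (xx α A) (xx β A) := by
        apply Submodule.sub_mem
        · refine V_mono (by omega) _ _ (V_mul (V_x (le_refl 1) _ _) hg)
        · exact V_mono (by omega) _ _ hg'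
      have h3 : (xx α A * g - g') q = 0 := by
        rw [Pi.sub_apply, Pi.mul_apply, g1, g1']
        unfold xx
        ring
      have h4 := hcon _ h2 h3
      rw [Pi.sub_apply, Pi.mul_apply, g2, sub_eq_zero] at h4
      refine ⟨g', hg', g1', ?_⟩
      rw [← h4]
      unfold xx
      ring
  choose g hg g1 g2 using step
  have key : ∀ P : Polynomial ℚ, Polynomial.aeval (α ^ (q : ℕ)) P = 0 →
      Polynomial.aeval (α ^ (p : ℕ)) P = 0 := by
    intro P hP
    have h1 : ∑ k ∈ Finset.range (P.natDegree + 1), P.coeff k • g k ∈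
        V (2 * L) (xx α A) (xx β A) := by
      apply Submodule.sum_mem
      intro k _
      exact Submodule.smul_mem _ _ (V_mono (by omega) _ _ (hg k))
    have h2 : ∀ r : A, (∑ k ∈ Finset.range (P.natDegree + 1), P.coeff k • g k) r =
        ∑ k ∈ Finset.range (P.natDegree + 1), P.coeff k • g k r := by
      intro r
      rw [Finset.sum_apply]
      rfl
    have h3 := hcon _ h1 (by
      rw [h2, ← hP, Polynomial.aeval_eq_sum_range]
      exact Finset.sum_congr rfl fun k _ => by rw [g1])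
    rw [h2] at h3
    rw [← h3, Polynomial.aeval_eq_sum_range]
    exact Finset.sum_congr rfl fun k _ => by rw [g2]
  have hint : ∀ r : ℕ, IsIntegral ℚ (α ^ r) := fun r => Algebra.IsIntegral.isIntegral _
  have hmin : minpoly ℚ (α ^ (q : ℕ)) = minpoly ℚ (α ^ (p : ℕ)) :=
    minpoly.eq_of_irreducible_of_monic (minpoly.irreducible (hint _))
      (key _ (minpoly.aeval _ _)) (minpoly.monic (hint _))
  apply hpq
  apply Subtype.ext
  exact le_antisymm (no_conj hα hρ hmin.symm) (no_conj hα hρ hmin)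

theorem single_mem (hα : α ≠ 0) (hρ : ∃ ρ : K →+* ℂ, ‖ρ α‖ ≠ 1) {L : ℕ} (hL : 1 ≤ L)
    (hW : ∀ p ∈ A, W L (α ^ p) (β ^ p) =
      Subalgebra.toSubmodule (Algebra.adjoin ℚ {α ^ p, β ^ p})) [DecidableEq A] (p : A) {u : K}
    (hu : u ∈ Algebra.adjoin ℚ {α ^ (p : ℕ), β ^ (p : ℕ)}) :
    Pi.single p u ∈ V (2 * L * A.card) (xx α A) (xx β A) := by
  have hex : ∀ q : A, ∃ w ∈ V (2 * L) (xx α A) (xx β A), p ≠ q → w q = 0 ∧ w p ≠ 0 := by
    intro q
    by_cases h : p = q
    · exact ⟨0, Submodule.zero_mem _, fun h' => absurd h h'⟩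
    · obtain ⟨w, h1, h2⟩ := exists_sep hα hρ hL hW h
      exact ⟨w, h1, fun _ => h2⟩
  choose f hf hfs using hex
  obtain ⟨F, hF⟩ : ∃ F, F = ∏ q ∈ Finset.univ.erase p, f q := ⟨_, rfl⟩
  have hFV : F ∈ V (2 * L * (A.card - 1)) (xx α A) (xx β A) := by
    have h1 := V_prod (Finset.univ.erase p) f (2 * L) (xx α A) (xx β A) fun q _ => hf q
    rw [Finset.card_erase_of_mem (Finset.mem_univ _), Finset.card_univ, Fintype.card_coe] at h1
    rw [hF]
    exact h1
  have hF0 : ∀ q, q ≠ p → F q = 0 := by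
    intro q hq
    rw [hF, Finset.prod_apply]
    exact Finset.prod_eq_zero (Finset.mem_erase.2 ⟨hq, Finset.mem_univ _⟩) (hfs q hq.symm).1
  have hFp : F p ≠ 0 := by
    rw [hF, Finset.prod_apply, Finset.prod_ne_zero_iff]
    intro q hq
    exact (hfs q (Finset.ne_of_mem_erase hq).symm).2
  have hFm : F p ∈ Algebra.adjoin ℚ {α ^ (p : ℕ), β ^ (p : ℕ)} := by
    have h1 := proj_mem hFV p
    have h2 : V (2 * L * (A.card - 1)) (α ^ (p : ℕ)) (β ^ (p : ℕ)) ≤
        Subalgebra.toSubmodule (Algebra.adjoin ℚ {α ^ (p : ℕ), β ^ (p : ℕ)}) := by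
      apply Submodule.span_le.2
      rintro z ⟨i, j, hi, hj, rfl⟩
      exact Subalgebra.mul_mem _
        (Subalgebra.pow_mem _ (Algebra.subset_adjoin (Set.mem_insert _ _)) _)
        (Subalgebra.pow_mem _ (Algebra.subset_adjoin
          (Set.mem_insert_of_mem _ (Set.mem_singleton _))) _)
    exact h2 h1
  have hinv : (F p)⁻¹ ∈ Algebra.adjoin ℚ {α ^ (p : ℕ), β ^ (p : ℕ)} :=
    Subalgebra.inv_mem_of_algebraic _ (x := ⟨F p, hFm⟩) (Algebra.IsAlgebraic.isAlgebraic _)
  have h1 : u * (F p)⁻¹ ∈ V L (α ^ (p : ℕ)) (β ^ (p : ℕ)) := by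
    rw [V_eq_W, hW p p.2, Subalgebra.mem_toSubmodule]
    exact Subalgebra.mul_mem _ hu hinv
  obtain ⟨g, hg, hgp⟩ := proj_surj p h1
  have h2 : Pi.single p u = F * g := by
    funext q
    rw [Pi.mul_apply]
    by_cases hq : q = p
    · subst hq
      rw [Pi.single_eq_same, hgp, mul_comm, mul_assoc, inv_mul_cancel₀ hFp, mul_one]
    · rw [Pi.single_eq_of_ne hq, hF0 q hq, zero_mul]
  rw [h2]
  have hA : 1 ≤ A.card := Finset.card_pos.2 ⟨p, p.2⟩
  refine V_mono ?_ _ _ (V_mul hFV hg)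
  obtain ⟨c, hc⟩ : ∃ c, A.card = c + 1 := ⟨A.card - 1, by omega⟩
  rw [hc, Nat.add_sub_cancel]
  nlinarith

end points

end Pool.Agent.NH69.MI.Crt

namespace Pool.Agent.NH69.MI

open Crt

theorem t_crt : S_CRT := by
  classical
  intro K _ _ α β A L hL hα hρ hW
  obtain ⟨M, hM⟩ : ∃ M, M = 2 * L * A.card := ⟨_, rfl⟩
  let box : Finset (ℕ × ℕ) := Finset.range (M + 1) ×ˢ Finset.range (M + 1)
  let v : box → A → K := fun m p =>
    (α ^ (p : ℕ)) ^ (m : ℕ × ℕ).1 * (β ^ (p : ℕ)) ^ (m : ℕ × ℕ).2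
  have hspan : Submodule.span ℚ (Set.range v) = V M (xx α A) (xx β A) := by
    unfold V
    congr 1
    ext z
    constructor
    · rintro ⟨m, rfl⟩
      have h1 := m.2
      rw [Finset.mem_product, Finset.mem_range, Finset.mem_range] at h1
      exact ⟨m.1.1, m.1.2, by omega, by omega, rfl⟩
    · rintro ⟨i, j, hi, hj, rfl⟩
      refine ⟨⟨(i, j), ?_⟩, rfl⟩
      rw [Finset.mem_product, Finset.mem_range, Finset.mem_range]
      exact ⟨by dsimp only; omega, by dsimp only; omega⟩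
  obtain ⟨κ, a, ha, hsp, hli⟩ := exists_linearIndependent' ℚ v
  have hfin : Finite κ := Finite.of_injective a ha
  have hft : Fintype κ := Fintype.ofFinite κ
  let a' : κ → ℕ × ℕ := fun k => (a k : ℕ × ℕ)
  have ha' : Function.Injective a' := fun k l h => ha (Subtype.ext h)
  let J : Finset (ℕ × ℕ) := Finset.univ.image a'
  have hJc : J.card = Fintype.card κ := by
    rw [Finset.card_image_of_injective _ ha', Finset.card_univ]
  let e : κ ≃ J := Equiv.ofBijective
    (fun k => ⟨a' k, Finset.mem_image_of_mem _ (Finset.mem_univ _)⟩)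
    ⟨fun k l h => ha' (show a' k = a' l from congrArg (fun m : J => (m : ℕ × ℕ)) h), fun m => by
      obtain ⟨k, -, hk⟩ := Finset.mem_image.1 m.2
      exact ⟨k, Subtype.ext hk⟩⟩
  refine ⟨J, ?_, ?_, ?_⟩
  · intro m hm
    obtain ⟨k, -, rfl⟩ := Finset.mem_image.1 hm
    have h1 := (a k).2
    rw [Finset.mem_product, Finset.mem_range, Finset.mem_range] at h1
    rw [← hM]
    exact ⟨by change (a k : ℕ × ℕ).1 ≤ M; omega, by change (a k : ℕ × ℕ).2 ≤ M; omega⟩
  · rw [← linearIndependent_equiv e]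
    exact hli
  · rw [hJc, ← finrank_span_eq_card hli, hsp, hspan]
    let φ : (∀ p : A, (Algebra.adjoin ℚ {α ^ (p : ℕ), β ^ (p : ℕ)} : Subalgebra ℚ K)) →ₗ[ℚ]
        V M (xx α A) (xx β A) :=
      { toFun := fun u => ⟨fun p => (u p : K), by
          have h1 : (fun p => (u p : K)) = ∑ p : A, Pi.single p (u p : K) := by
            rw [Finset.univ_sum_single (fun p => (u p : K))]
          rw [h1]
          apply Submodule.sum_mem
          intro p _
          rw [hM]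
          exact single_mem hα hρ hL hW p (u p).2⟩
        map_add' := fun u w => rfl
        map_smul' := fun c u => rfl }
    have hφ : Function.Injective φ := by
      intro u w h
      funext p
      apply Subtype.ext
      exact congrFun (congrArg Subtype.val h) p
    have h2 := LinearMap.finrank_le_finrank_of_injective hφ
    rw [Module.finrank_pi_fintype] at h2
    refine le_trans (le_of_eq ?_) h2
    rw [Finset.sum_coe_sort A (fun p : ℕ =>
      finrank ℚ (Algebra.adjoin ℚ {α ^ p, β ^ p} : Subalgebra ℚ K))]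

end Pool.Agent.NH69.MI
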