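import Pool.Agent.NH69.MI.Stm
import Pool.Agent.H225R3.MargDefs
import Pool.Agent.R826.FrobO

/-!
# Two multiplicatively independent units of small height, sharp exponents: statements

Project MI, second part (problem MP_162bbe_gt). Two-variable version of Dobrowolski's inequality for
units `x`, `y` of a number field `K` of degree `D` with at most `D ^ (1 / 2 - ε)` conjugates off the
unit circle. The new point is that a relation `P(x, y) = 0` of small degree is treated on the curve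
`P = 0`.
-/

set_option autoImplicit false

open NumberField Module MvPolynomial Pool.Agent.H225R3.Marg

namespace Pool.Agent.NH69.MI

/-- the box of the exponents at most `L` -/
def box (L : ℕ) : Finset (ℕ × ℕ) := Finset.range (L + 1) ×ˢ Finset.range (L + 1)

/-- N1. Bezout's theorem at a point: if `P` is irreducible over `ℤ`, `P(z) = 0 = G(z)`, `K = ℚ(z)` and
`2 ω g < [K : ℚ]`, then `P` divides `G`.

Proof. Let `ω_i = degreeOf i P`, `g_i = degreeOf i G`, and suppose that `P ∤ G` (so `G ≠ 0`). For a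
large number `M` let `V(a, b)` be the `ℚ`-space of the polynomials with `degreeOf 0 < a`,
`degreeOf 1 < b`, of dimension `a b`. For `M` large the evaluation `V(M, M) → K` is onto (`K` is finite
dimensional and spanned by the monomials in `z`). Its kernel contains the image of the map
`V(M - ω_0, M - ω_1) × V(M - g_0, M - g_1) → V(M, M)`, `(A, B) ↦ P A + G B`. If `P A = - G B`, multiply by
a common denominator `N` of `A`, `B`: `P` divides `G (N B)` in `ℤ[X, Y]`, and is prime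
(`MvPolynomial (Fin 2) ℤ` is a UFD) and does not divide `G`, so `N B = P C`, `N A = - G C`, where
`C ∈ V(M - ω_0 - g_0, M - ω_1 - g_1)` (`degreeOf_mul_eq`). So the kernel of this map has dimension at
most `(M - ω_0 - g_0) (M - ω_1 - g_1)`, its image has dimension at least
`(M - ω_0) (M - ω_1) + (M - g_0) (M - g_1) - (M - ω_0 - g_0) (M - ω_1 - g_1) = M ^ 2 - (ω_0 g_1 + ω_1 g_0)`,
and `[K : ℚ] ≤ ω_0 g_1 + ω_1 g_0 ≤ 2 ω g`. -/
def S_BEZ : Prop := ∀ (K : Type) [Field K] [NumberField K] (z : Fin 2 → K)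
  (P G : MvPolynomial (Fin 2) ℤ) (ω g : ℕ), Algebra.adjoin ℚ (Set.range z) = ⊤ →
  Irreducible P → aeval z P = 0 → aeval z G = 0 → (∀ i, P.degreeOf i ≤ ω) →
  (∀ i, G.degreeOf i ≤ g) → 2 * ω * g < finrank ℚ K → P ∣ G

/-- N2. The rank of the monomials in a box, if there is a relation.

Proof. As in N1: the kernel of `V(L + 1, L + 1) → K`, whose image is `W L (z 0) (z 1)`, contains
`P V(L + 1 - ω_0, L + 1 - ω_1)`. If `L + 1 < ω_i` for some `i` the dimension is at most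
`(L + 1) ^ 2 ≤ 2 ω (L + 1)`, otherwise it is at most
`(L + 1) ^ 2 - (L + 1 - ω_0) (L + 1 - ω_1) ≤ 2 ω (L + 1)`. -/
def S_RK : Prop := ∀ (K : Type) [Field K] [NumberField K] (z : Fin 2 → K)
  (P : MvPolynomial (Fin 2) ℤ) (ω L : ℕ), P ≠ 0 → aeval z P = 0 → (∀ i, P.degreeOf i ≤ ω) →
  finrank ℚ (W L (z 0) (z 1)) ≤ 2 * ω * (L + 1)

/-- N3. The same as N1 for polynomials with complex coefficients vanishing at all conjugates.

Proof from N1. Choose `c_1, …, c_r ∈ ℂ` linearly independent over `ℚ` which span (over `ℚ`) a space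
containing all coefficients of `H`; so `H = ∑ c_j H_j` with `H_j ∈ ℚ[X, Y]`, of degrees at most `g`
(the support of `H_j` is contained in the support of `H`). Let `w_j = H_j(z) ∈ K`. For every `ρ`,
`0 = H(ρ z) = ∑ c_j ρ(w_j)`. Let `t ∈ K`; multiply by `ρ(t)` and sum over `ρ`:
`∑ c_j Tr(t w_j) = 0`, so `Tr(t w_j) = 0` for all `j` and `t`, so `w_j = 0` (the trace form of `K / ℚ` is
nondegenerate; `∑ ρ, ρ a = Tr a`: `trace_eq_sum_embeddings`). A nonzero integer multiple of `H_j` has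
integral coefficients; by N1 it is divisible by `P`, so `P` divides `H_j` and `H` in `ℂ[X, Y]`. -/
def S_BEZC : Prop := ∀ (K : Type) [Field K] [NumberField K] (z : Fin 2 → K)
  (P : MvPolynomial (Fin 2) ℤ) (H : MvPolynomial (Fin 2) ℂ) (ω g : ℕ),
  Algebra.adjoin ℚ (Set.range z) = ⊤ → Irreducible P → aeval z P = 0 →
  (∀ ρ : K →+* ℂ, eval (fun i => ρ (z i)) H = 0) → (∀ i, P.degreeOf i ≤ ω) →
  (∀ i, H.degreeOf i ≤ g) → 2 * ω * g < finrank ℚ K → map (Int.castRingHom ℂ) P ∣ H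

/-- N4. Let `F` be a nonzero polynomial with `F(z ^ q) = 0`, of degree less than `q` times the degree
of `P` (in one of the variables). Then every zero `z'` of `P` has a translate `ξ z'` by a `q`-torsion
point `ξ ≠ 1` which is again a zero of `P`.

Proof from N3. For `ξ ∈ (ℂˣ)²` let `P^ξ(X) = P(ξ X) ∈ ℂ[X_0, X_1]` (`aeval (fun i => C (ξ i) * X i)`), it
has the same degrees as `P`. Let `μ` be the group of the `ξ` with `ξ ^ q = 1`, it has `q ^ 2` elements.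
Suppose that `z'` is a zero of `P` such that `P(ξ z') ≠ 0` for all `ξ ≠ 1` in `μ`. Let `N` be the product
of the `P^ξ`, `ξ ≠ 1` in `μ`. As `N(z') ≠ 0 = P(z')`, `P ∤ N`. By N3 (`g = q ^ 2 ω`) there is an embedding
`ρ` with `N(ρ z) ≠ 0`.
(a) `P(ξ ρ'(z)) ≠ 0` for all embeddings `ρ'` and all `ξ ≠ 1` in `μ`: otherwise let `σ` be a
homomorphism from the field generated by `ρ'(K)` and the `ξ_i` to `ℂ` which extends `ρ ∘ ρ'⁻¹`
(`IsAlgClosed.lift`, with `ℂ` considered as a `K`-algebra by `ρ'` and by `ρ`); then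
`P(σ(ξ) ρ(z)) = 0`, `σ(ξ) ≠ 1` in `μ`, contradiction.
(b) Let `G = F(X_0 ^ q, X_1 ^ q) ∈ ℂ[X_0, X_1]`, nonzero, of degrees at most `q L`. For every subset `A`
of `μ` the product of the `P^ξ`, `ξ ∈ A`, divides `G`: suppose `G = (∏ ξ ∈ A, P^ξ) G'` and
`ξ' ∈ μ \ A`. For all `ρ'` let `w = ξ'⁻¹ ρ'(z)`. Then `G(w) = F(ρ'(z) ^ q) = 0` and
`P^ξ(w) = P(ξ ξ'⁻¹ ρ'(z)) ≠ 0` for `ξ ∈ A` by (a), so `G'(w) = 0`, i.e. the polynomial
`G'(ξ'⁻¹ X)` vanishes at all `ρ'(z)`; its degrees are at most `q L`. By N3 it is divisible by `P`, so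
`P^ξ'` divides `G'`.
(c) With `A = μ`: `q ^ 2 * degreeOf i P ≤ degreeOf i G ≤ q L` for both `i`, contradiction. -/
def S_FIB : Prop := ∀ (K : Type) [Field K] [NumberField K] (z : Fin 2 → K)
  (P F : MvPolynomial (Fin 2) ℤ) (ω L q : ℕ), Algebra.adjoin ℚ (Set.range z) = ⊤ →
  Irreducible P → aeval z P = 0 → (∀ i, P.degreeOf i ≤ ω) → F ≠ 0 →
  aeval (fun i => z i ^ q) F = 0 → (∀ i, F.degreeOf i ≤ L) → (∃ i, L < q * P.degreeOf i) →
  0 < q → 2 * ω * (q ^ 2 * ω) < finrank ℚ K → 2 * ω * (q * L) < finrank ℚ K →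
  ∀ z' : Fin 2 → ℂ, aeval z' P = 0 →
    ∃ ξ : Fin 2 → ℂ, (∀ i, ξ i ^ q = 1) ∧ ξ ≠ 1 ∧ aeval (fun i => ξ i * z' i) P = 0

/-- N5. If a translate of (a conjugate of) `z` by a torsion point of large order `M` is a zero of `P`,
then a power of a monomial in `z` has degree at most `ω`.

Proof. Let `ζ = exp (2 π i / M)`, `ξ = (ζ ^ a, ζ ^ b)` with natural numbers `a`, `b`; then
`gcd (a, b, M) = 1`. The polynomial `P(z_0 T ^ a, z_1 T ^ b) ∈ K[T]` has (via `ρ`) the zero `ζ`. Let `Z` be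
the set of the roots in `ℂ` of `ρ` of the minimal polynomial of `ζ` over `K` (`ℂ` is a `K`-algebra by
`ρ`): it has `[K(ζ) : K]` elements, so `|Z| * [K : ℚ] = [K(ζ) : ℚ] ≥ φ(M)`; its elements are `M`-th roots
of unity, and for all `ζ' ∈ Z`, `P(ρ(z_0) ζ' ^ a, ρ(z_1) ζ' ^ b) = 0`.
By the pigeonhole principle there are integers `(c, e) ≠ 0` with `|c|, |e| ≤ √M` and `M ∣ c a + e b`. Let
`d = gcd (c, e)`, `c = d c'`, `e = d e'`. For `ζ' ∈ Z`, `ζ' ^ (c' a + e' b)` is a `d`-th root of unity. So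
there is a subset `Z'` of `Z` with at least `|Z| / d` elements for which it has the same value. Fix
`ζ_1 ∈ Z'` and let `x_1 = ρ(z_0) ζ_1 ^ a`, `y_1 = ρ(z_1) ζ_1 ^ b`. Let `u c' + v e' = 1`. For `ζ' ∈ Z'` let
`X = (ζ' / ζ_1) ^ a`, `Y = (ζ' / ζ_1) ^ b`, `T = X ^ v Y ^ (-u)`. As `X ^ c' Y ^ e' = 1`, `X = T ^ e'` and
`Y = T ^ (-c')`. Different `ζ'` give different `(X, Y)` (as `gcd (a, b, M) = 1`) and different `T`. So
the Laurent polynomial `∑ P_ij x_1 ^ i y_1 ^ j T ^ (e' i - c' j)` has at least `|Z| / d` nonzero zeros;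
its exponents are in an interval of length `(|c'| + |e'|) ω ≤ 2 ω √M / d < |Z| / d` (the hypothesis
says `2 ω √M < φ(M) / [K : ℚ] ≤ |Z|`). So it is zero: for all `k`,
`∑_{e' i - c' j = k} P_ij x_1 ^ i y_1 ^ j = 0`. Choose `k` for which some `P_ij ≠ 0` occurs. The `(i, j)`
in this sum are `(i_0, j_0) + l (c', e')` with integers `l` in an interval of length at most `ω`, so
`θ = x_1 ^ c' y_1 ^ e'` is a zero of a nonzero polynomial of degree at most `ω` with rational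
coefficients, and `[ℚ(θ) : ℚ] ≤ ω`. As `θ ^ M = ρ((z_0 ^ c' z_1 ^ e') ^ M)`, the claim follows with
`N = M`. -/
def S_TA : Prop := ∀ (K : Type) [Field K] [NumberField K] (z : Fin 2 → K)
  (P : MvPolynomial (Fin 2) ℤ) (ω M : ℕ) (ρ : K →+* ℂ) (ξ : Fin 2 → ℂ), (∀ i, z i ≠ 0) → P ≠ 0 →
  (∀ i, P.degreeOf i ≤ ω) → 0 < M → ξ ^ M = 1 → (∀ k : ℕ, ξ ^ k = 1 → M ∣ k) →
  aeval (fun i => ξ i * ρ (z i)) P = 0 → (2 * ω * finrank ℚ K) ^ 2 * M < Nat.totient M ^ 2 →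
  ∃ (c : Fin 2 → ℤ) (N : ℕ), c ≠ 0 ∧ 0 < N ∧
    finrank ℚ (IntermediateField.adjoin ℚ {(z 0 ^ c 0 * z 1 ^ c 1) ^ N}) ≤ ω

/-- N6. The pigeonhole principle for a matrix of rank at most `R` (with any number of rows).

Proof. Let `M = U V`. Let `Φ ⊆ (J → ℂ)` be the set of the rows of `M`; it spans a space `E` of dimension
`R' ≤ R`. Among all families `I` of `R'` rows choose one for which the absolute value of the
determinant with respect to a fixed basis of `E` is maximal; it is a basis of `E`, and by Cramer's rule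
every row `v` is `∑ t_i v_i`, `i ∈ I`, with `|t_i| ≤ 1` (`t_i` is the quotient of the determinants of the
family with `v_i` replaced by `v`, and of the family). For `c : J → {0, 1}` the real and imaginary
parts of `∑ j, v_i(j) c_j`, `i ∈ I`, lie in intervals of length at most `B` (`∑ |Re v_i(j)| ≤ B`).
Divide them into `⌊B / ε⌋ + 1` intervals of length `ε`. As `(B / ε + 1) ^ (2 R) < 2 ^ |J|`, there are
two different `c` in the same cell; their difference `c` satisfies `|∑ v_i(j) c_j| ≤ 2 ε` for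
`i ∈ I`, and hence `≤ 2 R ε` for all rows. -/
def S_PA : Prop := ∀ (ι J : Type) [Fintype ι] [Fintype J] (R : ℕ) (U : ι → Fin R → ℂ)
  (V : Fin R → J → ℂ) (B ε : ℝ), 0 < ε → 1 ≤ B → (∀ i, ∑ j, ‖∑ r, U i r * V r j‖ ≤ B) →
  2 * R * Real.log (2 * B / ε + 2) < Fintype.card J * Real.log 2 →
  ∃ c : J → ℤ, (∀ j, |c j| ≤ 1) ∧ c ≠ 0 ∧
    ∀ i, ‖∑ j, (∑ r, U i r * V r j) * c j‖ ≤ 2 * R * ε

/-- N7. A polynomial with coefficients `0, 1, -1` and exponents in the box, vanishing to order `T` at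
`(x, y)` in the direction of the first variable, if the rank `r` of the monomials is small.

Proof from N6. Rows: pairs `(ρ, a)`, `a < T`; columns: `m` in the box; entries
`M = (m_1 choose a) ρ(x) ^ (m_1 - a) ρ(y) ^ m_2 / Q ρ` (for `m_1 < a` it is `0`). Let `w_1, …, w_r'`,
`r' ≤ r`, be a basis of `W L x y` over `ℚ`, `x ^ m_1 y ^ m_2 = ∑ q_mk w_k`. Then
`M = ∑_k (ρ(w_k) ρ(x) ^ (- a) / Q ρ) ((m_1 choose a) q_mk)`, so `M = U V` with `R = T r`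
(index `(k, a')`; `U_{(ρ, a), (k, a')} = 0` for `a ≠ a'`). Apply N6 with `ε = 1 / (6 (T r + 1))`:
there is `c` with `|∑ M c| ≤ 2 T r ε < 1 / e` for all rows. If `v = dv (box L) c a 0 x y ≠ 0`
for some `a < T`, then `1 ≤ ∏_ρ |ρ v| = ∏_ρ (Q ρ |(M c)_{ρ, a}|) < exp (∑ log (Q ρ)) e ^ (- [K : ℚ]) ≤ 1`,
a contradiction. -/
def S_PIGR : Prop := ∀ (K : Type) [Field K] [NumberField K] (x y : 𝓞 K) (L T r : ℕ) (B : ℝ)
  (Q : (K →+* ℂ) → ℝ), x ≠ 0 → y ≠ 0 → 1 ≤ B → (∀ ρ, 1 ≤ Q ρ) →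
  ∑ ρ, Real.log (Q ρ) ≤ finrank ℚ K →
  (∀ (ρ : K →+* ℂ) (a : ℕ), a < T → ∑ m ∈ box L, (m.1.choose a : ℝ) *
    ‖ρ (x : K)‖ ^ (m.1 - a) * ‖ρ (y : K)‖ ^ m.2 ≤ B * Q ρ) →
  finrank ℚ (W L (x : K) (y : K)) ≤ r →
  2 * (T * r) * Real.log (14 * B * (T * r + 1)) < ((L : ℝ) + 1) ^ 2 * Real.log 2 →
  ∃ c : ℕ × ℕ → ℤ, (∀ m, |c m| ≤ 1) ∧ (∃ m ∈ box L, c m ≠ 0) ∧
    ∀ a, a < T → dv (box L) c a 0 x y = 0

/-- N8. If a polynomial vanishes at `(x, y)` to order `T` in the direction of the first variable, and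
there is a relation `P` of small degree, its value at `(x ^ p, y ^ p)` is divisible by `p ^ T`.

Proof from N1. Let `F = ∑ c_m X_0 ^ m_1 X_1 ^ m_2 ∈ ℤ[X_0, X_1]` (`m ∈ box L`); if `F = 0` the claim is
trivial. Let `φ : ℤ[X_0, X_1] → K[X]`, `X_0 ↦ X`, `X_1 ↦ C y`. The hypothesis on `c` says that the Hasse
derivatives of `φ F` of order less than `T` vanish at `x`, so `(X - x) ^ T ∣ φ F`. The derivative
`∂P / ∂X_0` is not `0` (`degreeOf 0 P ≥ 1`), and `P` does not divide it (degree in `X_0`), so by N1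
(`g = ω`) it does not vanish at `(x, y)`; so `φ P = (X - x) h` with `h(x) ≠ 0`. Suppose that `P ^ j ∣ F`,
`j < T`, `F = P ^ j F_1`. Then `(X - x) ^ T ∣ (X - x) ^ j h ^ j φ F_1`, so `X - x` divides `φ F_1`,
`F_1(x, y) = 0` and `P ∣ F_1` by N1 (`g = L`). Hence `P ^ T ∣ F`. Finally
`P(X_0 ^ p, X_1 ^ p) ≡ P ^ p` modulo `p` (`MvPolynomial.expand_zmod`), so `P(x ^ p, y ^ p)` is divisible
by `p` in the ring of integers and `F(x ^ p, y ^ p)` by `p ^ T`. -/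
def S_VAN : Prop := ∀ (K : Type) [Field K] [NumberField K] (x y : 𝓞 K)
  (P : MvPolynomial (Fin 2) ℤ) (ω L T p : ℕ) (c : ℕ × ℕ → ℤ),
  Algebra.adjoin ℚ {(x : K), (y : K)} = ⊤ → Irreducible P → aeval ![(x : K), (y : K)] P = 0 →
  (∀ i, P.degreeOf i ≤ ω) → 1 ≤ P.degreeOf 0 → 2 * ω * ω < finrank ℚ K →
  2 * ω * L < finrank ℚ K → (∀ a, a < T → dv (box L) c a 0 x y = 0) → p.Prime →
  ∃ w : 𝓞 K, ev (box L) c (x ^ p) (y ^ p) = (p : 𝓞 K) ^ T * w

/-- N9. For almost all primes `p` the powers `x ^ p`, `y ^ p` generate `K` if `x`, `y` do.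

Proof. For a natural number `n` let `K_n = ℚ(x ^ n, y ^ n)`. Let `B = {p_1, …, p_b}`,
`n_j = p_1 ⋯ p_j`. Then `K = K_{n_0} ⊇ K_{n_1} ⊇ …`. If `K_{n_j} = K_{n_{j + 1}}` then
`x ^ n_j, y ^ n_j ∈ K_{p_{j + 1}}` (as `K_{n_{j + 1}} ⊆ K_{p_{j + 1}}`), and also
`x ^ p_{j + 1}, y ^ p_{j + 1}`; as `n_j` and `p_{j + 1}` are coprime, `x, y ∈ K_{p_{j + 1}}`,
contradiction. So each step has index at least `2` and `[K : K_{n_b}] ≥ 2 ^ b`. On the other hand let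
`‖ρ_1 x‖ ≠ 1` (or `‖ρ_1 y‖ ≠ 1`). All `[K : K_{n_b}]` embeddings `ρ` of `K` which agree with `ρ_1` on
`K_{n_b}` have `‖ρ x‖ = ‖ρ_1 x‖`, `‖ρ y‖ = ‖ρ_1 y‖`, and so are in `S`. -/
def S_DEGA : Prop := ∀ (K : Type) [Field K] [NumberField K] (S : Finset (K →+* ℂ)) (x y : K),
  x ≠ 0 → y ≠ 0 → (∀ ρ : K →+* ℂ, ρ ∉ S → ‖ρ x‖ = 1 ∧ ‖ρ y‖ = 1) →
  (∃ ρ : K →+* ℂ, ‖ρ x‖ ≠ 1 ∨ ‖ρ y‖ ≠ 1) → Algebra.adjoin ℚ {x, y} = ⊤ →
  ∀ B : Finset ℕ, (∀ p ∈ B, p.Prime ∧ Algebra.adjoin ℚ {x ^ p, y ^ p} ≠ ⊤) → 2 ^ B.card ≤ S.card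

/-- N10. `[K : ℚ] ≤ |S| [ℚ(γ) : ℚ]` if `γ` is on the unit circle outside `S` but not everywhere.
Proof: as at the end of N9. -/
def S_DEGG : Prop := ∀ (K : Type) [Field K] [NumberField K] (S : Finset (K →+* ℂ)) (γ : K),
  (∀ ρ : K →+* ℂ, ρ ∉ S → ‖ρ γ‖ = 1) → (∃ ρ : K →+* ℂ, ‖ρ γ‖ ≠ 1) →
  finrank ℚ K ≤ S.card * finrank ℚ (IntermediateField.adjoin ℚ {γ})

/-- The pair of units `x`, `y` of `K`, of absolute value `1` at all embeddings outside `S` and at most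
`exp η` at all embeddings, and such that at one embedding only `x` and at another only `y` is off the
unit circle. -/
structure Pair2 (K : Type) [Field K] [NumberField K] (S : Finset (K →+* ℂ)) (η : ℝ)
    (x y : (𝓞 K)ˣ) : Prop where
  circ1 : ∀ ρ, ρ ∉ S → ‖ρ ((x : 𝓞 K) : K)‖ = 1
  circ2 : ∀ ρ, ρ ∉ S → ‖ρ ((y : 𝓞 K) : K)‖ = 1
  bd1 : ∀ ρ : K →+* ℂ, Real.log ‖ρ ((x : 𝓞 K) : K)‖ ≤ η
  bd2 : ∀ ρ : K →+* ℂ, Real.log ‖ρ ((y : 𝓞 K) : K)‖ ≤ η
  ind1 : ∃ ρ : K →+* ℂ, ‖ρ ((x : 𝓞 K) : K)‖ ≠ 1 ∧ ‖ρ ((y : 𝓞 K) : K)‖ = 1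
  ind2 : ∃ ρ : K →+* ℂ, ‖ρ ((y : 𝓞 K) : K)‖ ≠ 1 ∧ ‖ρ ((x : 𝓞 K) : K)‖ = 1

/-- N11. The two-variable inequality: for `κ > 0` and `D = [K : ℚ]` large there is no such pair of
units generating `K`, with `η = D ^ κ`, if `|S| ^ 2 D ^ (100 κ) ≤ D`. -/
def S_CORE2 : Prop := ∀ κ : ℝ, 0 < κ → ∃ D₀ : ℕ, ∀ (K : Type) [Field K] [NumberField K]
  (S : Finset (K →+* ℂ)) (u : ℝ) (x y : (𝓞 K)ˣ), D₀ ≤ finrank ℚ K →
  u = (finrank ℚ K : ℝ) ^ κ → (S.card : ℝ) ^ 2 * u ^ 100 ≤ finrank ℚ K →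
  Algebra.adjoin ℚ {((x : 𝓞 K) : K), ((y : 𝓞 K) : K)} = ⊤ → ¬ Pair2 K S u x y

/-- N12. From matrices to pairs of units. Let `i`, `j` be embeddings of `k` in `K`, and `ρ` an embedding
of `K` such that `A` has an eigenvalue off the unit circle under `ρ ∘ i`, but not under `ρ ∘ j`. If
`|S| [K : k] ≤ [K : ℚ] ^ (1 / 2 - ε)`, `A` has an eigenvalue `l` (under an embedding in `S`) with
`log |l| > [K : ℚ] ^ κ`, if `[K : ℚ]` is large.

Proof from N11: as in `t_mat` (`Mat.lean`, `MatA.lean`), with the following changes. Let `SA` be the set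
of the embeddings of `k` with an eigenvalue off the circle, `SA ⊆ S`. The sets
`Σ_i = {ρ | ρ.comp i ∈ SA}` and `Σ_j` have the same number of elements (`ext_card_set`), and
`ρ ∈ Σ_i \ Σ_j`, so there is `ρ' ∈ Σ_j \ Σ_i`. The number of embeddings of `E` off the circle is at most
`X = 2 n ^ 2 |S| [K : ℚ] / [k : ℚ]`. Let `F = ℚ(α, β) ⊆ E` and `S'` the set of its embeddings off the
circle: now one needs `|S'| [E : F] ≤ X` (exact count, not only `|S'| ≤ X`), `[F : ℚ] [E : F] = [E : ℚ]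
≥ [K : ℚ]`, and `[E : F] ≤ X` (as `S'` is not empty). Take
`κ' = ε / 200` in N11 (so that `|S'| ^ 2 [F : ℚ] ^ (100 κ') ≤ [F : ℚ]`, i.e.
`|S'| ≤ [F : ℚ] ^ (1 / 2 - ε / 4)`, holds: with `g = [E : F]`, `|S'| ≤ X / g`,
`[F : ℚ] ≥ [K : ℚ] / g`, `X ≤ [K : ℚ] ^ (1 / 2 - ε / 4)` for `[K : ℚ]` large, and
`X / g ≤ [K : ℚ] ^ (1 / 2 - ε / 4) / g ≤ ([K : ℚ] / g) ^ (1 / 2 - ε / 4)`), and `κ = κ' / 2`: as
`g ≤ X ≤ [K : ℚ] ^ (1 / 2)`, `[F : ℚ] ≥ [K : ℚ] ^ (1 / 2)` and `[K : ℚ] ^ κ ≤ [F : ℚ] ^ κ'`. In `Pair2`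
only the upper bound `log ‖ρ x‖ ≤ η` is needed, which holds with `η = [K : ℚ] ^ κ` directly. -/
def S_MAT2 : Prop := ∀ ε : ℝ, 0 < ε → ε < 1 / 2 → ∃ κ : ℝ, 0 < κ ∧ ∀ n : ℕ, ∃ D₀ : ℕ,
  ∀ (k K : Type) [Field k] [NumberField k] [Field K] [NumberField K] (i j : k →+* K)
    (ρ : K →+* ℂ) (S : Finset (k →+* ℂ)) (A : Matrix (Fin n) (Fin n) (𝓞 k)),
  D₀ ≤ finrank ℚ K → IsUnit A →
  (∀ σ : k →+* ℂ, σ ∉ S → ∀ l : ℂ, ((emb σ).mapMatrix A).charpoly.IsRoot l → ‖l‖ = 1) →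
  (∃ l : ℂ, ((emb (ρ.comp i)).mapMatrix A).charpoly.IsRoot l ∧ ‖l‖ ≠ 1) →
  (∀ l : ℂ, ((emb (ρ.comp j)).mapMatrix A).charpoly.IsRoot l → ‖l‖ = 1) →
  (S.card * finrank ℚ K : ℝ) ≤ (finrank ℚ K : ℝ) ^ (1 / 2 - ε : ℝ) * finrank ℚ k →
  ∃ σ ∈ S, ∃ l : ℂ, ((emb σ).mapMatrix A).charpoly.IsRoot l ∧
    (finrank ℚ K : ℝ) ^ κ < Real.log ‖l‖

/-- N13. Subfields. If the set `T` of embeddings of `k` contains no full fibre of the restriction to the
subfield `F`, there are embeddings `σ ∈ T` and `σ' ∉ T` whose compositum has degree at most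
`[k : F] [k : ℚ]`.

Proof. Let `σ ∈ T`, and let `σ' ∉ T` agree with `σ` on `F`. Consider `ℂ` as a `k`-algebra by `σ`. Let `θ`
be a primitive element of `k / F`, with minimal polynomial `f` of degree `[k : F]`, and
`K = k(σ'(θ)) ⊆ ℂ` (`IntermediateField.adjoin k {σ' θ}`); `σ'(θ)` is a zero of the image of `f` in
`k[X]`, so `[K : k] ≤ [k : F]`. Take `i = algebraMap k K`, `ρ` the inclusion of `K` in `ℂ`, and
`j : k → K` the corestriction of `σ'` (`σ'(k) = σ(F)(σ' θ) ⊆ K`). -/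
def S_SUB : Prop := ∀ (F k : Type) [Field F] [NumberField F] [Field k] [NumberField k]
  [Algebra F k] (T : Finset (k →+* ℂ)), T.Nonempty →
  (∀ τ : F →+* ℂ, ∃ σ : k →+* ℂ, σ ∉ T ∧ σ.comp (algebraMap F k) = τ) →
  ∃ (K : Type) (_ : Field K) (_ : NumberField K) (i j : k →+* K) (ρ : K →+* ℂ),
    ρ.comp i ∈ T ∧ ρ.comp j ∉ T ∧ finrank ℚ K ≤ finrank F k * finrank ℚ k

end Pool.Agent.NH69.MI
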