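import Mathlib
import Pool.Agent.NH69.MI.Stm3

/-!
# Degrees of the fields generated by powers
-/

set_option autoImplicit false

open NumberField Module

namespace Pool.Agent.NH69.MI

/-- the degree over a subfield containing a power of an element which is on the unit circle
outside `S`, but not everywhere -/
lemma dega_fib {K : Type} [Field K] [NumberField K] (S : Finset (K →+* ℂ)) (γ : K)
    (h1 : ∀ ρ : K →+* ℂ, ρ ∉ S → ‖ρ γ‖ = 1) (ρ : K →+* ℂ) (hρ : ‖ρ γ‖ ≠ 1)
    (F : IntermediateField ℚ K) (n : ℕ) (hn : n ≠ 0) (hF : γ ^ n ∈ F) :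
    finrank F K ≤ S.card := by
  classical
  let _ : Algebra F ℂ := (ρ.comp (algebraMap F K)).toAlgebra
  have hcard : Fintype.card (K →ₐ[F] ℂ) = finrank F K := AlgHom.card F K ℂ
  rw [← hcard, ← Finset.card_univ]
  apply Finset.card_le_card_of_injOn (fun τ : K →ₐ[F] ℂ => (τ : K →+* ℂ))
  · intro τ _
    by_contra hτ
    have h4 : ‖τ γ‖ = 1 := h1 (τ : K →+* ℂ) hτ
    have h2 : τ (γ ^ n) = ρ (γ ^ n) := τ.commutes (⟨γ ^ n, hF⟩ : F)
    rw [map_pow, map_pow] at h2
    have h3 : ‖ρ γ‖ ^ n = 1 := by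
      rw [← norm_pow, ← h2, norm_pow, h4, one_pow]
    exact hρ ((pow_eq_one_iff_of_nonneg (norm_nonneg _) hn).1 h3)
  · intro τ _ τ' _ h
    exact AlgHom.coe_ringHom_injective h

theorem t_degg : S_DEGG := by
  intro K _ _ S γ h1 ⟨ρ, hρ⟩
  have hγ : γ ∈ IntermediateField.adjoin ℚ {γ} := IntermediateField.subset_adjoin ℚ _ (by simp)
  have h2 := dega_fib S γ h1 ρ hρ (IntermediateField.adjoin ℚ {γ}) 1 one_ne_zero (by simpa using hγ)
  have hmul := Module.finrank_mul_finrank ℚ (IntermediateField.adjoin ℚ {γ}) K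
  calc finrank ℚ K = finrank ℚ (IntermediateField.adjoin ℚ {γ}) *
        finrank (IntermediateField.adjoin ℚ {γ}) K := hmul.symm
    _ ≤ finrank ℚ (IntermediateField.adjoin ℚ {γ}) * S.card := Nat.mul_le_mul_left _ h2
    _ = S.card * finrank ℚ (IntermediateField.adjoin ℚ {γ}) := Nat.mul_comm _ _

/-- the field generated by the powers -/
noncomputable def dpw {K : Type} [Field K] [NumberField K] (x y : K) (n : ℕ) :
    IntermediateField ℚ K := IntermediateField.adjoin ℚ {x ^ n, y ^ n}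

lemma dpw_mem1 {K : Type} [Field K] [NumberField K] (x y : K) (n : ℕ) : x ^ n ∈ dpw x y n :=
  IntermediateField.subset_adjoin ℚ _ (by simp)

lemma dpw_mem2 {K : Type} [Field K] [NumberField K] (x y : K) (n : ℕ) : y ^ n ∈ dpw x y n :=
  IntermediateField.subset_adjoin ℚ _ (by simp)

lemma dpw_mul {K : Type} [Field K] [NumberField K] (x y : K) (n m : ℕ) :
    dpw x y (n * m) ≤ dpw x y n := by
  unfold dpw
  rw [IntermediateField.adjoin_le_iff]
  rintro _ (rfl | rfl)
  · rw [pow_mul]; exact pow_mem (dpw_mem1 x y n) m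
  · rw [pow_mul]; exact pow_mem (dpw_mem2 x y n) m

/-- coprime exponents -/
lemma mem_of_coprime {K : Type} [Field K] [NumberField K] (F : IntermediateField ℚ K) (x : K)
    (hx : x ≠ 0) (a b : ℕ) (hab : Nat.Coprime a b) (ha : x ^ a ∈ F) (hb : x ^ b ∈ F) : x ∈ F := by
  have h1 : (1 : ℤ) = a * Nat.gcdA a b + b * Nat.gcdB a b := by
    rw [← Nat.gcd_eq_gcd_ab, hab.gcd_eq_one]; norm_num
  have h2 : x = (x ^ a) ^ Nat.gcdA a b * (x ^ b) ^ Nat.gcdB a b := by
    rw [← zpow_natCast, ← zpow_natCast, ← zpow_mul, ← zpow_mul, ← zpow_add₀ hx, ← h1, zpow_one]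
  rw [h2]
  exact mul_mem (zpow_mem ha _) (zpow_mem hb _)

lemma dpw_top {K : Type} [Field K] [NumberField K] (x y : K) (n : ℕ)
    (h : dpw x y n = ⊤) : Algebra.adjoin ℚ {x ^ n, y ^ n} = ⊤ := by
  have h1 : (dpw x y n).toSubalgebra = Algebra.adjoin ℚ {x ^ n, y ^ n} := by
    apply IntermediateField.adjoin_toSubalgebra_of_isAlgebraic
    intro x _
    exact Algebra.IsAlgebraic.isAlgebraic x
  rw [← h1, h]
  rfl

lemma dpw_chain {K : Type} [Field K] [NumberField K] (x y : K) (hx : x ≠ 0) (hy : y ≠ 0)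
    (hxy : Algebra.adjoin ℚ {x, y} = ⊤) (B : Finset ℕ) :
    (∀ p ∈ B, p.Prime ∧ Algebra.adjoin ℚ {x ^ p, y ^ p} ≠ ⊤) →
    2 ^ B.card ≤ finrank (dpw x y (∏ p ∈ B, p)) K := by
  classical
  induction B using Finset.induction_on with
  | empty =>
    intro _
    have : 0 < finrank (dpw x y (∏ p ∈ (∅ : Finset ℕ), p)) K := Module.finrank_pos
    rw [Finset.card_empty, pow_zero]
    exact this
  | insert p B hp ih =>
    intro h
    have ih' := ih (fun q hq => h q (Finset.mem_insert_of_mem hq))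
    obtain ⟨hpp, hpt⟩ := h p (Finset.mem_insert_self p B)
    rw [Finset.card_insert_of_notMem hp, Finset.prod_insert hp, pow_succ]
    set m := ∏ p ∈ B, p with hm
    have hcop : Nat.Coprime p m := by
      rw [hm]
      apply Nat.Coprime.prod_right
      intro q hq
      rw [Nat.coprime_primes hpp (h q (Finset.mem_insert_of_mem hq)).1]
      rintro rfl
      exact hp hq
    have hle : dpw x y (p * m) ≤ dpw x y m := by
      rw [mul_comm]; exact dpw_mul x y m p
    have hle2 : dpw x y (p * m) ≤ dpw x y p := dpw_mul x y p m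
    have hne : ¬ dpw x y m ≤ dpw x y (p * m) := by
      intro hcon
      have h3 : dpw x y m ≤ dpw x y p := hcon.trans hle2
      have hx1 : x ∈ dpw x y p := mem_of_coprime _ x hx p m hcop (dpw_mem1 x y p)
        (h3 (dpw_mem1 x y m))
      have hy1 : y ∈ dpw x y p := mem_of_coprime _ y hy p m hcop (dpw_mem2 x y p)
        (h3 (dpw_mem2 x y m))
      apply hpt
      apply dpw_top
      rw [eq_top_iff]
      intro w _
      have hw : w ∈ Algebra.adjoin ℚ {x, y} := by rw [hxy]; trivial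
      have h4 : Algebra.adjoin ℚ {x, y} ≤ (dpw x y p).toSubalgebra := by
        apply Algebra.adjoin_le
        rintro _ (rfl | rfl)
        · exact hx1
        · exact hy1
      exact h4 hw
    have h5 := IntermediateField.relfinrank_mul_finrank_top hle
    have h6 : 0 < finrank (dpw x y (p * m)) K := Module.finrank_pos
    have h7 : IntermediateField.relfinrank (dpw x y (p * m)) (dpw x y m) ≠ 1 := by
      intro h8
      exact hne (IntermediateField.relfinrank_eq_one_iff.1 h8)
    have h8 : IntermediateField.relfinrank (dpw x y (p * m)) (dpw x y m) ≠ 0 := by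
      intro h9
      rw [h9, zero_mul] at h5
      omega
    have h9 : 2 ≤ IntermediateField.relfinrank (dpw x y (p * m)) (dpw x y m) := by omega
    calc 2 ^ B.card * 2 ≤ finrank (dpw x y m) K * 2 := Nat.mul_le_mul_right _ ih'
      _ = 2 * finrank (dpw x y m) K := Nat.mul_comm _ _
      _ ≤ IntermediateField.relfinrank (dpw x y (p * m)) (dpw x y m) *
          finrank (dpw x y m) K := Nat.mul_le_mul_right _ h9
      _ = _ := h5

theorem t_dega : S_DEGA := by
  intro K _ _ S x y hx hy h1 ⟨ρ, hρ⟩ hxy B hB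
  have h2 := dpw_chain x y hx hy hxy B hB
  refine h2.trans ?_
  have hn : ∏ p ∈ B, p ≠ 0 := Finset.prod_ne_zero_iff.2 (fun p hp => (hB p hp).1.ne_zero)
  rcases hρ with hρ | hρ
  · exact dega_fib S x (fun ρ hρ => (h1 ρ hρ).1) ρ hρ _ _ hn (dpw_mem1 x y _)
  · exact dega_fib S y (fun ρ hρ => (h1 ρ hρ).2) ρ hρ _ _ hn (dpw_mem2 x y _)

end Pool.Agent.NH69.MI
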