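import Mathlib

/-!
# Two multiplicatively independent units of small height: statements

Project MI (problem MP_162bbe_gt). A two-variable version of Dobrowolski's inequality for units of a
number field `K` with few conjugates off the unit circle.
-/

set_option autoImplicit false

open NumberField Module

namespace Pool.Agent.NH69.MI

/-- the value at `(x, y)` of the polynomial in two variables with exponents in `J` and coefficients
`c` -/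
def ev {R : Type} [CommRing R] (J : Finset (ℕ × ℕ)) (c : ℕ × ℕ → ℤ) (x y : R) : R :=
  ∑ m ∈ J, (c m : R) * x ^ m.1 * y ^ m.2

/-- the value at `(x, y)` of its divided derivative of order `(a, b)` -/
def dv {R : Type} [CommRing R] (J : Finset (ℕ × ℕ)) (c : ℕ × ℕ → ℤ) (a b : ℕ) (x y : R) : R :=
  ∑ m ∈ J, ((c m * (m.1.choose a : ℤ) * (m.2.choose b : ℤ) : ℤ) : R) * x ^ (m.1 - a) *
    y ^ (m.2 - b)

/-- A1: at an unramified prime `P` above `p`, a polynomial vanishing to order `T` at `(x, y)` takes at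
`(x ^ p, y ^ p)` a value divisible by `P ^ T`. -/
def S_PAD : Prop := ∀ (K : Type) [Field K] [NumberField K] (P : Ideal (𝓞 K)) [P.IsMaximal] (p : ℕ),
  p.Prime → (p : 𝓞 K) ∈ P → P.ramificationIdx ℤ = 1 →
  ∀ (T : ℕ) (J : Finset (ℕ × ℕ)) (c : ℕ × ℕ → ℤ) (x y : 𝓞 K),
    (∀ a b, a < T → b < T → dv J c a b x y = 0) → ev J c (x ^ p) (y ^ p) ∈ P ^ T

open Classical in
/-- the sum of the residue degrees of the unramified primes above `p` -/
noncomputable def unr (K : Type) [Field K] [NumberField K] (p : ℕ) : ℕ :=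
  ∑ P ∈ (IsDedekindDomain.primesOverFinset (Ideal.span {(p : ℤ)}) (𝓞 K)).filter
    (fun P => P.ramificationIdx ℤ = 1), P.inertiaDeg ℤ

/-- A2: the gain at `p` in the product formula. -/
def S_GAIN : Prop := ∀ (K : Type) [Field K] [NumberField K] (p : ℕ), p.Prime →
  ∀ (T : ℕ) (J : Finset (ℕ × ℕ)) (c : ℕ × ℕ → ℤ) (x y : 𝓞 K),
    (∀ a b, a < T → b < T → dv J c a b x y = 0) → ev J c (x ^ p) (y ^ p) ≠ 0 →
    (T : ℝ) * unr K p * Real.log p ≤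
      ∑ ρ : K →+* ℂ, Real.log ‖ρ ((ev J c (x ^ p) (y ^ p) : 𝓞 K) : K)‖

/-- B1: primes whose ramified part is large are few. -/
def S_RAM : Prop := ∀ (K : Type) [Field K] [NumberField K] (A : Finset ℕ),
  (∀ p ∈ A, p.Prime ∧ 2 * unr K p < finrank ℚ K) →
  (finrank ℚ K : ℝ) / 4 * ∑ p ∈ A, Real.log p ≤ Real.log |(discr K : ℝ)|

/-- B2: an upper bound for the discriminant from a basis of integral elements (Hadamard). -/
def S_DISC : Prop := ∀ (K : Type) [Field K] [NumberField K] (ι : Type) [Fintype ι] (b : ι → 𝓞 K)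
  (Q : (K →+* ℂ) → ℝ), Fintype.card ι = finrank ℚ K → LinearIndependent ℚ (fun i => (b i : K)) →
  (∀ ρ i, ‖ρ (b i : K)‖ ≤ Q ρ) →
  Real.log |(discr K : ℝ)| ≤ finrank ℚ K * Real.log (finrank ℚ K) + 2 * ∑ ρ, Real.log (Q ρ)

open Classical in
/-- C1: the sum of the conjugates of an integral `γ`, most of which are on the unit circle and not all
of which are, is small (discriminant and positivity of the logarithmic kernel). -/
def S_ENER : Prop := ∀ (K : Type) [Field K] [NumberField K] (γ : 𝓞 K) (S : Finset (K →+* ℂ)) (Y : ℝ),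
  (∀ ρ, ρ ∉ S → ‖ρ (γ : K)‖ = 1) → 1 ≤ Y → (∀ ρ : K →+* ℂ, ‖ρ (γ : K)‖ ≤ Y) →
  (∃ ρ : K →+* ℂ, ‖ρ (γ : K)‖ ≠ 1) →
  ‖∑ ρ : K →+* ℂ with ρ ∉ S, ρ (γ : K)‖ ^ 2 ≤
    2 * S.card * finrank ℚ K * (Real.log (finrank ℚ K + 1) + 2 + 2 * Real.log Y)

/-- The pair of units `α`, `β` of `K`, with absolute value `1` at all embeddings outside `S`, between
`exp (-η)` and `exp η` at all embeddings, and such that at one embedding only `α` and at another only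
`β` is off the unit circle. -/
structure Pair (K : Type) [Field K] [NumberField K] (S : Finset (K →+* ℂ)) (η : ℝ)
    (α β : (𝓞 K)ˣ) : Prop where
  circ1 : ∀ ρ, ρ ∉ S → ‖ρ ((α : 𝓞 K) : K)‖ = 1
  circ2 : ∀ ρ, ρ ∉ S → ‖ρ ((β : 𝓞 K) : K)‖ = 1
  bd1 : ∀ ρ : K →+* ℂ, |Real.log ‖ρ ((α : 𝓞 K) : K)‖| ≤ η
  bd2 : ∀ ρ : K →+* ℂ, |Real.log ‖ρ ((β : 𝓞 K) : K)‖| ≤ η
  ind1 : ∃ ρ : K →+* ℂ, ‖ρ ((α : 𝓞 K) : K)‖ ≠ 1 ∧ ‖ρ ((β : 𝓞 K) : K)‖ = 1
  ind2 : ∃ ρ : K →+* ℂ, ‖ρ ((β : 𝓞 K) : K)‖ ≠ 1 ∧ ‖ρ ((α : 𝓞 K) : K)‖ = 1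

/-- C2: no relation of small degree between `α ^ p` and `β ^ p`. -/
def S_NOREL : Prop := ∀ (K : Type) [Field K] [NumberField K] (S : Finset (K →+* ℂ)) (η : ℝ)
  (α β : (𝓞 K)ˣ), Pair K S η α β → ∀ p δ : ℕ, 1 ≤ p → 1 ≤ δ →
  (δ : ℝ) ^ 2 * √(2 * S.card * finrank ℚ K * (Real.log (finrank ℚ K + 1) + 2 + 4 * p * δ * η)) <
    finrank ℚ K - S.card →
  LinearIndependent ℚ (fun k : Fin δ × Fin δ =>
    (((α : 𝓞 K) : K) ^ p) ^ (k.1 : ℕ) * (((β : 𝓞 K) : K) ^ p) ^ (k.2 : ℕ))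

/-- the span over `ℚ` of the monomials in `x`, `y` with exponents at most `L` -/
noncomputable def W {K : Type} [Field K] [NumberField K] (L : ℕ) (x y : K) : Submodule ℚ K :=
  Submodule.span ℚ {z : K | ∃ i j : ℕ, i ≤ L ∧ j ≤ L ∧ z = x ^ i * y ^ j}

/-- D1: if the monomials of degree less than `δ` in each variable are linearly independent, the
monomials of degree at most `2 D / δ` generate the subfield `ℚ(x, y)`. -/
def S_SPAN : Prop := ∀ (K : Type) [Field K] [NumberField K] (x y : K) (δ L : ℕ), 1 ≤ δ →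
  LinearIndependent ℚ (fun k : Fin δ × Fin δ => x ^ (k.1 : ℕ) * y ^ (k.2 : ℕ)) →
  2 * finrank ℚ K ≤ L * δ →
  W L x y = Subalgebra.toSubmodule (Algebra.adjoin ℚ {x, y})

/-- D2: the degree of `ℚ(α ^ p, β ^ p)` is at least `D / |S|`. -/
def S_DEG : Prop := ∀ (K : Type) [Field K] [NumberField K] (S : Finset (K →+* ℂ)) (η : ℝ)
  (α β : (𝓞 K)ˣ), Pair K S η α β → ∀ p : ℕ, 1 ≤ p →
  finrank ℚ K ≤ S.card * finrank ℚ
    (Algebra.adjoin ℚ {((α : 𝓞 K) : K) ^ p, ((β : 𝓞 K) : K) ^ p} : Subalgebra ℚ K)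

/-- D3: the points `(α ^ p, β ^ p)`, `p ∈ A`, impose independent conditions on the polynomials of
degree at most `2 L |A|` in each variable, if the monomials of degree at most `L` generate the fields
`ℚ(α ^ p, β ^ p)` (Chinese remainder theorem). -/
def S_CRT : Prop := ∀ (K : Type) [Field K] [NumberField K] (α β : K) (A : Finset ℕ) (L : ℕ),
  1 ≤ L → α ≠ 0 → (∃ ρ : K →+* ℂ, ‖ρ α‖ ≠ 1) →
  (∀ p ∈ A, W L (α ^ p) (β ^ p) =
    Subalgebra.toSubmodule (Algebra.adjoin ℚ {α ^ p, β ^ p})) →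
  ∃ J : Finset (ℕ × ℕ), (∀ m ∈ J, m.1 ≤ 2 * L * A.card ∧ m.2 ≤ 2 * L * A.card) ∧
    LinearIndependent ℚ (fun m : J => fun p : A =>
      (α ^ (p : ℕ)) ^ (m : ℕ × ℕ).1 * (β ^ (p : ℕ)) ^ (m : ℕ × ℕ).2) ∧
    ∑ p ∈ A, finrank ℚ (Algebra.adjoin ℚ {α ^ p, β ^ p} : Subalgebra ℚ K) ≤ J.card

/-- E1: the pigeonhole principle: a nonzero polynomial with coefficients `0, 1, -1` and exponents in
`J` which vanishes to order `T` at `(x, y)`. -/
def S_PIG : Prop := ∀ (K : Type) [Field K] [NumberField K] (x y : 𝓞 K) (J : Finset (ℕ × ℕ)) (T : ℕ)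
  (Q : (K →+* ℂ) → ℝ), (∀ ρ, 1 ≤ Q ρ) →
  (∀ (ρ : K →+* ℂ) (a b : ℕ), a < T → b < T → ∑ m ∈ J, (m.1.choose a : ℝ) * (m.2.choose b : ℝ) *
    ‖ρ (x : K)‖ ^ (m.1 - a) * ‖ρ (y : K)‖ ^ (m.2 - b) ≤ Q ρ) →
  (T : ℝ) ^ 2 * (2 * ∑ ρ, Real.log (6 * Q ρ)) < J.card * Real.log 2 →
  ∃ c : ℕ × ℕ → ℤ, (∀ m, |c m| ≤ 1) ∧ (∃ m ∈ J, c m ≠ 0) ∧
    ∀ a b, a < T → b < T → dv J c a b x y = 0

/-- F1: many primes in dyadic intervals. -/
def S_PRM : Prop := ∃ X₀ : ℕ, ∀ X : ℕ, X₀ ≤ X →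
  X ≤ (((Finset.Ioc X (2 * X)).filter Nat.Prime).card) ^ 2

/-- G1: the two-variable inequality: if `D = [K : ℚ]` is large, `u = D ^ (1 / 100)`, there is no pair
of units generating `K` with at most `u` embeddings off the unit circle, and absolute values between
`exp (-u)` and `exp u`. -/
def S_CORE : Prop := ∃ D₀ : ℕ, ∀ (K : Type) [Field K] [NumberField K] (S : Finset (K →+* ℂ)) (u : ℝ)
  (α β : (𝓞 K)ˣ), D₀ ≤ finrank ℚ K → u = (finrank ℚ K : ℝ) ^ (1 / 100 : ℝ) → (S.card : ℝ) ≤ u →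
  Algebra.adjoin ℚ {((α : 𝓞 K) : K), ((β : 𝓞 K) : K)} = ⊤ → ¬ Pair K S u α β

end Pool.Agent.NH69.MI
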