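import Mathlib
import Pool.Agent.NH69.MI.Stm
import Pool.Agent.Y730.RD.Det
import Pool.Agent.Y657.ND.Rdet

/-!
# An upper bound for the discriminant from a basis of integral elements (Hadamard)
-/

set_option autoImplicit false

open NumberField Module

namespace Pool.Agent.NH69.MI

theorem t_disc : S_DISC := by
  intro K _ _ ι _ b Q hcard hli hb
  classical
  set D := finrank ℚ K with hD
  have hDpos : 0 < D := Module.finrank_pos
  have hcardE : Fintype.card (K →+* ℂ) = D := Embeddings.card K ℂ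
  let e1 : ι ≃ Fin D := Fintype.equivFinOfCardEq hcard
  let e2 : (K →+* ℂ) ≃ Fin D := Fintype.equivFinOfCardEq hcardE
  have hliZ : LinearIndependent ℤ b := by
    have h1 : LinearIndependent ℤ (fun i => ((b i : 𝓞 K) : K)) :=
      (LinearIndependent.iff_fractionRing ℤ ℚ).2 hli
    exact LinearIndependent.of_comp
      ((algebraMap (𝓞 K) K).toIntAlgHom.toLinearMap) h1
  have hliF : LinearIndependent ℤ (fun k : Fin D => b (e1.symm k)) :=
    hliZ.comp _ e1.symm.injective
  have h1 := Pool.Agent.Y730.RD.det_lower e2.symm ⊤ (fun k : Fin D => b (e1.symm k))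
    (fun _ => Submodule.mem_top) hliF
  rw [Ideal.absNorm_top, Nat.cast_one, one_pow, one_mul] at h1
  have hQ : ∀ ρ, 0 ≤ Q ρ := by
    intro ρ
    have : Nonempty ι := by
      rw [← Fintype.card_pos_iff, hcard]; exact hDpos
    exact (norm_nonneg _).trans (hb ρ this.some)
  have h2 := Pool.Agent.Y657.ND.term_bound D
    (Pool.Agent.Y730.RD.conjMat e2.symm (fun k : Fin D => b (e1.symm k)))
    (fun i => Q (e2.symm i)) (fun i => hQ _) (fun i k => hb _ _)
  have h3 : ∏ i : Fin D, Q (e2.symm i) = ∏ ρ, Q ρ := e2.symm.prod_comp Q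
  rw [h3] at h2
  have h4 : |(discr K : ℝ)| ≤ (D : ℝ) ^ D * (∏ ρ, Q ρ) ^ 2 := by
    refine h1.trans ?_
    have h5 := pow_le_pow_left₀ (norm_nonneg _) h2 2
    rw [mul_pow, Real.sq_sqrt (by positivity)] at h5
    exact h5
  have hd : 0 < |(discr K : ℝ)| := by
    rw [abs_pos]
    exact_mod_cast discr_ne_zero K
  have hprod : (∏ ρ, Q ρ) ≠ 0 := by
    intro h0
    rw [h0] at h4
    simp at h4
    exact absurd h4 (by exact_mod_cast discr_ne_zero K)
  have hQne : ∀ ρ ∈ (Finset.univ : Finset (K →+* ℂ)), Q ρ ≠ 0 := Finset.prod_ne_zero_iff.1 hprod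
  calc Real.log |(discr K : ℝ)| ≤ Real.log ((D : ℝ) ^ D * (∏ ρ, Q ρ) ^ 2) :=
        Real.log_le_log hd h4
    _ = D * Real.log D + 2 * ∑ ρ, Real.log (Q ρ) := by
        rw [Real.log_mul (by positivity) (pow_ne_zero _ hprod), Real.log_pow, Real.log_pow,
          Real.log_prod hQne]
        push_cast
        ring

end Pool.Agent.NH69.MI
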