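import Pool.Agent.NH69.MI.Stm3

/-!
# Torsion translates (N4)
-/

set_option autoImplicit false

open NumberField Module MvPolynomial

namespace Pool.Agent.NH69.MI.FB

/-- translation by `ξ` -/
noncomputable def tw (ξ : Fin 2 → ℂ) : MvPolynomial (Fin 2) ℂ →ₐ[ℂ] MvPolynomial (Fin 2) ℂ :=
  aeval (fun i => C (ξ i) * X i)

theorem eval_tw (ξ w : Fin 2 → ℂ) (H : MvPolynomial (Fin 2) ℂ) :
    eval w (tw ξ H) = eval (fun i => ξ i * w i) H := by
  induction H using MvPolynomial.induction_on with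
  | C a => simp [tw]
  | add p q hp hq => simp [map_add, hp, hq]
  | mul_X p i hp =>
    rw [map_mul, map_mul, hp, map_mul]
    simp [tw]

theorem tw_coeff (ξ : Fin 2 → ℂ) (H : MvPolynomial (Fin 2) ℂ) (m : Fin 2 →₀ ℕ) :
    coeff m (tw ξ H) = coeff m H * ∏ i, ξ i ^ m i := by
  induction H using MvPolynomial.induction_on' with
  | monomial u a =>
    have h1 : tw ξ (monomial u a) = monomial u (a * ∏ i, ξ i ^ u i) := by
      rw [tw, aeval_monomial, Finsupp.prod_fintype _ _ (by simp)]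
      simp only [mul_pow, Finset.prod_mul_distrib, algebraMap_eq, ← C_pow, ← map_prod]
      rw [← mul_assoc, ← C_mul]
      rw [monomial_eq, Finsupp.prod_fintype _ _ (by simp)]
    rw [h1, coeff_monomial, coeff_monomial]
    split_ifs with h
    · rw [h]
    · simp
  | add p q hp hq => rw [map_add, coeff_add, coeff_add, hp, hq, add_mul]

theorem tw_tw (ξ η : Fin 2 → ℂ) (H : MvPolynomial (Fin 2) ℂ) :
    tw ξ (tw η H) = tw (fun i => ξ i * η i) H := by
  ext m
  rw [tw_coeff, tw_coeff, tw_coeff]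
  simp only [mul_pow, Finset.prod_mul_distrib]
  ring

theorem tw_one (H : MvPolynomial (Fin 2) ℂ) : tw (fun _ => 1) H = H := by
  ext m
  rw [tw_coeff]
  simp

theorem degreeOf_tw_le (ξ : Fin 2 → ℂ) (H : MvPolynomial (Fin 2) ℂ) (i : Fin 2) :
    degreeOf i (tw ξ H) ≤ degreeOf i H := by
  rw [degreeOf_le_iff]
  intro m hm
  refine monomial_le_degreeOf i ?_
  rw [MvPolynomial.mem_support_iff] at hm ⊢
  intro h
  apply hm
  rw [tw_coeff, h, zero_mul]

theorem tw_inv (ξ : Fin 2 → ℂ) (hξ : ∀ i, ξ i ≠ 0) (H : MvPolynomial (Fin 2) ℂ) :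
    tw ξ (tw (fun i => (ξ i)⁻¹) H) = H := by
  rw [tw_tw]
  have : (fun i => ξ i * (ξ i)⁻¹) = fun _ => 1 := by
    ext i
    exact mul_inv_cancel₀ (hξ i)
  rw [this, tw_one]

theorem tw_inv' (ξ : Fin 2 → ℂ) (hξ : ∀ i, ξ i ≠ 0) (H : MvPolynomial (Fin 2) ℂ) :
    tw (fun i => (ξ i)⁻¹) (tw ξ H) = H := by
  rw [tw_tw]
  have : (fun i => (ξ i)⁻¹ * ξ i) = fun _ => 1 := by
    ext i
    exact inv_mul_cancel₀ (hξ i)
  rw [this, tw_one]

theorem degreeOf_tw (ξ : Fin 2 → ℂ) (hξ : ∀ i, ξ i ≠ 0) (H : MvPolynomial (Fin 2) ℂ) (i : Fin 2) :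
    degreeOf i (tw ξ H) = degreeOf i H := by
  refine le_antisymm (degreeOf_tw_le ξ H i) ?_
  conv_lhs => rw [← tw_inv' ξ hξ H]
  exact degreeOf_tw_le _ _ i

/-- `P` with complex coefficients -/
noncomputable def cx (P : MvPolynomial (Fin 2) ℤ) : MvPolynomial (Fin 2) ℂ :=
  map (Int.castRingHom ℂ) P

theorem eval_cx (P : MvPolynomial (Fin 2) ℤ) (w : Fin 2 → ℂ) : eval w (cx P) = aeval w P := by
  rw [cx, eval_map, aeval_def]
  congr 1

theorem cx_injective : Function.Injective cx :=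
  map_injective _ (by
    intro a b h
    simpa using h)

theorem degreeOf_cx (P : MvPolynomial (Fin 2) ℤ) (i : Fin 2) :
    degreeOf i (cx P) = degreeOf i P := by
  rw [degreeOf_eq_sup, degreeOf_eq_sup, cx, support_map_of_injective]
  intro a b h
  simpa using h

/-- the torsion points of order dividing `q` -/
noncomputable def mu (q : ℕ) : Finset (Fin 2 → ℂ) :=
  Fintype.piFinset (fun _ => Polynomial.nthRootsFinset q (1 : ℂ))

theorem mem_mu {q : ℕ} (hq : 0 < q) {ξ : Fin 2 → ℂ} : ξ ∈ mu q ↔ ∀ i, ξ i ^ q = 1 := by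
  simp only [mu, Fintype.mem_piFinset]
  refine forall_congr' fun i => ?_
  rw [Polynomial.mem_nthRootsFinset hq]

theorem card_mu {q : ℕ} (hq : 0 < q) : (mu q).card = q ^ 2 := by
  simp only [mu, Fintype.card_piFinset, Finset.prod_const, Finset.card_univ, Fintype.card_fin]
  rw [(Complex.isPrimitiveRoot_exp q hq.ne').card_nthRootsFinset]

theorem mu_ne_zero {q : ℕ} (hq : 0 < q) {ξ : Fin 2 → ℂ} (h : ∀ i, ξ i ^ q = 1) (i : Fin 2) :
    ξ i ≠ 0 := by
  intro h0
  have := h i
  rw [h0, zero_pow hq.ne'] at this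
  exact zero_ne_one this

/-- the existence of a torsion translate does not depend on the embedding -/
theorem translate_iff (K : Type) [Field K] [NumberField K] (q : ℕ) (hq : 0 < q) (z : Fin 2 → K)
    (P : MvPolynomial (Fin 2) ℤ) (ρ : K →+* ℂ) :
    (∃ ξ : Fin 2 → ℂ, (∀ i, ξ i ^ q = 1) ∧ ξ ≠ 1 ∧ aeval (fun i => ξ i * ρ (z i)) P = 0) ↔
    (∃ ξ : Fin 2 → CyclotomicField q K, (∀ i, ξ i ^ q = 1) ∧ ξ ≠ 1 ∧
      aeval (fun i => ξ i * algebraMap K (CyclotomicField q K) (z i)) P = 0) := by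
  have : NeZero q := ⟨hq.ne'⟩
  let _ : Algebra K ℂ := ρ.toAlgebra
  have : NeZero ((q : ℕ) : K) := ⟨Nat.cast_ne_zero.2 hq.ne'⟩
  let σ : CyclotomicField q K →ₐ[K] ℂ := IsAlgClosed.lift
  have hσ : ∀ a : K, σ (algebraMap K _ a) = ρ a := fun a => σ.commutes a
  have hinj : Function.Injective σ := σ.toRingHom.injective
  have hmap : ∀ w : Fin 2 → CyclotomicField q K,
      aeval (fun i => σ (w i)) P = σ (aeval w P) := by
    intro w
    have := MvPolynomial.map_aeval w σ.toRingHom P
    simp only [AlgHom.toRingHom_eq_coe, RingHom.coe_coe] at this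
    rw [this, coe_eval₂Hom, aeval_def]
    congr 1
    ext
    simp
  constructor
  · rintro ⟨ξ, h1, h2, h3⟩
    have hζ := IsCyclotomicExtension.zeta_spec q K (CyclotomicField q K)
    have hζ' : IsPrimitiveRoot (σ (IsCyclotomicExtension.zeta q K (CyclotomicField q K))) q :=
      hζ.map_of_injective hinj
    have h4 : ∀ i, ∃ a : ℕ, σ (IsCyclotomicExtension.zeta q K (CyclotomicField q K)) ^ a = ξ i :=
      fun i => (hζ'.eq_pow_of_pow_eq_one (h1 i)).imp fun a ha => ha.2
    choose a ha using h4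
    refine ⟨fun i => IsCyclotomicExtension.zeta q K (CyclotomicField q K) ^ a i, ?_, ?_, ?_⟩
    · intro i
      rw [← pow_mul, mul_comm, pow_mul, hζ.pow_eq_one, one_pow]
    · intro h5
      apply h2
      ext i
      rw [← ha i, ← map_pow]
      have h6 : IsCyclotomicExtension.zeta q K (CyclotomicField q K) ^ a i = 1 := congrFun h5 i
      rw [h6]
      simp
    · apply hinj
      rw [← hmap, map_zero, ← h3]
      congr 2
      ext i
      rw [map_mul, map_pow, ha i, hσ]
  · rintro ⟨ξ, h1, h2, h3⟩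
    refine ⟨fun i => σ (ξ i), ?_, ?_, ?_⟩
    · intro i
      rw [← map_pow, h1 i, map_one]
    · intro h4
      apply h2
      ext i
      apply hinj
      rw [Pi.one_apply, map_one]
      exact congrFun h4 i
    · have h5 : (fun i => σ (ξ i) * ρ (z i)) = fun i => σ (ξ i * algebraMap K _ (z i)) := by
        ext i
        rw [map_mul, hσ]
      rw [h5, hmap, h3, map_zero]

theorem degreeOf_expand_le (q : ℕ) (F : MvPolynomial (Fin 2) ℂ) (i : Fin 2) :
    degreeOf i (expand q F) ≤ q * degreeOf i F := by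
  classical
  rw [degreeOf_le_iff]
  intro m hm
  have h1 := support_expand_subset F hm
  rw [Finset.mem_image] at h1
  obtain ⟨a, ha, rfl⟩ := h1
  simp only [Finsupp.smul_apply, smul_eq_mul]
  exact Nat.mul_le_mul_left q (monomial_le_degreeOf i ha)

end Pool.Agent.NH69.MI.FB

namespace Pool.Agent.NH69.MI

open FB

theorem t_fib (hbez : S_BEZC) : S_FIB := by
  intro K _ _ z P F ω L q hz hP hPz hPω hF hFz hFL hex hq hd1 hd2 z' hz'
  classical
  by_contra hno
  have hno' : ∀ ξ : Fin 2 → ℂ, (∀ i, ξ i ^ q = 1) → ξ ≠ 1 → eval z' (tw ξ (cx P)) ≠ 0 := by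
    intro ξ h1 h2 h3
    rw [eval_tw, eval_cx] at h3
    exact hno ⟨ξ, h1, h2, h3⟩
  have hP0 : cx P ≠ 0 := by
    intro h
    exact hP.ne_zero (cx_injective (by rw [h, cx, map_zero]))
  have hPC : ∀ i, degreeOf i (cx P) ≤ ω := fun i => by rw [degreeOf_cx]; exact hPω i
  -- an embedding without translates
  set N : MvPolynomial (Fin 2) ℂ := ∏ ξ ∈ (mu q).erase 1, tw ξ (cx P) with hN
  have hNz' : eval z' N ≠ 0 := by
    rw [hN, map_prod, Finset.prod_ne_zero_iff]
    intro ξ hξ
    rw [Finset.mem_erase, mem_mu hq] at hξ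
    exact hno' ξ hξ.2 hξ.1
  have hρ : ∃ ρ : K →+* ℂ, eval (fun i => ρ (z i)) N ≠ 0 := by
    by_contra hall
    push Not at hall
    have h1 : map (Int.castRingHom ℂ) P ∣ N := by
      refine hbez K z P N ω (q ^ 2 * ω) hz hP hPz hall hPω ?_ hd1
      intro i
      refine (degreeOf_prod_le i _ _).trans ?_
      refine (Finset.sum_le_card_nsmul _ _ ω (fun ξ _ => (degreeOf_tw_le ξ _ i).trans (hPC i))).trans ?_
      rw [smul_eq_mul]
      refine Nat.mul_le_mul_right ω ?_
      rw [← card_mu hq]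
      exact Finset.card_le_card (Finset.erase_subset _ _)
    obtain ⟨N', hN'⟩ := h1
    apply hNz'
    rw [hN', map_mul]
    have h2 : eval z' (map (Int.castRingHom ℂ) P) = 0 := by
      have := eval_cx P z'
      rw [cx] at this
      rw [this]
      exact hz'
    rw [h2, zero_mul]
  obtain ⟨ρ, hρ⟩ := hρ
  -- (a)
  have ha : ∀ (ρ' : K →+* ℂ) (ξ : Fin 2 → ℂ), (∀ i, ξ i ^ q = 1) → ξ ≠ 1 →
      eval (fun i => ξ i * ρ' (z i)) (cx P) ≠ 0 := by
    intro ρ' ξ h1 h2 h3
    rw [eval_cx] at h3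
    have h4 := (translate_iff K q hq z P ρ').1 ⟨ξ, h1, h2, h3⟩
    obtain ⟨ξ', h5, h6, h7⟩ := (translate_iff K q hq z P ρ).2 h4
    apply hρ
    rw [hN, map_prod]
    refine Finset.prod_eq_zero (i := ξ') (Finset.mem_erase.2 ⟨h6, (mem_mu hq).2 h5⟩) ?_
    rw [eval_tw, eval_cx]
    exact h7
  -- (b)
  set G : MvPolynomial (Fin 2) ℂ := expand q (cx F) with hG
  have hG0 : G ≠ 0 := by
    rw [hG, expand_ne_zero hq]
    intro h
    exact hF (cx_injective (by rw [h, cx, map_zero]))
  have hGdeg : ∀ i, degreeOf i G ≤ q * L := by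
    intro i
    refine (degreeOf_expand_le q (cx F) i).trans ?_
    rw [degreeOf_cx]
    exact Nat.mul_le_mul_left q (hFL i)
  have hGz : ∀ (ρ' : K →+* ℂ) (ξ : Fin 2 → ℂ), (∀ i, ξ i ^ q = 1) →
      eval (fun i => ξ i * ρ' (z i)) G = 0 := by
    intro ρ' ξ h1
    rw [hG, eval_expand]
    have h2 : (fun i => ξ i * ρ' (z i)) ^ q = fun i => ρ' (z i ^ q) := by
      ext i
      simp only [Pi.pow_apply, mul_pow, h1 i, one_mul, map_pow]
    rw [h2, eval_cx]
    have h3 := MvPolynomial.map_aeval (fun i => z i ^ q) ρ' F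
    rw [hFz, map_zero] at h3
    rw [aeval_def]
    have h4 : ((algebraMap ℤ ℂ) : ℤ →+* ℂ) = ρ'.comp (algebraMap ℤ K) := RingHom.ext_int _ _
    rw [h4]
    exact h3.symm
  have hb : ∀ A ⊆ mu q, (∏ ξ ∈ A, tw ξ (cx P)) ∣ G := by
    intro A
    induction A using Finset.induction_on with
    | empty =>
      intro _
      simp
    | insert ξ' A hξ' ih =>
      intro hA
      have hA' : A ⊆ mu q := (Finset.subset_insert _ _).trans hA
      have hξ'm : ∀ i, ξ' i ^ q = 1 := (mem_mu hq).1 (hA (Finset.mem_insert_self _ _))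
      have hξ'0 := mu_ne_zero hq hξ'm
      obtain ⟨G', hG'⟩ := ih hA'
      have hG'0 : G' ≠ 0 := by
        rintro rfl
        exact hG0 (by rw [hG', mul_zero])
      have hprod0 : (∏ ξ ∈ A, tw ξ (cx P)) ≠ 0 := by
        intro h
        exact hG0 (by rw [hG', h, zero_mul])
      have hinvm : ∀ i, ((ξ' i)⁻¹) ^ q = 1 := by
        intro i
        rw [inv_pow, hξ'm i, inv_one]
      have h1 : map (Int.castRingHom ℂ) P ∣ tw (fun i => (ξ' i)⁻¹) G' := by
        refine hbez K z P _ ω (q * L) hz hP hPz ?_ hPω ?_ hd2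
        · intro ρ'
          rw [eval_tw]
          have h2 := hGz ρ' (fun i => (ξ' i)⁻¹) hinvm
          rw [hG', map_mul, map_prod, mul_eq_zero] at h2
          rcases h2 with h2 | h2
          · exfalso
            rw [Finset.prod_eq_zero_iff] at h2
            obtain ⟨ξ, hξA, h3⟩ := h2
            rw [eval_tw] at h3
            have hξm := (mem_mu hq).1 (hA' hξA)
            refine ha ρ' (fun i => ξ i * (ξ' i)⁻¹) ?_ ?_ ?_
            · intro i
              simp only [mul_pow, hξm i, hinvm i, mul_one]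
            · intro h4
              apply hξ'
              have : ξ' = ξ := by
                ext i
                have h5 := congrFun h4 i
                simp only [Pi.one_apply] at h5
                rw [mul_inv_eq_one₀ (hξ'0 i)] at h5
                exact h5.symm
              rw [this]
              exact hξA
            · rw [← h3]
              congr 2
              ext i
              ring
          · exact h2
        · intro i
          refine (degreeOf_tw_le _ _ i).trans (le_trans ?_ (hGdeg i))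
          rw [hG', degreeOf_mul_eq hprod0 hG'0]
          exact Nat.le_add_left _ _
      have h2 : tw ξ' (cx P) ∣ G' := by
        have h3 := map_dvd (tw ξ') h1
        rw [tw_inv ξ' hξ'0] at h3
        exact h3
      rw [Finset.prod_insert hξ', mul_comm, hG']
      exact mul_dvd_mul_left _ h2
  -- (c)
  obtain ⟨i, hi⟩ := hex
  have hfin := hb (mu q) (Finset.Subset.refl _)
  obtain ⟨G', hG'⟩ := hfin
  have hG'0 : G' ≠ 0 := by
    rintro rfl
    exact hG0 (by rw [hG', mul_zero])
  have hprod0 : (∏ ξ ∈ mu q, tw ξ (cx P)) ≠ 0 := by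
    intro h
    exact hG0 (by rw [hG', h, zero_mul])
  have h1 : degreeOf i (∏ ξ ∈ mu q, tw ξ (cx P)) = q ^ 2 * degreeOf i P := by
    rw [degreeOf_prod_eq]
    · rw [Finset.sum_congr rfl (g := fun _ => degreeOf i P) (fun ξ hξ => by
        rw [degreeOf_tw ξ (mu_ne_zero hq ((mem_mu hq).1 hξ)), degreeOf_cx])]
      rw [Finset.sum_const, card_mu hq, smul_eq_mul]
    · intro ξ hξ h
      exact hprod0 (Finset.prod_eq_zero hξ h)
  have h2 := hGdeg i
  rw [hG', degreeOf_mul_eq hprod0 hG'0, h1] at h2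
  have h3 : q * (q * degreeOf i P) ≤ q * L := by
    calc q * (q * degreeOf i P) = q ^ 2 * degreeOf i P := by ring
      _ ≤ q * L := le_trans (Nat.le_add_right _ _) h2
  have h4 := Nat.le_of_mul_le_mul_left h3 hq
  omega

end Pool.Agent.NH69.MI
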