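import Pool.Agent.NH69.MI.Stm

/-!
# The gain at an unramified prime in the product formula
-/

set_option autoImplicit false

open NumberField Module

namespace Pool.Agent.NH69.MI

theorem Gain.span_ne_bot {p : ℕ} (hp : p.Prime) : Ideal.span {(p : ℤ)} ≠ ⊥ := by
  simpa [Ideal.span_singleton_eq_bot] using hp.ne_zero

theorem Gain.span_maximal {p : ℕ} (hp : p.Prime) : (Ideal.span {(p : ℤ)}).IsMaximal := by
  have h1 : (Ideal.span {(p : ℤ)}).IsPrime :=
    (Ideal.span_singleton_prime (by exact_mod_cast hp.ne_zero)).mpr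
      (Nat.prime_iff_prime_int.mp hp)
  exact h1.isMaximal (Gain.span_ne_bot hp)

/-- primes above `p` are maximal, contain `p`, and have norm `p ^ f` -/
theorem Gain.facts {K : Type} [Field K] [NumberField K] {p : ℕ} (hp : p.Prime) (P : Ideal (𝓞 K))
    (hP : P ∈ IsDedekindDomain.primesOverFinset (Ideal.span {(p : ℤ)}) (𝓞 K)) :
    P.IsMaximal ∧ (p : 𝓞 K) ∈ P ∧ Ideal.absNorm P = p ^ P.inertiaDeg ℤ := by
  have hmax : (Ideal.span {(p : ℤ)}).IsMaximal := Gain.span_maximal hp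
  obtain ⟨h2, h3⟩ :=
    (IsDedekindDomain.mem_primesOverFinset_iff (Gain.span_ne_bot hp) (𝓞 K)).mp hP
  refine ⟨?_, ?_, ?_⟩
  · have := h2
    have := h3
    exact Ideal.IsPrime.isMaximal h2 (Ideal.ne_bot_of_liesOver_of_ne_bot (Gain.span_ne_bot hp) P)
  · have h4 : (p : ℤ) ∈ Ideal.span {(p : ℤ)} := Ideal.mem_span_singleton_self _
    rw [h3.over, Ideal.mem_comap] at h4
    simpa using h4
  · have := h2
    have := h3
    have h4 := Ideal.absNorm_pow_inertiaDeg (Ideal.span {(p : ℤ)}) P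
    simpa using h4.symm

/-- the absolute value of the norm is the product of the absolute values of the conjugates -/
theorem Gain.norm_prod {K : Type} [Field K] [NumberField K] (w : 𝓞 K) :
    ∏ ρ : K →+* ℂ, ‖ρ (w : K)‖ = ((Algebra.norm ℤ w).natAbs : ℝ) := by
  have h1 := Algebra.norm_eq_prod_embeddings ℚ ℂ (w : K)
  have h2 : ∏ ρ : K →+* ℂ, ‖ρ (w : K)‖ = ∏ σ : K →ₐ[ℚ] ℂ, ‖σ (w : K)‖ := by
    refine Fintype.prod_equiv (RingHom.equivRatAlgHom K ℂ) _ _ ?_
    intro ρ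
    rfl
  rw [h2, ← _root_.norm_prod, ← h1, ← Algebra.coe_norm_int]
  simp [Nat.cast_natAbs]

theorem t_gain (h : S_PAD) : S_GAIN := by
  intro K _ _ p hp T J c x y hv hne
  classical
  set w : 𝓞 K := ev J c (x ^ p) (y ^ p) with hw
  set A := (IsDedekindDomain.primesOverFinset (Ideal.span {(p : ℤ)}) (𝓞 K)).filter
    (fun P => P.ramificationIdx ℤ = 1) with hA
  have hA' : ∀ P ∈ A, P ∈ IsDedekindDomain.primesOverFinset (Ideal.span {(p : ℤ)}) (𝓞 K) ∧
      P.ramificationIdx ℤ = 1 := fun P hP => Finset.mem_filter.mp hP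
  have hmem : ∀ P ∈ A, w ∈ P ^ T := by
    intro P hP
    obtain ⟨h1, h2⟩ := hA' P hP
    obtain ⟨h3, h4, -⟩ := Gain.facts hp P h1
    have := h3
    exact h K P p hp h4 h2 T J c x y hv
  have hdvd : ∏ P ∈ A, P ^ T ∣ Ideal.span {w} := by
    refine Finset.prod_dvd_of_coprime ?_ ?_
    · intro I hI J' hJ' hne'
      have h1 := (Gain.facts hp I (hA' I hI).1).1
      have h2 := (Gain.facts hp J' (hA' J' hJ').1).1
      exact (Ideal.isCoprime_iff_sup_eq.mpr (h1.coprime_of_ne h2 hne')).pow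
    · intro I hI
      rw [Ideal.dvd_iff_le, Ideal.span_singleton_le_iff_mem]
      exact hmem I hI
  have hnorm : Ideal.absNorm (∏ P ∈ A, P ^ T) = p ^ (T * unr K p) := by
    rw [map_prod]
    have h1 : ∀ P ∈ A, Ideal.absNorm (P ^ T) = p ^ (P.inertiaDeg ℤ * T) := by
      intro P hP
      rw [map_pow, (Gain.facts hp P (hA' P hP).1).2.2, ← pow_mul]
    rw [Finset.prod_congr rfl h1, Finset.prod_pow_eq_pow_sum, ← Finset.sum_mul, mul_comm]
    rfl
  have h1 : p ^ (T * unr K p) ∣ (Algebra.norm ℤ w).natAbs := by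
    rw [← hnorm, ← Ideal.absNorm_span_singleton]
    exact map_dvd _ hdvd
  have hN : Algebra.norm ℤ w ≠ 0 := Algebra.norm_ne_zero_iff.mpr hne
  have h2 : (p : ℝ) ^ (T * unr K p) ≤ ((Algebra.norm ℤ w).natAbs : ℝ) := by
    exact_mod_cast Nat.le_of_dvd (Int.natAbs_pos.mpr hN) h1
  have hρ : ∀ ρ : K →+* ℂ, ‖ρ (w : K)‖ ≠ 0 := by
    intro ρ
    rw [norm_ne_zero_iff]
    intro h0
    apply hne
    have := (map_eq_zero ρ).mp h0
    exact_mod_cast this
  rw [← Real.log_prod (fun ρ _ => hρ ρ), Gain.norm_prod]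
  have h3 := Real.log_le_log (by have := hp.pos; positivity) h2
  rw [Real.log_pow] at h3
  push_cast at h3
  exact h3

end Pool.Agent.NH69.MI
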