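import Pool.Agent.NH69.MI.Mat
import Pool.Agent.NH69.MI.Stm3

/-!
# Project MI, second part, job MI2-N12: from matrices to pairs of units, sharp exponents
-/

set_option autoImplicit false

open NumberField Module Pool.Agent.H225R3.Marg

namespace Pool.Agent.NH69.MI.Mat

theorem pair2_mono {K : Type} [Field K] [NumberField K] {S : Finset (K →+* ℂ)} {η η' : ℝ}
    {x y : (𝓞 K)ˣ} (h : Pair2 K S η x y) (hη : η ≤ η') : Pair2 K S η' x y :=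
  ⟨h.circ1, h.circ2, fun ρ => (h.bd1 ρ).trans hη, fun ρ => (h.bd2 ρ).trans hη, h.ind1, h.ind2⟩

/-- the field generated by the two units, with the exact count of the embeddings -/
theorem pair_field2 {E : Type} [Field E] [NumberField E] (α β : E) (hα : α ≠ 0) (hβ : β ≠ 0)
    (a1 : IsIntegral ℤ α) (a2 : IsIntegral ℤ α⁻¹) (b1 : IsIntegral ℤ β) (b2 : IsIntegral ℤ β⁻¹)
    (T : Finset (E →+* ℂ)) (hT : ∀ τ, τ ∉ T → ‖τ α‖ = 1 ∧ ‖τ β‖ = 1)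
    (η : ℝ) (c1 : ∃ τ : E →+* ℂ, ‖τ α‖ ≠ 1 ∧ ‖τ β‖ = 1)
    (c2 : ∃ τ : E →+* ℂ, ‖τ β‖ ≠ 1 ∧ ‖τ α‖ = 1)
    (d1 : ∀ τ : E →+* ℂ, Real.log ‖τ α‖ ≤ η) (d2 : ∀ τ : E →+* ℂ, Real.log ‖τ β‖ ≤ η) :
    ∃ (F : Type) (_ : Field F) (_ : NumberField F) (S' : Finset (F →+* ℂ)) (α' β' : (𝓞 F)ˣ),
      0 < S'.card ∧ finrank ℚ F ≤ finrank ℚ E ∧
      S'.card * finrank ℚ E ≤ T.card * finrank ℚ F ∧
      Algebra.adjoin ℚ {((α' : 𝓞 F) : F), ((β' : 𝓞 F) : F)} = ⊤ ∧ Pair2 F S' η α' β' := by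
  classical
  obtain ⟨F, hF⟩ : ∃ F : IntermediateField ℚ E, F = IntermediateField.adjoin ℚ {α, β} :=
    ⟨_, rfl⟩
  have hαF : α ∈ F := by
    rw [hF]
    exact IntermediateField.subset_adjoin _ _ (Set.mem_insert _ _)
  have hβF : β ∈ F := by
    rw [hF]
    exact IntermediateField.subset_adjoin _ _ (Set.mem_insert_of_mem _ (Set.mem_singleton _))
  have int : ∀ x : F, IsIntegral ℤ (x : E) → IsIntegral ℤ x := by
    intro x hx
    exact (isIntegral_algHom_iff (F.val.restrictScalars ℤ) (RingHom.injective _)).1 hx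
  obtain ⟨α', hα'⟩ := exists_unit (⟨α, hαF⟩ : F) (fun h => hα (congrArg Subtype.val h))
    (int _ a1) (int _ (by rw [IntermediateField.coe_inv]; exact a2))
  obtain ⟨β', hβ'⟩ := exists_unit (⟨β, hβF⟩ : F) (fun h => hβ (congrArg Subtype.val h))
    (int _ b1) (int _ (by rw [IntermediateField.coe_inv]; exact b2))
  let j : F →+* E := F.val.toRingHom
  have hjα : j ((α' : 𝓞 F) : F) = α := by rw [hα']; rfl
  have hjβ : j ((β' : 𝓞 F) : F) = β := by rw [hβ']; rfl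
  obtain ⟨S', hS'⟩ : ∃ S' : Finset (F →+* ℂ), ∀ σ, σ ∈ S' ↔
      (‖σ ((α' : 𝓞 F) : F)‖ ≠ 1 ∨ ‖σ ((β' : 𝓞 F) : F)‖ ≠ 1) :=
    ⟨Finset.univ.filter fun σ => ‖σ ((α' : 𝓞 F) : F)‖ ≠ 1 ∨ ‖σ ((β' : 𝓞 F) : F)‖ ≠ 1,
      fun σ => by rw [Finset.mem_filter]; exact ⟨fun h => h.2, fun h => ⟨Finset.mem_univ _, h⟩⟩⟩
  obtain ⟨T', hT'⟩ : ∃ T' : Finset (E →+* ℂ), ∀ τ, τ ∈ T' ↔ τ.comp j ∈ S' :=
    ⟨Finset.univ.filter fun τ => τ.comp j ∈ S',
      fun σ => by rw [Finset.mem_filter]; exact ⟨fun h => h.2, fun h => ⟨Finset.mem_univ _, h⟩⟩⟩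
  have hcount := ext_card_set j S' T' hT'
  have hTX : T'.card ≤ T.card := by
    refine Finset.card_le_card ?_
    intro τ hτ
    rw [hT', hS'] at hτ
    by_contra hcon
    have h1 := hT τ hcon
    rcases hτ with h | h
    · rw [RingHom.comp_apply, hjα] at h
      exact h h1.1
    · rw [RingHom.comp_apply, hjβ] at h
      exact h h1.2
  have hSpos : 0 < S'.card := by
    obtain ⟨τ, hτ, -⟩ := c1
    apply Finset.card_pos.2
    refine ⟨τ.comp j, (hS' _).2 (Or.inl ?_)⟩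
    rw [RingHom.comp_apply, hjα]
    exact hτ
  have hle : finrank ℚ F ≤ finrank ℚ E := by
    exact Submodule.finrank_le F.toSubmodule
  have hS'1 : ∀ ρ, ρ ∉ S' → ‖ρ ((α' : 𝓞 F) : F)‖ = 1 ∧ ‖ρ ((β' : 𝓞 F) : F)‖ = 1 := by
    intro ρ hρ
    rw [hS'] at hρ
    push Not at hρ
    exact hρ
  have hlogα : ∀ ρ : F →+* ℂ, Real.log ‖ρ ((α' : 𝓞 F) : F)‖ ≤ η := by
    intro ρ
    obtain ⟨τ, rfl⟩ := ext_exists j ρ
    rw [RingHom.comp_apply, hjα]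
    exact d1 τ
  have hlogβ : ∀ ρ : F →+* ℂ, Real.log ‖ρ ((β' : 𝓞 F) : F)‖ ≤ η := by
    intro ρ
    obtain ⟨τ, rfl⟩ := ext_exists j ρ
    rw [RingHom.comp_apply, hjβ]
    exact d2 τ
  refine ⟨F, inferInstance, inferInstance, S', α', β', hSpos, hle, ?_, ?_, ?_⟩
  · rw [← hcount]
    exact Nat.mul_le_mul_right _ hTX
  · have h1 : (Algebra.adjoin ℚ {α, β}) = F.toSubalgebra := by
      rw [hF]
      symm
      apply IntermediateField.adjoin_toSubalgebra_of_isAlgebraic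
      intro x _
      exact Algebra.IsAlgebraic.isAlgebraic x
    refine adjoin_top j _ _ fun x => ?_
    rw [hjα, hjβ, h1]
    exact x.2
  · refine ⟨fun ρ h => (hS'1 ρ h).1, fun ρ h => (hS'1 ρ h).2, hlogα, hlogβ, ?_, ?_⟩
    · obtain ⟨τ, t1, t2⟩ := c1
      refine ⟨τ.comp j, ?_, ?_⟩
      · rw [RingHom.comp_apply, hjα]
        exact t1
      · rw [RingHom.comp_apply, hjβ]
        exact t2
    · obtain ⟨τ, t1, t2⟩ := c2
      refine ⟨τ.comp j, ?_, ?_⟩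
      · rw [RingHom.comp_apply, hjβ]
        exact t1
      · rw [RingHom.comp_apply, hjα]
        exact t2

/-- the numerical estimate -/
theorem numer2 (ε : ℝ) (hε : 0 < ε) (hε1 : ε < 1 / 2) (n D' : ℕ) : ∃ D₀ : ℕ,
    ∀ (D e d s T : ℕ), D₀ ≤ D → D ≤ e → d ≤ e → e ≤ D * (n * n) → 1 ≤ s → s * e ≤ T * d →
      (T : ℝ) ≤ 2 * (n : ℝ) ^ 2 * (D : ℝ) ^ (1 / 2 - ε : ℝ) →
      D' ≤ d ∧ (D : ℝ) ^ (ε / 400 : ℝ) ≤ (d : ℝ) ^ (ε / 200 : ℝ) ∧
        (s : ℝ) ^ 2 * ((d : ℝ) ^ (ε / 200 : ℝ)) ^ 100 ≤ d := by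
  obtain ⟨c, hc⟩ : ∃ c : ℝ, c = 4 * (n : ℝ) ^ 4 * ((n : ℝ) ^ 2 + 1) ^ 2 + 2 * (n : ℝ) ^ 2 + 1 :=
    ⟨_, rfl⟩
  have hn0 : (0 : ℝ) ≤ n := Nat.cast_nonneg n
  have hc1 : 1 ≤ c := by
    rw [hc]
    have h1 : (0 : ℝ) ≤ 4 * (n : ℝ) ^ 4 * ((n : ℝ) ^ 2 + 1) ^ 2 := by positivity
    have h2 : (0 : ℝ) ≤ 2 * (n : ℝ) ^ 2 := by positivity
    linarith
  have hc2 : 4 * (n : ℝ) ^ 4 * ((n : ℝ) ^ 2 + 1) ^ 2 ≤ c := by
    rw [hc]
    have h2 : (0 : ℝ) ≤ 2 * (n : ℝ) ^ 2 := by positivity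
    linarith
  have hc3 : 2 * (n : ℝ) ^ 2 ≤ c := by
    rw [hc]
    have h1 : (0 : ℝ) ≤ 4 * (n : ℝ) ^ 4 * ((n : ℝ) ^ 2 + 1) ^ 2 := by positivity
    linarith
  refine ⟨⌈c ^ (2 / ε)⌉₊ + D' ^ 2 + 1, ?_⟩
  intro D e d s T hD hDe hde heD hs hse hT
  have hD1 : 1 ≤ D := by omega
  have hD1R : (1 : ℝ) ≤ D := by exact_mod_cast hD1
  have hDpos : (0 : ℝ) < D := by linarith
  have hDc : c ^ (2 / ε) ≤ D := by
    calc c ^ (2 / ε) ≤ (⌈c ^ (2 / ε)⌉₊ : ℝ) := Nat.le_ceil _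
      _ ≤ D := by
        have : ⌈c ^ (2 / ε)⌉₊ ≤ D := by omega
        exact_mod_cast this
  have hcD : c ≤ (D : ℝ) ^ (ε / 2) := by
    calc c = (c ^ (2 / ε)) ^ (ε / 2) := by
          rw [← Real.rpow_mul (by linarith)]
          have : 2 / ε * (ε / 2) = 1 := by field_simp
          rw [this, Real.rpow_one]
      _ ≤ (D : ℝ) ^ (ε / 2) := Real.rpow_le_rpow (by positivity) hDc (by positivity)
  -- the main inequality
  have hdR : (0 : ℝ) ≤ d := Nat.cast_nonneg _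
  have hsR : (1 : ℝ) ≤ s := by exact_mod_cast hs
  have hmain : (s : ℝ) * D ≤ 2 * (n : ℝ) ^ 2 * (D : ℝ) ^ (1 / 2 - ε : ℝ) * d := by
    calc (s : ℝ) * D ≤ s * e := by
          apply mul_le_mul_of_nonneg_left _ (by linarith)
          exact_mod_cast hDe
      _ ≤ T * d := by exact_mod_cast hse
      _ ≤ _ := mul_le_mul_of_nonneg_right hT hdR
  have hDsplit : (D : ℝ) = (D : ℝ) ^ (1 / 2 - ε : ℝ) * (D : ℝ) ^ (1 / 2 + ε : ℝ) := by
    rw [← Real.rpow_add hDpos]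
    norm_num
  have hpos1 : (0 : ℝ) < (D : ℝ) ^ (1 / 2 - ε : ℝ) := Real.rpow_pos_of_pos hDpos _
  have hmain2 : (s : ℝ) * (D : ℝ) ^ (1 / 2 + ε : ℝ) ≤ 2 * (n : ℝ) ^ 2 * d := by
    have h1 : (D : ℝ) ^ (1 / 2 - ε : ℝ) * ((s : ℝ) * (D : ℝ) ^ (1 / 2 + ε : ℝ)) ≤
        (D : ℝ) ^ (1 / 2 - ε : ℝ) * (2 * (n : ℝ) ^ 2 * d) := by
      calc (D : ℝ) ^ (1 / 2 - ε : ℝ) * ((s : ℝ) * (D : ℝ) ^ (1 / 2 + ε : ℝ))
          = s * ((D : ℝ) ^ (1 / 2 - ε : ℝ) * (D : ℝ) ^ (1 / 2 + ε : ℝ)) := by ring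
        _ = s * D := by rw [← hDsplit]
        _ ≤ _ := hmain
        _ = _ := by ring
    exact le_of_mul_le_mul_left h1 hpos1
  have hn1 : 1 ≤ (n : ℝ) ^ 2 := by
    have h1 : 0 < n := by
      rcases Nat.eq_zero_or_pos n with h | h
      · rw [h] at heD
        omega
      · exact h
    have h2 : (1 : ℝ) ≤ n := by exact_mod_cast h1
    exact one_le_pow₀ h2
  -- lower bound for `d`
  have hroot : (D : ℝ) ^ (1 / 2 : ℝ) ≤ d := by
    have h1 : 2 * (n : ℝ) ^ 2 * (D : ℝ) ^ (1 / 2 : ℝ) ≤ 2 * (n : ℝ) ^ 2 * d := by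
      calc 2 * (n : ℝ) ^ 2 * (D : ℝ) ^ (1 / 2 : ℝ) ≤ (D : ℝ) ^ ε * (D : ℝ) ^ (1 / 2 : ℝ) := by
            apply mul_le_mul_of_nonneg_right _ (by positivity)
            refine (hc3.trans hcD).trans ?_
            exact Real.rpow_le_rpow_of_exponent_le hD1R (by linarith)
        _ = (D : ℝ) ^ (1 / 2 + ε : ℝ) := by
            rw [← Real.rpow_add hDpos, add_comm]
        _ ≤ s * (D : ℝ) ^ (1 / 2 + ε : ℝ) := le_mul_of_one_le_left (by positivity) hsR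
        _ ≤ _ := hmain2
    exact le_of_mul_le_mul_left h1 (by linarith)
  have hd1 : (1 : ℝ) ≤ d := (Real.one_le_rpow hD1R (by norm_num)).trans hroot
  have hdpos : (0 : ℝ) < d := by linarith
  refine ⟨?_, ?_, ?_⟩
  · have h1 : (D' : ℝ) ≤ (D : ℝ) ^ (1 / 2 : ℝ) := by
      have h2 : ((D' : ℝ) ^ 2) ^ (1 / 2 : ℝ) = D' := by
        rw [← Real.rpow_natCast, ← Real.rpow_mul (Nat.cast_nonneg _)]
        norm_num
      rw [← h2]
      apply Real.rpow_le_rpow (by positivity) _ (by norm_num)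
      have : D' ^ 2 ≤ D := by omega
      exact_mod_cast this
    exact_mod_cast h1.trans hroot
  · calc (D : ℝ) ^ (ε / 400 : ℝ) = ((D : ℝ) ^ (1 / 2 : ℝ)) ^ (ε / 200 : ℝ) := by
          rw [← Real.rpow_mul hDpos.le]
          congr 1
          ring
      _ ≤ (d : ℝ) ^ (ε / 200 : ℝ) :=
          Real.rpow_le_rpow (by positivity) hroot (by positivity)
  · have h1 : ((d : ℝ) ^ (ε / 200 : ℝ)) ^ 100 = (d : ℝ) ^ (ε / 2 : ℝ) := by
      rw [← Real.rpow_natCast, ← Real.rpow_mul hdR]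
      congr 1
      push_cast
      ring
    rw [h1]
    -- `d ≤ (n ^ 2 + 1) D`
    have h2 : (d : ℝ) ≤ ((n : ℝ) ^ 2 + 1) * D := by
      have h3 : (d : ℝ) ≤ D * (n * n) := by exact_mod_cast hde.trans heD
      nlinarith
    have h3 : (d : ℝ) ^ (1 + ε / 2) ≤ ((n : ℝ) ^ 2 + 1) ^ 2 * (D : ℝ) ^ (1 + ε / 2) := by
      calc (d : ℝ) ^ (1 + ε / 2) ≤ (((n : ℝ) ^ 2 + 1) * D) ^ (1 + ε / 2) :=
            Real.rpow_le_rpow hdR h2 (by positivity)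
        _ = ((n : ℝ) ^ 2 + 1) ^ (1 + ε / 2) * (D : ℝ) ^ (1 + ε / 2) :=
            Real.mul_rpow (by positivity) hDpos.le
        _ ≤ ((n : ℝ) ^ 2 + 1) ^ 2 * (D : ℝ) ^ (1 + ε / 2) := by
            apply mul_le_mul_of_nonneg_right _ (by positivity)
            rw [← Real.rpow_natCast ((n : ℝ) ^ 2 + 1) 2]
            apply Real.rpow_le_rpow_of_exponent_le (by linarith)
            push_cast
            linarith
    have h4 : 4 * (n : ℝ) ^ 4 * (d : ℝ) ^ (1 + ε / 2) ≤ (D : ℝ) ^ (1 + 2 * ε) := by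
      calc 4 * (n : ℝ) ^ 4 * (d : ℝ) ^ (1 + ε / 2)
          ≤ 4 * (n : ℝ) ^ 4 * (((n : ℝ) ^ 2 + 1) ^ 2 * (D : ℝ) ^ (1 + ε / 2)) :=
            mul_le_mul_of_nonneg_left h3 (by positivity)
        _ = (4 * (n : ℝ) ^ 4 * ((n : ℝ) ^ 2 + 1) ^ 2) * (D : ℝ) ^ (1 + ε / 2) := by ring
        _ ≤ (D : ℝ) ^ (ε / 2) * (D : ℝ) ^ (1 + ε / 2) :=
            mul_le_mul_of_nonneg_right (hc2.trans hcD) (by positivity)
        _ = (D : ℝ) ^ (1 + ε) := by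
            rw [← Real.rpow_add hDpos]
            congr 1
            ring
        _ ≤ (D : ℝ) ^ (1 + 2 * ε) :=
            Real.rpow_le_rpow_of_exponent_le hD1R (by linarith)
    have h5 : ((s : ℝ) * (D : ℝ) ^ (1 / 2 + ε : ℝ)) ^ 2 ≤ (2 * (n : ℝ) ^ 2 * d) ^ 2 :=
      pow_le_pow_left₀ (by positivity) hmain2 2
    have h6 : ((s : ℝ) * (D : ℝ) ^ (1 / 2 + ε : ℝ)) ^ 2 = (s : ℝ) ^ 2 * (D : ℝ) ^ (1 + 2 * ε) := by
      rw [mul_pow, ← Real.rpow_natCast ((D : ℝ) ^ (1 / 2 + ε : ℝ)) 2, ← Real.rpow_mul hDpos.le]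
      congr 2
      push_cast
      ring
    have h7 : (d : ℝ) ^ (1 + ε / 2) = d * (d : ℝ) ^ (ε / 2) := by
      rw [Real.rpow_add hdpos, Real.rpow_one]
    have hP : (0 : ℝ) < (D : ℝ) ^ (1 + 2 * ε) := Real.rpow_pos_of_pos hDpos _
    have h8 : (D : ℝ) ^ (1 + 2 * ε) * ((s : ℝ) ^ 2 * (d : ℝ) ^ (ε / 2)) ≤
        (D : ℝ) ^ (1 + 2 * ε) * d := by
      calc (D : ℝ) ^ (1 + 2 * ε) * ((s : ℝ) ^ 2 * (d : ℝ) ^ (ε / 2))
          = ((s : ℝ) ^ 2 * (D : ℝ) ^ (1 + 2 * ε)) * (d : ℝ) ^ (ε / 2) := by ring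
        _ ≤ (2 * (n : ℝ) ^ 2 * d) ^ 2 * (d : ℝ) ^ (ε / 2) := by
            rw [← h6]
            exact mul_le_mul_of_nonneg_right h5 (by positivity)
        _ = (4 * (n : ℝ) ^ 4 * (d * (d : ℝ) ^ (ε / 2))) * d := by ring
        _ ≤ (D : ℝ) ^ (1 + 2 * ε) * d := by
            rw [← h7]
            exact mul_le_mul_of_nonneg_right h4 hdR
    exact le_of_mul_le_mul_left h8 hP

/-- the second embedding -/
theorem exists_other {k K : Type} [Field k] [NumberField k] [Field K] [NumberField K]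
    (SA : Finset (k →+* ℂ)) (i j : k →+* K) (ρ : K →+* ℂ) (h1 : ρ.comp i ∈ SA)
    (h2 : ρ.comp j ∉ SA) : ∃ ρ' : K →+* ℂ, ρ'.comp j ∈ SA ∧ ρ'.comp i ∉ SA := by
  classical
  have hex : ∀ i : k →+* K, ∃ T : Finset (K →+* ℂ), ∀ ρ, ρ ∈ T ↔ ρ.comp i ∈ SA := fun i =>
    ⟨Finset.univ.filter fun ρ => ρ.comp i ∈ SA, fun ρ => by
      rw [Finset.mem_filter]
      exact ⟨fun h => h.2, fun h => ⟨Finset.mem_univ _, h⟩⟩⟩
  choose Sg hSg using hex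
  have hcard : ∀ i j, (Sg i).card = (Sg j).card := by
    intro i j
    have h1 := ext_card_set i SA (Sg i) (hSg i)
    have h2 := ext_card_set j SA (Sg j) (hSg j)
    have h3 : 0 < finrank ℚ k := Module.finrank_pos
    exact Nat.eq_of_mul_eq_mul_right h3 (h1.trans h2.symm)
  by_contra hcon
  push Not at hcon
  have h3 : Sg j ⊆ Sg i := by
    intro ρ' h
    rw [hSg] at h ⊢
    exact hcon ρ' h
  have h4 := Finset.eq_of_subset_of_card_le h3 (hcard i j).le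
  apply h2
  rw [← hSg, h4, hSg]
  exact h1

end Pool.Agent.NH69.MI.Mat

namespace Pool.Agent.NH69.MI

open Mat Polynomial IntermediateField

theorem t_mat2 (h : S_CORE2) : S_MAT2 := by
  classical
  intro ε hε hε1
  obtain ⟨D', hD'⟩ := h (ε / 200) (by positivity)
  refine ⟨ε / 400, by positivity, ?_⟩
  intro n
  obtain ⟨D₀, hD₀⟩ := numer2 ε hε hε1 n D'
  refine ⟨D₀, ?_⟩
  intro k K _ _ _ _ i₁ i₂ ρ₁ S A hD hA hcirc hoff hon hsmall
  by_contra hcon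
  push Not at hcon
  obtain ⟨η, hη⟩ : ∃ η : ℝ, η = (finrank ℚ K : ℝ) ^ (ε / 400 : ℝ) := ⟨_, rfl⟩
  rw [← hη] at hcon
  have hη0 : 0 ≤ η := by rw [hη]; positivity
  -- the embeddings with an eigenvalue off the circle
  obtain ⟨SA, hSA⟩ : ∃ SA : Finset (k →+* ℂ), ∀ σ, σ ∈ SA ↔
      ∃ l : ℂ, ((emb σ).mapMatrix A).charpoly.IsRoot l ∧ ‖l‖ ≠ 1 :=
    ⟨Finset.univ.filter fun σ => ∃ l : ℂ, ((emb σ).mapMatrix A).charpoly.IsRoot l ∧ ‖l‖ ≠ 1,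
      fun σ => by rw [Finset.mem_filter]; exact ⟨fun h => h.2, fun h => ⟨Finset.mem_univ _, h⟩⟩⟩
  have hSAS : SA ⊆ S := by
    intro σ hσ
    by_contra hn
    obtain ⟨l, h1, h2⟩ := (hSA σ).1 hσ
    exact h2 (hcirc σ hn l h1)
  have hSAc : SA.card ≤ S.card := Finset.card_le_card hSAS
  have a1 : ρ₁.comp i₁ ∈ SA := (hSA _).2 hoff
  have a2 : ρ₁.comp i₂ ∉ SA := by
    intro h
    obtain ⟨l, h1, h2⟩ := (hSA _).1 h
    exact h2 (hon l h1)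
  obtain ⟨ρ₂, b1, b2⟩ := exists_other SA i₁ i₂ ρ₁ a1 a2
  obtain ⟨l₁, c1, c2⟩ := (hSA _).1 a1
  obtain ⟨l₂, e1, e2⟩ := (hSA _).1 b1
  rw [charpoly_emb] at c1 e1
  have hQm : ∀ i : k →+* K, (A.charpoly.map (i.comp (algebraMap (𝓞 k) k))).Monic :=
    fun i => (Matrix.charpoly_monic A).map _
  have hQd : ∀ i : k →+* K, (A.charpoly.map (i.comp (algebraMap (𝓞 k) k))).natDegree = n := by
    intro i
    rw [(Matrix.charpoly_monic A).natDegree_map, Matrix.charpoly_natDegree_eq_dim,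
      Fintype.card_fin]
  obtain ⟨τ₁, α, f1, f2, f3⟩ := lift_root _ (hQm i₁).ne_zero ρ₁ l₁ c1
  obtain ⟨τ₂, β, g1, g2, g3⟩ := lift_root _ (hQm i₂).ne_zero ρ₂ l₂ e1
  have hαi : IsIntegral K α := ⟨_, hQm i₁, f2⟩
  have hβi : IsIntegral K β := ⟨_, hQm i₂, g2⟩
  have dα : finrank K K⟮α⟯ ≤ n := by
    rw [IntermediateField.adjoin.finrank hαi, ← hQd i₁]
    exact Polynomial.natDegree_le_of_dvd (minpoly.dvd K α f2) (hQm i₁).ne_zero
  have dβ : finrank K K⟮β⟯ ≤ n := by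
    rw [IntermediateField.adjoin.finrank hβi, ← hQd i₂]
    exact Polynomial.natDegree_le_of_dvd (minpoly.dvd K β g2) (hQm i₂).ne_zero
  have fdα : FiniteDimensional K K⟮α⟯ := IntermediateField.adjoin.finiteDimensional hαi
  have fdβ : FiniteDimensional K K⟮β⟯ := IntermediateField.adjoin.finiteDimensional hβi
  obtain ⟨E, hE⟩ : ∃ E : IntermediateField K (AlgebraicClosure K), E = K⟮α⟯ ⊔ K⟮β⟯ := ⟨_, rfl⟩
  have fdE : FiniteDimensional K E := by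
    rw [hE]
    infer_instance
  have dE : finrank K E ≤ n * n := by
    rw [hE]
    exact (IntermediateField.finrank_sup_le _ _).trans (Nat.mul_le_mul dα dβ)
  have hαE : α ∈ E := by
    rw [hE]
    exact (le_sup_left : K⟮α⟯ ≤ _) (IntermediateField.mem_adjoin_simple_self K α)
  have hβE : β ∈ E := by
    rw [hE]
    exact (le_sup_right : K⟮β⟯ ≤ _) (IntermediateField.mem_adjoin_simple_self K β)
  have fdQ : FiniteDimensional ℚ E := Module.Finite.trans K E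
  have nfE : NumberField E := ⟨⟩
  have evα : ∀ τ : E →+* ℂ, ((emb ((τ.comp (algebraMap K E)).comp i₁)).mapMatrix A).charpoly.IsRoot
      (τ ⟨α, hαE⟩) := by
    intro τ
    rw [charpoly_emb, Polynomial.IsRoot.def, Polynomial.eval_map, ← Polynomial.hom_eval₂,
      aeval_sub E α hαE _ f2, map_zero]
  have evβ : ∀ τ : E →+* ℂ, ((emb ((τ.comp (algebraMap K E)).comp i₂)).mapMatrix A).charpoly.IsRoot
      (τ ⟨β, hβE⟩) := by
    intro τ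
    rw [charpoly_emb, Polynomial.IsRoot.def, Polynomial.eval_map, ← Polynomial.hom_eval₂,
      aeval_sub E β hβE _ g2, map_zero]
  have intα : (⟨α, hαE⟩ : E) ≠ 0 ∧ IsIntegral ℤ (⟨α, hαE⟩ : E) ∧
      IsIntegral ℤ (⟨α, hαE⟩ : E)⁻¹ := by
    apply root_int A hA ((algebraMap K E).comp (i₁.comp (algebraMap (𝓞 k) k)))
    rw [← Polynomial.eval₂_map]
    exact aeval_sub E α hαE _ f2
  have intβ : (⟨β, hβE⟩ : E) ≠ 0 ∧ IsIntegral ℤ (⟨β, hβE⟩ : E) ∧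
      IsIntegral ℤ (⟨β, hβE⟩ : E)⁻¹ := by
    apply root_int A hA ((algebraMap K E).comp (i₂.comp (algebraMap (𝓞 k) k)))
    rw [← Polynomial.eval₂_map]
    exact aeval_sub E β hβE _ g2
  have logle : ∀ (σ : k →+* ℂ) (l : ℂ), ((emb σ).mapMatrix A).charpoly.IsRoot l →
      Real.log ‖l‖ ≤ η := by
    intro σ l hl
    by_cases hσ : σ ∈ S
    · exact hcon σ hσ l hl
    · rw [hcirc σ hσ l hl, Real.log_one]
      exact hη0
  have circ : ∀ (σ : k →+* ℂ), σ ∉ SA → ∀ l : ℂ, ((emb σ).mapMatrix A).charpoly.IsRoot l →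
      ‖l‖ = 1 := by
    intro σ hσ l hl
    by_contra hn
    exact hσ ((hSA σ).2 ⟨l, hl, hn⟩)
  have h4 : finrank ℚ K * finrank K E = finrank ℚ E := Module.finrank_mul_finrank ℚ K E
  -- the embeddings of `E` off the circle
  have hexT : ∀ i : k →+* K, ∃ T : Finset (E →+* ℂ),
      (∀ τ, τ ∈ T ↔ (τ.comp (algebraMap K E)).comp i ∈ SA) ∧
      T.card * finrank ℚ k ≤ S.card * finrank ℚ K * (n * n) := by
    intro i
    obtain ⟨T, hT⟩ : ∃ T : Finset (E →+* ℂ), ∀ τ, τ ∈ T ↔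
        τ.comp ((algebraMap K E).comp i) ∈ SA :=
      ⟨Finset.univ.filter fun τ => τ.comp ((algebraMap K E).comp i) ∈ SA, fun ρ => by
        rw [Finset.mem_filter]
        exact ⟨fun h => h.2, fun h => ⟨Finset.mem_univ _, h⟩⟩⟩
    refine ⟨T, fun τ => by rw [hT]; rfl, ?_⟩
    have h1 := ext_card_set ((algebraMap K E).comp i) SA T hT
    rw [h1, ← h4, mul_assoc]
    exact Nat.mul_le_mul hSAc (Nat.mul_le_mul_left _ dE)
  obtain ⟨T₁, hT₁, hT₁c⟩ := hexT i₁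
  obtain ⟨T₂, hT₂, hT₂c⟩ := hexT i₂
  have hTX : (T₁ ∪ T₂).card * finrank ℚ k ≤ 2 * (S.card * finrank ℚ K * (n * n)) := by
    calc (T₁ ∪ T₂).card * finrank ℚ k ≤ (T₁.card + T₂.card) * finrank ℚ k :=
          Nat.mul_le_mul_right _ (Finset.card_union_le _ _)
      _ = T₁.card * finrank ℚ k + T₂.card * finrank ℚ k := by ring
      _ ≤ _ := by omega
  obtain ⟨F, iF, nF, S', α', β', k1, k2, k3, k4, k5⟩ := pair_field2 (⟨α, hαE⟩ : E) ⟨β, hβE⟩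
    intα.1 intβ.1 intα.2.1 intα.2.2 intβ.2.1 intβ.2.2 (T₁ ∪ T₂) (by
      intro τ hτ
      rw [Finset.notMem_union, hT₁, hT₂] at hτ
      exact ⟨circ _ hτ.1 _ (evα τ), circ _ hτ.2 _ (evβ τ)⟩) η
    ⟨τ₁.comp (algebraMap E (AlgebraicClosure K)), by
      refine ⟨?_, ?_⟩
      · change ‖τ₁ α‖ ≠ 1
        rw [f3]
        exact c2
      · refine circ _ ?_ _ (evβ _)
        have h1 : (τ₁.comp (algebraMap E (AlgebraicClosure K))).comp (algebraMap K E) = ρ₁ := by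
          rw [← f1]
          rfl
        rw [h1]
        exact a2⟩
    ⟨τ₂.comp (algebraMap E (AlgebraicClosure K)), by
      refine ⟨?_, ?_⟩
      · change ‖τ₂ β‖ ≠ 1
        rw [g3]
        exact e2
      · refine circ _ ?_ _ (evα _)
        have h1 : (τ₂.comp (algebraMap E (AlgebraicClosure K))).comp (algebraMap K E) = ρ₂ := by
          rw [← g1]
          rfl
        rw [h1]
        exact b2⟩
    (fun τ => logle _ _ (evα τ)) (fun τ => logle _ _ (evβ τ))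
  have hE1 : 0 < finrank K E := Module.finrank_pos
  have hkpos : 0 < finrank ℚ k := Module.finrank_pos
  have hkposR : (0 : ℝ) < finrank ℚ k := by exact_mod_cast hkpos
  have hTR : (((T₁ ∪ T₂).card : ℕ) : ℝ) ≤
      2 * (n : ℝ) ^ 2 * (finrank ℚ K : ℝ) ^ (1 / 2 - ε : ℝ) := by
    have h5 : (((T₁ ∪ T₂).card : ℕ) : ℝ) * finrank ℚ k ≤
        2 * (n : ℝ) ^ 2 * (finrank ℚ K : ℝ) ^ (1 / 2 - ε : ℝ) * finrank ℚ k := by
      calc (((T₁ ∪ T₂).card : ℕ) : ℝ) * finrank ℚ k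
          ≤ 2 * (S.card * finrank ℚ K * (n * n)) := by exact_mod_cast hTX
        _ = 2 * (n : ℝ) ^ 2 * (S.card * finrank ℚ K) := by ring
        _ ≤ 2 * (n : ℝ) ^ 2 * ((finrank ℚ K : ℝ) ^ (1 / 2 - ε : ℝ) * finrank ℚ k) :=
            mul_le_mul_of_nonneg_left hsmall (by positivity)
        _ = _ := by ring
    exact le_of_mul_le_mul_right h5 hkposR
  obtain ⟨m1, m2, m3⟩ := hD₀ (finrank ℚ K) (finrank ℚ E) (finrank ℚ F) S'.card
    (T₁ ∪ T₂).card hD (by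
      rw [← h4]
      exact Nat.le_mul_of_pos_right _ hE1) k2 (by
      rw [← h4]
      exact Nat.mul_le_mul_left _ dE) k1 k3 hTR
  rw [← hη] at m2
  exact hD' F S' ((finrank ℚ F : ℝ) ^ (ε / 200 : ℝ)) α' β' m1 rfl m3 k4 (pair2_mono k5 m2)

end Pool.Agent.NH69.MI
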