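import Pool.Agent.NH69.MI.Stm3

/-!
# N6: the pigeonhole principle for a matrix of small rank (helper17)
-/

set_option autoImplicit false

namespace Pool.Agent.NH69.MI

namespace Pa

open Finset

/-- the pigeonhole principle for few rows -/
theorem pigeon {J : Type} [Fintype J] (n : ℕ) (M : Fin n → J → ℂ) (B ε : ℝ) (hε : 0 < ε)
    (hB : 1 ≤ B) (h : ∀ a, ∑ j, ‖M a j‖ ≤ B)
    (hn : 2 * n * Real.log (2 * B / ε + 2) < Fintype.card J * Real.log 2) :
    ∃ c : J → ℤ, (∀ j, |c j| ≤ 1) ∧ c ≠ 0 ∧ ∀ a, ‖∑ j, M a j * c j‖ ≤ 2 * ε := by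
  classical
  set q : ℝ := B / ε with hq
  have hq0 : 0 ≤ q := by positivity
  set lo : ℤ := ⌊-q⌋ with hlo
  set hi : ℤ := ⌊q⌋ with hhi
  -- the values
  let z : (J → Bool) → Fin n → ℂ := fun c a => ∑ j, M a j * (if c j then 1 else 0)
  have hz : ∀ c a, ‖z c a‖ ≤ B := by
    intro c a
    refine (norm_sum_le _ _).trans (le_trans (sum_le_sum fun j _ => ?_) (h a))
    rw [norm_mul]
    have : ‖(if c j then (1 : ℂ) else 0)‖ ≤ 1 := by split_ifs <;> simp
    exact mul_le_of_le_one_right (norm_nonneg _) this
  let F : (J → Bool) → (Fin n × Bool) → ℤ := fun c k =>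
    if k.2 then ⌊(z c k.1).re / ε⌋ else ⌊(z c k.1).im / ε⌋
  have hF : ∀ c ∈ (univ : Finset (J → Bool)), F c ∈
      Fintype.piFinset (fun _ : Fin n × Bool => Finset.Icc lo hi) := by
    intro c _
    rw [Fintype.mem_piFinset]
    intro k
    have key : ∀ t : ℝ, |t| ≤ B → ⌊t / ε⌋ ∈ Finset.Icc lo hi := by
      intro t ht
      rw [Finset.mem_Icc]
      obtain ⟨h1, h2⟩ := abs_le.1 ht
      constructor
      · apply Int.floor_le_floor
        rw [hq, ← neg_div]
        exact div_le_div_of_nonneg_right h1 hε.le
      · apply Int.floor_le_floor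
        exact div_le_div_of_nonneg_right h2 hε.le
    change (if k.2 then ⌊(z c k.1).re / ε⌋ else ⌊(z c k.1).im / ε⌋) ∈ _
    split_ifs
    · exact key _ ((Complex.abs_re_le_norm _).trans (hz _ _))
    · exact key _ ((Complex.abs_im_le_norm _).trans (hz _ _))
  have hcard : (Fintype.piFinset (fun _ : Fin n × Bool => Finset.Icc lo hi)).card <
      (univ : Finset (J → Bool)).card := by
    rw [Fintype.card_piFinset, prod_const, card_univ, card_univ, Fintype.card_prod,
      Fintype.card_fin, Fintype.card_bool, Fintype.card_fun, Fintype.card_bool, Int.card_Icc]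
    have h1 : (((hi + 1 - lo).toNat : ℕ) : ℝ) ≤ 2 * B / ε + 2 := by
      have h2 : ((hi + 1 - lo : ℤ) : ℝ) ≤ 2 * B / ε + 2 := by
        push_cast
        have e1 : (hi : ℝ) ≤ q := Int.floor_le _
        have e2 : -q < (lo : ℝ) + 1 := Int.lt_floor_add_one _
        have e3 : 2 * B / ε = q + q := by rw [hq]; ring
        rw [e3]
        linarith
      have h3 : (0 : ℤ) ≤ hi + 1 - lo := by
        have : lo ≤ hi := Int.floor_le_floor (by linarith)
        linarith
      have h4 : (((hi + 1 - lo).toNat : ℕ) : ℤ) = hi + 1 - lo := Int.toNat_of_nonneg h3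
      have h5 : (((hi + 1 - lo).toNat : ℕ) : ℝ) = ((hi + 1 - lo : ℤ) : ℝ) := by
        exact_mod_cast congrArg (Int.cast (R := ℝ)) h4
      rw [h5]
      exact h2
    have hx : 0 < 2 * B / ε + 2 := by positivity
    have h6 : (((hi + 1 - lo).toNat : ℕ) : ℝ) ^ (n * 2) < 2 ^ Fintype.card J := by
      refine lt_of_le_of_lt (pow_le_pow_left₀ (Nat.cast_nonneg _) h1 _) ?_
      rw [← Real.log_lt_log_iff (by positivity) (by positivity), Real.log_pow, Real.log_pow]
      push_cast
      linarith
    exact_mod_cast h6
  obtain ⟨c, -, c', -, hne, heq⟩ := exists_ne_map_eq_of_card_lt_of_maps_to hcard hF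
  refine ⟨fun j => (if c j then 1 else 0) - (if c' j then 1 else 0), ?_, ?_, ?_⟩
  · intro j
    change |(if c j then (1 : ℤ) else 0) - (if c' j then 1 else 0)| ≤ 1
    split_ifs <;> norm_num
  · intro h0
    apply hne
    funext j
    have := congrFun h0 j
    simp only [Pi.zero_apply] at this
    by_cases h1 : c j <;> by_cases h2 : c' j <;> simp_all
  · intro a
    have e1 : ∑ j, M a j * (((if c j then 1 else 0) - (if c' j then 1 else 0) : ℤ) : ℂ) =
        z c a - z c' a := by
      rw [← sum_sub_distrib]
      refine sum_congr rfl fun j _ => ?_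
      rw [← mul_sub]
      congr 1
      push_cast
      rfl
    rw [e1]
    have key : ∀ s t : ℝ, ⌊s / ε⌋ = ⌊t / ε⌋ → |s - t| ≤ ε := by
      intro s t hst
      have h1 := Int.floor_le (s / ε)
      have h2 := Int.lt_floor_add_one (s / ε)
      have h3 := Int.floor_le (t / ε)
      have h4 := Int.lt_floor_add_one (t / ε)
      rw [hst] at h1 h2
      have h5 : |s / ε - t / ε| ≤ 1 := by
        rw [abs_le]
        constructor <;> linarith
      rw [← sub_div, abs_div, abs_of_pos hε, div_le_one hε] at h5
      exact h5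
    have h1 := congrFun heq (a, true)
    have h2 := congrFun heq (a, false)
    have h3 := key _ _ (show ⌊(z c a).re / ε⌋ = ⌊(z c' a).re / ε⌋ by simpa [F] using h1)
    have h4 := key _ _ (show ⌊(z c a).im / ε⌋ = ⌊(z c' a).im / ε⌋ by simpa [F] using h2)
    refine (Complex.norm_le_abs_re_add_abs_im _).trans ?_
    rw [Complex.sub_re, Complex.sub_im]
    linarith

/-- either a nonzero functional vanishes at all the rows, or some square matrix of rows is
invertible -/
theorem dich {ι : Type} (n : ℕ) (U : ι → Fin n → ℂ) :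
    (∃ y : Fin n → ℂ, y ≠ 0 ∧ ∀ i, ∑ r, U i r * y r = 0) ∨
      ∃ f : Fin n → ι, (Matrix.of fun a r => U (f a) r).det ≠ 0 := by
  classical
  by_cases hs : Submodule.span ℂ (Set.range U) = ⊤
  · right
    obtain ⟨b, hb, hbs, hli⟩ := exists_linearIndependent ℂ (Set.range U)
    rw [hs] at hbs
    let bs : Module.Basis b ℂ (Fin n → ℂ) := Module.Basis.mk hli (by
      rw [Subtype.range_coe, hbs])
    have hfin : Finite b := Module.Finite.finite_basis bs
    have := Fintype.ofFinite b
    have hc : Fintype.card b = n := by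
      rw [← Module.finrank_eq_card_basis bs, Module.finrank_fin_fun]
    let e : Fin n ≃ b := (Fintype.equivFinOfCardEq hc).symm
    have hch : ∀ a : Fin n, ∃ i, U i = (e a : Fin n → ℂ) := fun a => hb (e a).2
    choose f hf using hch
    refine ⟨f, ?_⟩
    have hli2 : LinearIndependent ℂ (fun a : Fin n => U (f a)) := by
      have h1 : (fun a : Fin n => U (f a)) = (fun x : b => (x : Fin n → ℂ)) ∘ e := by
        funext a
        exact hf a
      rw [h1]
      exact hli.comp e e.injective
    have h2 : IsUnit (Matrix.of fun a r => U (f a) r) :=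
      Matrix.linearIndependent_rows_iff_isUnit.1 hli2
    exact ((Matrix.isUnit_iff_isUnit_det _).1 h2).ne_zero
  · left
    obtain ⟨g, hg0, hg⟩ := Submodule.exists_le_ker_of_lt_top _ (lt_top_iff_ne_top.2 hs)
    have key : ∀ w : Fin n → ℂ, ∑ r, w r * g (Pi.single r 1) = g w := by
      intro w
      conv_rhs => rw [← Finset.univ_sum_single w]
      rw [map_sum]
      refine Finset.sum_congr rfl fun x _ => ?_
      have : (Pi.single x (w x) : Fin n → ℂ) = w x • Pi.single x 1 := by
        rw [← Pi.single_smul, smul_eq_mul, mul_one]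
      rw [this, map_smul, smul_eq_mul]
    refine ⟨fun r => g (Pi.single r 1), ?_, ?_⟩
    · intro h0
      apply hg0
      apply LinearMap.ext
      intro w
      rw [← key w]
      simp only [LinearMap.zero_apply]
      refine Finset.sum_eq_zero fun r _ => ?_
      have := congrFun h0 r
      simp only [Pi.zero_apply] at this
      rw [this, mul_zero]
    · intro i
      rw [key]
      exact hg (Submodule.subset_span ⟨i, rfl⟩)

/-- Cramer's rule for the family of rows with the largest determinant -/
theorem cramer {ι : Type} [Fintype ι] (n : ℕ) (U : ι → Fin n → ℂ)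
    (h : ∃ f : Fin n → ι, (Matrix.of fun a r => U (f a) r).det ≠ 0) :
    ∃ f : Fin n → ι, ∀ i, ∃ t : Fin n → ℂ, (∀ a, ‖t a‖ ≤ 1) ∧
      ∀ r, U i r = ∑ a, t a * U (f a) r := by
  classical
  obtain ⟨f₀, hf₀⟩ := h
  obtain ⟨f, -, hf⟩ := Finset.exists_max_image (Finset.univ : Finset (Fin n → ι))
    (fun f => ‖(Matrix.of fun a r => U (f a) r).det‖) ⟨f₀, Finset.mem_univ _⟩
  set A : Matrix (Fin n) (Fin n) ℂ := Matrix.of fun a r => U (f a) r with hA
  have hdet : 0 < ‖A.det‖ := lt_of_lt_of_le (norm_pos_iff.2 hf₀) (hf f₀ (Finset.mem_univ _))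
  have hdet0 : A.det ≠ 0 := norm_pos_iff.1 hdet
  refine ⟨f, fun i => ⟨fun a => (A.updateRow a (U i)).det / A.det, ?_, ?_⟩⟩
  · intro a
    rw [norm_div, div_le_one hdet]
    have h1 := hf (Function.update f a i) (Finset.mem_univ _)
    have h2 : (Matrix.of fun b r => U (Function.update f a i b) r) = A.updateRow a (U i) := by
      ext b r
      by_cases hb : b = a
      · subst hb
        simp
      · simp [hb, hA]
    rw [h2] at h1
    exact h1
  · have h1 := Matrix.mulVec_cramer A.transpose (U i)
    intro r
    have h2 := congrFun h1 r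
    simp only [Matrix.mulVec, dotProduct, Matrix.transpose_apply, Matrix.cramer_transpose_apply,
      Pi.smul_apply, smul_eq_mul, Matrix.det_transpose] at h2
    have h3 : ∑ a, (A.updateRow a (U i)).det / A.det * U (f a) r =
        (∑ a, A a r * (A.updateRow a (U i)).det) / A.det := by
      rw [Finset.sum_div]
      refine Finset.sum_congr rfl fun a _ => ?_
      rw [hA]
      simp only [Matrix.of_apply]
      ring
    rw [h3, h2]
    field_simp

end Pa

open Pa in
theorem t_pa : S_PA := by
  classical
  intro ι J _ _ R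
  induction R with
  | zero =>
    intro U V B ε _ _ _ h
    have hc : 0 < Fintype.card J := by
      rcases Nat.eq_zero_or_pos (Fintype.card J) with h0 | h0
      · rw [h0] at h
        simp at h
      · exact h0
    obtain ⟨j⟩ := Fintype.card_pos_iff.1 hc
    refine ⟨fun _ => 1, fun _ => by norm_num, fun h0 => ?_, fun i => by simp⟩
    have := congrFun h0 j
    simp at this
  | succ R ih =>
    intro U V B ε hε hB hrow hlog
    have hl : 0 < Real.log (2 * B / ε + 2) := Real.log_pos (by
      have : 0 < 2 * B / ε := by positivity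
      linarith)
    rcases dich (R + 1) U with ⟨y, hy0, hy⟩ | hex
    · -- reduction of the rank
      obtain ⟨r₀, hr₀⟩ : ∃ r, y r ≠ 0 := by
        by_contra hcon
        push Not at hcon
        exact hy0 (funext hcon)
      have hM : ∀ i j, ∑ r, U i r * V r j = ∑ r : Fin R, U i (r₀.succAbove r) *
          (V (r₀.succAbove r) j - y (r₀.succAbove r) / y r₀ * V r₀ j) := by
        intro i j
        have h1 := hy i
        rw [Fin.sum_univ_succAbove _ r₀] at h1 ⊢
        have h2 : U i r₀ = -∑ r : Fin R, U i (r₀.succAbove r) * (y (r₀.succAbove r) / y r₀) := by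
          have h3 : ∑ r : Fin R, U i (r₀.succAbove r) * (y (r₀.succAbove r) / y r₀) =
              (∑ r : Fin R, U i (r₀.succAbove r) * y (r₀.succAbove r)) / y r₀ := by
            rw [Finset.sum_div]
            exact Finset.sum_congr rfl fun r _ => by ring
          rw [h3]
          field_simp
          linear_combination h1
        rw [h2, neg_mul, Finset.sum_mul, neg_add_eq_sub, ← Finset.sum_sub_distrib]
        exact Finset.sum_congr rfl fun r _ => by ring
      obtain ⟨c, h1, h2, h3⟩ := ih (fun i r => U i (r₀.succAbove r))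
        (fun r j => V (r₀.succAbove r) j - y (r₀.succAbove r) / y r₀ * V r₀ j) B ε hε hB
        (fun i => by
          have := hrow i
          simp only [hM] at this
          exact this)
        (by
          push_cast at hlog
          nlinarith)
      refine ⟨c, h1, h2, fun i => ?_⟩
      have h4 := h3 i
      simp only [hM]
      refine h4.trans ?_
      push_cast
      nlinarith
    · obtain ⟨f, hf⟩ := cramer (R + 1) U hex
      obtain ⟨c, h1, h2, h3⟩ := pigeon (R + 1) (fun a j => ∑ r, U (f a) r * V r j) B ε hε hB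
        (fun a => hrow (f a)) hlog
      refine ⟨c, h1, h2, fun i => ?_⟩
      obtain ⟨t, ht, hU⟩ := hf i
      have h4 : ∑ j, (∑ r, U i r * V r j) * (c j : ℂ) =
          ∑ a, t a * ∑ j, (∑ r, U (f a) r * V r j) * (c j : ℂ) := by
        have h5 : ∀ j, ∑ r, U i r * V r j = ∑ a, t a * ∑ r, U (f a) r * V r j := by
          intro j
          simp only [Finset.mul_sum]
          rw [Finset.sum_comm]
          refine Finset.sum_congr rfl fun r _ => ?_
          rw [hU r, Finset.sum_mul]
          exact Finset.sum_congr rfl fun a _ => by ring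
        simp only [h5, Finset.sum_mul]
        rw [Finset.sum_comm]
        refine Finset.sum_congr rfl fun a _ => ?_
        rw [Finset.mul_sum]
        exact Finset.sum_congr rfl fun j _ => by rw [mul_assoc, Finset.sum_mul]
      rw [h4]
      refine (norm_sum_le _ _).trans ?_
      calc ∑ a, ‖t a * ∑ j, (∑ r, U (f a) r * V r j) * (c j : ℂ)‖ ≤ ∑ _a : Fin (R + 1), 2 * ε := by
            refine Finset.sum_le_sum fun a _ => ?_
            rw [norm_mul]
            exact (mul_le_of_le_one_left (norm_nonneg _) (ht a)).trans (h3 a)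
        _ = 2 * ((R + 1 : ℕ) : ℝ) * ε := by
            rw [Finset.sum_const, Finset.card_univ, Fintype.card_fin, nsmul_eq_mul]
            ring

end Pool.Agent.NH69.MI
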