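import Pool.Agent.NH69.MI.Stm

/-!
# MI-A1: the unramified p-adic lemma
-/

set_option autoImplicit false

open NumberField Module

namespace Pool.Agent.NH69.MI

namespace PadA

theorem map_dv {R S : Type} [CommRing R] [CommRing S] (f : R →+* S) (J : Finset (ℕ × ℕ))
    (c : ℕ × ℕ → ℤ) (a b : ℕ) (x y : R) : f (dv J c a b x y) = dv J c a b (f x) (f y) := by
  unfold dv
  rw [map_sum]
  refine Finset.sum_congr rfl fun m _ => ?_
  rw [map_mul, map_mul, map_pow, map_pow, map_intCast]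

theorem map_ev {R S : Type} [CommRing R] [CommRing S] (f : R →+* S) (J : Finset (ℕ × ℕ))
    (c : ℕ × ℕ → ℤ) (x y : R) : f (ev J c x y) = ev J c (f x) (f y) := by
  unfold ev
  rw [map_sum]
  refine Finset.sum_congr rfl fun m _ => ?_
  rw [map_mul, map_mul, map_pow, map_pow, map_intCast]

theorem binom {R : Type} [CommRing R] (u w : R) (m N : ℕ) (h : m < N) :
    (u + w) ^ m = ∑ a ∈ Finset.range N, (m.choose a : R) * u ^ (m - a) * w ^ a := by
  rw [add_comm, add_pow]
  have : Finset.range (m + 1) ⊆ Finset.range N := by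
    intro a ha
    rw [Finset.mem_range] at *
    omega
  rw [← Finset.sum_subset this]
  · refine Finset.sum_congr rfl fun a _ => ?_
    ring
  · intro a _ ha
    rw [Finset.mem_range] at ha
    rw [Nat.choose_eq_zero_of_lt (by omega)]
    simp

/-- Taylor expansion -/
theorem taylor {R : Type} [CommRing R] (J : Finset (ℕ × ℕ)) (c : ℕ × ℕ → ℤ) (u v w z : R) (N : ℕ)
    (hN : ∀ m ∈ J, m.1 < N ∧ m.2 < N) : ev J c (u + w) (v + z) =
    ∑ a ∈ Finset.range N, ∑ b ∈ Finset.range N, dv J c a b u v * w ^ a * z ^ b := by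
  unfold ev dv
  simp only [Finset.sum_mul]
  rw [Finset.sum_congr rfl fun a _ => Finset.sum_comm, Finset.sum_comm]
  refine Finset.sum_congr rfl fun m hm => ?_
  obtain ⟨h1, h2⟩ := hN m hm
  rw [binom u w m.1 N h1, binom v z m.2 N h2, mul_assoc, Finset.sum_mul_sum, Finset.mul_sum]
  refine Finset.sum_congr rfl fun a _ => ?_
  rw [Finset.mul_sum]
  refine Finset.sum_congr rfl fun b _ => ?_
  push_cast
  ring

/-- a lift of Frobenius suffices -/
theorem vanish {R B : Type} [CommRing R] [CommRing B] (I : Ideal B) (T p : ℕ) (hI : I ^ T = ⊥)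
    (π φ : R →+* B) (h : ∀ x, π x ^ p - φ x ∈ I) (J : Finset (ℕ × ℕ)) (c : ℕ × ℕ → ℤ) (x y : R)
    (hd : ∀ a b, a < T → b < T → dv J c a b x y = 0) : π (ev J c (x ^ p) (y ^ p)) = 0 := by
  obtain ⟨N, hN⟩ : ∃ N, ∀ m ∈ J, m.1 < N ∧ m.2 < N := by
    refine ⟨J.sup (fun m => m.1 + m.2) + 1, fun m hm => ?_⟩
    have : m.1 + m.2 ≤ J.sup (fun m => m.1 + m.2) :=
      Finset.le_sup (f := fun m : ℕ × ℕ => m.1 + m.2) hm
    omega
  have e1 : π x ^ p = φ x + (π x ^ p - φ x) := by ring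
  have e2 : π y ^ p = φ y + (π y ^ p - φ y) := by ring
  have nil : ∀ w ∈ I, ∀ a, T ≤ a → w ^ a = 0 := by
    intro w hw a ha
    have : w ^ T ∈ I ^ T := Ideal.pow_mem_pow hw T
    rw [hI, Ideal.mem_bot] at this
    rw [← Nat.sub_add_cancel ha, pow_add, this, mul_zero]
  rw [map_ev, map_pow, map_pow, e1, e2, taylor J c _ _ _ _ N hN]
  refine Finset.sum_eq_zero fun a _ => Finset.sum_eq_zero fun b _ => ?_
  by_cases ha : a < T
  · by_cases hb : b < T
    · rw [← map_dv, hd a b ha hb, map_zero, zero_mul, zero_mul]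
    · rw [nil _ (h y) b (by omega), mul_zero]
  · rw [nil _ (h x) a (by omega), mul_zero, zero_mul]

theorem exists_lift (K : Type) [Field K] [NumberField K] (P : Ideal (𝓞 K)) [P.IsMaximal] (p : ℕ)
    (hp : p.Prime) (hpP : (p : 𝓞 K) ∈ P) (hr : P.ramificationIdx ℤ = 1) (T : ℕ) (hT : T ≠ 0) :
    ∃ φ : 𝓞 K →+* 𝓞 K ⧸ P ^ T, ∀ x,
      (Ideal.Quotient.mk (P ^ T)) x ^ p - φ x ∈ P.map (Ideal.Quotient.mk (P ^ T)) := by
  have hPp : P.IsPrime := inferInstance
  have hle : P ^ T ≤ P := Ideal.pow_le_self hT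
  set π := Ideal.Quotient.mk (P ^ T) with hπ
  set I := P.map π with hI
  have hnil : IsNilpotent I := by
    refine ⟨T, ?_⟩
    rw [hI, ← Ideal.map_pow, hπ, Ideal.map_quotient_self]
    rfl
  set h : 𝓞 K →+* (𝓞 K ⧸ P ^ T) ⧸ I := (Ideal.Quotient.mk I).comp π with hh
  have hker : ∀ x, h x = 0 ↔ x ∈ P := by
    intro x
    rw [hh, RingHom.comp_apply, Ideal.Quotient.eq_zero_iff_mem, hI, Ideal.mem_map_iff_of_surjective _ Ideal.Quotient.mk_surjective]
    constructor
    · rintro ⟨y, hy, hxy⟩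
      have : y - x ∈ P ^ T := by
        rw [← Ideal.Quotient.eq]
        exact hxy
      have h2 := hle this
      have : x = y - (y - x) := by ring
      rw [this]
      exact P.sub_mem hy h2
    · intro hx
      exact ⟨x, hx, rfl⟩
  have hsurj : Function.Surjective h :=
    Ideal.Quotient.mk_surjective.comp Ideal.Quotient.mk_surjective
  have hkerP : RingHom.ker h = P := by
    ext x
    rw [RingHom.mem_ker, hker]
  have hnt : Nontrivial ((𝓞 K ⧸ P ^ T) ⧸ I) := by
    refine ⟨⟨1, 0, fun h1 => ?_⟩⟩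
    have : (1 : 𝓞 K) ∈ P := (hker 1).1 (by rw [map_one]; exact h1)
    exact hPp.ne_top ((Ideal.eq_top_iff_one P).2 this)
  have hunit : ∀ x, x ∉ P → IsUnit (h x) := by
    intro x hx
    obtain ⟨y, i, hi, hy⟩ := Ideal.IsMaximal.exists_inv (I := P) inferInstance hx
    refine IsUnit.of_mul_eq_one (h y) ?_
    have := congrArg h hy
    rw [map_add, map_mul, (hker i).2 hi, add_zero, map_one] at this
    rw [mul_comm]
    exact this
  have hchar : CharP ((𝓞 K ⧸ P ^ T) ⧸ I) p := by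
    rw [CharP.charP_iff_prime_eq_zero hp]
    have := (hker _).2 hpP
    rwa [map_natCast] at this
  have : Fact p.Prime := ⟨hp⟩
  let g0 : 𝓞 K →+* (𝓞 K ⧸ P ^ T) ⧸ I := (frobenius _ p).comp h
  have hg0 : ∀ y : P.primeCompl, IsUnit (g0 y) := by
    intro y
    exact (hunit _ y.2).map (frobenius ((𝓞 K ⧸ P ^ T) ⧸ I) p)
  let g1 : Localization.AtPrime P →+* (𝓞 K ⧸ P ^ T) ⧸ I := IsLocalization.lift hg0
  have hun : Algebra.IsUnramifiedAt ℤ P := Ideal.ramificationIdx_eq_one_iff.1 hr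
  have hfp : Algebra.FinitePresentation ℤ (𝓞 K) :=
    Algebra.FinitePresentation.of_finiteType.1 inferInstance
  have het : Algebra.IsEtaleAt ℤ P := Algebra.IsEtaleAt.of_isUnramifiedAt_of_flat P
  let g2 : Localization.AtPrime P →ₐ[ℤ] (𝓞 K ⧸ P ^ T) ⧸ I :=
    { g1 with
      commutes' := fun r => by
        change g1 (algebraMap ℤ _ r) = _
        rw [eq_intCast (algebraMap ℤ (Localization.AtPrime P)) r, map_intCast,
          eq_intCast (algebraMap ℤ ((𝓞 K ⧸ P ^ T) ⧸ I)) r] }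
  obtain ⟨f, hf⟩ := Algebra.FormallySmooth.exists_lift (R := ℤ) (A := Localization.AtPrime P) I hnil
    g2
  refine ⟨(f : Localization.AtPrime P →+* _).comp (algebraMap (𝓞 K) (Localization.AtPrime P)), fun x => ?_⟩
  rw [← Ideal.Quotient.eq]
  have h1 := congrArg (fun F => F (algebraMap (𝓞 K) (Localization.AtPrime P) x)) hf
  have h2 : g1 (algebraMap (𝓞 K) (Localization.AtPrime P) x) = g0 x := IsLocalization.lift_eq _ _
  have h3 : g0 x = (h x) ^ p := rfl
  have h4 : Ideal.Quotient.mk I (f (algebraMap (𝓞 K) (Localization.AtPrime P) x)) = g0 x := by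
    rw [← h2]
    exact h1
  rw [RingHom.comp_apply]
  change _ = Ideal.Quotient.mk I (f (algebraMap (𝓞 K) (Localization.AtPrime P) x))
  rw [h4, h3, map_pow]
  rfl

end PadA

theorem t_pad : S_PAD := by
  intro K _ _ P _ p hp hpP hr T J c x y hd
  by_cases hT : T = 0
  · rw [hT, pow_zero, Ideal.one_eq_top]
    exact Submodule.mem_top
  obtain ⟨φ, hφ⟩ := PadA.exists_lift K P p hp hpP hr T hT
  have hI : (P.map (Ideal.Quotient.mk (P ^ T))) ^ T = ⊥ := by
    rw [← Ideal.map_pow, Ideal.map_quotient_self]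
  have := PadA.vanish _ T p hI (Ideal.Quotient.mk (P ^ T)) φ hφ J c x y hd
  rwa [Ideal.Quotient.eq_zero_iff_mem] at this

end Pool.Agent.NH69.MI
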