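import Pool.Agent.NH69.MI.Stm

/-!
The pigeonhole principle with multiplicity.
-/

set_option autoImplicit false

open NumberField Module

namespace Pool.Agent.NH69.MI

/-- An algebraic integer all of whose conjugates are smaller than `1` is zero. -/
theorem eq_zero_of_conj {K : Type} [Field K] [NumberField K] (z : 𝓞 K)
    (h : ∀ ρ : K →+* ℂ, ‖ρ (z : K)‖ < 1) : z = 0 := by
  classical
  by_contra hz
  have hz' : (z : K) ≠ 0 := by
    intro h0
    exact hz (RingOfIntegers.ext h0)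
  have h1 : Algebra.norm ℤ z ≠ 0 := Algebra.norm_ne_zero_iff.mpr hz
  have h2 : (1 : ℝ) ≤ |((Algebra.norm ℤ z : ℤ) : ℝ)| := by
    have := Int.one_le_abs h1
    exact_mod_cast this
  have h3 : ((Algebra.norm ℤ z : ℤ) : ℚ) = Algebra.norm ℚ (z : K) := Algebra.coe_norm_int z
  have h4 : (algebraMap ℚ ℂ) (Algebra.norm ℚ (z : K)) = ∏ σ : K →ₐ[ℚ] ℂ, σ (z : K) :=
    Algebra.norm_eq_prod_embeddings ℚ ℂ (z : K)
  have h5 : ‖(algebraMap ℚ ℂ) (Algebra.norm ℚ (z : K))‖ = |((Algebra.norm ℤ z : ℤ) : ℝ)| := by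
    rw [← h3]
    simp
  rw [h4, norm_prod] at h5
  have h6 : ∏ σ : K →ₐ[ℚ] ℂ, ‖σ (z : K)‖ < ∏ _σ : K →ₐ[ℚ] ℂ, (1 : ℝ) := by
    apply Finset.prod_lt_prod_of_nonempty
    · intro σ _
      rw [norm_pos_iff]
      exact (map_ne_zero σ).mpr hz'
    · intro σ _
      exact h (σ : K →+* ℂ)
    · have : 0 < Fintype.card (K →ₐ[ℚ] ℂ) := by
        rw [AlgHom.card]
        exact finrank_pos
      exact Finset.card_pos.mp (by rwa [Finset.card_univ])
  rw [Finset.prod_const_one, h5] at h6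
  linarith

/-- The indicator of a set. -/
noncomputable def ic (s : Finset (ℕ × ℕ)) (m : ℕ × ℕ) : ℤ := by
  classical exact if m ∈ s then 1 else 0

theorem ic_cases (s : Finset (ℕ × ℕ)) (m : ℕ × ℕ) : ic s m = 0 ∨ ic s m = 1 := by
  classical
  unfold ic
  split_ifs
  · right; rfl
  · left; rfl

theorem ic_mem {s : Finset (ℕ × ℕ)} {m : ℕ × ℕ} : ic s m = 1 ↔ m ∈ s := by
  classical
  unfold ic
  split_ifs with h
  · simp [h]
  · simp [h]

theorem dv_sub {R : Type} [CommRing R] (J : Finset (ℕ × ℕ)) (c d : ℕ × ℕ → ℤ) (a b : ℕ) (x y : R) :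
    dv J (fun m => c m - d m) a b x y = dv J c a b x y - dv J d a b x y := by
  unfold dv
  rw [← Finset.sum_sub_distrib]
  refine Finset.sum_congr rfl fun m _ => ?_
  push_cast
  ring

theorem norm_dv_ic {K : Type} [Field K] [NumberField K] (x y : 𝓞 K) (J s : Finset (ℕ × ℕ))
    (ρ : K →+* ℂ) (a b : ℕ) :
    ‖ρ ((dv J (ic s) a b x y : 𝓞 K) : K)‖ ≤ ∑ m ∈ J, (m.1.choose a : ℝ) * (m.2.choose b : ℝ) *
      ‖ρ (x : K)‖ ^ (m.1 - a) * ‖ρ (y : K)‖ ^ (m.2 - b) := by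
  have h1 : ρ ((dv J (ic s) a b x y : 𝓞 K) : K) = ∑ m ∈ J,
      ((ic s m * (m.1.choose a : ℤ) * (m.2.choose b : ℤ) : ℤ) : ℂ) * ρ (x : K) ^ (m.1 - a) *
        ρ (y : K) ^ (m.2 - b) := by
    unfold dv
    push_cast
    simp only [map_sum, map_mul, map_pow, map_intCast, map_natCast]
  rw [h1]
  refine (norm_sum_le _ _).trans (Finset.sum_le_sum fun m _ => ?_)
  rw [norm_mul, norm_mul, norm_pow, norm_pow]
  gcongr
  rcases ic_cases s m with h | h
  · rw [h]
    simp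
    positivity
  · rw [h]
    simp

/-- The integer parts. -/
noncomputable def fl (z : ℂ) : ℤ × ℤ := (⌊2 * z.re⌋, ⌊2 * z.im⌋)

/-- The possible integer parts. -/
noncomputable def bx (Q : ℝ) : Finset (ℤ × ℤ) :=
  Finset.Icc ⌊-(2 * Q)⌋ ⌊2 * Q⌋ ×ˢ Finset.Icc ⌊-(2 * Q)⌋ ⌊2 * Q⌋

theorem fl_mem {z : ℂ} {Q : ℝ} (h : ‖z‖ ≤ Q) : fl z ∈ bx Q := by
  have h1 := abs_le.mp ((Complex.abs_re_le_norm z).trans h)
  have h2 := abs_le.mp ((Complex.abs_im_le_norm z).trans h)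
  unfold fl bx
  rw [Finset.mem_product, Finset.mem_Icc, Finset.mem_Icc]
  refine ⟨⟨Int.floor_le_floor ?_, Int.floor_le_floor ?_⟩,
    ⟨Int.floor_le_floor ?_, Int.floor_le_floor ?_⟩⟩ <;> linarith

theorem bx_card {Q : ℝ} (h : 1 ≤ Q) : ((bx Q).card : ℝ) ≤ (6 * Q) ^ 2 := by
  have h1 : ((Finset.Icc ⌊-(2 * Q)⌋ ⌊2 * Q⌋).card : ℝ) ≤ 6 * Q := by
    rw [Int.card_Icc]
    have h2 : ⌊-(2 * Q)⌋ ≤ ⌊2 * Q⌋ := Int.floor_le_floor (by linarith)
    have h3 : ((⌊2 * Q⌋ + 1 - ⌊-(2 * Q)⌋).toNat : ℤ) = ⌊2 * Q⌋ + 1 - ⌊-(2 * Q)⌋ :=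
      Int.toNat_of_nonneg (by omega)
    have h4 : ((⌊2 * Q⌋ + 1 - ⌊-(2 * Q)⌋).toNat : ℝ) = (⌊2 * Q⌋ + 1 - ⌊-(2 * Q)⌋ : ℤ) := by
      exact_mod_cast congrArg (Int.cast : ℤ → ℝ) h3
    rw [h4]
    push_cast
    have h5 := Int.floor_le (2 * Q)
    have h6 := Int.lt_floor_add_one (-(2 * Q))
    linarith
  unfold bx
  rw [Finset.card_product]
  push_cast
  have h7 : (0 : ℝ) ≤ (Finset.Icc ⌊-(2 * Q)⌋ ⌊2 * Q⌋).card := by positivity
  nlinarith

theorem bx_pos {Q : ℝ} (h : 1 ≤ Q) : 0 < (bx Q).card := by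
  apply Finset.card_pos.mpr
  refine ⟨fl 0, fl_mem ?_⟩
  simp
  linarith

theorem fl_eq {z w : ℂ} (h : fl z = fl w) : ‖z - w‖ < 1 := by
  unfold fl at h
  rw [Prod.mk.injEq] at h
  obtain ⟨h1, h2⟩ := h
  have a1 := Int.abs_sub_lt_one_of_floor_eq_floor h1
  have a2 := Int.abs_sub_lt_one_of_floor_eq_floor h2
  rw [abs_lt] at a1 a2
  have h3 : ‖z - w‖ ^ 2 < 1 := by
    rw [Complex.sq_norm, Complex.normSq_apply, Complex.sub_re, Complex.sub_im]
    have b1 : (z.re - w.re) * (z.re - w.re) < 1 / 4 := by nlinarith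
    have b2 : (z.im - w.im) * (z.im - w.im) < 1 / 4 := by nlinarith
    linarith
  by_contra h4
  push Not at h4
  nlinarith

/-- E1 -/
theorem t_pig : S_PIG := by
  classical
  intro K _ _ x y J T Q hQ hbd hlt
  -- the target
  let tgt : Finset ((K →+* ℂ) → (Fin T × Fin T) → ℤ × ℤ) :=
    Fintype.piFinset fun ρ => Fintype.piFinset fun _ => bx (Q ρ)
  let Φ : Finset (ℕ × ℕ) → ((K →+* ℂ) → (Fin T × Fin T) → ℤ × ℤ) := fun s ρ ab =>
    fl (ρ ((dv J (ic s) (ab.1 : ℕ) (ab.2 : ℕ) x y : 𝓞 K) : K))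
  have hmaps : ∀ s ∈ J.powerset, Φ s ∈ tgt := by
    intro s _
    rw [Fintype.mem_piFinset]
    intro ρ
    rw [Fintype.mem_piFinset]
    intro ab
    exact fl_mem ((norm_dv_ic x y J s ρ _ _).trans (hbd ρ _ _ ab.1.2 ab.2.2))
  have hcard : tgt.card < J.powerset.card := by
    rw [Finset.card_powerset]
    have h1 : tgt.card = ∏ ρ : K →+* ℂ, (bx (Q ρ)).card ^ (T * T) := by
      rw [Fintype.card_piFinset]
      refine Finset.prod_congr rfl fun ρ _ => ?_
      rw [Fintype.card_piFinset, Finset.prod_const, Finset.card_univ, Fintype.card_prod,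
        Fintype.card_fin]
    have h2 : (0 : ℝ) < tgt.card := by
      rw [h1]
      push_cast
      apply Finset.prod_pos
      intro ρ _
      have := bx_pos (hQ ρ)
      positivity
    have h3 : Real.log tgt.card ≤ (T : ℝ) ^ 2 * (2 * ∑ ρ : K →+* ℂ, Real.log (6 * Q ρ)) := by
      rw [h1]
      push_cast
      rw [Real.log_prod]
      · rw [Finset.mul_sum, Finset.mul_sum]
        apply Finset.sum_le_sum
        intro ρ _
        have h4 := bx_pos (hQ ρ)
        have h5 : Real.log ((bx (Q ρ)).card : ℝ) ≤ 2 * Real.log (6 * Q ρ) := by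
          have := Real.log_le_log (by exact_mod_cast h4) (bx_card (hQ ρ))
          rw [Real.log_pow] at this
          push_cast at this
          exact this
        rw [Real.log_pow]
        push_cast
        rw [sq]
        exact mul_le_mul_of_nonneg_left h5 (by positivity)
      · intro ρ _
        have := bx_pos (hQ ρ)
        positivity
    have h6 : Real.log tgt.card < Real.log ((2 : ℝ) ^ J.card) := by
      rw [Real.log_pow]
      exact h3.trans_lt hlt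
    have h7 := (Real.log_lt_log_iff h2 (by positivity)).mp h6
    exact_mod_cast h7
  obtain ⟨s, hs, s', hs', hne, heq⟩ := Finset.exists_ne_map_eq_of_card_lt_of_maps_to hcard hmaps
  refine ⟨fun m => ic s m - ic s' m, ?_, ?_, ?_⟩
  · intro m
    show |ic s m - ic s' m| ≤ 1
    rcases ic_cases s m with h | h <;> rcases ic_cases s' m with h' | h' <;> rw [h, h'] <;> simp
  · by_contra hcon
    push Not at hcon
    apply hne
    ext m
    by_cases hm : m ∈ J
    · have h1 : ic s m = ic s' m := sub_eq_zero.mp (hcon m hm)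
      rw [← ic_mem, ← ic_mem, h1]
    · rw [Finset.mem_powerset] at hs hs'
      exact ⟨fun h => absurd (hs h) hm, fun h => absurd (hs' h) hm⟩
  · intro a b ha hb
    apply eq_zero_of_conj
    intro ρ
    have h1 : fl (ρ ((dv J (ic s) a b x y : 𝓞 K) : K)) =
        fl (ρ ((dv J (ic s') a b x y : 𝓞 K) : K)) := congrFun (congrFun heq ρ) (⟨a, ha⟩, ⟨b, hb⟩)
    have h2 := fl_eq h1
    rw [dv_sub]
    push_cast
    rw [map_sub]
    exact h2

end Pool.Agent.NH69.MI
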