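import Pool.Agent.NH69.MI.Stm3
import Pool.Agent.NH69.MI.Gain

/-!
# The auxiliary polynomial, if the rank of the monomials is small (`S_PIGR` from `S_PA`)
-/

set_option autoImplicit false

open NumberField Module

namespace Pool.Agent.NH69.MI

/-- coordinates of the monomials with respect to a basis of their span -/
theorem Pigr.coords {K : Type} [Field K] [NumberField K] (x y : K) (L : ℕ) :
    ∃ (w : Fin (finrank ℚ (W L x y)) → K) (q : ℕ × ℕ → Fin (finrank ℚ (W L x y)) → ℚ),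
      ∀ m ∈ box L, x ^ m.1 * y ^ m.2 = ∑ k, (q m k : K) * w k := by
  classical
  set b := Module.finBasis ℚ (W L x y) with hb
  have hmem : ∀ m ∈ box L, x ^ m.1 * y ^ m.2 ∈ W L x y := by
    intro m hm
    unfold box at hm
    rw [Finset.mem_product, Finset.mem_range, Finset.mem_range] at hm
    exact Submodule.subset_span ⟨m.1, m.2, by omega, by omega, rfl⟩
  refine ⟨fun k => (b k : K), fun m k => if h : m ∈ box L then
    b.repr ⟨x ^ m.1 * y ^ m.2, hmem m h⟩ k else 0, fun m hm => ?_⟩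
  have h1 := congrArg (Subtype.val : W L x y → K)
    (b.sum_repr ⟨x ^ m.1 * y ^ m.2, hmem m hm⟩)
  refine h1.symm.trans ?_
  rw [Submodule.coe_sum]
  refine Finset.sum_congr rfl fun k _ => ?_
  simp only [dif_pos hm]
  rw [Submodule.coe_smul, Algebra.smul_def]
  rfl

theorem t_pigr (h : S_PA) : S_PIGR := by
  classical
  intro K _ _ x y L T r B Q hx hy hB hQ hsum hrow hrk hlt
  obtain ⟨r', hr', w, q, hwq⟩ : ∃ r' : ℕ, r' ≤ r ∧ ∃ (w : Fin r' → K)
      (q : ℕ × ℕ → Fin r' → ℚ), ∀ m ∈ box L, (x : K) ^ m.1 * (y : K) ^ m.2 =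
        ∑ k, (q m k : K) * w k := by
    obtain ⟨w, q, hwq⟩ := Pigr.coords (x : K) (y : K) L
    exact ⟨_, hrk, w, q, hwq⟩
  have hρx : ∀ ρ : K →+* ℂ, ρ (x : K) ≠ 0 := by
    intro ρ h0
    apply hx
    exact_mod_cast (map_eq_zero ρ).mp h0
  -- the matrices
  let Us : (K →+* ℂ) × Fin T → Fin T × Fin r' → ℂ := fun i j =>
    if j.1 = i.2 then i.1 (w j.2) * ((i.1 (x : K)) ^ (i.2 : ℕ))⁻¹ / (Q i.1 : ℂ) else 0
  let Vs : Fin T × Fin r' → box L → ℂ := fun j m =>
    (((m : ℕ × ℕ).1.choose (j.1 : ℕ) : ℕ) : ℂ) * ((q (m : ℕ × ℕ) j.2 : ℚ) : ℂ)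
  let U : (K →+* ℂ) × Fin T → Fin (T * r') → ℂ := fun i s => Us i (finProdFinEquiv.symm s)
  let V : Fin (T * r') → box L → ℂ := fun s m => Vs (finProdFinEquiv.symm s) m
  have hM : ∀ (i : (K →+* ℂ) × Fin T) (m : box L), ∑ s, U i s * V s m =
      (((m : ℕ × ℕ).1.choose (i.2 : ℕ) : ℕ) : ℂ) * i.1 (x : K) ^ ((m : ℕ × ℕ).1 - (i.2 : ℕ)) *
        i.1 (y : K) ^ (m : ℕ × ℕ).2 / (Q i.1 : ℂ) := by
    intro i m
    have h1 : ∑ s, U i s * V s m = ∑ j : Fin T × Fin r', Us i j * Vs j m :=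
      Equiv.sum_comp finProdFinEquiv.symm (fun j => Us i j * Vs j m)
    rw [h1, Fintype.sum_prod_type, Finset.sum_eq_single i.2]
    · have h2 : i.1 (((x : K)) ^ (m : ℕ × ℕ).1 * (y : K) ^ (m : ℕ × ℕ).2) =
          ∑ k, ((q (m : ℕ × ℕ) k : ℚ) : ℂ) * i.1 (w k) := by
        rw [hwq _ m.2, map_sum]
        refine Finset.sum_congr rfl fun k _ => ?_
        rw [map_mul, map_ratCast]
      have h3 : ∀ k : Fin r', Us i (i.2, k) * Vs (i.2, k) m =
          (((m : ℕ × ℕ).1.choose (i.2 : ℕ) : ℕ) : ℂ) * ((i.1 (x : K)) ^ (i.2 : ℕ))⁻¹ / (Q i.1 : ℂ) *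
            (((q (m : ℕ × ℕ) k : ℚ) : ℂ) * i.1 (w k)) := by
        intro k
        simp only [Us, Vs, if_true]
        ring
      rw [Finset.sum_congr rfl fun k _ => h3 k, ← Finset.mul_sum, ← h2, map_mul, map_pow, map_pow]
      by_cases ha : (i.2 : ℕ) ≤ (m : ℕ × ℕ).1
      · have h4 : i.1 (x : K) ^ (m : ℕ × ℕ).1 =
            i.1 (x : K) ^ (i.2 : ℕ) * i.1 (x : K) ^ ((m : ℕ × ℕ).1 - (i.2 : ℕ)) := by
          rw [← pow_add]
          congr 1
          omega
        rw [h4]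
        have h5 : i.1 (x : K) ^ (i.2 : ℕ) ≠ 0 := pow_ne_zero _ (hρx i.1)
        field_simp
      · rw [Nat.choose_eq_zero_of_lt (by omega)]
        simp
    · intro j _ hj
      refine Finset.sum_eq_zero fun k _ => ?_
      simp only [Us, if_neg hj, zero_mul]
    · intro hn
      exact absurd (Finset.mem_univ _) hn
  set t : ℝ := (T : ℝ) * r with ht
  have ht0 : 0 ≤ t := by positivity
  have hr'r : ((T * r' : ℕ) : ℝ) ≤ t := by
    rw [ht]
    push_cast
    exact mul_le_mul_of_nonneg_left (by exact_mod_cast hr') (by positivity)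
  have hε : (0 : ℝ) < 1 / (6 * (t + 1)) := by positivity
  have hnormM : ∀ (i : (K →+* ℂ) × Fin T) (m : box L), ‖∑ s, U i s * V s m‖ =
      (((m : ℕ × ℕ).1.choose (i.2 : ℕ) : ℕ) : ℝ) * ‖i.1 (x : K)‖ ^ ((m : ℕ × ℕ).1 - (i.2 : ℕ)) *
        ‖i.1 (y : K)‖ ^ (m : ℕ × ℕ).2 / Q i.1 := by
    intro i m
    have := hQ i.1
    rw [hM, norm_div, norm_mul, norm_mul, norm_pow, norm_pow, Complex.norm_natCast,
      Complex.norm_real, Real.norm_of_nonneg (by linarith)]
  have hrows : ∀ i, ∑ m : box L, ‖∑ s, U i s * V s m‖ ≤ B := by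
    intro i
    have hq := hQ i.1
    rw [Finset.sum_congr rfl fun m _ => hnormM i m, ← Finset.sum_div, div_le_iff₀ (by linarith)]
    have h1 := hrow i.1 i.2 i.2.2
    rw [← Finset.sum_coe_sort] at h1
    exact h1
  have hcardJ : Fintype.card (box L) = (L + 1) ^ 2 := by
    rw [Fintype.card_coe]
    unfold box
    rw [Finset.card_product, Finset.card_range, sq]
  have hlog : 2 * ((T * r' : ℕ) : ℝ) * Real.log (2 * B / (1 / (6 * (t + 1))) + 2) <
      (Fintype.card (box L) : ℝ) * Real.log 2 := by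
    rw [hcardJ]
    push_cast
    refine lt_of_le_of_lt ?_ hlt
    have h1 : 2 * B / (1 / (6 * (t + 1))) + 2 ≤ 14 * B * (t + 1) := by
      rw [div_div_eq_mul_div, div_one]
      nlinarith
    have h2 : (1 : ℝ) ≤ 2 * B / (1 / (6 * (t + 1))) + 2 := by
      have : 0 ≤ 2 * B / (1 / (6 * (t + 1))) := by positivity
      linarith
    have h3 : 0 ≤ Real.log (2 * B / (1 / (6 * (t + 1))) + 2) := Real.log_nonneg h2
    have h4 : Real.log (2 * B / (1 / (6 * (t + 1))) + 2) ≤ Real.log (14 * B * (t + 1)) :=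
      Real.log_le_log (by linarith) h1
    have h5 : (T : ℝ) * r' ≤ t := by
      have := hr'r
      push_cast at this
      exact this
    exact mul_le_mul (by linarith) h4 h3 (by positivity)
  obtain ⟨c, hc1, hc2, hc3⟩ := h ((K →+* ℂ) × Fin T) (box L) (T * r') U V B _ hε hB hrows hlog
  refine ⟨fun m => if hm : m ∈ box L then c ⟨m, hm⟩ else 0, fun m => ?_, ?_, fun a ha => ?_⟩
  · show |if hm : m ∈ box L then c ⟨m, hm⟩ else 0| ≤ 1
    split_ifs with hm
    · exact hc1 _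
    · simp
  · obtain ⟨m, hm⟩ := Function.ne_iff.mp hc2
    refine ⟨m, m.2, ?_⟩
    show (if hm : (m : ℕ × ℕ) ∈ box L then c ⟨m, hm⟩ else 0) ≠ 0
    rw [dif_pos m.2]
    exact hm
  · by_contra hv
    set v : 𝓞 K := dv (box L) (fun m => if hm : m ∈ box L then c ⟨m, hm⟩ else 0) a 0 x y with hvdef
    have hval : ∀ ρ : K →+* ℂ, ρ (v : K) = (Q ρ : ℂ) *
        ∑ m : box L, (∑ s, U (ρ, ⟨a, ha⟩) s * V s m) * c m := by
      intro ρ
      have hq : (Q ρ : ℂ) ≠ 0 := by
        have := hQ ρ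
        exact_mod_cast (by linarith : Q ρ ≠ 0)
      rw [Finset.mul_sum, hvdef]
      unfold dv
      rw [← Finset.sum_coe_sort]
      push_cast
      simp only [map_sum, map_mul, map_pow, map_intCast, map_natCast]
      refine Finset.sum_congr rfl fun m _ => ?_
      rw [hM, dif_pos m.2]
      simp only [Nat.choose_zero_right, Nat.cast_one, mul_one, Nat.sub_zero]
      field_simp
    have hbound : ∀ ρ : K →+* ℂ, ‖ρ (v : K)‖ ≤ Q ρ / 3 := by
      intro ρ
      have hq := hQ ρ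
      rw [hval, norm_mul, Complex.norm_real, Real.norm_of_nonneg (by linarith)]
      have h1 := hc3 (ρ, ⟨a, ha⟩)
      have h2 : 2 * ((T * r' : ℕ) : ℝ) * (1 / (6 * (t + 1))) ≤ 1 / 3 := by
        rw [mul_one_div, div_le_div_iff₀ (by positivity) (by norm_num)]
        nlinarith
      calc Q ρ * ‖∑ m : box L, (∑ s, U (ρ, ⟨a, ha⟩) s * V s m) * c m‖
          ≤ Q ρ * (1 / 3) := mul_le_mul_of_nonneg_left (h1.trans h2) (by linarith)
        _ = Q ρ / 3 := by ring
    have hpos : ∀ ρ : K →+* ℂ, 0 < ‖ρ (v : K)‖ := by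
      intro ρ
      rw [norm_pos_iff]
      intro h0
      apply hv
      exact_mod_cast (map_eq_zero ρ).mp h0
    have hN : Algebra.norm ℤ v ≠ 0 := Algebra.norm_ne_zero_iff.mpr hv
    have h1 : (1 : ℝ) ≤ ∏ ρ : K →+* ℂ, ‖ρ (v : K)‖ := by
      rw [Gain.norm_prod]
      exact_mod_cast Nat.one_le_iff_ne_zero.mpr (Int.natAbs_ne_zero.mpr hN)
    have h2 : 0 ≤ ∑ ρ : K →+* ℂ, Real.log ‖ρ (v : K)‖ := by
      rw [← Real.log_prod (fun ρ _ => (hpos ρ).ne')]
      exact Real.log_nonneg h1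
    have h3 : ∑ ρ : K →+* ℂ, Real.log ‖ρ (v : K)‖ ≤
        ∑ ρ : K →+* ℂ, (Real.log (Q ρ) - Real.log 3) := by
      refine Finset.sum_le_sum fun ρ _ => ?_
      have hq := hQ ρ
      rw [← Real.log_div (by linarith) (by norm_num)]
      exact Real.log_le_log (hpos ρ) (hbound ρ)
    rw [Finset.sum_sub_distrib, Finset.sum_const, Finset.card_univ, NumberField.Embeddings.card,
      nsmul_eq_mul] at h3
    have h4 : (1 : ℝ) < Real.log 3 := by
      rw [Real.lt_log_iff_exp_lt (by norm_num)]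
      exact Real.exp_one_lt_d9.trans (by norm_num)
    have h5 : (0 : ℝ) < finrank ℚ K := by exact_mod_cast finrank_pos (R := ℚ) (M := K)
    nlinarith

end Pool.Agent.NH69.MI
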