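import Pool.Agent.NH69.MI.Stm

/-!
Many primes in dyadic intervals.
-/

set_option autoImplicit false

namespace Pool.Agent.NH69.MI

open Nat Finset

/-- An upper bound for the central binomial coefficient. -/
theorem centralBinom_le_prm (n : ℕ) (n_large : 2 < n) :
    centralBinom n ≤ ((2 * n) ^ sqrt (2 * n) * 4 ^ (2 * n / 3)) *
      (2 * n) ^ ((Ioc n (2 * n)).filter Nat.Prime).card := by
  have n_pos : 0 < n := (Nat.zero_le _).trans_lt n_large
  have n2_pos : 1 ≤ 2 * n := mul_pos (zero_lt_two' ℕ) n_pos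
  let f x := x ^ n.centralBinom.factorization x
  have hf : ∀ x, f x = x ^ n.centralBinom.factorization x := fun _ => rfl
  have hd : Disjoint (range (2 * n / 3 + 1)) ((Ioc n (2 * n)).filter Nat.Prime) := by
    rw [disjoint_left]
    intro x hx hx'
    rw [mem_range] at hx
    rw [mem_filter, mem_Ioc] at hx'
    omega
  have h1 : centralBinom n = (∏ x ∈ range (2 * n / 3 + 1), f x) *
      ∏ x ∈ (Ioc n (2 * n)).filter Nat.Prime, f x := by
    rw [← prod_union hd]
    refine (Eq.trans ?_ n.prod_pow_factorization_centralBinom).symm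
    apply Finset.prod_subset
    · intro x hx
      rw [mem_union, mem_range, mem_filter, mem_Ioc] at hx
      rw [mem_range]
      omega
    · intro x hx h2x
      rw [mem_union, mem_range, mem_filter, mem_Ioc] at h2x
      rw [mem_range] at hx
      push Not at h2x
      obtain ⟨h2x, h3x⟩ := h2x
      by_cases hp : x.Prime
      · have h4 : x ≤ n := by
          by_contra h5
          exact h3x ⟨by omega, by omega⟩ hp
        show x ^ n.centralBinom.factorization x = 1
        rw [factorization_centralBinom_of_two_mul_self_lt_three_mul n_large h4 (by omega),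
          Nat.pow_zero]
      · show x ^ n.centralBinom.factorization x = 1
        rw [factorization_eq_zero_of_not_prime n.centralBinom hp, Nat.pow_zero]
  rw [h1]
  apply mul_le_mul'
  · let S := {p ∈ Finset.range (2 * n / 3 + 1) | Nat.Prime p}
    have : ∏ x ∈ S, f x = ∏ x ∈ Finset.range (2 * n / 3 + 1), f x := by
      refine Finset.prod_filter_of_ne fun p _ h => ?_
      contrapose h; dsimp only [f]
      rw [factorization_eq_zero_of_not_prime n.centralBinom h, _root_.pow_zero]
    rw [← this, ← Finset.prod_filter_mul_prod_filter_not S (· ≤ sqrt (2 * n))]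
    apply mul_le_mul'
    · refine (Finset.prod_le_prod' fun p _ => (?_ : f p ≤ 2 * n)).trans ?_
      · exact pow_factorization_choose_le (mul_pos two_pos n_pos)
      have : (Finset.Icc 1 (sqrt (2 * n))).card = sqrt (2 * n) := by
        rw [card_Icc, Nat.add_sub_cancel]
      rw [Finset.prod_const]
      refine pow_right_mono₀ n2_pos ((Finset.card_le_card fun x hx => ?_).trans this.le)
      obtain ⟨h1, h2⟩ := Finset.mem_filter.1 hx
      exact Finset.mem_Icc.mpr ⟨(Finset.mem_filter.1 h1).2.one_lt.le, h2⟩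
    · refine le_trans ?_ (primorial_le_four_pow (2 * n / 3))
      refine (Finset.prod_le_prod' fun p hp => (?_ : f p ≤ p)).trans ?_
      · obtain ⟨h1, h2⟩ := Finset.mem_filter.1 hp
        refine (pow_right_mono₀ (Finset.mem_filter.1 h1).2.one_lt.le ?_).trans (pow_one p).le
        exact Nat.factorization_choose_le_one (sqrt_lt'.mp <| not_le.1 h2)
      refine Finset.prod_le_prod_of_subset_of_one_le' (Finset.filter_subset _ _) ?_
      exact fun p hp _ => (Finset.mem_filter.1 hp).2.one_lt.le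
  · refine (Finset.prod_le_prod' fun p _ => (?_ : f p ≤ 2 * n)).trans ?_
    · exact pow_factorization_choose_le (mul_pos two_pos n_pos)
    rw [Finset.prod_const]

/-- F1 -/
theorem t_prm : S_PRM := by
  refine ⟨48 ^ 4, fun X hX => ?_⟩
  by_contra hcon
  push Not at hcon
  set c := ((Ioc X (2 * X)).filter Nat.Prime).card with hc
  have hX2 : 2 < X := lt_of_lt_of_le (by norm_num) hX
  have h1 := centralBinom_le_prm X hX2
  rw [← hc] at h1
  have h2 : 4 ^ X < X * centralBinom X := four_pow_lt_mul_centralBinom X (by omega)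
  have h3 : 4 ^ X < X * (((2 * X) ^ sqrt (2 * X) * 4 ^ (2 * X / 3)) * (2 * X) ^ c) :=
    h2.trans_le (Nat.mul_le_mul_left _ h1)
  have h4 : (4 : ℝ) ^ X < X * (((2 * X) ^ sqrt (2 * X) * 4 ^ (2 * X / 3)) * (2 * X) ^ c) := by
    exact_mod_cast h3
  have hXr : (0 : ℝ) < X := by exact_mod_cast (by omega : 0 < X)
  have h5 := Real.log_lt_log (by positivity) h4
  rw [Real.log_mul (by positivity) (by positivity), Real.log_mul (by positivity) (by positivity),
    Real.log_mul (by positivity) (by positivity), Real.log_pow, Real.log_pow, Real.log_pow,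
    Real.log_pow] at h5
  -- t = X ^ (1/4)
  obtain ⟨t, ht0, ht4⟩ : ∃ t : ℝ, 0 ≤ t ∧ t ^ 4 = X := by
    refine ⟨√(√(X : ℝ)), Real.sqrt_nonneg _, ?_⟩
    have e1 : √(√(X : ℝ)) ^ 4 = (√(√(X : ℝ)) ^ 2) ^ 2 := by ring
    rw [e1, Real.sq_sqrt (Real.sqrt_nonneg _), Real.sq_sqrt hXr.le]
  have ht48 : (48 : ℝ) ≤ t := by
    by_contra h
    push Not at h
    have : t ^ 4 < 48 ^ 4 := pow_lt_pow_left₀ h ht0 (by norm_num)
    rw [ht4] at this
    have h6 : ((48 ^ 4 : ℕ) : ℝ) ≤ X := by exact_mod_cast hX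
    push_cast at h6
    linarith
  have htp : 0 < t := by linarith
  have hlX : Real.log X ≤ 4 * t - 4 := by
    rw [← ht4, Real.log_pow]
    have := Real.log_le_sub_one_of_pos htp
    push_cast
    linarith
  have hl2 : Real.log 2 ≤ 1 := by
    have := Real.log_two_lt_d9
    linarith
  have hl2' : (1 : ℝ) / 2 ≤ Real.log 2 := by
    have := Real.log_two_gt_d9
    linarith
  have hl4 : Real.log 4 = 2 * Real.log 2 := by
    rw [show (4 : ℝ) = 2 ^ 2 by norm_num, Real.log_pow]
    push_cast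
    ring
  have hl2X : Real.log (2 * X) ≤ 4 * t := by
    rw [Real.log_mul (by norm_num) hXr.ne']
    linarith
  have hl2X0 : 0 ≤ Real.log (2 * X) := Real.log_nonneg (by
    have : (2 : ℝ) < X := by exact_mod_cast hX2
    linarith)
  have hct : (c : ℝ) ≤ t ^ 2 := by
    have : (c : ℝ) ^ 2 ≤ (t ^ 2) ^ 2 := by
      have e : (t ^ 2) ^ 2 = X := by rw [← ht4]; ring
      rw [e]
      exact_mod_cast hcon.le
    exact le_of_sq_le_sq this (by positivity)
  have hst : ((sqrt (2 * X) : ℕ) : ℝ) ≤ 2 * t ^ 2 := by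
    have h7 : sqrt (2 * X) * sqrt (2 * X) ≤ 2 * X := Nat.sqrt_le _
    have h8 : ((sqrt (2 * X) : ℕ) : ℝ) ^ 2 ≤ (2 * t ^ 2) ^ 2 := by
      have e : (2 * t ^ 2) ^ 2 = 4 * X := by rw [← ht4]; ring
      rw [e]
      have h9 : (((sqrt (2 * X) : ℕ) : ℝ)) * (sqrt (2 * X) : ℕ) ≤ 2 * X := by exact_mod_cast h7
      nlinarith
    exact le_of_sq_le_sq h8 (by positivity)
  have hdiv : (((2 * X / 3 : ℕ)) : ℝ) ≤ 2 * X / 3 := by
    have := @Nat.cast_div_le ℝ _ _ _ (2 * X) 3
    push_cast at this
    exact this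
  have h10 : ((sqrt (2 * X) : ℕ) : ℝ) * Real.log (2 * X) ≤ 2 * t ^ 2 * (4 * t) :=
    mul_le_mul hst hl2X hl2X0 (by positivity)
  have h11 : (c : ℝ) * Real.log (2 * X) ≤ t ^ 2 * (4 * t) :=
    mul_le_mul hct hl2X hl2X0 (by positivity)
  have h12 : (((2 * X / 3 : ℕ)) : ℝ) * Real.log 4 ≤ 2 * X / 3 * Real.log 4 :=
    mul_le_mul_of_nonneg_right hdiv (by rw [hl4]; linarith)
  have h13 : (X : ℝ) / 3 * Real.log 4 < 4 * t - 4 + (2 * t ^ 2 * (4 * t) + t ^ 2 * (4 * t)) := by
    nlinarith
  have h14 : (X : ℝ) / 3 * 1 ≤ (X : ℝ) / 3 * Real.log 4 :=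
    mul_le_mul_of_nonneg_left (by rw [hl4]; linarith) (by positivity)
  rw [← ht4] at h13 h14
  have h15 : t ^ 4 / 3 < 4 * t + 12 * t ^ 3 := by nlinarith
  have h16 : 48 * t ^ 3 ≤ t ^ 4 := by
    have : t ^ 4 = t * t ^ 3 := by ring
    rw [this]
    exact mul_le_mul_of_nonneg_right ht48 (by positivity)
  have h17 : 4 * t ≤ 4 * t ^ 3 - 1 := by
    have : t ^ 3 = t * t ^ 2 := by ring
    nlinarith
  linarith

end Pool.Agent.NH69.MI
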