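import Pool.Agent.NH69.MI.Stm

/-!
# B1: primes whose ramified part is large are few
-/

set_option autoImplicit false
set_option linter.deprecated false

open NumberField Module

namespace Pool.Agent.NH69.MI

/-- the primes above `p` -/
noncomputable abbrev ramPP (K : Type) [Field K] [NumberField K] (p : ℕ) : Finset (Ideal (𝓞 K)) :=
  IsDedekindDomain.primesOverFinset (Ideal.span {(p : ℤ)}) (𝓞 K)

lemma ram_max {p : ℕ} (hp : p.Prime) : (Ideal.span {(p : ℤ)}).IsMaximal :=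
  ((Ideal.span_singleton_prime (by exact_mod_cast hp.ne_zero)).2 (Nat.prime_iff_prime_int.1 hp)).isMaximal
    (by simpa using hp.ne_zero)

lemma ram_ne {p : ℕ} (hp : p.Prime) : (Ideal.span {(p : ℤ)}) ≠ ⊥ := by
  simpa using hp.ne_zero

lemma ram_mem {K : Type} [Field K] [NumberField K] {p : ℕ} (hp : p.Prime) {P : Ideal (𝓞 K)} :
    P ∈ ramPP K p ↔ P.IsPrime ∧ P.LiesOver (Ideal.span {(p : ℤ)}) := by
  have := ram_max hp
  exact IsDedekindDomain.mem_primesOverFinset_iff (ram_ne hp) _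

lemma ram_sum {K : Type} [Field K] [NumberField K] {p : ℕ} (hp : p.Prime) :
    ∑ P ∈ ramPP K p, P.ramificationIdx ℤ * P.inertiaDeg ℤ = finrank ℚ K := by
  have := ram_max hp
  rw [← Ideal.sum_ramification_inertia (𝓞 K) ℚ K (ram_ne hp)]
  refine Finset.sum_congr rfl fun P hP => ?_
  obtain ⟨h1, h2⟩ := (ram_mem hp).1 hP
  have hP0 : P ≠ ⊥ := Ideal.ne_bot_of_liesOver_of_ne_bot (ram_ne hp) P
  have h3 : P.IsMaximal := h1.isMaximal hP0
  rw [Ideal.ramificationIdx'_eq_ramificationIdx (Ideal.span {(p : ℤ)}) P (ram_ne hp),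
    Ideal.inertiaDeg'_eq_inertiaDeg]

lemma ram_gap {K : Type} [Field K] [NumberField K] {p : ℕ} (hp : p.Prime) (h : 2 * unr K p < finrank ℚ K) :
    finrank ℚ K ≤ 4 * ∑ P ∈ ramPP K p, P.inertiaDeg ℤ * (P.ramificationIdx ℤ - 1) := by
  classical
  have h1 : ∑ P ∈ ramPP K p, P.ramificationIdx ℤ * P.inertiaDeg ℤ ≤
      ∑ P ∈ ramPP K p, (2 * (P.inertiaDeg ℤ * (P.ramificationIdx ℤ - 1)) +
        if P.ramificationIdx ℤ = 1 then P.inertiaDeg ℤ else 0) := by
    refine Finset.sum_le_sum fun P _ => ?_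
    by_cases he : P.ramificationIdx ℤ = 1
    · rw [if_pos he, he]
      omega
    · rw [if_neg he, add_zero]
      rcases Nat.eq_zero_or_pos (P.ramificationIdx ℤ) with h0 | h0
      · rw [h0]
        omega
      · obtain ⟨k, hk⟩ : ∃ k, P.ramificationIdx ℤ = k + 2 := ⟨P.ramificationIdx ℤ - 2, by omega⟩
        rw [hk]
        have : k + 2 - 1 = k + 1 := by omega
        rw [this]
        nlinarith [Nat.zero_le (k * P.inertiaDeg ℤ)]
  rw [ram_sum hp, Finset.sum_add_distrib, ← Finset.sum_filter, ← Finset.mul_sum] at h1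
  have h2 : unr K p = ∑ P ∈ (ramPP K p).filter (fun P => P.ramificationIdx ℤ = 1), P.inertiaDeg ℤ := by
    unfold unr
    congr!
  rw [← h2] at h1
  omega

lemma ram_dvd {K : Type} [Field K] [NumberField K] {p : ℕ} (hp : p.Prime) {P : Ideal (𝓞 K)} (hP : P ∈ ramPP K p) :
    P ^ (P.ramificationIdx ℤ - 1) ∣ differentIdeal ℤ (𝓞 K) := by
  have := ram_max hp
  obtain ⟨h1, h2⟩ := (ram_mem hp).1 hP
  have hmap : Ideal.map (algebraMap ℤ (𝓞 K)) (Ideal.span {(p : ℤ)}) ≠ ⊥ := by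
    rw [Ne, Ideal.map_eq_bot_iff_of_injective (FaithfulSMul.algebraMap_injective ℤ (𝓞 K))]
    exact ram_ne hp
  refine pow_sub_one_dvd_differentIdeal ℤ (p := Ideal.span {(p : ℤ)}) P (P.ramificationIdx ℤ) (ram_ne hp) ?_
  rw [Ideal.IsDedekindDomain.ramificationIdx_eq_multiplicity (Ideal.span {(p : ℤ)}) P hmap]
  exact pow_multiplicity_dvd _ _

lemma ram_coprime {K : Type} [Field K] [NumberField K] {p q : ℕ} (hp : p.Prime) (hq : q.Prime) {P Q : Ideal (𝓞 K)}
    (hP : P ∈ ramPP K p) (hQ : Q ∈ ramPP K q) (hne : P ≠ Q) (m n : ℕ) : IsCoprime (P ^ m) (Q ^ n) := by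
  obtain ⟨h1, h2⟩ := (ram_mem hp).1 hP
  obtain ⟨h3, h4⟩ := (ram_mem hq).1 hQ
  have := ram_max hp
  have := ram_max hq
  have hP0 : P ≠ ⊥ := Ideal.ne_bot_of_liesOver_of_ne_bot (ram_ne hp) P
  have hQ0 : Q ≠ ⊥ := Ideal.ne_bot_of_liesOver_of_ne_bot (ram_ne hq) Q
  have h5 : P.IsMaximal := h1.isMaximal hP0
  have h6 : Q.IsMaximal := h3.isMaximal hQ0
  exact (Ideal.isCoprime_of_isMaximal hne).pow

lemma ram_disj {K : Type} [Field K] [NumberField K] {p q : ℕ} (hp : p.Prime) (hq : q.Prime) (hne : p ≠ q) :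
    Disjoint (ramPP K p) (ramPP K q) := by
  rw [Finset.disjoint_left]
  intro P hP hQ
  obtain ⟨h1, h2⟩ := (ram_mem hp).1 hP
  obtain ⟨h3, h4⟩ := (ram_mem hq).1 hQ
  have h5 : Ideal.span {(p : ℤ)} = Ideal.span {(q : ℤ)} := h2.over.trans h4.over.symm
  rw [Ideal.span_singleton_eq_span_singleton, Int.associated_iff_natAbs] at h5
  exact hne (by simpa using h5)

/-- B1: primes whose ramified part is large are few. -/
theorem t_ram : S_RAM := by
  classical
  intro K _ _ A hA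
  -- the product of the prime powers divides the different
  set U : Finset (Ideal (𝓞 K)) := A.biUnion (ramPP K) with hU
  have hdvd : ∏ P ∈ U, P ^ (P.ramificationIdx ℤ - 1) ∣ differentIdeal ℤ (𝓞 K) := by
    apply Finset.prod_dvd_of_coprime
    · intro P hP Q hQ hne
      rw [Finset.mem_coe, hU, Finset.mem_biUnion] at hP hQ
      obtain ⟨p, hp, hP⟩ := hP
      obtain ⟨q, hq, hQ⟩ := hQ
      exact ram_coprime (hA p hp).1 (hA q hq).1 hP hQ hne _ _
    · intro P hP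
      rw [hU, Finset.mem_biUnion] at hP
      obtain ⟨p, hp, hP⟩ := hP
      exact ram_dvd (hA p hp).1 hP
  have hnorm : Ideal.absNorm (∏ P ∈ U, P ^ (P.ramificationIdx ℤ - 1)) =
      ∏ p ∈ A, p ^ (∑ P ∈ ramPP K p, P.inertiaDeg ℤ * (P.ramificationIdx ℤ - 1)) := by
    rw [map_prod, hU, Finset.prod_biUnion]
    · refine Finset.prod_congr rfl fun p hp => ?_
      rw [← Finset.prod_pow_eq_pow_sum]
      refine Finset.prod_congr rfl fun P hP => ?_
      obtain ⟨h1, h2⟩ := (ram_mem (hA p hp).1).1 hP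
      rw [map_pow, ← Ideal.pow_inertiaDeg p P, pow_mul]
    · intro p hp q hq hne
      exact ram_disj (hA p hp).1 (hA q hq).1 hne
  have hle : Ideal.absNorm (∏ P ∈ U, P ^ (P.ramificationIdx ℤ - 1)) ≤ (discr K).natAbs := by
    rw [← NumberField.absNorm_differentIdeal K (𝓞 K)]
    refine Nat.le_of_dvd ?_ (Ideal.absNorm_dvd_absNorm_of_le (Ideal.dvd_iff_le.mp hdvd))
    rw [NumberField.absNorm_differentIdeal K (𝓞 K)]
    exact Int.natAbs_pos.2 (discr_ne_zero K)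
  rw [hnorm] at hle
  have hd0 : (0 : ℝ) < |(discr K : ℝ)| := abs_pos.2 (by exact_mod_cast discr_ne_zero K)
  have hle' : (∏ p ∈ A, (p : ℝ) ^ (∑ P ∈ ramPP K p, P.inertiaDeg ℤ * (P.ramificationIdx ℤ - 1))) ≤
      |(discr K : ℝ)| := by
    have : ((∏ p ∈ A, p ^ (∑ P ∈ ramPP K p, P.inertiaDeg ℤ * (P.ramificationIdx ℤ - 1)) : ℕ) : ℝ) ≤
        ((discr K).natAbs : ℝ) := by exact_mod_cast hle
    rw [Nat.cast_natAbs, Int.cast_abs] at this
    push_cast at this
    exact this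
  have hpos : ∀ p ∈ A, (0 : ℝ) < (p : ℝ) := fun p hp => by exact_mod_cast (hA p hp).1.pos
  have hlog := Real.log_le_log (Finset.prod_pos fun p hp => pow_pos (hpos p hp) _) hle'
  rw [Real.log_prod (fun p hp => (pow_pos (hpos p hp) _).ne')] at hlog
  refine le_trans ?_ hlog
  rw [Finset.mul_sum]
  refine Finset.sum_le_sum fun p hp => ?_
  rw [Real.log_pow]
  have h1 := ram_gap (hA p hp).1 (hA p hp).2
  have h2 : (finrank ℚ K : ℝ) ≤ 4 * ((∑ P ∈ ramPP K p, P.inertiaDeg ℤ * (P.ramificationIdx ℤ - 1) : ℕ) : ℝ) := by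
    exact_mod_cast h1
  have h3 : 0 ≤ Real.log p := Real.log_natCast_nonneg p
  have h4 : (finrank ℚ K : ℝ) / 4 ≤ ((∑ P ∈ ramPP K p, P.inertiaDeg ℤ * (P.ramificationIdx ℤ - 1) : ℕ) : ℝ) := by
    linarith
  exact mul_le_mul_of_nonneg_right h4 h3

end Pool.Agent.NH69.MI
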