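import Pool.Agent.NH69.MI.Stm3

/-!
# Subfields (job N13)
-/

set_option autoImplicit false

open NumberField Module Polynomial

namespace Pool.Agent.NH69.MI

theorem t_sub : S_SUB := by
  intro F k _ _ _ _ _ T hT hfull
  obtain ⟨σ, hσ⟩ := hT
  obtain ⟨σ', hσ', hcomp⟩ := hfull (σ.comp (algebraMap F k))
  have hfin : FiniteDimensional F k := Module.Finite.of_restrictScalars_finite ℚ F k
  obtain ⟨θ, hθ⟩ := Field.exists_primitive_element F k
  have hint : IsIntegral F θ := Algebra.IsIntegral.isIntegral θ
  have hadj : Algebra.adjoin F {θ} = ⊤ := by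
    rw [← IntermediateField.adjoin_simple_toSubalgebra_of_isAlgebraic hint.isAlgebraic, hθ]
    rfl
  letI : Algebra k ℂ := σ.toAlgebra
  have hal : ∀ x : k, algebraMap k ℂ x = σ x := fun _ => rfl
  have hroot : aeval (σ' θ) ((minpoly F θ).map (algebraMap F k)) = 0 := by
    rw [aeval_def, eval₂_map]
    have h1 : (algebraMap k ℂ).comp (algebraMap F k) = σ'.comp (algebraMap F k) := hcomp.symm
    rw [h1, ← hom_eval₂]
    have h2 : eval₂ (algebraMap F k) θ (minpoly F θ) = 0 := minpoly.aeval F θ
    rw [h2, map_zero]
  have hmon : ((minpoly F θ).map (algebraMap F k)).Monic := (minpoly.monic hint).map _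
  have hint' : IsIntegral k (σ' θ) := ⟨_, hmon, hroot⟩
  let K : IntermediateField k ℂ := IntermediateField.adjoin k {σ' θ}
  have hK1 : finrank k K ≤ finrank F k := by
    rw [IntermediateField.adjoin.finrank hint']
    calc (minpoly k (σ' θ)).natDegree ≤ ((minpoly F θ).map (algebraMap F k)).natDegree :=
          natDegree_le_of_dvd (minpoly.dvd k _ hroot) hmon.ne_zero
      _ = (minpoly F θ).natDegree := natDegree_map _
      _ ≤ finrank F k := minpoly.natDegree_le θ
  have hKf : FiniteDimensional k K := IntermediateField.adjoin.finiteDimensional hint'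
  have hθK : σ' θ ∈ K := IntermediateField.mem_adjoin_simple_self k (σ' θ)
  have hmem : ∀ x : k, σ' x ∈ K := by
    intro x
    have hx : x ∈ Algebra.adjoin F {θ} := by rw [hadj]; trivial
    induction hx using Algebra.adjoin_induction with
    | mem x hx =>
      rw [Set.mem_singleton_iff.1 hx]
      exact hθK
    | algebraMap r =>
      have h1 : σ' (algebraMap F k r) = algebraMap k ℂ (algebraMap F k r) :=
        congrArg (fun f => f r) hcomp
      rw [h1]
      exact K.algebraMap_mem _
    | add x y _ _ hx hy =>
      rw [map_add]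
      exact K.add_mem hx hy
    | mul x y _ _ hx hy =>
      rw [map_mul]
      exact K.mul_mem hx hy
  have hKQ : FiniteDimensional ℚ K := FiniteDimensional.trans ℚ k K
  have hKc : CharZero K := charZero_of_injective_algebraMap (algebraMap k K).injective
  refine ⟨K, inferInstance, { to_charZero := hKc, to_finiteDimensional := ?_ },
    algebraMap k K, σ'.codRestrict K hmem, algebraMap K ℂ, ?_, ?_, ?_⟩
  · convert hKQ
  · have h1 : (algebraMap K ℂ).comp (algebraMap k K) = σ := RingHom.ext fun x => rfl
    rw [h1]
    exact hσ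
  · have h1 : (algebraMap K ℂ).comp (σ'.codRestrict K hmem) = σ' := RingHom.ext fun x => rfl
    rw [h1]
    exact hσ'
  · have h1 : finrank ℚ K = finrank ℚ k * finrank k K := (Module.finrank_mul_finrank ℚ k K).symm
    calc finrank ℚ K = finrank ℚ k * finrank k K := h1
      _ ≤ finrank ℚ k * finrank F k := Nat.mul_le_mul_left _ hK1
      _ = finrank F k * finrank ℚ k := mul_comm _ _

end Pool.Agent.NH69.MI
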