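import Pool.Agent.NH69.MI.Stm3

/-!
# MI2-N5: a torsion translate of large order (helper51)
-/

set_option autoImplicit false

open Module

namespace Pool.Agent.NH69.MI.Ta

/-- Thue's lemma -/
theorem thue (M : ℕ) (hM : 0 < M) (a b : ℤ) : ∃ c e : ℤ, (c ≠ 0 ∨ e ≠ 0) ∧
    |c| ≤ (Nat.sqrt M : ℤ) ∧ |e| ≤ (Nat.sqrt M : ℤ) ∧ (M : ℤ) ∣ c * a + e * b := by
  haveI : NeZero M := ⟨hM.ne'⟩
  set s := Nat.sqrt M with hs
  have hcard : Fintype.card (ZMod M) < Fintype.card (Fin (s + 1) × Fin (s + 1)) := by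
    rw [ZMod.card, Fintype.card_prod, Fintype.card_fin]
    exact Nat.lt_succ_sqrt M
  obtain ⟨x, y, hxy, h⟩ := Fintype.exists_ne_map_eq_of_card_lt
    (fun x : Fin (s + 1) × Fin (s + 1) => ((((x.1 : ℕ) : ℤ) * a + ((x.2 : ℕ) : ℤ) * b : ℤ) : ZMod M))
    hcard
  refine ⟨((x.1 : ℕ) : ℤ) - ((y.1 : ℕ) : ℤ), ((x.2 : ℕ) : ℤ) - ((y.2 : ℕ) : ℤ), ?_, ?_, ?_, ?_⟩
  · by_contra hcon
    push Not at hcon
    apply hxy
    refine Prod.ext (Fin.ext ?_) (Fin.ext ?_)
    · have := hcon.1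
      omega
    · have := hcon.2
      omega
  · have h1 := x.1.isLt
    have h2 := y.1.isLt
    rw [abs_le]
    constructor <;> omega
  · have h1 := x.2.isLt
    have h2 := y.2.isLt
    rw [abs_le]
    constructor <;> omega
  · rw [← ZMod.intCast_zmod_eq_zero_iff_dvd]
    have h3 := sub_eq_zero.2 h
    rw [← h3]
    push_cast
    ring

/-- the conjugates of a root of unity over a number field -/
theorem conj (K : Type) [Field K] [NumberField K] (ρ : K →+* ℂ) (M : ℕ) (hM : 0 < M) (ζ : ℂ)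
    (hζ : IsPrimitiveRoot ζ M) : ∃ Z : Finset ℂ, Nat.totient M ≤ finrank ℚ K * Z.card ∧
    (∀ t ∈ Z, t ^ M = 1) ∧ ∀ g : Polynomial K, Polynomial.eval₂ ρ ζ g = 0 →
      ∀ t ∈ Z, Polynomial.eval₂ ρ t g = 0 := by
  classical
  letI : Algebra K ℂ := ρ.toAlgebra
  have hint : IsIntegral K ζ := by
    refine ⟨Polynomial.X ^ M - 1, Polynomial.monic_X_pow_sub_C (1 : K) hM.ne', ?_⟩
    simp [hζ.pow_eq_one]
  set f := minpoly K ζ with hf
  have hsep : f.Separable := (minpoly.irreducible hint).separable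
  have hcard : (f.aroots ℂ).toFinset.card = f.natDegree := by
    rw [Multiset.toFinset_card_of_nodup (Polynomial.nodup_aroots_iff_of_splits
      (minpoly.ne_zero hint) (IsAlgClosed.splits _) |>.2 hsep)]
    rw [Polynomial.aroots, ← (IsAlgClosed.splits (f.map (algebraMap K ℂ))).natDegree_eq_card_roots,
      Polynomial.natDegree_map]
  have h3 : ∀ g : Polynomial K, Polynomial.eval₂ ρ ζ g = 0 →
      ∀ t ∈ (f.aroots ℂ).toFinset, Polynomial.eval₂ ρ t g = 0 := by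
    intro g hg t ht
    obtain ⟨k, hk⟩ := minpoly.dvd K ζ (show Polynomial.aeval ζ g = 0 from hg)
    rw [Multiset.mem_toFinset, Polynomial.mem_aroots] at ht
    have : Polynomial.aeval t g = 0 := by
      rw [hk, map_mul, ht.2, zero_mul]
    exact this
  refine ⟨(f.aroots ℂ).toFinset, ?_, ?_, h3⟩
  · rw [hcard]
    haveI : FiniteDimensional K (IntermediateField.adjoin K {ζ}) :=
      IntermediateField.adjoin.finiteDimensional hint
    have e1 : finrank K (IntermediateField.adjoin K {ζ}) = f.natDegree :=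
      IntermediateField.adjoin.finrank hint
    have e2 : finrank ℚ K * finrank K (IntermediateField.adjoin K {ζ}) =
        finrank ℚ (IntermediateField.adjoin K {ζ}) := finrank_mul_finrank _ _ _
    haveI : FiniteDimensional ℚ (IntermediateField.adjoin K {ζ}) :=
      FiniteDimensional.trans ℚ K _
    have e3 : (minpoly ℚ (IntermediateField.AdjoinSimple.gen K ζ)).natDegree ≤
        finrank ℚ (IntermediateField.adjoin K {ζ}) := minpoly.natDegree_le _
    have e4 : minpoly ℚ (IntermediateField.AdjoinSimple.gen K ζ) = minpoly ℚ ζ := by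
      have h := minpoly.algebraMap_eq (A := ℚ) (B := IntermediateField.adjoin K {ζ}) (B' := ℂ)
        (algebraMap (IntermediateField.adjoin K {ζ}) ℂ).injective
        (IntermediateField.AdjoinSimple.gen K ζ)
      rw [← h]
      rfl
    have e5 : (minpoly ℚ ζ).natDegree = Nat.totient M := by
      rw [← Polynomial.cyclotomic_eq_minpoly_rat hζ hM, Polynomial.natDegree_cyclotomic]
    rw [← e1, e2, ← e5, ← e4]
    exact e3
  · intro t ht
    have := h3 (Polynomial.X ^ M - 1) (by simp [hζ.pow_eq_one]) t ht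
    simpa [sub_eq_zero] using this

open MvPolynomial in
theorem aeval_two (P : MvPolynomial (Fin 2) ℤ) (w : Fin 2 → ℂ) :
    aeval w P = ∑ m ∈ P.support, ((P.coeff m : ℤ) : ℂ) * (w 0 ^ m 0 * w 1 ^ m 1) := by
  rw [aeval_def, eval₂_eq']
  refine Finset.sum_congr rfl fun m _ => ?_
  rw [Fin.prod_univ_two]
  simp

open MvPolynomial in
/-- a polynomial vanishing at many points of a translate of a one-dimensional torus -/
theorem core (P : MvPolynomial (Fin 2) ℤ) (hP : P ≠ 0) (ω : ℕ) (hdeg : ∀ i, P.degreeOf i ≤ ω)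
    (x : Fin 2 → ℂ) (hx : ∀ i, x i ≠ 0) (p q u v : ℤ) (huv : u * p + v * q = 1) (S : Finset ℂ)
    (hS : (p.natAbs + q.natAbs) * ω < S.card)
    (h : ∀ t ∈ S, t ≠ 0 ∧ aeval (![x 0 * t ^ q, x 1 * t ^ (-p)] : Fin 2 → ℂ) P = 0) :
    ∃ H : Polynomial ℤ, H ≠ 0 ∧ H.natDegree ≤ ω ∧
      Polynomial.aeval (x 0 ^ p * x 1 ^ q) H = 0 := by
  classical
  have hm : ∀ m ∈ P.support, ∀ i, ((m i : ℕ) : ℤ) ≤ ω := fun m hm i => by
    exact_mod_cast (monomial_le_degreeOf i hm).trans (hdeg i)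
  -- the exponents
  obtain ⟨m0, hm0⟩ : ∃ m0 : ℤ, m0 = (min 0 q + min 0 (-p)) * ω := ⟨_, rfl⟩
  have hω : (0 : ℤ) ≤ ω := Nat.cast_nonneg _
  have hE0 : ∀ m ∈ P.support, 0 ≤ q * (m 0 : ℤ) - p * (m 1 : ℤ) - m0 := by
    intro m hmm
    have h0 := hm m hmm 0
    have h1 := hm m hmm 1
    have h0' : (0 : ℤ) ≤ (m 0 : ℤ) := Nat.cast_nonneg _
    have h1' : (0 : ℤ) ≤ (m 1 : ℤ) := Nat.cast_nonneg _
    have a1 : min 0 q * ω ≤ q * (m 0 : ℤ) := by
      rcases le_total 0 q with hq | hq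
      · rw [min_eq_left hq, zero_mul]; positivity
      · rw [min_eq_right hq]; nlinarith
    have a2 : min 0 (-p) * ω ≤ -p * (m 1 : ℤ) := by
      rcases le_total 0 (-p) with hq | hq
      · rw [min_eq_left hq, zero_mul]; positivity
      · rw [min_eq_right hq]; nlinarith
    rw [hm0]
    linarith
  have hE1 : ∀ m ∈ P.support, q * (m 0 : ℤ) - p * (m 1 : ℤ) - m0 ≤
      ((p.natAbs + q.natAbs) * ω : ℕ) := by
    intro m hmm
    have h0 := hm m hmm 0
    have h1 := hm m hmm 1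
    have h0' : (0 : ℤ) ≤ (m 0 : ℤ) := Nat.cast_nonneg _
    have h1' : (0 : ℤ) ≤ (m 1 : ℤ) := Nat.cast_nonneg _
    have a1 : q * (m 0 : ℤ) - min 0 q * ω ≤ |q| * ω := by
      rcases le_total 0 q with hq | hq
      · rw [min_eq_left hq, zero_mul, sub_zero, abs_of_nonneg hq]; nlinarith
      · rw [min_eq_right hq, abs_of_nonpos hq]; nlinarith
    have a2 : -p * (m 1 : ℤ) - min 0 (-p) * ω ≤ |p| * ω := by
      rcases le_total 0 (-p) with hq | hq
      · rw [min_eq_left hq, zero_mul, sub_zero, ← abs_neg, abs_of_nonneg hq]; nlinarith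
      · rw [min_eq_right hq, ← abs_neg, abs_of_nonpos hq]; nlinarith
    have a3 : (((p.natAbs + q.natAbs) * ω : ℕ) : ℤ) = |p| * ω + |q| * ω := by
      push_cast [Int.natCast_natAbs]
      ring
    rw [a3, hm0]
    linarith
  obtain ⟨E, hE⟩ : ∃ E : (Fin 2 →₀ ℕ) → ℕ, E = fun m =>
    (q * (m 0 : ℤ) - p * (m 1 : ℤ) - m0).toNat := ⟨_, rfl⟩
  have hE2 : ∀ m ∈ P.support, ((E m : ℕ) : ℤ) = q * (m 0 : ℤ) - p * (m 1 : ℤ) - m0 := by
    intro m hmm
    rw [hE]
    exact Int.toNat_of_nonneg (hE0 m hmm)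
  obtain ⟨R, hR⟩ : ∃ R : Polynomial ℂ, R = ∑ m ∈ P.support,
    Polynomial.C (((P.coeff m : ℤ) : ℂ) * (x 0 ^ m 0 * x 1 ^ m 1)) * Polynomial.X ^ E m := ⟨_, rfl⟩
  have hR0 : R = 0 := by
    refine Polynomial.eq_zero_of_natDegree_lt_card_of_eval_eq_zero' R S (fun t ht => ?_) ?_
    · obtain ⟨ht0, ht1⟩ := h t ht
      rw [aeval_two] at ht1
      rw [hR, Polynomial.eval_finsetSum]
      have e1 : ∑ m ∈ P.support, Polynomial.eval t
          (Polynomial.C (((P.coeff m : ℤ) : ℂ) * (x 0 ^ m 0 * x 1 ^ m 1)) * Polynomial.X ^ E m) =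
          t ^ (-m0) * ∑ m ∈ P.support, ((P.coeff m : ℤ) : ℂ) *
            ((![x 0 * t ^ q, x 1 * t ^ (-p)] : Fin 2 → ℂ) 0 ^ m 0 *
              (![x 0 * t ^ q, x 1 * t ^ (-p)] : Fin 2 → ℂ) 1 ^ m 1) := by
        rw [Finset.mul_sum]
        refine Finset.sum_congr rfl fun m hmm => ?_
        rw [Polynomial.eval_mul, Polynomial.eval_C, Polynomial.eval_pow, Polynomial.eval_X]
        have e2 : t ^ E m = t ^ (-m0) * ((t ^ q) ^ m 0 * (t ^ (-p)) ^ m 1) := by
          rw [← zpow_natCast t (E m), hE2 m hmm, ← zpow_natCast (t ^ q), ← zpow_natCast (t ^ (-p)),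
            ← zpow_mul, ← zpow_mul, ← zpow_add₀ ht0, ← zpow_add₀ ht0]
          congr 1
          ring
        rw [e2]
        simp only [Matrix.cons_val_zero, Matrix.cons_val_one, mul_pow]
        ring
      rw [e1, ht1, mul_zero]
    · refine lt_of_le_of_lt ?_ hS
      rw [hR]
      refine Polynomial.natDegree_sum_le_of_forall_le _ _ fun m hmm => ?_
      refine (Polynomial.natDegree_C_mul_X_pow_le _ _).trans ?_
      have h1 := hE1 m hmm
      rw [← hE2 m hmm] at h1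
      exact_mod_cast h1
  -- one coefficient
  obtain ⟨m1, hm1⟩ : P.support.Nonempty := by
    rw [Finset.nonempty_iff_ne_empty]
    intro h'
    exact hP (MvPolynomial.support_eq_empty.1 h')
  have hco : ∑ m ∈ P.support.filter (fun m => E m = E m1),
      ((P.coeff m : ℤ) : ℂ) * (x 0 ^ m 0 * x 1 ^ m 1) = 0 := by
    have h1 : R.coeff (E m1) = 0 := by rw [hR0, Polynomial.coeff_zero]
    rw [hR, Polynomial.finsetSum_coeff] at h1
    rw [Finset.sum_filter]
    refine Eq.trans ?_ h1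
    refine Finset.sum_congr rfl fun m _ => ?_
    rw [Polynomial.coeff_C_mul, Polynomial.coeff_X_pow]
    by_cases h' : E m = E m1
    · rw [if_pos h', if_pos h'.symm, mul_one]
    · rw [if_neg h', if_neg (fun h'' => h' h''.symm), mul_zero]
  obtain ⟨F, hF⟩ : ∃ F, F = P.support.filter (fun m => E m = E m1) := ⟨_, rfl⟩
  rw [← hF] at hco
  have hFs : ∀ m ∈ F, m ∈ P.support := fun m hmm => by
    rw [hF, Finset.mem_filter] at hmm
    exact hmm.1
  have hm1F : m1 ∈ F := by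
    rw [hF, Finset.mem_filter]
    exact ⟨hm1, rfl⟩
  have hline : ∀ m ∈ F, q * ((m 0 : ℤ) - m1 0) = p * ((m 1 : ℤ) - m1 1) := by
    intro m hmm
    rw [hF, Finset.mem_filter] at hmm
    have h1 := hE2 m hmm.1
    have h2 := hE2 m1 hm1
    rw [hmm.2] at h1
    linarith
  obtain ⟨l, hl⟩ : ∃ l : (Fin 2 →₀ ℕ) → ℤ, l = fun m =>
    u * ((m 0 : ℤ) - m1 0) + v * ((m 1 : ℤ) - m1 1) := ⟨_, rfl⟩
  have hl0 : ∀ m ∈ F, (m 0 : ℤ) = m1 0 + l m * p := by
    intro m hmm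
    have h1 := hline m hmm
    rw [hl]
    show (m 0 : ℤ) = m1 0 + (u * ((m 0 : ℤ) - m1 0) + v * ((m 1 : ℤ) - m1 1)) * p
    linear_combination (-((m 0 : ℤ) - m1 0)) * huv + v * h1
  have hl1 : ∀ m ∈ F, (m 1 : ℤ) = m1 1 + l m * q := by
    intro m hmm
    have h1 := hline m hmm
    rw [hl]
    show (m 1 : ℤ) = m1 1 + (u * ((m 0 : ℤ) - m1 0) + v * ((m 1 : ℤ) - m1 1)) * q
    linear_combination (-((m 1 : ℤ) - m1 1)) * huv - u * h1
  have hinj : ∀ m ∈ F, ∀ m' ∈ F, l m = l m' → m = m' := by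
    intro m hmm m' hmm' hll
    ext i
    fin_cases i
    · have h1 := hl0 m hmm
      have h2 := hl0 m' hmm'
      rw [hll] at h1
      show m 0 = m' 0
      have : (m 0 : ℤ) = m' 0 := by rw [h1, h2]
      exact_mod_cast this
    · have h1 := hl1 m hmm
      have h2 := hl1 m' hmm'
      rw [hll] at h1
      show m 1 = m' 1
      have : (m 1 : ℤ) = m' 1 := by rw [h1, h2]
      exact_mod_cast this
  have hdiff : ∀ m ∈ F, ∀ m' ∈ F, l m - l m' ≤ ω := by
    intro m hmm m' hmm'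
    rcases le_or_gt (l m) (l m') with hle | hlt
    · linarith
    have a0 := hm m (hFs m hmm) 0
    have a1 := hm m (hFs m hmm) 1
    have b0 := hm m' (hFs m' hmm') 0
    have b1 := hm m' (hFs m' hmm') 1
    have a0' : (0 : ℤ) ≤ (m 0 : ℤ) := Nat.cast_nonneg _
    have a1' : (0 : ℤ) ≤ (m 1 : ℤ) := Nat.cast_nonneg _
    have b0' : (0 : ℤ) ≤ (m' 0 : ℤ) := Nat.cast_nonneg _
    have b1' : (0 : ℤ) ≤ (m' 1 : ℤ) := Nat.cast_nonneg _
    have e0 : (m 0 : ℤ) - m' 0 = (l m - l m') * p := by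
      rw [hl0 m hmm, hl0 m' hmm']; ring
    have e1 : (m 1 : ℤ) - m' 1 = (l m - l m') * q := by
      rw [hl1 m hmm, hl1 m' hmm']; ring
    have hD : 0 < l m - l m' := by linarith
    by_cases hp : p = 0
    · have hq : q ≠ 0 := by
        rintro rfl
        rw [hp] at huv
        simp at huv
      rcases lt_or_gt_of_ne hq with h1 | h1
      · nlinarith
      · nlinarith
    · rcases lt_or_gt_of_ne hp with h1 | h1
      · nlinarith
      · nlinarith
  obtain ⟨m2, hm2, hmin⟩ := Finset.exists_min_image F l ⟨m1, hm1F⟩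
  obtain ⟨H, hH⟩ : ∃ H : Polynomial ℤ, H = ∑ m ∈ F,
    Polynomial.C (P.coeff m) * Polynomial.X ^ (l m - l m2).toNat := ⟨_, rfl⟩
  have hnat : ∀ m ∈ F, (((l m - l m2).toNat : ℕ) : ℤ) = l m - l m2 := fun m hmm =>
    Int.toNat_of_nonneg (by linarith [hmin m hmm])
  refine ⟨H, ?_, ?_, ?_⟩
  · intro h0
    have h1 : H.coeff (l m2 - l m2).toNat = P.coeff m2 := by
      rw [hH, Polynomial.finsetSum_coeff]
      rw [Finset.sum_eq_single_of_mem m2 hm2]
      · rw [Polynomial.coeff_C_mul, Polynomial.coeff_X_pow, if_pos rfl, mul_one]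
      · intro m hmm hne
        rw [Polynomial.coeff_C_mul, Polynomial.coeff_X_pow, if_neg, mul_zero]
        intro h2
        apply hne
        apply hinj m hmm m2 hm2
        have h3 := hnat m hmm
        have h4 := hnat m2 hm2
        rw [← h2, h4] at h3
        linarith
    rw [h0, Polynomial.coeff_zero] at h1
    exact (mem_support_iff.1 (hFs m2 hm2)) h1.symm
  · rw [hH]
    refine Polynomial.natDegree_sum_le_of_forall_le _ _ fun m hmm => ?_
    refine (Polynomial.natDegree_C_mul_X_pow_le _ _).trans ?_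
    have h1 := hdiff m hmm m2 hm2
    rw [← hnat m hmm] at h1
    exact_mod_cast h1
  · obtain ⟨θ, hθ⟩ : ∃ θ : ℂ, θ = x 0 ^ p * x 1 ^ q := ⟨_, rfl⟩
    have hθ0 : θ ≠ 0 := by
      rw [hθ]
      exact mul_ne_zero (zpow_ne_zero _ (hx 0)) (zpow_ne_zero _ (hx 1))
    rw [← hθ]
    have h1 : Polynomial.aeval θ H * (θ ^ (l m2) * (x 0 ^ m1 0 * x 1 ^ m1 1)) =
        ∑ m ∈ F, ((P.coeff m : ℤ) : ℂ) * (x 0 ^ m 0 * x 1 ^ m 1) := by
      rw [hH, map_sum, Finset.sum_mul]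
      refine Finset.sum_congr rfl fun m hmm => ?_
      rw [map_mul, Polynomial.aeval_C, map_pow, Polynomial.aeval_X, ← zpow_natCast θ, hnat m hmm]
      have e1 : θ ^ (l m - l m2) * (θ ^ (l m2) * (x 0 ^ m1 0 * x 1 ^ m1 1)) =
          x 0 ^ m 0 * x 1 ^ m 1 := by
        rw [← mul_assoc, ← zpow_add₀ hθ0, sub_add_cancel, hθ, mul_zpow, ← zpow_mul, ← zpow_mul]
        rw [← zpow_natCast (x 0) (m 0), ← zpow_natCast (x 1) (m 1), hl0 m hmm, hl1 m hmm,
          zpow_add₀ (hx 0), zpow_add₀ (hx 1), zpow_natCast, zpow_natCast, mul_comm p (l m),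
          mul_comm q (l m)]
        ring
      rw [mul_assoc, e1]
      rfl
    rw [hco] at h1
    rcases mul_eq_zero.1 h1 with h2 | h2
    · exact h2
    · exfalso
      exact mul_ne_zero (zpow_ne_zero _ hθ0) (mul_ne_zero (pow_ne_zero _ (hx 0))
        (pow_ne_zero _ (hx 1))) h2

theorem finrank_le (K : Type) [Field K] [NumberField K] (ρ : K →+* ℂ) (γ : K) (θ : ℂ) (M ω : ℕ)
    (hγ : ρ γ = θ ^ M) (H : Polynomial ℤ) (hH : H ≠ 0) (hd : H.natDegree ≤ ω)
    (hθ : Polynomial.aeval θ H = 0) : finrank ℚ (IntermediateField.adjoin ℚ {γ}) ≤ ω := by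
  have h1 : finrank ℚ (IntermediateField.adjoin ℚ {γ}) = (minpoly ℚ γ).natDegree :=
    IntermediateField.adjoin.finrank (Algebra.IsIntegral.isIntegral γ)
  have h2 : minpoly ℚ (θ ^ M) = minpoly ℚ γ := by
    rw [← hγ]
    exact minpoly.algHom_eq ρ.toRatAlgHom ρ.injective γ
  obtain ⟨G, hG⟩ : ∃ G : Polynomial ℚ, G = H.map (Int.castRingHom ℚ) := ⟨_, rfl⟩
  have hG0 : G ≠ 0 := by
    rw [hG]
    exact (Polynomial.map_ne_zero_iff (Int.cast_injective (α := ℚ))).2 hH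
  have hGθ : Polynomial.aeval θ G = 0 := by
    rw [hG, Polynomial.aeval_def, Polynomial.eval₂_map]
    rw [Polynomial.aeval_def] at hθ
    rw [← hθ]
    congr 1
  have hint : IsIntegral ℚ θ := by
    rw [← isAlgebraic_iff_isIntegral]
    exact ⟨G, hG0, hGθ⟩
  have h3 : (minpoly ℚ θ).natDegree ≤ ω := by
    refine (Polynomial.natDegree_le_of_dvd (minpoly.dvd ℚ θ hGθ) hG0).trans ?_
    rw [hG]
    exact Polynomial.natDegree_map_le.trans hd
  have : FiniteDimensional ℚ (IntermediateField.adjoin ℚ {θ}) :=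
    IntermediateField.adjoin.finiteDimensional hint
  have h4 : finrank ℚ (IntermediateField.adjoin ℚ {θ}) = (minpoly ℚ θ).natDegree :=
    IntermediateField.adjoin.finrank hint
  have h5 : (minpoly ℚ (IntermediateField.AdjoinSimple.gen ℚ θ ^ M)).natDegree ≤
      finrank ℚ (IntermediateField.adjoin ℚ {θ}) := minpoly.natDegree_le _
  have h6 : minpoly ℚ (IntermediateField.AdjoinSimple.gen ℚ θ ^ M) = minpoly ℚ (θ ^ M) := by
    have h := minpoly.algebraMap_eq (A := ℚ) (B := IntermediateField.adjoin ℚ {θ}) (B' := ℂ)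
      (algebraMap (IntermediateField.adjoin ℚ {θ}) ℂ).injective
      (IntermediateField.AdjoinSimple.gen ℚ θ ^ M)
    rw [← h, map_pow, IntermediateField.AdjoinSimple.algebraMap_gen]
  rw [h1, ← h2, ← h6]
  exact h5.trans (h4.le.trans h3)

end Pool.Agent.NH69.MI.Ta

namespace Pool.Agent.NH69.MI

open MvPolynomial Pool.Agent.NH69.MI.Ta

theorem t_ta : S_TA := by
  classical
  intro K _ _ z P ω M ρ ξ hz hP hdeg hM hξ hord hPξ hbig
  have : NeZero M := ⟨hM.ne'⟩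
  obtain ⟨ζ, hζ⟩ : ∃ ζ : ℂ, IsPrimitiveRoot ζ M := ⟨_, Complex.isPrimitiveRoot_exp M hM.ne'⟩
  obtain ⟨a, -, ha⟩ := hζ.eq_pow_of_pow_eq_one (ξ := ξ 0) (congrFun hξ 0)
  obtain ⟨b, -, hb⟩ := hζ.eq_pow_of_pow_eq_one (ξ := ξ 1) (congrFun hξ 1)
  obtain ⟨Z, hZ1, hZ2, hZ3⟩ := conj K ρ M hM ζ hζ
  -- the order is exactly M
  have hgcd : ∀ t : ℂ, t ^ M = 1 → t ^ a = 1 → t ^ b = 1 → t = 1 := by
    have h1 : Nat.gcd (Nat.gcd a b) M = 1 := by
      obtain ⟨g, hg⟩ : ∃ g, g = Nat.gcd (Nat.gcd a b) M := ⟨_, rfl⟩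
      obtain ⟨M', hM'⟩ : g ∣ M := by rw [hg]; exact Nat.gcd_dvd_right _ _
      have hga : g ∣ a := by rw [hg]; exact (Nat.gcd_dvd_left _ _).trans (Nat.gcd_dvd_left _ _)
      have hgb : g ∣ b := by rw [hg]; exact (Nat.gcd_dvd_left _ _).trans (Nat.gcd_dvd_right _ _)
      have h2 : ξ ^ M' = 1 := by
        funext i
        fin_cases i
        · show ξ 0 ^ M' = 1
          obtain ⟨a', ha'⟩ := hga
          rw [← ha, ← pow_mul, ha', mul_right_comm, ← hM', pow_mul, hζ.pow_eq_one, one_pow]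
        · show ξ 1 ^ M' = 1
          obtain ⟨b', hb'⟩ := hgb
          rw [← hb, ← pow_mul, hb', mul_right_comm, ← hM', pow_mul, hζ.pow_eq_one, one_pow]
      have h3 := hord M' h2
      have hM'0 : 0 < M' := by
        rcases Nat.eq_zero_or_pos M' with h | h
        · rw [h, mul_zero] at hM'; omega
        · exact h
      have h4 := Nat.le_of_dvd hM'0 h3
      rw [← hg]
      have hg0 : 0 < g := by
        rcases Nat.eq_zero_or_pos g with h | h
        · rw [h, zero_mul] at hM'; omega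
        · exact h
      by_contra hne
      have : 2 ≤ g := by omega
      nlinarith
    intro t hM1 ha1 hb1
    rw [← orderOf_eq_one_iff, ← Nat.dvd_one, ← h1]
    exact Nat.dvd_gcd (Nat.dvd_gcd (orderOf_dvd_of_pow_eq_one ha1) (orderOf_dvd_of_pow_eq_one hb1))
      (orderOf_dvd_of_pow_eq_one hM1)
  -- the conjugates
  have hPZ : ∀ t ∈ Z, aeval (![ρ (z 0) * t ^ a, ρ (z 1) * t ^ b] : Fin 2 → ℂ) P = 0 := by
    obtain ⟨g, hg⟩ : ∃ g : Polynomial K, g = aeval (![Polynomial.C (z 0) * Polynomial.X ^ a,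
      Polynomial.C (z 1) * Polynomial.X ^ b] : Fin 2 → Polynomial K) P := ⟨_, rfl⟩
    have h1 : ∀ t : ℂ, Polynomial.eval₂ ρ t g =
        aeval (![ρ (z 0) * t ^ a, ρ (z 1) * t ^ b] : Fin 2 → ℂ) P := by
      intro t
      rw [hg]
      have h2 := map_aeval (![Polynomial.C (z 0) * Polynomial.X ^ a,
        Polynomial.C (z 1) * Polynomial.X ^ b] : Fin 2 → Polynomial K)
        (Polynomial.eval₂RingHom ρ t) P
      rw [Polynomial.coe_eval₂RingHom] at h2
      rw [h2, aeval_def, coe_eval₂Hom]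
      congr 1
      · exact RingHom.ext_int _ _
      · funext i
        fin_cases i <;> simp
    intro t ht
    rw [← h1]
    refine hZ3 g ?_ t ht
    rw [h1]
    rw [← hPξ]
    congr 2
    funext i
    fin_cases i
    · show ρ (z 0) * ζ ^ a = ξ 0 * ρ (z 0)
      rw [ha, mul_comm]
    · show ρ (z 1) * ζ ^ b = ξ 1 * ρ (z 1)
      rw [hb, mul_comm]
  -- the exponents
  obtain ⟨c, e, hce, hc, he, hdvd⟩ := thue M hM a b
  have hd : 0 < Int.gcd c e := by
    rw [Int.gcd_pos_iff]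
    exact hce
  obtain ⟨p, q, hpq, hcp, heq⟩ := Int.exists_gcd_one hd
  obtain ⟨d, hdd⟩ : ∃ d : ℕ, d = Int.gcd c e := ⟨_, rfl⟩
  rw [← hdd] at hd hcp heq
  obtain ⟨u, v, huv⟩ := Int.isCoprime_iff_gcd_eq_one.2 hpq
  have hD : 0 < finrank ℚ K := finrank_pos
  have hs : 2 * ω * Nat.sqrt M < Z.card := by
    by_contra hcon
    push Not at hcon
    have h1 : Nat.totient M ≤ finrank ℚ K * (2 * ω * Nat.sqrt M) :=
      hZ1.trans (Nat.mul_le_mul_left _ hcon)
    have h2 : Nat.totient M ^ 2 ≤ (finrank ℚ K * (2 * ω * Nat.sqrt M)) ^ 2 :=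
      Nat.pow_le_pow_left h1 2
    have h3 : Nat.sqrt M * Nat.sqrt M ≤ M := Nat.sqrt_le M
    have h4 : (finrank ℚ K * (2 * ω * Nat.sqrt M)) ^ 2 =
        (2 * ω * finrank ℚ K) ^ 2 * (Nat.sqrt M * Nat.sqrt M) := by ring
    rw [h4] at h2
    have h5 := Nat.mul_le_mul_left ((2 * ω * finrank ℚ K) ^ 2) h3
    omega
  have hB : d * ((p.natAbs + q.natAbs) * ω) < Z.card := by
    refine lt_of_le_of_lt ?_ hs
    have h1 : d * (p.natAbs + q.natAbs) ≤ 2 * Nat.sqrt M := by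
      have h2 : c.natAbs = p.natAbs * d := by rw [hcp, Int.natAbs_mul, Int.natAbs_natCast]
      have h3 : e.natAbs = q.natAbs * d := by rw [heq, Int.natAbs_mul, Int.natAbs_natCast]
      have h4 : d * (p.natAbs + q.natAbs) = c.natAbs + e.natAbs := by rw [h2, h3]; ring
      rw [h4]
      have h5 : c.natAbs ≤ Nat.sqrt M := by
        rw [← Int.natCast_natAbs] at hc
        exact_mod_cast hc
      have h6 : e.natAbs ≤ Nat.sqrt M := by
        rw [← Int.natCast_natAbs] at he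
        exact_mod_cast he
      omega
    calc d * ((p.natAbs + q.natAbs) * ω) = (d * (p.natAbs + q.natAbs)) * ω := by ring
      _ ≤ (2 * Nat.sqrt M) * ω := Nat.mul_le_mul_right _ h1
      _ = 2 * ω * Nat.sqrt M := by ring
  have ht0 : ∀ t : ℂ, t ^ M = 1 → t ≠ 0 := by
    rintro t ht rfl
    rw [zero_pow hM.ne'] at ht
    exact zero_ne_one ht
  obtain ⟨f, hf⟩ : ∃ f : ℂ → ℂ, f = fun t => t ^ (p * a + q * b : ℤ) := ⟨_, rfl⟩
  obtain ⟨w0, -, hw0⟩ := Finset.exists_lt_card_fiber_of_mul_lt_card_of_maps_to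
    (s := Z) (t := (Polynomial.nthRoots d (1 : ℂ)).toFinset) (f := f)
    (n := (p.natAbs + q.natAbs) * ω) (by
      intro t ht
      rw [Multiset.mem_toFinset, Polynomial.mem_nthRoots hd, hf]
      show (t ^ (p * a + q * b : ℤ)) ^ d = 1
      have h0 := ht0 t (hZ2 t ht)
      rw [← zpow_natCast, ← zpow_mul]
      have h1 : (p * a + q * b : ℤ) * (d : ℕ) = c * a + e * b := by rw [hcp, heq]; ring
      rw [h1]
      obtain ⟨k, hk⟩ := hdvd
      rw [hk, zpow_mul, zpow_natCast, hZ2 t ht, one_zpow])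
    (lt_of_le_of_lt (Nat.mul_le_mul_right _ ((Multiset.toFinset_card_le _).trans
      (Polynomial.card_nthRoots d 1))) hB)
  obtain ⟨Z', hZ'⟩ : ∃ Z' : Finset ℂ, Z' = Z.filter fun t => f t = w0 := ⟨_, rfl⟩
  rw [← hZ'] at hw0
  have hZ'm : ∀ t ∈ Z', t ∈ Z ∧ t ^ (p * a + q * b : ℤ) = w0 := by
    intro t ht
    rw [hZ', Finset.mem_filter] at ht
    refine ⟨ht.1, ?_⟩
    have := ht.2
    rw [hf] at this
    exact this
  obtain ⟨ζ₁, hζ₁⟩ : Z'.Nonempty := Finset.card_pos.1 (by omega)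
  obtain ⟨hζ₁Z, hζ₁w⟩ := hZ'm ζ₁ hζ₁
  have hζ₁0 := ht0 ζ₁ (hZ2 ζ₁ hζ₁Z)
  -- the parameter
  obtain ⟨T, hT⟩ : ∃ T : ℂ → ℂ, T = fun t => (t / ζ₁) ^ (a * v - b * u : ℤ) := ⟨_, rfl⟩
  have hr : ∀ t ∈ Z', t ≠ 0 ∧ (t / ζ₁) ^ (p * a + q * b : ℤ) = 1 := by
    intro t ht
    obtain ⟨h1, h2⟩ := hZ'm t ht
    refine ⟨ht0 t (hZ2 t h1), ?_⟩
    rw [div_zpow, h2, hζ₁w, div_self]
    rw [← hζ₁w]
    exact zpow_ne_zero _ hζ₁0
  have hTq : ∀ t ∈ Z', T t ^ q = (t / ζ₁) ^ a := by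
    intro t ht
    obtain ⟨h1, h2⟩ := hr t ht
    have h3 : t / ζ₁ ≠ 0 := div_ne_zero h1 hζ₁0
    rw [hT]
    show ((t / ζ₁) ^ (a * v - b * u : ℤ)) ^ q = _
    rw [← zpow_mul]
    have h4 : (a * v - b * u : ℤ) * q = a + (p * a + q * b) * (-u) := by
      linear_combination (a : ℤ) * huv
    rw [h4, zpow_add₀ h3, zpow_mul, h2, one_zpow, mul_one, zpow_natCast]
  have hTp : ∀ t ∈ Z', T t ^ (-p) = (t / ζ₁) ^ b := by
    intro t ht
    obtain ⟨h1, h2⟩ := hr t ht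
    have h3 : t / ζ₁ ≠ 0 := div_ne_zero h1 hζ₁0
    rw [hT]
    show ((t / ζ₁) ^ (a * v - b * u : ℤ)) ^ (-p) = _
    rw [← zpow_mul]
    have h4 : (a * v - b * u : ℤ) * (-p) = b + (p * a + q * b) * (-v) := by
      linear_combination (b : ℤ) * huv
    rw [h4, zpow_add₀ h3, zpow_mul, h2, one_zpow, mul_one, zpow_natCast]
  have hinj : Set.InjOn T Z' := by
    intro t ht t' ht' hTT
    have ht := Finset.mem_coe.1 ht
    have ht' := Finset.mem_coe.1 ht'
    have h1 := hTq t ht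
    have h2 := hTp t ht
    rw [hTT, hTq t' ht'] at h1
    rw [hTT, hTp t' ht'] at h2
    have ha0 : (t / ζ₁) ≠ 0 := div_ne_zero (hr t ht).1 hζ₁0
    have hb0 : (t' / ζ₁) ≠ 0 := div_ne_zero (hr t' ht').1 hζ₁0
    have h3 : t / t' = 1 := by
      apply hgcd
      · rw [div_pow, hZ2 t (hZ'm t ht).1, hZ2 t' (hZ'm t' ht').1, div_one]
      · rw [div_pow, div_pow] at h1
        have hz : ζ₁ ^ a ≠ 0 := pow_ne_zero _ hζ₁0
        rw [div_left_inj' hz] at h1
        rw [div_pow, h1, div_self]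
        exact pow_ne_zero _ (hr t ht).1
      · rw [div_pow, div_pow] at h2
        have hz : ζ₁ ^ b ≠ 0 := pow_ne_zero _ hζ₁0
        rw [div_left_inj' hz] at h2
        rw [div_pow, h2, div_self]
        exact pow_ne_zero _ (hr t ht).1
    exact (div_eq_one_iff_eq (hr t' ht').1).1 h3
  obtain ⟨x, hx⟩ : ∃ x : Fin 2 → ℂ, x = ![ρ (z 0) * ζ₁ ^ a, ρ (z 1) * ζ₁ ^ b] := ⟨_, rfl⟩
  have hx0 : x 0 = ρ (z 0) * ζ₁ ^ a := by rw [hx]; rfl
  have hx1 : x 1 = ρ (z 1) * ζ₁ ^ b := by rw [hx]; rfl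
  have hρ : ∀ i, ρ (z i) ≠ 0 := fun i => (map_ne_zero ρ).2 (hz i)
  obtain ⟨H, hH1, hH2, hH3⟩ := core P hP ω hdeg x (by
      intro i
      fin_cases i
      · show x 0 ≠ 0
        rw [hx0]
        exact mul_ne_zero (hρ 0) (pow_ne_zero _ hζ₁0)
      · show x 1 ≠ 0
        rw [hx1]
        exact mul_ne_zero (hρ 1) (pow_ne_zero _ hζ₁0)) p q u v huv (Z'.image T)
    (by rw [Finset.card_image_of_injOn hinj]; exact hw0) (by
      intro s hs'
      obtain ⟨t, ht, rfl⟩ := Finset.mem_image.1 hs'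
      refine ⟨?_, ?_⟩
      · rw [hT]
        exact zpow_ne_zero _ (div_ne_zero (hr t ht).1 hζ₁0)
      · rw [hTq t ht, hTp t ht, hx0, hx1]
        rw [← hPZ t (hZ'm t ht).1]
        congr 2
        have e1 : ρ (z 0) * ζ₁ ^ a * (t / ζ₁) ^ a = ρ (z 0) * t ^ a := by
          rw [mul_assoc, ← mul_pow, mul_div_cancel₀ _ hζ₁0]
        have e2 : ρ (z 1) * ζ₁ ^ b * (t / ζ₁) ^ b = ρ (z 1) * t ^ b := by
          rw [mul_assoc, ← mul_pow, mul_div_cancel₀ _ hζ₁0]
        rw [e1, e2])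
  refine ⟨![p, q], M, ?_, hM, ?_⟩
  · intro h0
    have h1 : p = 0 := congrFun h0 0
    have h2 : q = 0 := congrFun h0 1
    rw [h1, h2] at huv
    simp at huv
  · refine finrank_le K ρ _ (x 0 ^ p * x 1 ^ q) M ω ?_ H hH1 hH2 hH3
    show ρ ((z 0 ^ p * z 1 ^ q) ^ M) = _
    rw [hx0, hx1, map_pow, map_mul, map_zpow₀, map_zpow₀, mul_zpow, mul_zpow, mul_pow, mul_pow,
      mul_pow, mul_pow]
    have h1 : ζ₁ ^ M = 1 := hZ2 ζ₁ hζ₁Z
    have e1 : ∀ (k : ℕ) (l : ℤ), ((ζ₁ ^ k) ^ l) ^ M = 1 := by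
      intro k l
      rw [← zpow_natCast ζ₁ k, ← zpow_mul, ← zpow_natCast, ← zpow_mul, mul_comm, zpow_mul,
        zpow_natCast, h1, one_zpow]
    rw [e1, e1, mul_one, mul_one]

end Pool.Agent.NH69.MI
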