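import Pool.Agent.NH69.MI.Stm3

/-!
# N8. Divisibility by `p ^ T`
-/

set_option autoImplicit false

open NumberField Module MvPolynomial

namespace Pool.Agent.NH69.MI.VanAux

/-- the polynomial with coefficients `c` -/
noncomputable def Fp (J : Finset (ℕ × ℕ)) (c : ℕ × ℕ → ℤ) : MvPolynomial (Fin 2) ℤ :=
  ∑ m ∈ J, C (c m) * X 0 ^ m.1 * X 1 ^ m.2

theorem aeval_Fp {R : Type} [CommRing R] (J : Finset (ℕ × ℕ)) (c : ℕ × ℕ → ℤ) (x y : R) :
    aeval ![x, y] (Fp J c) = ev J c x y := by
  unfold Fp ev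
  rw [map_sum]
  refine Finset.sum_congr rfl fun m _ => ?_
  rw [map_mul, map_mul, map_pow, map_pow, aeval_X, aeval_X, aeval_C]
  simp

theorem degreeOf_Fp (i : Fin 2) (L : ℕ) (c : ℕ × ℕ → ℤ) : (Fp (box L) c).degreeOf i ≤ L := by
  classical
  unfold Fp
  refine (degreeOf_sum_le _ _ _).trans (Finset.sup_le fun m hm => ?_)
  have hm' : m.1 < L + 1 ∧ m.2 < L + 1 := by
    unfold box at hm
    rw [Finset.mem_product, Finset.mem_range, Finset.mem_range] at hm
    exact hm
  have e : (C (c m) * X 0 ^ m.1 * X 1 ^ m.2 : MvPolynomial (Fin 2) ℤ) =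
      monomial (Finsupp.single 0 m.1 + Finsupp.single 1 m.2) (c m) := by
    rw [X_pow_eq_monomial, X_pow_eq_monomial, C_mul_monomial, monomial_mul, mul_one, mul_one]
  rw [e]
  by_cases h0 : c m = 0
  · rw [h0, map_zero, degreeOf_zero]
    exact Nat.zero_le _
  rw [degreeOf_monomial_eq _ _ h0]
  fin_cases i
  · simp
    omega
  · simp
    omega

theorem degreeOf_le_of_dvd' {P Q : MvPolynomial (Fin 2) ℤ} (h : P ∣ Q) (hQ : Q ≠ 0) (i : Fin 2) :
    P.degreeOf i ≤ Q.degreeOf i := by
  obtain ⟨R, rfl⟩ := h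
  have hP : P ≠ 0 := left_ne_zero_of_mul hQ
  have hR : R ≠ 0 := right_ne_zero_of_mul hQ
  rw [degreeOf_mul_eq hP hR]
  omega

theorem pderiv_ne_zero {P : MvPolynomial (Fin 2) ℤ} (h : 1 ≤ P.degreeOf 0) :
    pderiv 0 P ≠ 0 ∧ (pderiv 0 P).degreeOf 0 < P.degreeOf 0 := by
  constructor
  · intro h0
    have h1 : ∃ m ∈ P.support, 1 ≤ m 0 := by
      by_contra hcon
      push Not at hcon
      have : P.degreeOf 0 ≤ 0 := by
        rw [degreeOf_le_iff]
        intro m hm
        have := hcon m hm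
        omega
      omega
    obtain ⟨m, hm, hm1⟩ := h1
    have h2 := coeff_pderiv (i := (0 : Fin 2)) P (m - Finsupp.single 0 1)
    rw [h0, coeff_zero] at h2
    have h3 : m - Finsupp.single 0 1 + Finsupp.single 0 1 = m := by
      apply tsub_add_cancel_of_le
      rw [Finsupp.single_le_iff]
      exact hm1
    rw [h3] at h2
    have h4 : coeff m P ≠ 0 := MvPolynomial.mem_support_iff.1 hm
    rcases mul_eq_zero.1 h2.symm with h5 | h5
    · exact h4 h5
    · have : (0 : ℤ) ≤ ((m - Finsupp.single 0 1 : Fin 2 →₀ ℕ) 0 : ℤ) := by positivity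
      push_cast at h5
      omega
  · rw [degreeOf_lt_iff (by omega)]
    intro m hm
    rw [MvPolynomial.mem_support_iff, coeff_pderiv] at hm
    have h1 : coeff (m + Finsupp.single 0 1) P ≠ 0 := left_ne_zero_of_mul hm
    have h2 := monomial_le_degreeOf 0 (MvPolynomial.mem_support_iff.2 h1)
    simp at h2
    omega

section

variable {K : Type} [Field K]

/-- the substitution `X 0 ↦ X`, `X 1 ↦ y` -/
noncomputable def ph (y : K) : MvPolynomial (Fin 2) ℤ →ₐ[ℤ] Polynomial K :=
  aeval ![Polynomial.X, Polynomial.C y]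

theorem eval_ph (x y : K) (G : MvPolynomial (Fin 2) ℤ) :
    (ph y G).eval x = aeval ![x, y] G := by
  unfold ph
  induction G using MvPolynomial.induction_on with
  | C a => simp
  | add p q hp hq => rw [map_add, Polynomial.eval_add, hp, hq, map_add]
  | mul_X p i hp =>
    rw [map_mul, Polynomial.eval_mul, hp, map_mul, aeval_X, aeval_X]
    fin_cases i <;> simp

theorem derivative_ph (y : K) (G : MvPolynomial (Fin 2) ℤ) :
    Polynomial.derivative (ph y G) = ph y (pderiv 0 G) := by
  unfold ph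
  induction G using MvPolynomial.induction_on with
  | C a => simp
  | add p q hp hq => rw [map_add, map_add, hp, hq, map_add, map_add]
  | mul_X p i hp =>
    rw [map_mul, Polynomial.derivative_mul, hp, pderiv_mul, map_add, map_mul, map_mul, aeval_X]
    fin_cases i <;> simp [pderiv_X]

theorem ph_Fp (J : Finset (ℕ × ℕ)) (c : ℕ × ℕ → ℤ) (y : K) :
    ph y (Fp J c) = ∑ m ∈ J, Polynomial.monomial m.1 ((c m : K) * y ^ m.2) := by
  unfold ph Fp
  rw [map_sum]
  refine Finset.sum_congr rfl fun m _ => ?_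
  rw [map_mul, map_mul, map_pow, map_pow, aeval_X, aeval_X, aeval_C]
  rw [← Polynomial.C_mul_X_pow_eq_monomial]
  simp
  ring

theorem taylor_ph (J : Finset (ℕ × ℕ)) (c : ℕ × ℕ → ℤ) (x y : K) (a : ℕ) :
    ((ph y (Fp J c)).comp (Polynomial.X + Polynomial.C x)).coeff a = dv J c a 0 x y := by
  rw [← Polynomial.taylor_apply, Polynomial.taylor_coeff, ph_Fp, map_sum,
    Polynomial.eval_finsetSum]
  unfold dv
  refine Finset.sum_congr rfl fun m _ => ?_
  rw [Polynomial.hasseDeriv_monomial, Polynomial.eval_monomial]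
  simp
  ring

theorem dvd_ph (J : Finset (ℕ × ℕ)) (c : ℕ × ℕ → ℤ) (x y : K) (T : ℕ)
    (h : ∀ a, a < T → dv J c a 0 x y = 0) :
    (Polynomial.X - Polynomial.C x) ^ T ∣ ph y (Fp J c) := by
  rw [Polynomial.X_sub_C_pow_dvd_iff, Polynomial.X_pow_dvd_iff]
  intro d hd
  rw [taylor_ph]
  exact h d hd

end

theorem range_two {K : Type} (x y : K) : Set.range ![x, y] = {x, y} := by
  ext z
  simp only [Set.mem_range, Fin.exists_fin_two, Matrix.cons_val_zero, Matrix.cons_val_one,
    Set.mem_insert_iff, Set.mem_singleton_iff, eq_comm]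

theorem main (h : S_BEZ) : S_VAN := by
  intro K _ _ x y P ω L T p c hadj hirr hP hω h0 h1 h2 hc hp
  have hadj' : Algebra.adjoin ℚ (Set.range ![(x : K), (y : K)]) = ⊤ := by
    rw [range_two]
    exact hadj
  have hP0 : P ≠ 0 := hirr.ne_zero
  have hcK : ∀ a, a < T → dv (box L) c a 0 (x : K) (y : K) = 0 := by
    intro a ha
    have h3 := congrArg (algebraMap (𝓞 K) K) (hc a ha)
    rw [map_zero] at h3
    rw [← h3]
    unfold dv
    rw [map_sum]
    refine Finset.sum_congr rfl fun m _ => ?_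
    simp
  -- the derivative
  obtain ⟨hd0, hd1⟩ := pderiv_ne_zero h0
  have hder : aeval ![(x : K), (y : K)] (pderiv 0 P) ≠ 0 := by
    intro h3
    have h4 := h K ![(x : K), (y : K)] P (pderiv 0 P) ω ω hadj' hirr hP h3 hω (fun i => ?_) h1
    · have := degreeOf_le_of_dvd' h4 hd0 0
      omega
    · rw [degreeOf_le_iff]
      intro m hm
      rw [MvPolynomial.mem_support_iff, coeff_pderiv] at hm
      have h5 : coeff (m + Finsupp.single 0 1) P ≠ 0 := left_ne_zero_of_mul hm
      have h6 := monomial_le_degreeOf i (MvPolynomial.mem_support_iff.2 h5)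
      have h7 := hω i
      rw [Finsupp.add_apply] at h6
      omega
  obtain ⟨g, hg⟩ : (Polynomial.X - Polynomial.C (x : K)) ∣ ph (y : K) P := by
    rw [Polynomial.dvd_iff_isRoot, Polynomial.IsRoot, eval_ph]
    exact hP
  have hgx : g.eval (x : K) ≠ 0 := by
    intro h3
    apply hder
    rw [← eval_ph, ← derivative_ph, hg]
    simp [Polynomial.derivative_mul, h3]
  -- divisibility by the powers of `P`
  have hdiv : ∀ j, j ≤ T → P ^ j ∣ Fp (box L) c := by
    intro j
    induction j with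
    | zero => intro _; simp
    | succ j ih =>
      intro hj
      obtain ⟨F1, hF1⟩ := ih (by omega)
      by_cases hF0 : Fp (box L) c = 0
      · rw [hF0]
        exact dvd_zero _
      have h3 : (Polynomial.X - Polynomial.C (x : K)) ^ T ∣
          (Polynomial.X - Polynomial.C (x : K)) ^ j * (g ^ j * ph (y : K) F1) := by
        have h4 := dvd_ph (box L) c (x : K) (y : K) T hcK
        rw [hF1, map_mul, map_pow, hg, mul_pow, mul_assoc] at h4
        exact h4
      have h5 : (Polynomial.X - Polynomial.C (x : K)) ∣ g ^ j * ph (y : K) F1 := by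
        have h6 : (Polynomial.X - Polynomial.C (x : K)) ^ (j + 1) ∣
            (Polynomial.X - Polynomial.C (x : K)) ^ j * (g ^ j * ph (y : K) F1) :=
          (pow_dvd_pow _ hj).trans h3
        rw [pow_succ] at h6
        exact (mul_dvd_mul_iff_left (pow_ne_zero j (Polynomial.X_sub_C_ne_zero (x : K)))).1 h6
      rw [Polynomial.dvd_iff_isRoot, Polynomial.IsRoot, Polynomial.eval_mul,
        Polynomial.eval_pow, eval_ph] at h5
      have h6 : aeval ![(x : K), (y : K)] F1 = 0 :=
        (mul_eq_zero.1 h5).resolve_left (pow_ne_zero j hgx)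
      have h7 : P ∣ F1 := by
        refine h K ![(x : K), (y : K)] P F1 ω L hadj' hirr hP h6 hω (fun i => ?_) h2
        refine (degreeOf_le_of_dvd' (Dvd.intro_left _ hF1.symm) hF0 i).trans ?_
        exact degreeOf_Fp i L c
      obtain ⟨F2, hF2⟩ := h7
      exact ⟨F2, by rw [hF1, hF2, pow_succ, mul_assoc]⟩
  obtain ⟨F2, hF2⟩ := hdiv T le_rfl
  -- Frobenius
  have hfr : ∃ Q : MvPolynomial (Fin 2) ℤ, expand p P = P ^ p + C (p : ℤ) * Q := by
    have : Fact p.Prime := ⟨hp⟩
    have h3 : C (p : ℤ) ∣ expand p P - P ^ p := by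
      rw [C_dvd_iff_zmod, map_sub, map_pow, map_expand, expand_zmod, sub_self]
    obtain ⟨Q, hQ⟩ := h3
    exact ⟨Q, by rw [← hQ]; ring⟩
  obtain ⟨Q, hQ⟩ := hfr
  have hPO : aeval ![x, y] P = (0 : 𝓞 K) := by
    apply NumberField.RingOfIntegers.coe_injective
    have h3 : ∀ G : MvPolynomial (Fin 2) ℤ, algebraMap (𝓞 K) K (aeval ![x, y] G) =
        aeval ![(x : K), (y : K)] G := by
      intro G
      induction G using MvPolynomial.induction_on with
      | C a => simp
      | add p q hp hq => rw [map_add, map_add, map_add, hp, hq]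
      | mul_X p i hp =>
        rw [map_mul, map_mul, map_mul, hp, aeval_X, aeval_X]
        fin_cases i <;> simp
    rw [h3, hP, map_zero]
  have hexp : ∀ G : MvPolynomial (Fin 2) ℤ,
      aeval ![x ^ p, y ^ p] G = (aeval ![x, y] (expand p G) : 𝓞 K) := by
    intro G
    induction G using MvPolynomial.induction_on with
    | C a => simp
    | add p q hp hq => simp only [map_add, hp, hq]
    | mul_X p i hp =>
      simp only [map_mul, hp, aeval_X, expand_X, map_pow]
      fin_cases i <;> simp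
  refine ⟨(aeval ![x, y] Q) ^ T * aeval ![x ^ p, y ^ p] F2, ?_⟩
  rw [← aeval_Fp, hF2, map_mul, map_pow, hexp P, hQ, map_add, map_pow, hPO, zero_pow hp.ne_zero,
    zero_add, map_mul, mul_pow]
  simp
  ring

end Pool.Agent.NH69.MI.VanAux

namespace Pool.Agent.NH69.MI

theorem t_van (h : S_BEZ) : S_VAN := VanAux.main h

end Pool.Agent.NH69.MI
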