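import Pool.Agent.NH69.MI.Core9
import Pool.Agent.NH69.MI.Mat2
import Pool.Agent.NH69.MI.Bez
import Pool.Agent.NH69.MI.Bezc
import Pool.Agent.NH69.MI.Fib
import Pool.Agent.NH69.MI.Ta
import Pool.Agent.NH69.MI.Pa
import Pool.Agent.NH69.MI.Pigr
import Pool.Agent.NH69.MI.Van
import Pool.Agent.NH69.MI.Dega
import Pool.Agent.NH69.MI.Sub
import Pool.Agent.NH69.MI.Pad
import Pool.Agent.NH69.MI.Gain
import Pool.Agent.NH69.MI.Ram
import Pool.Agent.NH69.MI.Disc
import Pool.Agent.NH69.MI.Span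
import Pool.Agent.NH69.MI.Crt
import Pool.Agent.NH69.MI.Pig
import Pool.Agent.NH69.MI.Prm

set_option autoImplicit false

namespace Pool.Agent.NH69.MI

theorem core2 : S_CORE2 :=
  t_core2 (t_gain t_pad) t_ram t_disc t_span t_crt t_pig t_prm t_dega t_rk
    (t_fib (t_bezc t_bez)) t_ta (t_pigr t_pa) (t_van t_bez) t_degg

theorem mat2 : S_MAT2 := t_mat2 core2

end Pool.Agent.NH69.MI
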