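import Pool.Agent.NH69.MI.Stm

/-!
# The two-variable inequality
-/

set_option autoImplicit false

open NumberField Module

namespace Pool.Agent.NH69.MI

section

variable {K : Type} [Field K] [NumberField K] {S : Finset (K →+* ℂ)} {u : ℝ} {α β : (𝓞 K)ˣ}

/-- the point `(α ^ p, β ^ p)` satisfies no relation of degree less than `u ^ 12` -/
lemma norel_num (hn : S_NOREL) (hP : Pair K S u α β) (hu : 2 ≤ u) (hD : (finrank ℚ K : ℝ) = u ^ 100)
    (hlog : Real.log (finrank ℚ K + 1) ≤ u) (hS : (S.card : ℝ) ≤ u) {p δ : ℕ} (hp : 1 ≤ p)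
    (hp2 : (p : ℝ) ≤ 2 * u ^ 5) (hδ : 1 ≤ δ) (hδ2 : (δ : ℝ) ≤ u ^ 12) :
    LinearIndependent ℚ (fun k : Fin δ × Fin δ =>
      (((α : 𝓞 K) : K) ^ p) ^ (k.1 : ℕ) * (((β : 𝓞 K) : K) ^ p) ^ (k.2 : ℕ)) := by
  refine hn K S u α β hP p δ hp hδ ?_
  have hu1 : 1 ≤ u := by linarith
  have hu0 : 0 ≤ u := by linarith
  have hS0 : (0 : ℝ) ≤ S.card := Nat.cast_nonneg _
  have hδ0 : (0 : ℝ) ≤ δ := Nat.cast_nonneg _
  have hp0 : (0 : ℝ) ≤ p := Nat.cast_nonneg _
  have h1 : √(2 * S.card * finrank ℚ K * (Real.log (finrank ℚ K + 1) + 2 + 4 * p * δ * u)) ≤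
      5 * u ^ 60 := by
    rw [Real.sqrt_le_left (by positivity)]
    have h2 : Real.log (finrank ℚ K + 1) + 2 + 4 * p * δ * u ≤ 9 * u ^ 18 := by
      have h3 : 4 * (p : ℝ) * δ * u ≤ 4 * (2 * u ^ 5) * u ^ 12 * u := by gcongr
      have h4 : 4 * (2 * u ^ 5) * u ^ 12 * u = 8 * u ^ 18 := by ring
      have h5 : u + 2 ≤ u ^ 18 := by
        have h6 : u ^ 2 ≤ u ^ 18 := pow_le_pow_right₀ hu1 (by norm_num)
        nlinarith
      linarith
    have h2' : 0 ≤ Real.log (finrank ℚ K + 1) + 2 + 4 * p * δ * u := by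
      have : 0 ≤ Real.log ((finrank ℚ K : ℝ) + 1) := by
        apply Real.log_nonneg
        have : (0 : ℝ) ≤ finrank ℚ K := Nat.cast_nonneg _
        linarith
      positivity
    calc 2 * (S.card : ℝ) * finrank ℚ K * (Real.log (finrank ℚ K + 1) + 2 + 4 * p * δ * u)
        ≤ 2 * u * u ^ 100 * (9 * u ^ 18) := by
          rw [hD] at h2 h2' ⊢
          gcongr
      _ = 18 * u ^ 119 := by ring
      _ ≤ 25 * u ^ 120 := by
          have : u ^ 119 ≤ u ^ 120 := pow_le_pow_right₀ hu1 (by norm_num)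
          have h0 : 0 ≤ u ^ 119 := by positivity
          linarith
      _ = (5 * u ^ 60) ^ 2 := by ring
  calc (δ : ℝ) ^ 2 * √(2 * S.card * finrank ℚ K * (Real.log (finrank ℚ K + 1) + 2 + 4 * p * δ * u))
      ≤ (u ^ 12) ^ 2 * (5 * u ^ 60) := by gcongr
    _ = 5 * u ^ 84 := by ring
    _ < u ^ 100 - u := by
        have h3 : (2 : ℝ) ^ 16 * u ^ 84 ≤ u ^ 100 := by
          have : u ^ 100 = u ^ 16 * u ^ 84 := by ring
          rw [this]
          gcongr
        have h4 : u ≤ u ^ 84 := le_self_pow₀ hu1 (by norm_num)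
        have h5 : 0 < u ^ 84 := by positivity
        nlinarith
    _ ≤ finrank ℚ K - S.card := by rw [hD]; linarith

/-- the bad primes are few -/
lemma bad_few (hr : S_RAM) (hd : S_DISC) (hP : Pair K S u α β) (hu : 3 ≤ u)
    (hD : (finrank ℚ K : ℝ) = u ^ 100) (hS : (S.card : ℝ) ≤ u) {L : ℕ}
    (hL : (L : ℝ) ≤ 5 * u ^ 88) (hW : W L ((α : 𝓞 K) : K) ((β : 𝓞 K) : K) = ⊤)
    (A : Finset ℕ) (hA : ∀ p ∈ A, p.Prime ∧ 2 * unr K p < finrank ℚ K)
    (hA2 : ∀ p ∈ A, u ^ 5 ≤ (p : ℝ)) : A.card ≤ 81 := by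
  classical
  have hu1 : 1 ≤ u := by linarith
  have hu0 : 0 < u := by linarith
  have hlu : 1 ≤ Real.log u := by
    rw [Real.le_log_iff_exp_le hu0]
    have := Real.exp_one_lt_d9
    linarith
  have hDpos : 0 < finrank ℚ K := finrank_pos
  have hDR : (0 : ℝ) < finrank ℚ K := by exact_mod_cast hDpos
  -- a basis of monomials
  obtain ⟨b, hbs, hbspan, hbli⟩ := exists_linearIndependent ℚ
    {z : K | ∃ i j : ℕ, i ≤ L ∧ j ≤ L ∧ z = ((α : 𝓞 K) : K) ^ i * ((β : 𝓞 K) : K) ^ j}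
  have hfin : b.Finite := LinearIndependent.setFinite hbli
  have : Fintype b := hfin.fintype
  have hspan : Submodule.span ℚ b = ⊤ := by
    rw [hbspan]
    exact hW
  have hcard : Fintype.card b = finrank ℚ K := by
    have h1 := finrank_span_set_eq_card hbli
    rw [hspan, finrank_top] at h1
    rw [h1, Set.toFinset_card]
  have hex : ∀ z : b, ∃ i j : ℕ, i ≤ L ∧ j ≤ L ∧
      (z : K) = ((α : 𝓞 K) : K) ^ i * ((β : 𝓞 K) : K) ^ j := fun z => hbs z.2
  choose i j hi hj hij using hex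
  set B : b → 𝓞 K := fun z => (α : 𝓞 K) ^ i z * (β : 𝓞 K) ^ j z with hB
  have hBval : ∀ z, ((B z : 𝓞 K) : K) = z := by
    intro z
    rw [hij z, hB]
    simp
  set Q : (K →+* ℂ) → ℝ := fun ρ => if ρ ∈ S then Real.exp (2 * L * u) else 1 with hQ
  have h1 := hd K b B Q hcard (by
      have : (fun z => ((B z : 𝓞 K) : K)) = ((↑) : b → K) := by
        funext z
        exact hBval z
      rw [this]
      exact hbli) (by
      intro ρ z
      rw [hBval, hij z, map_mul, map_pow, map_pow, norm_mul, norm_pow, norm_pow, hQ]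
      by_cases hρ : ρ ∈ S
      · simp only [hρ, if_true]
        have e1 : ‖ρ ((α : 𝓞 K) : K)‖ ≤ Real.exp u := by
          have h2 := (abs_le.mp (hP.bd1 ρ)).2
          by_cases h0 : ‖ρ ((α : 𝓞 K) : K)‖ = 0
          · rw [h0]; positivity
          · have := norm_nonneg (ρ ((α : 𝓞 K) : K))
            rwa [Real.log_le_iff_le_exp (lt_of_le_of_ne this (Ne.symm h0))] at h2
        have e2 : ‖ρ ((β : 𝓞 K) : K)‖ ≤ Real.exp u := by
          have h2 := (abs_le.mp (hP.bd2 ρ)).2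
          by_cases h0 : ‖ρ ((β : 𝓞 K) : K)‖ = 0
          · rw [h0]; positivity
          · have := norm_nonneg (ρ ((β : 𝓞 K) : K))
            rwa [Real.log_le_iff_le_exp (lt_of_le_of_ne this (Ne.symm h0))] at h2
        have h1u : 1 ≤ Real.exp u := Real.one_le_exp hu0.le
        calc ‖ρ ((α : 𝓞 K) : K)‖ ^ i z * ‖ρ ((β : 𝓞 K) : K)‖ ^ j z
            ≤ Real.exp u ^ i z * Real.exp u ^ j z := by gcongr
          _ ≤ Real.exp u ^ L * Real.exp u ^ L := by
              gcongr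
              · exact hi z
              · exact hj z
          _ = Real.exp (2 * L * u) := by
              rw [← Real.exp_nat_mul, ← Real.exp_add]
              congr 1
              ring
      · simp only [hρ, if_false]
        rw [hP.circ1 ρ hρ, hP.circ2 ρ hρ]
        simp)
  have hsumQ : ∑ ρ, Real.log (Q ρ) = S.card * (2 * L * u) := by
    have : ∀ ρ, Real.log (Q ρ) = if ρ ∈ S then 2 * (L : ℝ) * u else 0 := by
      intro ρ
      rw [hQ]
      by_cases hρ : ρ ∈ S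
      · simp [hρ]
      · simp [hρ]
    simp_rw [this]
    rw [Finset.sum_ite_mem, Finset.univ_inter, Finset.sum_const, nsmul_eq_mul]
  have h2 := hr K A hA
  have h3 : (A.card : ℝ) * (5 * Real.log u) ≤ ∑ p ∈ A, Real.log p := by
    rw [← nsmul_eq_mul]
    apply Finset.card_nsmul_le_sum
    intro p hp
    have h4 := hA2 p hp
    calc 5 * Real.log u = Real.log (u ^ 5) := by rw [Real.log_pow]; norm_num
      _ ≤ Real.log p := Real.log_le_log (by positivity) h4
  have h5 : (S.card : ℝ) * (2 * L * u) ≤ 10 * u ^ 90 := by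
    calc (S.card : ℝ) * (2 * L * u) ≤ u * (2 * (5 * u ^ 88) * u) := by gcongr
      _ = 10 * u ^ 90 := by ring
  have h6 : 20 * u ^ 90 ≤ u ^ 100 := by
    have : u ^ 100 = u ^ 10 * u ^ 90 := by ring
    rw [this]
    have h7 : (3 : ℝ) ^ 10 ≤ u ^ 10 := by gcongr
    have h8 : 0 ≤ u ^ 90 := by positivity
    nlinarith
  have hlogD : Real.log (finrank ℚ K) = 100 * Real.log u := by
    rw [hD, Real.log_pow]
    norm_num
  have h9 : (finrank ℚ K : ℝ) / 4 * (A.card * (5 * Real.log u)) ≤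
      finrank ℚ K * (100 * Real.log u + 1) := by
    calc (finrank ℚ K : ℝ) / 4 * (A.card * (5 * Real.log u))
        ≤ (finrank ℚ K : ℝ) / 4 * ∑ p ∈ A, Real.log p := by gcongr
      _ ≤ Real.log |(discr K : ℝ)| := h2
      _ ≤ finrank ℚ K * Real.log (finrank ℚ K) + 2 * ∑ ρ, Real.log (Q ρ) := h1
      _ ≤ finrank ℚ K * (100 * Real.log u) + finrank ℚ K := by
          rw [hsumQ, hlogD, hD]
          linarith
      _ = _ := by ring
  have h10 : (1 : ℝ) / 4 * (A.card * (5 * Real.log u)) ≤ 100 * Real.log u + 1 := by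
    have : (finrank ℚ K : ℝ) * (1 / 4 * (A.card * (5 * Real.log u))) ≤
        finrank ℚ K * (100 * Real.log u + 1) := by
      calc _ = (finrank ℚ K : ℝ) / 4 * (A.card * (5 * Real.log u)) := by ring
        _ ≤ _ := h9
    exact le_of_mul_le_mul_left this hDR
  by_contra hcon
  push Not at hcon
  have h11 : (82 : ℝ) ≤ A.card := by exact_mod_cast hcon
  nlinarith

/-- numerical facts for large `u` -/
lemma large : ∃ u₀ : ℝ, 10 ≤ u₀ ∧ ∀ u : ℝ, u₀ ≤ u →
    Real.log (u ^ 100 + 1) ≤ u ∧ 200000000 * Real.log u < u * (1 / 2) ∧ 10 ≤ Real.log u := by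
  have h1 : Filter.Tendsto (fun u : ℝ => Real.log u / u) Filter.atTop (nhds 0) :=
    Real.isLittleO_log_id_atTop.tendsto_div_nhds_zero
  have h2 : ∀ᶠ u : ℝ in Filter.atTop, Real.log u / u < 1 / 1000000000 :=
    h1.eventually (gt_mem_nhds (by norm_num))
  have h3 : ∀ᶠ u : ℝ in Filter.atTop, 10 ≤ Real.log u :=
    Real.tendsto_log_atTop.eventually_ge_atTop 10
  have h4 : ∀ᶠ u : ℝ in Filter.atTop, 10 ≤ u := Filter.eventually_ge_atTop 10
  obtain ⟨u₀, hu₀⟩ := Filter.eventually_atTop.1 (h2.and (h3.and h4))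
  refine ⟨max u₀ 10, le_max_right _ _, fun u hu => ?_⟩
  obtain ⟨h5, h6, h7⟩ := hu₀ u ((le_max_left _ _).trans hu)
  have hu0 : 0 < u := by linarith
  rw [div_lt_iff₀ hu0] at h5
  have hu1 : 1 ≤ u := by linarith
  refine ⟨?_, by linarith, h6⟩
  have h8 : u ^ 100 + 1 ≤ u ^ 101 := by
    have h9 : 1 ≤ u ^ 100 := one_le_pow₀ hu1
    have h10 : u ^ 101 = u * u ^ 100 := by ring
    nlinarith
  calc Real.log (u ^ 100 + 1) ≤ Real.log (u ^ 101) := Real.log_le_log (by positivity) h8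
    _ = 101 * Real.log u := by rw [Real.log_pow]; norm_num
    _ ≤ u := by linarith

end

end Pool.Agent.NH69.MI
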