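import Pool.Agent.NH69.MI.Core

/-!
# The two-variable inequality: upper bounds
-/

set_option autoImplicit false

open NumberField Module

namespace Pool.Agent.NH69.MI

section

variable {K : Type} [Field K] [NumberField K] {S : Finset (K →+* ℂ)} {u : ℝ} {α β : (𝓞 K)ˣ}

lemma Pair.le1 (hP : Pair K S u α β) (ρ : K →+* ℂ) : ‖ρ ((α : 𝓞 K) : K)‖ ≤ Real.exp u := by
  have h2 := (abs_le.mp (hP.bd1 ρ)).2
  by_cases h0 : ‖ρ ((α : 𝓞 K) : K)‖ = 0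
  · rw [h0]; positivity
  · have := norm_nonneg (ρ ((α : 𝓞 K) : K))
    rwa [Real.log_le_iff_le_exp (lt_of_le_of_ne this (Ne.symm h0))] at h2

lemma Pair.le2 (hP : Pair K S u α β) (ρ : K →+* ℂ) : ‖ρ ((β : 𝓞 K) : K)‖ ≤ Real.exp u := by
  have h2 := (abs_le.mp (hP.bd2 ρ)).2
  by_cases h0 : ‖ρ ((β : 𝓞 K) : K)‖ = 0
  · rw [h0]; positivity
  · have := norm_nonneg (ρ ((β : 𝓞 K) : K))
    rwa [Real.log_le_iff_le_exp (lt_of_le_of_ne this (Ne.symm h0))] at h2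

open Classical in
/-- the weight `exp v` on `S` -/
noncomputable def wt (S : Finset (K →+* ℂ)) (v : ℝ) (ρ : K →+* ℂ) : ℝ :=
  if ρ ∈ S then Real.exp v else 1

omit [NumberField K] in
lemma wt_pos (v : ℝ) (ρ : K →+* ℂ) : 0 < wt S v ρ := by
  unfold wt
  split_ifs
  · positivity
  · norm_num

omit [NumberField K] in
lemma one_le_wt {v : ℝ} (hv : 0 ≤ v) (ρ : K →+* ℂ) : 1 ≤ wt S v ρ := by
  unfold wt
  split_ifs
  · exact Real.one_le_exp hv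
  · exact le_rfl

lemma sum_log_wt (v : ℝ) : ∑ ρ, Real.log (wt S v ρ) = S.card * v := by
  classical
  have : ∀ ρ, Real.log (wt S v ρ) = if ρ ∈ S then v else 0 := by
    intro ρ
    unfold wt
    by_cases hρ : ρ ∈ S
    · simp [hρ]
    · simp [hρ]
  simp_rw [this]
  rw [Finset.sum_ite_mem, Finset.univ_inter, Finset.sum_const, nsmul_eq_mul]

/-- bound for a monomial -/
lemma mono_le (hP : Pair K S u α β) (hu : 0 ≤ u) (ρ : K →+* ℂ) {i j L : ℕ} (hi : i ≤ L)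
    (hj : j ≤ L) :
    ‖ρ ((α : 𝓞 K) : K)‖ ^ i * ‖ρ ((β : 𝓞 K) : K)‖ ^ j ≤ wt S (2 * L * u) ρ := by
  unfold wt
  by_cases hρ : ρ ∈ S
  · simp only [hρ, if_true]
    have h1u : 1 ≤ Real.exp u := Real.one_le_exp hu
    have e1 := hP.le1 ρ
    have e2 := hP.le2 ρ
    calc ‖ρ ((α : 𝓞 K) : K)‖ ^ i * ‖ρ ((β : 𝓞 K) : K)‖ ^ j
        ≤ Real.exp u ^ i * Real.exp u ^ j := by gcongr
      _ ≤ Real.exp u ^ L * Real.exp u ^ L := by gcongr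
      _ = Real.exp (2 * L * u) := by
          rw [← Real.exp_nat_mul, ← Real.exp_add]
          congr 1
          ring
  · simp only [hρ, if_false]
    rw [hP.circ1 ρ hρ, hP.circ2 ρ hρ]
    simp

lemma card_le_sq {J : Finset (ℕ × ℕ)} {L : ℕ} (hJ : ∀ m ∈ J, m.1 ≤ L ∧ m.2 ≤ L) :
    J.card ≤ (L + 1) ^ 2 := by
  have h1 : J ⊆ (Finset.range (L + 1)) ×ˢ (Finset.range (L + 1)) := by
    intro m hm
    rw [Finset.mem_product, Finset.mem_range, Finset.mem_range]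
    have := hJ m hm
    omega
  calc J.card ≤ _ := Finset.card_le_card h1
    _ = (L + 1) ^ 2 := by rw [Finset.card_product, Finset.card_range, sq]

lemma pig_bound (hP : Pair K S u α β) (hu : 0 ≤ u) {J : Finset (ℕ × ℕ)} {L : ℕ}
    (hJ : ∀ m ∈ J, m.1 ≤ L ∧ m.2 ≤ L) (ρ : K →+* ℂ) {a b : ℕ} (ha : a < 80) (hb : b < 80) :
    ∑ m ∈ J, (m.1.choose a : ℝ) * (m.2.choose b : ℝ) *
      ‖ρ ((α : 𝓞 K) : K)‖ ^ (m.1 - a) * ‖ρ ((β : 𝓞 K) : K)‖ ^ (m.2 - b) ≤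
    ((L : ℝ) + 1) ^ 162 * wt S (2 * L * u) ρ := by
  have hL1 : (1 : ℝ) ≤ L + 1 := by
    have : (0 : ℝ) ≤ L := Nat.cast_nonneg _
    linarith
  have hw := wt_pos (S := S) (2 * L * u) ρ
  have hch : ∀ m a : ℕ, m ≤ L → a < 80 → (m.choose a : ℝ) ≤ ((L : ℝ) + 1) ^ 80 := by
    intro m a hm ha
    calc (m.choose a : ℝ) ≤ (m : ℝ) ^ a := by exact_mod_cast Nat.choose_le_pow m a
      _ ≤ ((L : ℝ) + 1) ^ a := by
          gcongr
          have : (m : ℝ) ≤ L := by exact_mod_cast hm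
          linarith
      _ ≤ ((L : ℝ) + 1) ^ 80 := pow_le_pow_right₀ hL1 ha.le
  have h1 : ∀ m ∈ J, (m.1.choose a : ℝ) * (m.2.choose b : ℝ) *
      ‖ρ ((α : 𝓞 K) : K)‖ ^ (m.1 - a) * ‖ρ ((β : 𝓞 K) : K)‖ ^ (m.2 - b) ≤
      ((L : ℝ) + 1) ^ 160 * wt S (2 * L * u) ρ := by
    intro m hm
    obtain ⟨hm1, hm2⟩ := hJ m hm
    have e1 := hch m.1 a hm1 ha
    have e2 := hch m.2 b hm2 hb
    have e3 := mono_le hP hu ρ (i := m.1 - a) (j := m.2 - b) (L := L) (by omega) (by omega)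
    calc (m.1.choose a : ℝ) * (m.2.choose b : ℝ) *
        ‖ρ ((α : 𝓞 K) : K)‖ ^ (m.1 - a) * ‖ρ ((β : 𝓞 K) : K)‖ ^ (m.2 - b)
        = (m.1.choose a : ℝ) * (m.2.choose b : ℝ) *
        (‖ρ ((α : 𝓞 K) : K)‖ ^ (m.1 - a) * ‖ρ ((β : 𝓞 K) : K)‖ ^ (m.2 - b)) := by ring
      _ ≤ ((L : ℝ) + 1) ^ 80 * ((L : ℝ) + 1) ^ 80 * wt S (2 * L * u) ρ := by gcongr
      _ = _ := by ring
  calc _ ≤ J.card • (((L : ℝ) + 1) ^ 160 * wt S (2 * L * u) ρ) := Finset.sum_le_card_nsmul J _ _ h1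
    _ = (J.card : ℝ) * (((L : ℝ) + 1) ^ 160 * wt S (2 * L * u) ρ) := nsmul_eq_mul _ _
    _ ≤ (((L : ℝ) + 1) ^ 2) * (((L : ℝ) + 1) ^ 160 * wt S (2 * L * u) ρ) := by
        gcongr
        exact_mod_cast card_le_sq hJ
    _ = _ := by ring

lemma gain_bound (hP : Pair K S u α β) (hu : 0 ≤ u) {J : Finset (ℕ × ℕ)} {L : ℕ}
    (hJ : ∀ m ∈ J, m.1 ≤ L ∧ m.2 ≤ L) {c : ℕ × ℕ → ℤ} (hc : ∀ m, |c m| ≤ 1) (p : ℕ)
    (hF : ev J c ((α : 𝓞 K) ^ p) ((β : 𝓞 K) ^ p) ≠ 0) :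
    ∑ ρ : K →+* ℂ, Real.log ‖ρ ((ev J c ((α : 𝓞 K) ^ p) ((β : 𝓞 K) ^ p) : 𝓞 K) : K)‖ ≤
      finrank ℚ K * (2 * Real.log (L + 1)) + S.card * (2 * (p * L) * u) := by
  have hL1 : (1 : ℝ) ≤ L + 1 := by
    have : (0 : ℝ) ≤ L := Nat.cast_nonneg _
    linarith
  have h1 : ∀ ρ : K →+* ℂ, Real.log ‖ρ ((ev J c ((α : 𝓞 K) ^ p) ((β : 𝓞 K) ^ p) : 𝓞 K) : K)‖ ≤
      2 * Real.log (L + 1) + Real.log (wt S (2 * ((p * L : ℕ) : ℝ) * u) ρ) := by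
    intro ρ
    have hne : ρ ((ev J c ((α : 𝓞 K) ^ p) ((β : 𝓞 K) ^ p) : 𝓞 K) : K) ≠ 0 := by
      rw [map_ne_zero]
      exact_mod_cast hF
    have hw := wt_pos (S := S) (2 * ((p * L : ℕ) : ℝ) * u) ρ
    have h2 : ‖ρ ((ev J c ((α : 𝓞 K) ^ p) ((β : 𝓞 K) ^ p) : 𝓞 K) : K)‖ ≤
        ((L : ℝ) + 1) ^ 2 * wt S (2 * ((p * L : ℕ) : ℝ) * u) ρ := by
      have h3 : ρ ((ev J c ((α : 𝓞 K) ^ p) ((β : 𝓞 K) ^ p) : 𝓞 K) : K) =
          ∑ m ∈ J, (c m : ℂ) * ρ ((α : 𝓞 K) : K) ^ (p * m.1) * ρ ((β : 𝓞 K) : K) ^ (p * m.2) := by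
        show (ρ.comp (algebraMap (𝓞 K) K)) (ev J c ((α : 𝓞 K) ^ p) ((β : 𝓞 K) ^ p)) = _
        unfold ev
        rw [map_sum]
        refine Finset.sum_congr rfl fun m _ => ?_
        rw [map_mul, map_mul, map_pow, map_pow, map_pow, map_pow, map_intCast, ← pow_mul,
          ← pow_mul]
        rfl
      rw [h3]
      calc ‖∑ m ∈ J, (c m : ℂ) * ρ ((α : 𝓞 K) : K) ^ (p * m.1) * ρ ((β : 𝓞 K) : K) ^ (p * m.2)‖
          ≤ ∑ m ∈ J, ‖(c m : ℂ) * ρ ((α : 𝓞 K) : K) ^ (p * m.1) *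
            ρ ((β : 𝓞 K) : K) ^ (p * m.2)‖ := norm_sum_le _ _
        _ ≤ J.card • wt S (2 * ((p * L : ℕ) : ℝ) * u) ρ := by
            refine Finset.sum_le_card_nsmul J _ _ fun m hm => ?_
            obtain ⟨hm1, hm2⟩ := hJ m hm
            rw [norm_mul, norm_mul, norm_pow, norm_pow]
            have e1 : ‖(c m : ℂ)‖ ≤ 1 := by
              rw [Complex.norm_intCast]
              exact_mod_cast hc m
            have e2 := mono_le hP hu ρ (i := p * m.1) (j := p * m.2) (L := p * L)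
              (Nat.mul_le_mul_left _ hm1) (Nat.mul_le_mul_left _ hm2)
            calc ‖(c m : ℂ)‖ * ‖ρ ((α : 𝓞 K) : K)‖ ^ (p * m.1) * ‖ρ ((β : 𝓞 K) : K)‖ ^ (p * m.2)
                = ‖(c m : ℂ)‖ * (‖ρ ((α : 𝓞 K) : K)‖ ^ (p * m.1) *
                  ‖ρ ((β : 𝓞 K) : K)‖ ^ (p * m.2)) := by ring
              _ ≤ 1 * wt S (2 * ((p * L : ℕ) : ℝ) * u) ρ := by gcongr
              _ = _ := one_mul _
        _ = (J.card : ℝ) * wt S (2 * ((p * L : ℕ) : ℝ) * u) ρ := nsmul_eq_mul _ _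
        _ ≤ _ := by
            gcongr
            exact_mod_cast card_le_sq hJ
    calc Real.log ‖ρ ((ev J c ((α : 𝓞 K) ^ p) ((β : 𝓞 K) ^ p) : 𝓞 K) : K)‖
        ≤ Real.log (((L : ℝ) + 1) ^ 2 * wt S (2 * ((p * L : ℕ) : ℝ) * u) ρ) :=
          Real.log_le_log (norm_pos_iff.2 hne) h2
      _ = _ := by
          rw [Real.log_mul (by positivity) hw.ne', Real.log_pow]
          norm_num
  calc _ ≤ ∑ ρ : K →+* ℂ, (2 * Real.log (L + 1) +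
        Real.log (wt S (2 * ((p * L : ℕ) : ℝ) * u) ρ)) := Finset.sum_le_sum fun ρ _ => h1 ρ
    _ = _ := by
        rw [Finset.sum_add_distrib, sum_log_wt, Finset.sum_const, Finset.card_univ,
          NumberField.Embeddings.card, nsmul_eq_mul]
        push_cast
        ring

end

end Pool.Agent.NH69.MI
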