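import Pool.Agent.NH69.MI.Core2

/-!
# The two-variable inequality: assembly
-/

set_option autoImplicit false

open NumberField Module

namespace Pool.Agent.NH69.MI

/-- final numerical contradiction -/
lemma final_num {u v s L1 q D : ℝ} (hu : 10 ≤ u) (hv : 10 ≤ v) (hD : D = u ^ 100) (_ : 0 ≤ s)
    (hsu : s ≤ u) (hL0 : 0 ≤ L1) (hL : L1 ≤ 20 * u ^ 90) (hq : q ≤ 2 * u ^ 5) (hq0 : 0 ≤ q)
    (hlogL : Real.log (L1 + 1) ≤ 4 + 90 * v)
    (h : 80 * (D / 2) * (5 * v) ≤ D * (2 * Real.log (L1 + 1)) + s * (2 * (q * L1) * u)) : False := by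
  have hu0 : 0 ≤ u := by linarith
  have hu1 : 1 ≤ u := by linarith
  have h1 : s * (2 * (q * L1) * u) ≤ 80 * u ^ 97 := by
    calc s * (2 * (q * L1) * u) ≤ u * (2 * (2 * u ^ 5 * (20 * u ^ 90)) * u) := by gcongr
      _ = 80 * u ^ 97 := by ring
  have h2 : 80 * u ^ 97 ≤ u ^ 100 := by
    have e1 : u ^ 100 = u ^ 3 * u ^ 97 := by ring
    have e2 : (10 : ℝ) ^ 3 ≤ u ^ 3 := by gcongr
    rw [e1]
    have e3 : 0 ≤ u ^ 97 := by positivity
    nlinarith
  have hD0 : 0 < D := by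
    rw [hD]
    positivity
  have h3 : D * (200 * v) ≤ D * (2 * (4 + 90 * v) + 1) := by
    calc D * (200 * v) = 80 * (D / 2) * (5 * v) := by ring
      _ ≤ D * (2 * Real.log (L1 + 1)) + s * (2 * (q * L1) * u) := h
      _ ≤ D * (2 * (4 + 90 * v)) + D := by
          rw [← hD] at h2
          have : D * (2 * Real.log (L1 + 1)) ≤ D * (2 * (4 + 90 * v)) := by gcongr
          linarith
      _ = _ := by ring
  have h4 := le_of_mul_le_mul_left h3 hD0
  linarith

/-- numerical condition for the pigeonhole principle -/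
lemma pig_num {u v s L1 D j : ℝ} (hu : 10 ≤ u) (hv : 10 ≤ v) (hD : D = u ^ 100) (_ : 0 ≤ s)
    (hsu : s ≤ u) (hL0 : 0 ≤ L1) (hL : L1 ≤ 20 * u ^ 90)
    (hlogL : Real.log (L1 + 1) ≤ 4 + 90 * v) (hvu : 200000000 * v < u * (1 / 2))
    (hj : u * D ≤ j) :
    (80 : ℝ) ^ 2 * (2 * (D * (Real.log 6 + 162 * Real.log (L1 + 1)) + s * (2 * L1 * u))) <
      j * Real.log 2 := by
  have hu0 : 0 ≤ u := by linarith
  have hu1 : 1 ≤ u := by linarith
  have hD0 : 0 < D := by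
    rw [hD]
    positivity
  have h6 : Real.log 6 ≤ 6 := (Real.log_le_sub_one_of_pos (by norm_num)).trans (by norm_num)
  have h1 : s * (2 * L1 * u) ≤ D := by
    calc s * (2 * L1 * u) ≤ u * (2 * (20 * u ^ 90) * u) := by gcongr
      _ = 40 * u ^ 92 := by ring
      _ ≤ u ^ 100 := by
          have e1 : u ^ 100 = u ^ 8 * u ^ 92 := by ring
          have e2 : (10 : ℝ) ^ 8 ≤ u ^ 8 := by gcongr
          rw [e1]
          have e3 : 0 ≤ u ^ 92 := by positivity
          nlinarith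
      _ = D := hD.symm
  have h2 : D * (Real.log 6 + 162 * Real.log (L1 + 1)) ≤ D * (6 + 162 * (4 + 90 * v)) := by gcongr
  have h3 : (1 : ℝ) / 2 < Real.log 2 := by
    have := Real.log_two_gt_d9
    linarith
  have hj0 : 0 < j := lt_of_lt_of_le (by positivity) hj
  calc (80 : ℝ) ^ 2 * (2 * (D * (Real.log 6 + 162 * Real.log (L1 + 1)) + s * (2 * L1 * u)))
      ≤ (80 : ℝ) ^ 2 * (2 * (D * (6 + 162 * (4 + 90 * v)) + D)) := by gcongr
    _ = D * (12800 * (655 + 14580 * v)) := by ring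
    _ ≤ D * (200000000 * v) := by
        apply mul_le_mul_of_nonneg_left _ hD0.le
        linarith
    _ < D * (u * (1 / 2)) := mul_lt_mul_of_pos_left hvu hD0
    _ = (u * D) * (1 / 2) := by ring
    _ ≤ j * (1 / 2) := by gcongr
    _ ≤ j * Real.log 2 := by gcongr

theorem t_core (hg : S_GAIN) (hr : S_RAM) (hd : S_DISC) (hn : S_NOREL) (hs : S_SPAN)
    (hdeg : S_DEG) (hc : S_CRT) (hp : S_PIG) (hprm : S_PRM) : S_CORE := by
  classical
  obtain ⟨u₀, hu₀, hlarge⟩ := large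
  obtain ⟨X₀, hX₀⟩ := hprm
  refine ⟨⌈(max u₀ (X₀ + 1)) ^ 100⌉₊, ?_⟩
  intro K _ _ S u α β hD0 hu hS hgen hP
  have hDpos : 0 < finrank ℚ K := finrank_pos
  have hD : (finrank ℚ K : ℝ) = u ^ 100 := by
    rw [hu, ← Real.rpow_natCast, ← Real.rpow_mul (Nat.cast_nonneg _)]
    norm_num
  have hupos : 0 ≤ u := by rw [hu]; positivity
  clear hu
  have hmax : max u₀ ((X₀ : ℝ) + 1) ≤ u := by
    by_contra hcon
    push Not at hcon
    have h1 : u ^ 100 < (max u₀ ((X₀ : ℝ) + 1)) ^ 100 := pow_lt_pow_left₀ hcon hupos (by norm_num)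
    have h2 : (max u₀ ((X₀ : ℝ) + 1)) ^ 100 ≤ (finrank ℚ K : ℝ) := by
      refine (Nat.le_ceil _).trans ?_
      exact_mod_cast hD0
    rw [hD] at h2
    linarith
  have huu₀ : u₀ ≤ u := (le_max_left _ _).trans hmax
  have huX₀ : (X₀ : ℝ) + 1 ≤ u := (le_max_right _ _).trans hmax
  obtain ⟨hl1, hl2, hl3⟩ := hlarge u huu₀
  have hu10 : 10 ≤ u := hu₀.trans huu₀
  have hu1 : 1 ≤ u := by linarith
  have hu0 : 0 < u := by linarith
  have hu100 : 100 ≤ u ^ 2 := by nlinarith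
  obtain ⟨v, hv⟩ : ∃ v, v = Real.log u := ⟨_, rfl⟩
  rw [← hv] at hl2 hl3
  obtain ⟨D, hDdef⟩ : ∃ D : ℝ, D = (finrank ℚ K : ℝ) := ⟨_, rfl⟩
  have hDK := hD
  rw [← hDdef] at hD
  have hlog : Real.log (D + 1) ≤ u := by rw [hD]; exact hl1
  -- the shape of the relations
  set δ := ⌊u ^ 12⌋₊ with hδ
  have hδ2 : (δ : ℝ) ≤ u ^ 12 := Nat.floor_le (by positivity)
  have hδ3 : u ^ 12 / 2 ≤ (δ : ℝ) := by
    have h1 := Nat.lt_floor_add_one (u ^ 12)
    have h2 : 2 ≤ u ^ 12 := by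
      have : u ≤ u ^ 12 := le_self_pow₀ hu1 (by norm_num)
      linarith
    rw [← hδ] at h1
    linarith
  have hδpos : (0 : ℝ) < δ := lt_of_lt_of_le (by positivity) hδ3
  have hδ1 : 1 ≤ δ := by
    have : 0 < δ := by exact_mod_cast hδpos
    omega
  set L := 2 * finrank ℚ K / δ + 1 with hL
  have hLδ : 2 * finrank ℚ K ≤ L * δ := by
    rw [hL, add_mul, one_mul]
    exact (Nat.lt_div_mul_add (by omega)).le
  have hL1 : 1 ≤ L := Nat.le_add_left _ _
  have hLle : (L : ℝ) ≤ 5 * u ^ 88 := by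
    have h1 : (L : ℝ) ≤ 2 * D / δ + 1 := by
      rw [hL]
      push_cast
      have := @Nat.cast_div_le ℝ _ _ _ (2 * finrank ℚ K) δ
      push_cast at this
      rw [← hDdef] at this
      linarith
    have h2 : 2 * D / δ ≤ 4 * u ^ 88 := by
      rw [div_le_iff₀ hδpos, hD]
      calc 2 * u ^ 100 = 4 * u ^ 88 * (u ^ 12 / 2) := by ring
        _ ≤ 4 * u ^ 88 * δ := by gcongr
    have h3 : 1 ≤ u ^ 88 := one_le_pow₀ hu1
    linarith
  -- primes
  set X := ⌊u ^ 5⌋₊ with hX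
  have hX1 : (X : ℝ) ≤ u ^ 5 := Nat.floor_le (by positivity)
  have hX2 : u ^ 5 < (X : ℝ) + 1 := Nat.lt_floor_add_one _
  have hXX₀ : X₀ ≤ X := by
    rw [hX]
    apply Nat.le_floor
    have : u ≤ u ^ 5 := le_self_pow₀ hu1 (by norm_num)
    linarith
  set PR := (Finset.Ioc X (2 * X)).filter Nat.Prime with hPR
  have hPRcard := hX₀ X hXX₀
  rw [← hPR] at hPRcard
  have hPRmem : ∀ p ∈ PR, p.Prime ∧ u ^ 5 ≤ (p : ℝ) ∧ (p : ℝ) ≤ 2 * u ^ 5 := by
    intro p hp
    rw [hPR, Finset.mem_filter, Finset.mem_Ioc] at hp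
    obtain ⟨⟨h1, h2⟩, h3⟩ := hp
    have h4 : (X : ℝ) + 1 ≤ p := by exact_mod_cast h1
    have h5 : (p : ℝ) ≤ 2 * X := by exact_mod_cast h2
    exact ⟨h3, by linarith, by linarith⟩
  -- spans
  have hW : ∀ p : ℕ, 1 ≤ p → (p : ℝ) ≤ 2 * u ^ 5 →
      W L (((α : 𝓞 K) : K) ^ p) (((β : 𝓞 K) : K) ^ p) =
        Subalgebra.toSubmodule (Algebra.adjoin ℚ
          {((α : 𝓞 K) : K) ^ p, ((β : 𝓞 K) : K) ^ p}) := by
    intro p hp1 hp2
    exact hs K _ _ δ L hδ1 (norel_num hn hP (by linarith) hDK (by rw [← hDdef]; exact hlog) hS hp1 hp2 hδ1 hδ2) hLδ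
  have hW1 : W L ((α : 𝓞 K) : K) ((β : 𝓞 K) : K) = ⊤ := by
    have h1 : 1 ≤ u ^ 5 := one_le_pow₀ hu1
    have h2 := hW 1 le_rfl (by push_cast; linarith)
    rw [pow_one, pow_one, hgen] at h2
    rw [h2]
    rfl
  -- bad and good primes
  set bad := PR.filter (fun p => 2 * unr K p < finrank ℚ K) with hbad
  set good := PR.filter (fun p => ¬ 2 * unr K p < finrank ℚ K) with hgood
  have hbadcard : bad.card ≤ 81 := by
    refine bad_few hr hd hP (by linarith) hDK hS hLle hW1 bad (fun p hp => ?_) (fun p hp => ?_)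
    · rw [hbad, Finset.mem_filter] at hp
      exact ⟨(hPRmem p hp.1).1, hp.2⟩
    · rw [hbad, Finset.mem_filter] at hp
      exact (hPRmem p hp.1).2.1
  have hsplit : bad.card + good.card = PR.card :=
    Finset.card_filter_add_card_filter_not _
  set M := ⌈u ^ 2⌉₊ with hM
  have hM1 : u ^ 2 ≤ (M : ℝ) := Nat.le_ceil _
  have hM2 : (M : ℝ) < u ^ 2 + 1 := Nat.ceil_lt_add_one (sq_nonneg u)
  have hMgood : M ≤ good.card := by
    by_contra hcon
    push Not at hcon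
    have h1 : PR.card ≤ M + 81 := by omega
    have h2 : (PR.card : ℝ) ≤ 2 * u ^ 2 := by
      have h3 : (PR.card : ℝ) ≤ ((M + 81 : ℕ) : ℝ) := Nat.cast_le.2 h1
      rw [Nat.cast_add, Nat.cast_ofNat] at h3
      have h4 : (100 : ℝ) ≤ u ^ 2 := hu100
      linarith
    have h3 : (X : ℝ) ≤ (PR.card : ℝ) ^ 2 := by exact_mod_cast hPRcard
    have h4 : (PR.card : ℝ) ^ 2 ≤ (2 * u ^ 2) ^ 2 := pow_le_pow_left₀ (Nat.cast_nonneg _) h2 2
    have h5 : (2 * u ^ 2) ^ 2 + 1 ≤ u ^ 5 := by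
      have e1 : (2 * u ^ 2) ^ 2 = 4 * u ^ 4 := by ring
      have e2 : u ^ 5 = u * u ^ 4 := by ring
      have e3 : 1 ≤ u ^ 4 := one_le_pow₀ hu1
      rw [e1, e2]
      nlinarith
    linarith
  obtain ⟨A, hAgood, hAcard⟩ := Finset.exists_subset_card_eq hMgood
  have hAmem : ∀ p ∈ A, p.Prime ∧ u ^ 5 ≤ (p : ℝ) ∧ (p : ℝ) ≤ 2 * u ^ 5 ∧
      finrank ℚ K ≤ 2 * unr K p := by
    intro p hp
    have h1 := hAgood hp
    rw [hgood, Finset.mem_filter] at h1
    obtain ⟨h2, h3, h4⟩ := hPRmem p h1.1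
    exact ⟨h2, h3, h4, not_lt.1 h1.2⟩
  -- the zero estimate
  obtain ⟨ρ1, hρ1, hρ1'⟩ := hP.ind1
  have hα0 : ((α : 𝓞 K) : K) ≠ 0 := by
    have h1 : (α : 𝓞 K) ≠ 0 := α.ne_zero
    exact_mod_cast h1
  obtain ⟨J, hJ1, hJ2, hJ3⟩ := hc K ((α : 𝓞 K) : K) ((β : 𝓞 K) : K) A L hL1 hα0 ⟨ρ1, hρ1⟩
    (fun p hp => hW p (hAmem p hp).1.one_lt.le (hAmem p hp).2.2.1)
  set L1 := 2 * L * A.card with hL1def
  have hL1le : (L1 : ℝ) ≤ 20 * u ^ 90 := by
    rw [hL1def, hAcard]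
    push_cast
    have h1 : (M : ℝ) ≤ 2 * u ^ 2 := by
      have : 1 ≤ u ^ 2 := one_le_pow₀ hu1
      linarith
    calc 2 * (L : ℝ) * M ≤ 2 * (5 * u ^ 88) * (2 * u ^ 2) := by gcongr
      _ = 20 * u ^ 90 := by ring
  have hlogL : Real.log ((L1 : ℝ) + 1) ≤ 4 + 90 * v := by
    have h1 : (L1 : ℝ) + 1 ≤ 21 * u ^ 90 := by
      have : 1 ≤ u ^ 90 := one_le_pow₀ hu1
      linarith
    have h1' : (0 : ℝ) < (L1 : ℝ) + 1 := by
      have : (0 : ℝ) ≤ L1 := Nat.cast_nonneg _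
      linarith
    calc Real.log ((L1 : ℝ) + 1) ≤ Real.log (21 * u ^ 90) :=
          Real.log_le_log h1' h1
      _ = Real.log 21 + 90 * v := by
          rw [Real.log_mul (by norm_num) (pow_pos hu0 _).ne', Real.log_pow, hv]
          norm_num
      _ ≤ 4 + 90 * v := by
          have : Real.log 21 ≤ 4 := by
            rw [Real.log_le_iff_le_exp (by norm_num)]
            have h2 : Real.exp 4 = Real.exp 1 ^ 4 := by
              rw [← Real.exp_nat_mul]
              norm_num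
            have h3 := Real.exp_one_gt_d9
            rw [h2]
            calc (21 : ℝ) ≤ 2.7 ^ 4 := by norm_num
              _ ≤ Real.exp 1 ^ 4 := by gcongr; linarith
          linarith
  have hSpos : (0 : ℝ) < S.card := by
    have h1 : ρ1 ∈ S := by
      by_contra h
      exact hρ1 (hP.circ1 ρ1 h)
    have h2 : 0 < S.card := Finset.card_pos.2 ⟨ρ1, h1⟩
    exact_mod_cast h2
  have hJcard : u * D ≤ (J.card : ℝ) := by
    have h1 : A.card * finrank ℚ K ≤ S.card * J.card := by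
      calc A.card * finrank ℚ K = ∑ p ∈ A, finrank ℚ K := by
            rw [Finset.sum_const, smul_eq_mul]
        _ ≤ ∑ p ∈ A, S.card * finrank ℚ (Algebra.adjoin ℚ
            {((α : 𝓞 K) : K) ^ p, ((β : 𝓞 K) : K) ^ p} : Subalgebra ℚ K) :=
            Finset.sum_le_sum fun p hp => hdeg K S u α β hP p (hAmem p hp).1.one_lt.le
        _ = S.card * ∑ p ∈ A, finrank ℚ (Algebra.adjoin ℚ
            {((α : 𝓞 K) : K) ^ p, ((β : 𝓞 K) : K) ^ p} : Subalgebra ℚ K) := by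
            rw [Finset.mul_sum]
        _ ≤ S.card * J.card := Nat.mul_le_mul_left _ hJ3
    have h2 : (M : ℝ) * D ≤ S.card * J.card := by
      rw [← hAcard, hDdef]
      exact_mod_cast h1
    have h3 : u ^ 2 * D ≤ u * J.card := by
      calc u ^ 2 * D ≤ (M : ℝ) * D := by
            have : 0 ≤ D := by rw [hDdef]; exact Nat.cast_nonneg _
            exact mul_le_mul_of_nonneg_right hM1 this
        _ ≤ S.card * J.card := h2
        _ ≤ u * J.card := mul_le_mul_of_nonneg_right hS (Nat.cast_nonneg _)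
    have h4 : u * (u * D) ≤ u * J.card := by
      calc u * (u * D) = u ^ 2 * D := by ring
        _ ≤ _ := h3
    exact le_of_mul_le_mul_left h4 hu0
  -- the pigeonhole principle
  obtain ⟨c, hc1, ⟨m0, hm0, hc2⟩, hc3⟩ := hp K (α : 𝓞 K) (β : 𝓞 K) J 80
    (fun ρ => ((L1 : ℝ) + 1) ^ 162 * wt S (2 * L1 * u) ρ)
    (fun ρ => by
      have h1 : (1 : ℝ) ≤ ((L1 : ℝ) + 1) ^ 162 := by
        apply one_le_pow₀
        have : (0 : ℝ) ≤ L1 := Nat.cast_nonneg _
        linarith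
      have h2 := one_le_wt (S := S) (v := 2 * L1 * u)
        (mul_nonneg (mul_nonneg zero_le_two (Nat.cast_nonneg _)) hu0.le) ρ
      exact one_le_mul_of_one_le_of_one_le h1 h2)
    (fun ρ a b ha hb => pig_bound hP hu0.le hJ1 ρ ha hb) (by
      have h1 : ∑ ρ : K →+* ℂ, Real.log (6 * (((L1 : ℝ) + 1) ^ 162 * wt S (2 * L1 * u) ρ)) =
          D * (Real.log 6 + 162 * Real.log (L1 + 1)) + S.card * (2 * L1 * u) := by
        have h2 : ∀ ρ : K →+* ℂ, Real.log (6 * (((L1 : ℝ) + 1) ^ 162 * wt S (2 * L1 * u) ρ)) =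
            (Real.log 6 + 162 * Real.log (L1 + 1)) + Real.log (wt S (2 * L1 * u) ρ) := by
          intro ρ
          have hw := wt_pos (S := S) (2 * L1 * u) ρ
          have hL1' : (0 : ℝ) < ((L1 : ℝ) + 1) ^ 162 := by
            apply pow_pos
            have : (0 : ℝ) ≤ L1 := Nat.cast_nonneg _
            linarith
          rw [Real.log_mul (by norm_num) (mul_pos hL1' hw).ne', Real.log_mul hL1'.ne' hw.ne',
            Real.log_pow]
          push_cast
          ring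
        simp_rw [h2]
        rw [Finset.sum_add_distrib, sum_log_wt, Finset.sum_const, Finset.card_univ,
          NumberField.Embeddings.card, nsmul_eq_mul, hDdef]
      rw [h1]
      push_cast
      exact pig_num hu10 hl3 hD (Nat.cast_nonneg _) hS (Nat.cast_nonneg _) hL1le hlogL hl2 hJcard)
  -- a prime where the polynomial does not vanish
  obtain ⟨p, hpA, hne⟩ : ∃ p ∈ A, ev J c ((α : 𝓞 K) ^ p) ((β : 𝓞 K) ^ p) ≠ 0 := by
    by_contra hcon
    push Not at hcon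
    rw [Fintype.linearIndependent_iff] at hJ2
    have h1 := hJ2 (fun m => (c (m : ℕ × ℕ) : ℚ)) (by
      funext p
      have h2 := hcon p p.2
      have h3 : (algebraMap (𝓞 K) K) (ev J c ((α : 𝓞 K) ^ (p : ℕ)) ((β : 𝓞 K) ^ (p : ℕ))) = 0 := by
        rw [h2, map_zero]
      rw [Finset.sum_apply, Pi.zero_apply, ← h3]
      unfold ev
      rw [map_sum, ← Finset.sum_coe_sort J]
      refine Finset.sum_congr rfl fun m _ => ?_
      rw [Pi.smul_apply, map_mul, map_mul, map_intCast, map_pow, map_pow, map_pow, map_pow,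
        Algebra.smul_def, map_intCast, mul_assoc]) ⟨m0, hm0⟩
    apply hc2
    exact_mod_cast h1
  obtain ⟨hpp, hp1, hp2, hp3⟩ := hAmem p hpA
  have h1 := hg K p hpp 80 J c (α : 𝓞 K) (β : 𝓞 K) hc3 hne
  have h2 := gain_bound hP hu0.le hJ1 hc1 p hne
  have h3 : 5 * v ≤ Real.log p := by
    calc 5 * v = Real.log (u ^ 5) := by rw [Real.log_pow, hv]; norm_num
      _ ≤ Real.log p := Real.log_le_log (by positivity) hp1
  have h4 : D / 2 ≤ (unr K p : ℝ) := by
    have : D ≤ 2 * (unr K p : ℝ) := by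
      rw [hDdef]
      exact_mod_cast hp3
    linarith
  refine final_num (s := S.card) (L1 := L1) (q := p) hu10 hl3 hD (Nat.cast_nonneg _) hS
    (Nat.cast_nonneg _) hL1le hp2 (Nat.cast_nonneg _) hlogL ?_
  calc 80 * (D / 2) * (5 * v) ≤ 80 * (unr K p : ℝ) * Real.log p := by
        have hv0 : 0 ≤ v := by linarith
        gcongr
    _ ≤ _ := by
        have := h1.trans h2
        rw [← hDdef] at this
        push_cast at this
        exact this

end Pool.Agent.NH69.MI
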