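import Pool.Agent.NH69.MI.Core2
import Pool.Agent.NH69.MI.Stm3

/-!
# The sharp two-variable inequality: upper bounds
-/

set_option autoImplicit false

open NumberField Module

namespace Pool.Agent.NH69.MI

section

variable {K : Type} [Field K] [NumberField K] {S : Finset (K →+* ℂ)} {u : ℝ} {α β : (𝓞 K)ˣ}

lemma Pair2.le1 (hP : Pair2 K S u α β) (ρ : K →+* ℂ) : ‖ρ ((α : 𝓞 K) : K)‖ ≤ Real.exp u := by
  have h2 := hP.bd1 ρ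
  by_cases h0 : ‖ρ ((α : 𝓞 K) : K)‖ = 0
  · rw [h0]; positivity
  · have := norm_nonneg (ρ ((α : 𝓞 K) : K))
    rwa [Real.log_le_iff_le_exp (lt_of_le_of_ne this (Ne.symm h0))] at h2

lemma Pair2.le2 (hP : Pair2 K S u α β) (ρ : K →+* ℂ) : ‖ρ ((β : 𝓞 K) : K)‖ ≤ Real.exp u := by
  have h2 := hP.bd2 ρ
  by_cases h0 : ‖ρ ((β : 𝓞 K) : K)‖ = 0
  · rw [h0]; positivity
  · have := norm_nonneg (ρ ((β : 𝓞 K) : K))
    rwa [Real.log_le_iff_le_exp (lt_of_le_of_ne this (Ne.symm h0))] at h2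

lemma Pair2.ne1 (_ : Pair2 K S u α β) : ((α : 𝓞 K) : K) ≠ 0 := by
  have h1 : (α : 𝓞 K) ≠ 0 := α.ne_zero
  exact_mod_cast h1

lemma Pair2.ne2 (_ : Pair2 K S u α β) : ((β : 𝓞 K) : K) ≠ 0 := by
  have h1 : (β : 𝓞 K) ≠ 0 := β.ne_zero
  exact_mod_cast h1

lemma Pair2.card_pos (hP : Pair2 K S u α β) : 1 ≤ S.card := by
  obtain ⟨ρ, hρ, _⟩ := hP.ind1
  have h1 : ρ ∈ S := by
    by_contra h
    exact hρ (hP.circ1 ρ h)
  exact Finset.card_pos.2 ⟨ρ, h1⟩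

/-- bound for a monomial -/
lemma mono_le2 (hP : Pair2 K S u α β) (hu : 0 ≤ u) (ρ : K →+* ℂ) {i j L : ℕ} (hi : i ≤ L)
    (hj : j ≤ L) :
    ‖ρ ((α : 𝓞 K) : K)‖ ^ i * ‖ρ ((β : 𝓞 K) : K)‖ ^ j ≤ wt S (2 * L * u) ρ := by
  unfold wt
  by_cases hρ : ρ ∈ S
  · simp only [hρ, if_true]
    have h1u : 1 ≤ Real.exp u := Real.one_le_exp hu
    have e1 := hP.le1 ρ
    have e2 := hP.le2 ρ
    calc ‖ρ ((α : 𝓞 K) : K)‖ ^ i * ‖ρ ((β : 𝓞 K) : K)‖ ^ j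
        ≤ Real.exp u ^ i * Real.exp u ^ j := by gcongr
      _ ≤ Real.exp u ^ L * Real.exp u ^ L := by gcongr
      _ = Real.exp (2 * L * u) := by
          rw [← Real.exp_nat_mul, ← Real.exp_add]
          congr 1
          ring
  · simp only [hρ, if_false]
    rw [hP.circ1 ρ hρ, hP.circ2 ρ hρ]
    simp

lemma choose_le_T {m a L T : ℕ} (hm : m ≤ L) (ha : a < T) :
    (m.choose a : ℝ) ≤ ((L : ℝ) + 1) ^ T := by
  have hL1 : (1 : ℝ) ≤ L + 1 := by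
    have : (0 : ℝ) ≤ L := Nat.cast_nonneg _
    linarith
  calc (m.choose a : ℝ) ≤ (m : ℝ) ^ a := by exact_mod_cast Nat.choose_le_pow m a
    _ ≤ ((L : ℝ) + 1) ^ a := by
        gcongr
        have : (m : ℝ) ≤ L := by exact_mod_cast hm
        linarith
    _ ≤ ((L : ℝ) + 1) ^ T := pow_le_pow_right₀ hL1 ha.le

lemma pig_bound2 (hP : Pair2 K S u α β) (hu : 0 ≤ u) {J : Finset (ℕ × ℕ)} {L T : ℕ}
    (hJ : ∀ m ∈ J, m.1 ≤ L ∧ m.2 ≤ L) (ρ : K →+* ℂ) {a b : ℕ} (ha : a < T) (hb : b < T) :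
    ∑ m ∈ J, (m.1.choose a : ℝ) * (m.2.choose b : ℝ) *
      ‖ρ ((α : 𝓞 K) : K)‖ ^ (m.1 - a) * ‖ρ ((β : 𝓞 K) : K)‖ ^ (m.2 - b) ≤
    ((L : ℝ) + 1) ^ (2 * T + 2) * wt S (2 * L * u) ρ := by
  have hL1 : (1 : ℝ) ≤ L + 1 := by
    have : (0 : ℝ) ≤ L := Nat.cast_nonneg _
    linarith
  have hw := wt_pos (S := S) (2 * L * u) ρ
  have h1 : ∀ m ∈ J, (m.1.choose a : ℝ) * (m.2.choose b : ℝ) *
      ‖ρ ((α : 𝓞 K) : K)‖ ^ (m.1 - a) * ‖ρ ((β : 𝓞 K) : K)‖ ^ (m.2 - b) ≤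
      ((L : ℝ) + 1) ^ (2 * T) * wt S (2 * L * u) ρ := by
    intro m hm
    obtain ⟨hm1, hm2⟩ := hJ m hm
    have e1 := choose_le_T hm1 ha
    have e2 := choose_le_T hm2 hb
    have e3 := mono_le2 hP hu ρ (i := m.1 - a) (j := m.2 - b) (L := L) (by omega) (by omega)
    calc (m.1.choose a : ℝ) * (m.2.choose b : ℝ) *
        ‖ρ ((α : 𝓞 K) : K)‖ ^ (m.1 - a) * ‖ρ ((β : 𝓞 K) : K)‖ ^ (m.2 - b)
        = (m.1.choose a : ℝ) * (m.2.choose b : ℝ) *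
        (‖ρ ((α : 𝓞 K) : K)‖ ^ (m.1 - a) * ‖ρ ((β : 𝓞 K) : K)‖ ^ (m.2 - b)) := by ring
      _ ≤ ((L : ℝ) + 1) ^ T * ((L : ℝ) + 1) ^ T * wt S (2 * L * u) ρ := by gcongr
      _ = _ := by ring
  calc _ ≤ J.card • (((L : ℝ) + 1) ^ (2 * T) * wt S (2 * L * u) ρ) :=
        Finset.sum_le_card_nsmul J _ _ h1
    _ = (J.card : ℝ) * (((L : ℝ) + 1) ^ (2 * T) * wt S (2 * L * u) ρ) := nsmul_eq_mul _ _
    _ ≤ (((L : ℝ) + 1) ^ 2) * (((L : ℝ) + 1) ^ (2 * T) * wt S (2 * L * u) ρ) := by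
        gcongr
        exact_mod_cast card_le_sq hJ
    _ = _ := by ring

lemma mem_box {L : ℕ} {m : ℕ × ℕ} : m ∈ box L ↔ m.1 ≤ L ∧ m.2 ≤ L := by
  unfold box
  rw [Finset.mem_product, Finset.mem_range, Finset.mem_range]
  omega

lemma pigr_bound (hP : Pair2 K S u α β) (hu : 0 ≤ u) {L T : ℕ} (ρ : K →+* ℂ) {a : ℕ}
    (ha : a < T) :
    ∑ m ∈ box L, (m.1.choose a : ℝ) *
      ‖ρ ((α : 𝓞 K) : K)‖ ^ (m.1 - a) * ‖ρ ((β : 𝓞 K) : K)‖ ^ m.2 ≤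
    ((L : ℝ) + 1) ^ (T + 2) * wt S (2 * L * u) ρ := by
  have hL1 : (1 : ℝ) ≤ L + 1 := by
    have : (0 : ℝ) ≤ L := Nat.cast_nonneg _
    linarith
  have hw := wt_pos (S := S) (2 * L * u) ρ
  have h1 : ∀ m ∈ box L, (m.1.choose a : ℝ) *
      ‖ρ ((α : 𝓞 K) : K)‖ ^ (m.1 - a) * ‖ρ ((β : 𝓞 K) : K)‖ ^ m.2 ≤
      ((L : ℝ) + 1) ^ T * wt S (2 * L * u) ρ := by
    intro m hm
    obtain ⟨hm1, hm2⟩ := mem_box.1 hm
    have e1 := choose_le_T hm1 ha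
    have e3 := mono_le2 hP hu ρ (i := m.1 - a) (j := m.2) (L := L) (by omega) (by omega)
    calc (m.1.choose a : ℝ) *
        ‖ρ ((α : 𝓞 K) : K)‖ ^ (m.1 - a) * ‖ρ ((β : 𝓞 K) : K)‖ ^ m.2
        = (m.1.choose a : ℝ) *
        (‖ρ ((α : 𝓞 K) : K)‖ ^ (m.1 - a) * ‖ρ ((β : 𝓞 K) : K)‖ ^ m.2) := by ring
      _ ≤ ((L : ℝ) + 1) ^ T * wt S (2 * L * u) ρ := by gcongr
  calc _ ≤ (box L).card • (((L : ℝ) + 1) ^ T * wt S (2 * L * u) ρ) :=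
        Finset.sum_le_card_nsmul _ _ _ h1
    _ = ((box L).card : ℝ) * (((L : ℝ) + 1) ^ T * wt S (2 * L * u) ρ) := nsmul_eq_mul _ _
    _ ≤ (((L : ℝ) + 1) ^ 2) * (((L : ℝ) + 1) ^ T * wt S (2 * L * u) ρ) := by
        gcongr
        exact_mod_cast card_le_sq fun m hm => mem_box.1 hm
    _ = _ := by ring

lemma gain_bound2 (hP : Pair2 K S u α β) (hu : 0 ≤ u) {J : Finset (ℕ × ℕ)} {L : ℕ}
    (hJ : ∀ m ∈ J, m.1 ≤ L ∧ m.2 ≤ L) {c : ℕ × ℕ → ℤ} (hc : ∀ m, |c m| ≤ 1) (p : ℕ)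
    (hF : ev J c ((α : 𝓞 K) ^ p) ((β : 𝓞 K) ^ p) ≠ 0) :
    ∑ ρ : K →+* ℂ, Real.log ‖ρ ((ev J c ((α : 𝓞 K) ^ p) ((β : 𝓞 K) ^ p) : 𝓞 K) : K)‖ ≤
      finrank ℚ K * (2 * Real.log (L + 1)) + S.card * (2 * (p * L) * u) := by
  have hL1 : (1 : ℝ) ≤ L + 1 := by
    have : (0 : ℝ) ≤ L := Nat.cast_nonneg _
    linarith
  have h1 : ∀ ρ : K →+* ℂ, Real.log ‖ρ ((ev J c ((α : 𝓞 K) ^ p) ((β : 𝓞 K) ^ p) : 𝓞 K) : K)‖ ≤
      2 * Real.log (L + 1) + Real.log (wt S (2 * ((p * L : ℕ) : ℝ) * u) ρ) := by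
    intro ρ
    have hne : ρ ((ev J c ((α : 𝓞 K) ^ p) ((β : 𝓞 K) ^ p) : 𝓞 K) : K) ≠ 0 := by
      rw [map_ne_zero]
      exact_mod_cast hF
    have hw := wt_pos (S := S) (2 * ((p * L : ℕ) : ℝ) * u) ρ
    have h2 : ‖ρ ((ev J c ((α : 𝓞 K) ^ p) ((β : 𝓞 K) ^ p) : 𝓞 K) : K)‖ ≤
        ((L : ℝ) + 1) ^ 2 * wt S (2 * ((p * L : ℕ) : ℝ) * u) ρ := by
      have h3 : ρ ((ev J c ((α : 𝓞 K) ^ p) ((β : 𝓞 K) ^ p) : 𝓞 K) : K) =
          ∑ m ∈ J, (c m : ℂ) * ρ ((α : 𝓞 K) : K) ^ (p * m.1) * ρ ((β : 𝓞 K) : K) ^ (p * m.2) := by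
        show (ρ.comp (algebraMap (𝓞 K) K)) (ev J c ((α : 𝓞 K) ^ p) ((β : 𝓞 K) ^ p)) = _
        unfold ev
        rw [map_sum]
        refine Finset.sum_congr rfl fun m _ => ?_
        rw [map_mul, map_mul, map_pow, map_pow, map_pow, map_pow, map_intCast, ← pow_mul,
          ← pow_mul]
        rfl
      rw [h3]
      calc ‖∑ m ∈ J, (c m : ℂ) * ρ ((α : 𝓞 K) : K) ^ (p * m.1) * ρ ((β : 𝓞 K) : K) ^ (p * m.2)‖
          ≤ ∑ m ∈ J, ‖(c m : ℂ) * ρ ((α : 𝓞 K) : K) ^ (p * m.1) *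
            ρ ((β : 𝓞 K) : K) ^ (p * m.2)‖ := norm_sum_le _ _
        _ ≤ J.card • wt S (2 * ((p * L : ℕ) : ℝ) * u) ρ := by
            refine Finset.sum_le_card_nsmul J _ _ fun m hm => ?_
            obtain ⟨hm1, hm2⟩ := hJ m hm
            rw [norm_mul, norm_mul, norm_pow, norm_pow]
            have e1 : ‖(c m : ℂ)‖ ≤ 1 := by
              rw [Complex.norm_intCast]
              exact_mod_cast hc m
            have e2 := mono_le2 hP hu ρ (i := p * m.1) (j := p * m.2) (L := p * L)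
              (Nat.mul_le_mul_left _ hm1) (Nat.mul_le_mul_left _ hm2)
            calc ‖(c m : ℂ)‖ * ‖ρ ((α : 𝓞 K) : K)‖ ^ (p * m.1) * ‖ρ ((β : 𝓞 K) : K)‖ ^ (p * m.2)
                = ‖(c m : ℂ)‖ * (‖ρ ((α : 𝓞 K) : K)‖ ^ (p * m.1) *
                  ‖ρ ((β : 𝓞 K) : K)‖ ^ (p * m.2)) := by ring
              _ ≤ 1 * wt S (2 * ((p * L : ℕ) : ℝ) * u) ρ := by gcongr
              _ = _ := one_mul _
        _ = (J.card : ℝ) * wt S (2 * ((p * L : ℕ) : ℝ) * u) ρ := nsmul_eq_mul _ _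
        _ ≤ _ := by
            gcongr
            exact_mod_cast card_le_sq hJ
    calc Real.log ‖ρ ((ev J c ((α : 𝓞 K) ^ p) ((β : 𝓞 K) ^ p) : 𝓞 K) : K)‖
        ≤ Real.log (((L : ℝ) + 1) ^ 2 * wt S (2 * ((p * L : ℕ) : ℝ) * u) ρ) :=
          Real.log_le_log (norm_pos_iff.2 hne) h2
      _ = _ := by
          rw [Real.log_mul (by positivity) hw.ne', Real.log_pow]
          norm_num
  calc _ ≤ ∑ ρ : K →+* ℂ, (2 * Real.log (L + 1) +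
        Real.log (wt S (2 * ((p * L : ℕ) : ℝ) * u) ρ)) := Finset.sum_le_sum fun ρ _ => h1 ρ
    _ = _ := by
        rw [Finset.sum_add_distrib, sum_log_wt, Finset.sum_const, Finset.card_univ,
          NumberField.Embeddings.card, nsmul_eq_mul]
        push_cast
        ring

/-- the discriminant, if the monomials in a box generate the field -/
lemma disc_le (hd : S_DISC) (hP : Pair2 K S u α β) (hu : 0 ≤ u) {L : ℕ}
    (hW : W L ((α : 𝓞 K) : K) ((β : 𝓞 K) : K) = ⊤) :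
    Real.log |(discr K : ℝ)| ≤ finrank ℚ K * Real.log (finrank ℚ K) +
      2 * (S.card * (2 * L * u)) := by
  classical
  obtain ⟨b, hbs, hbspan, hbli⟩ := exists_linearIndependent ℚ
    {z : K | ∃ i j : ℕ, i ≤ L ∧ j ≤ L ∧ z = ((α : 𝓞 K) : K) ^ i * ((β : 𝓞 K) : K) ^ j}
  have hfin : b.Finite := LinearIndependent.setFinite hbli
  have : Fintype b := hfin.fintype
  have hspan : Submodule.span ℚ b = ⊤ := by
    rw [hbspan]
    exact hW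
  have hcard : Fintype.card b = finrank ℚ K := by
    have h1 := finrank_span_set_eq_card hbli
    rw [hspan, finrank_top] at h1
    rw [h1, Set.toFinset_card]
  have hex : ∀ z : b, ∃ i j : ℕ, i ≤ L ∧ j ≤ L ∧
      (z : K) = ((α : 𝓞 K) : K) ^ i * ((β : 𝓞 K) : K) ^ j := fun z => hbs z.2
  choose i j hi hj hij using hex
  set B : b → 𝓞 K := fun z => (α : 𝓞 K) ^ i z * (β : 𝓞 K) ^ j z with hB
  have hBval : ∀ z, ((B z : 𝓞 K) : K) = z := by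
    intro z
    rw [hij z, hB]
    simp
  have h1 := hd K b B (wt S (2 * L * u)) hcard (by
      have : (fun z => ((B z : 𝓞 K) : K)) = ((↑) : b → K) := by
        funext z
        exact hBval z
      rw [this]
      exact hbli) (by
      intro ρ z
      rw [hBval, hij z, map_mul, map_pow, map_pow, norm_mul, norm_pow, norm_pow]
      exact mono_le2 hP hu ρ (hi z) (hj z))
  rwa [sum_log_wt] at h1

end

end Pool.Agent.NH69.MI
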