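import Pool.Agent.NH69.MI.Core4

/-!
# The sharp two-variable inequality: no relation of small degree
-/

set_option autoImplicit false

open NumberField Module MvPolynomial

namespace Pool.Agent.NH69.MI

/-- the exponent of a monomial in two variables -/
noncomputable def ex (m : ℕ × ℕ) : Fin 2 →₀ ℕ := Finsupp.single 0 m.1 + Finsupp.single 1 m.2

lemma ex_0 (m : ℕ × ℕ) : ex m 0 = m.1 := by simp [ex]
lemma ex_1 (m : ℕ × ℕ) : ex m 1 = m.2 := by simp [ex]

lemma ex_inj : Function.Injective ex := by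
  intro m m' h
  have h0 := DFunLike.congr_fun h 0
  have h1 := DFunLike.congr_fun h 1
  rw [ex_0, ex_0] at h0
  rw [ex_1, ex_1] at h1
  exact Prod.ext h0 h1

/-- the polynomial with coefficients `c` and exponents `e` -/
noncomputable def tp {ι : Type} (J : Finset ι) (e : ι → ℕ × ℕ) (c : ι → ℤ) :
    MvPolynomial (Fin 2) ℤ := ∑ m ∈ J, monomial (ex (e m)) (c m)

lemma tp_coeff {ι : Type} (J : Finset ι) (e : ι → ℕ × ℕ) (he : Function.Injective e)
    (c : ι → ℤ) {m : ι} (hm : m ∈ J) : (tp J e c).coeff (ex (e m)) = c m := by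
  classical
  unfold tp
  rw [coeff_sum]
  rw [Finset.sum_eq_single m]
  · rw [coeff_monomial, if_pos rfl]
  · intro m' _ hne
    rw [coeff_monomial, if_neg]
    intro h
    exact hne (he (ex_inj h))
  · intro h
    exact absurd hm h

lemma tp_ne {ι : Type} (J : Finset ι) (e : ι → ℕ × ℕ) (he : Function.Injective e)
    (c : ι → ℤ) {m : ι} (hm : m ∈ J) (hc : c m ≠ 0) : tp J e c ≠ 0 := by
  intro h
  have h1 := tp_coeff J e he c hm
  rw [h, coeff_zero] at h1
  exact hc h1.symm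

lemma tp_deg {ι : Type} (J : Finset ι) (e : ι → ℕ × ℕ) (c : ι → ℤ) (L : ℕ)
    (hL : ∀ m ∈ J, (e m).1 ≤ L ∧ (e m).2 ≤ L) (i : Fin 2) : (tp J e c).degreeOf i ≤ L := by
  unfold tp
  refine (degreeOf_sum_le i J _).trans (Finset.sup_le fun m hm => ?_)
  by_cases hc : c m = 0
  · rw [hc, monomial_zero, degreeOf_zero]
    exact Nat.zero_le _
  · rw [degreeOf_monomial_eq _ _ hc]
    fin_cases i
    · change ex (e m) 0 ≤ L
      rw [ex_0]
      exact (hL m hm).1
    · change ex (e m) 1 ≤ L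
      rw [ex_1]
      exact (hL m hm).2

lemma tp_aeval {A : Type} [CommRing A] {ι : Type} (J : Finset ι) (e : ι → ℕ × ℕ) (c : ι → ℤ)
    (z : Fin 2 → A) : aeval z (tp J e c) = ∑ m ∈ J, (c m : A) * z 0 ^ (e m).1 * z 1 ^ (e m).2 := by
  unfold tp
  rw [map_sum]
  refine Finset.sum_congr rfl fun m _ => ?_
  rw [aeval_monomial, Finsupp.prod_fintype _ _ (by simp), Fin.prod_univ_two, ex_0, ex_1,
    algebraMap_int_eq, eq_intCast, mul_assoc]

section

variable {K : Type} [Field K] [NumberField K] {S : Finset (K →+* ℂ)} {u : ℝ} {x y : (𝓞 K)ˣ}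

/-- linear independence of powers, if there is no relation of small degree -/
lemma norel_li (x y : K) (ω : ℕ)
    (hno : ∀ G : MvPolynomial (Fin 2) ℤ, G ≠ 0 → (∀ i, G.degreeOf i ≤ ω) → aeval ![x, y] G ≠ 0)
    {p δ : ℕ} (hp : 1 ≤ p) (hpδ : p * δ ≤ ω) :
    LinearIndependent ℚ (fun k : Fin δ × Fin δ => (x ^ p) ^ (k.1 : ℕ) * (y ^ p) ^ (k.2 : ℕ)) := by
  classical
  rw [← LinearIndependent.iff_fractionRing ℤ ℚ, Fintype.linearIndependent_iff]
  intro g hg k
  by_contra hk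
  set e : Fin δ × Fin δ → ℕ × ℕ := fun k => (p * k.1, p * k.2) with he
  have hinj : Function.Injective e := by
    intro a b hab
    rw [he] at hab
    simp only [Prod.mk.injEq] at hab
    obtain ⟨h1, h2⟩ := hab
    have h3 := Nat.eq_of_mul_eq_mul_left (by omega) h1
    have h4 := Nat.eq_of_mul_eq_mul_left (by omega) h2
    exact Prod.ext (Fin.ext h3) (Fin.ext h4)
  refine hno (tp Finset.univ e g) (tp_ne _ e hinj g (Finset.mem_univ k) hk)
    (tp_deg _ e g ω fun m _ => ?_) ?_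
  · rw [he]
    refine ⟨(Nat.mul_le_mul_left p m.1.2.le).trans hpδ, (Nat.mul_le_mul_left p m.2.2.le).trans hpδ⟩
  · rw [tp_aeval, ← hg]
    refine Finset.sum_congr rfl fun m _ => ?_
    rw [zsmul_eq_mul, he]
    simp only [Matrix.cons_val_zero, Matrix.cons_val_one, Matrix.cons_val_fin_one]
    rw [pow_mul, pow_mul, mul_assoc]

/-- the numerical situation -/
structure Env (K : Type) [Field K] [NumberField K] (S : Finset (K →+* ℂ)) (u : ℝ) (k X₀ : ℕ) :
    Prop where
  hu : 1000 ≤ u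
  hX : (X₀ : ℝ) + 1 ≤ u
  hS : (S.card : ℝ) ^ 2 * u ^ 100 ≤ finrank ℚ K
  hD : (finrank ℚ K : ℝ) + 1 ≤ u ^ k
  hbig : 10 ^ 6 * ((k : ℝ) + 3) ^ 3 * Real.log u ≤ u
  hl : 1 ≤ Real.log u

lemma Env.log_le {k X₀ : ℕ} (hE : Env K S u k X₀) {L : ℝ} (h0 : 0 ≤ L) (hL : L ≤ finrank ℚ K) :
    Real.log (L + 1) ≤ k * Real.log u := by
  rw [← Real.log_pow]
  exact Real.log_le_log (by linarith) (by linarith [hE.hD])

end

end Pool.Agent.NH69.MI
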