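import Pool.Agent.NH69.MI.Core5
import Pool.Agent.NH69.MI.Gain

/-!
# The sharp two-variable inequality: tools for the case with a relation of small degree
-/

set_option autoImplicit false

open NumberField Module MvPolynomial

namespace Pool.Agent.NH69.MI

/-- an irreducible factor which vanishes at the point -/
lemma exists_irred {K : Type} [Field K] [CharZero K] (z : Fin 2 → K) (G : MvPolynomial (Fin 2) ℤ)
    (hG : G ≠ 0) (hz : aeval z G = 0) :
    ∃ P : MvPolynomial (Fin 2) ℤ, Irreducible P ∧ aeval z P = 0 ∧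
      ∀ i, P.degreeOf i ≤ G.degreeOf i := by
  classical
  obtain ⟨f, hf, hfG⟩ := WfDvdMonoid.exists_factors G hG
  have h1 : aeval z f.prod = 0 := by
    obtain ⟨w, hw⟩ := hfG
    have h2 : aeval z f.prod * aeval z (w : MvPolynomial (Fin 2) ℤ) = 0 := by
      rw [← map_mul, hw, hz]
    rcases mul_eq_zero.1 h2 with h3 | h3
    · exact h3
    · have h4 : IsUnit (aeval z (w : MvPolynomial (Fin 2) ℤ)) := w.isUnit.map (aeval z)
      exact absurd h3 h4.ne_zero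
  rw [map_multiset_prod, Multiset.prod_eq_zero_iff, Multiset.mem_map] at h1
  obtain ⟨P, hP, hPz⟩ := h1
  refine ⟨P, hf P hP, hPz, fun i => ?_⟩
  obtain ⟨Q, hQ⟩ := (Multiset.dvd_prod hP).trans hfG.dvd
  have hP0 : P ≠ 0 := (hf P hP).ne_zero
  have hQ0 : Q ≠ 0 := by
    rintro rfl
    rw [mul_zero] at hQ
    exact hG hQ
  rw [hQ, degreeOf_mul_eq hP0 hQ0]
  exact Nat.le_add_right _ _

/-- polynomials of degree `0` in the first variable -/
lemma aeval_congr_1 {A : Type} [CommRing A] (P : MvPolynomial (Fin 2) ℤ) (h : P.degreeOf 0 = 0)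
    (z z' : Fin 2 → A) (hz : z 1 = z' 1) : aeval z P = aeval z' P := by
  have h1 : ∀ m ∈ P.support, m 0 = 0 := by
    intro m hm
    have := monomial_le_degreeOf 0 hm
    omega
  rw [aeval_def, aeval_def, eval₂_eq', eval₂_eq']
  refine Finset.sum_congr rfl fun m hm => ?_
  rw [Fin.prod_univ_two, Fin.prod_univ_two, h1 m hm, hz, pow_zero, pow_zero]

/-- Bernoulli type bound -/
lemma sq_bound {u q : ℝ} (hu : 1000 ≤ u) (hq : u ^ 5 ≤ q) : q * u ^ 4 ≤ (q - 1) ^ 2 := by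
  have hu1 : 1 ≤ u := by linarith
  have h1 : u ^ 4 * 1 ≤ u ^ 4 * u := by gcongr
  have h2 : u ^ 5 = u ^ 4 * u := by ring
  have h3 : 1 ≤ u ^ 4 := one_le_pow₀ hu1
  have h4 : u ^ 4 + 2 ≤ q := by nlinarith
  have h5 : 0 ≤ q := by linarith
  nlinarith

/-- torsion points of large order which translate a zero of `P` into a zero of `P` -/
lemma tors_exists (P : MvPolynomial (Fin 2) ℤ) {u : ℝ} (hu : 1000 ≤ u) (A : Finset ℕ)
    (hA : ∀ p ∈ A, p.Prime ∧ u ^ 5 ≤ (p : ℝ))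
    (hfib : ∀ p ∈ A, ∀ z' : Fin 2 → ℂ, aeval z' P = 0 →
      ∃ ξ : Fin 2 → ℂ, (∀ i, ξ i ^ p = 1) ∧ ξ ≠ 1 ∧ aeval (fun i => ξ i * z' i) P = 0)
    (z : Fin 2 → ℂ) (hz : aeval z P = 0) :
    ∃ (M : ℕ) (ξ : Fin 2 → ℂ), 0 < M ∧ ξ ^ M = 1 ∧ (∀ k : ℕ, ξ ^ k = 1 → M ∣ k) ∧
      aeval (fun i => ξ i * z i) P = 0 ∧ (∀ q : ℕ, q.Prime → q ∣ M → q ∈ A) ∧
      (M : ℝ) * (u ^ 4) ^ A.card ≤ (Nat.totient M : ℝ) ^ 2 := by
  classical
  induction A using Finset.induction_on with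
  | empty =>
    refine ⟨1, 1, one_pos, by simp, fun k _ => one_dvd k, ?_, ?_, by simp⟩
    · simpa using hz
    · intro q hq hq1
      exact absurd (Nat.dvd_one.1 hq1) hq.one_lt.ne'
  | insert q A hqA ih =>
    obtain ⟨M, ξ, hM, h1, h2, h3, h4, h5⟩ := ih (fun p hp => hA p (Finset.mem_insert_of_mem hp))
      (fun p hp => hfib p (Finset.mem_insert_of_mem hp))
    obtain ⟨hq, hqu⟩ := hA q (Finset.mem_insert_self _ _)
    obtain ⟨ξ', g1, g2, g3⟩ := hfib q (Finset.mem_insert_self _ _) _ h3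
    have hqM : ¬ q ∣ M := fun h => hqA (h4 q hq h)
    have hcop : Nat.Coprime M q := (Nat.Coprime.symm ((Nat.Prime.coprime_iff_not_dvd hq).2 hqM))
    have hξ'q : ξ' ^ q = 1 := by
      funext i
      exact g1 i
    have hξ'dvd : ∀ k : ℕ, ξ' ^ k = 1 → q ∣ k := by
      intro k hk
      rcases (Nat.dvd_prime hq).1 (orderOf_dvd_of_pow_eq_one hξ'q) with h | h
      · rw [orderOf_eq_one_iff] at h
        exact absurd h g2
      · rw [← h]
        exact orderOf_dvd_of_pow_eq_one hk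
    refine ⟨M * q, ξ' * ξ, Nat.mul_pos hM hq.pos, ?_, ?_, ?_, ?_, ?_⟩
    · rw [mul_pow]
      have e1 : ξ' ^ (M * q) = 1 := by rw [mul_comm, pow_mul, hξ'q, one_pow]
      have e2 : ξ ^ (M * q) = 1 := by rw [pow_mul, h1, one_pow]
      rw [e1, e2, one_mul]
    · intro k hk
      rw [mul_pow] at hk
      refine Nat.Coprime.mul_dvd_of_dvd_of_dvd hcop ?_ ?_
      · have e1 : ξ ^ (k * q) = 1 := by
          have e2 : (ξ' ^ k * ξ ^ k) ^ q = 1 := by rw [hk, one_pow]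
          rw [mul_pow, ← pow_mul, ← pow_mul, mul_comm k q, pow_mul ξ', hξ'q, one_pow,
            one_mul] at e2
          rw [mul_comm]
          exact e2
        exact hcop.dvd_of_dvd_mul_right (h2 _ e1)
      · have e1 : ξ' ^ (k * M) = 1 := by
          have e2 : (ξ' ^ k * ξ ^ k) ^ M = 1 := by rw [hk, one_pow]
          rw [mul_pow, ← pow_mul, ← pow_mul, mul_comm k M, pow_mul ξ, h1, one_pow,
            mul_one] at e2
          rw [mul_comm]
          exact e2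
        exact hcop.symm.dvd_of_dvd_mul_right (hξ'dvd _ e1)
    · have e1 : (fun i => (ξ' * ξ) i * z i) = fun i => ξ' i * (ξ i * z i) := by
        funext i
        rw [Pi.mul_apply, mul_assoc]
      rw [e1]
      exact g3
    · intro r hr hrM
      rcases (Nat.Prime.dvd_mul hr).1 hrM with h | h
      · exact Finset.mem_insert_of_mem (h4 r hr h)
      · rw [(Nat.prime_dvd_prime_iff_eq hr hq).1 h]
        exact Finset.mem_insert_self _ _
    · rw [Finset.card_insert_of_notMem hqA, Nat.totient_mul hcop, Nat.totient_prime hq]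
      push_cast
      rw [Nat.cast_sub hq.one_lt.le]
      push_cast
      calc (M : ℝ) * q * (u ^ 4) ^ (A.card + 1) = ((M : ℝ) * (u ^ 4) ^ A.card) * (q * u ^ 4) := by
            ring
        _ ≤ (Nat.totient M : ℝ) ^ 2 * (q - 1) ^ 2 := by
            have := sq_bound hu hqu
            have h0 : 0 ≤ (q : ℝ) * u ^ 4 := by positivity
            gcongr
        _ = _ := by ring

section

variable {K : Type} [Field K] [NumberField K] {S : Finset (K →+* ℂ)} {u : ℝ} {x y : (𝓞 K)ˣ}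

/-- no torsion translate of large order -/
lemma tors_false (hta : S_TA) (hdegg : S_DEGG) (hP : Pair2 K S u x y)
    (P : MvPolynomial (Fin 2) ℤ) (ω M : ℕ) (ρ : K →+* ℂ) (ξ : Fin 2 → ℂ) (hP0 : P ≠ 0)
    (hω : ∀ i, P.degreeOf i ≤ ω) (hM : 0 < M) (h1 : ξ ^ M = 1) (h2 : ∀ k : ℕ, ξ ^ k = 1 → M ∣ k)
    (h3 : aeval (fun i => ξ i * ρ (![((x : 𝓞 K) : K), ((y : 𝓞 K) : K)] i)) P = 0)
    (h4 : (2 * ω * finrank ℚ K) ^ 2 * M < Nat.totient M ^ 2)
    (h5 : S.card * ω < finrank ℚ K) : False := by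
  obtain ⟨c, N, hc, hN, hle⟩ := hta K ![((x : 𝓞 K) : K), ((y : 𝓞 K) : K)] P ω M ρ ξ (by
    intro i
    fin_cases i
    · exact hP.ne1
    · exact hP.ne2) hP0 hω hM h1 h2 h3 h4
  simp only [Matrix.cons_val_zero, Matrix.cons_val_one] at hle
  have hval : ∀ ρ : K →+* ℂ, ‖ρ ((((x : 𝓞 K) : K) ^ c 0 * ((y : 𝓞 K) : K) ^ c 1) ^ N)‖ =
      (‖ρ ((x : 𝓞 K) : K)‖ ^ c 0 * ‖ρ ((y : 𝓞 K) : K)‖ ^ c 1) ^ N := by
    intro ρ
    rw [map_pow, map_mul, map_zpow₀, map_zpow₀, norm_pow, norm_mul, norm_zpow, norm_zpow]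
  have h6 := hdegg K S ((((x : 𝓞 K) : K) ^ c 0 * ((y : 𝓞 K) : K) ^ c 1) ^ N) (by
    intro ρ hρ
    rw [hval, hP.circ1 ρ hρ, hP.circ2 ρ hρ]
    simp) (by
    have key : ∀ (a : ℝ) (n : ℤ), 0 ≤ a → a ≠ 1 → n ≠ 0 → (a ^ n) ^ N ≠ 1 := by
      intro a n ha ha1 hn h
      have e1 : a ^ (n * N) = 1 := by
        rw [zpow_mul, zpow_natCast]
        exact h
      rw [zpow_eq_one_iff_right₀ ha ha1] at e1
      rcases mul_eq_zero.1 e1 with e2 | e2
      · exact hn e2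
      · have : N = 0 := by exact_mod_cast e2
        omega
    by_cases h0 : c 0 = 0
    · have h0' : c 1 ≠ 0 := by
        intro h
        apply hc
        funext i
        fin_cases i
        · exact h0
        · exact h
      obtain ⟨ρ, g1, g2⟩ := hP.ind2
      refine ⟨ρ, ?_⟩
      rw [hval, g2, one_zpow, one_mul]
      exact key _ _ (norm_nonneg _) g1 h0'
    · obtain ⟨ρ, g1, g2⟩ := hP.ind1
      refine ⟨ρ, ?_⟩
      rw [hval, g2, one_zpow, mul_one]
      exact key _ _ (norm_nonneg _) g1 h0)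
  have h7 : S.card * finrank ℚ (IntermediateField.adjoin ℚ
      {(((x : 𝓞 K) : K) ^ c 0 * ((y : 𝓞 K) : K) ^ c 1) ^ N}) ≤ S.card * ω :=
    Nat.mul_le_mul_left _ hle
  omega

/-- the degree in the first variable is positive -/
lemma deg0_pos (hta : S_TA) (hdegg : S_DEGG) (hP : Pair2 K S u x y)
    (P : MvPolynomial (Fin 2) ℤ) (ω : ℕ) (hP0 : P ≠ 0)
    (hω : ∀ i, P.degreeOf i ≤ ω) (hPz : aeval ![((x : 𝓞 K) : K), ((y : 𝓞 K) : K)] P = 0)
    (h5 : S.card * ω < finrank ℚ K) : 1 ≤ P.degreeOf 0 := by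
  by_contra hcon
  have h0 : P.degreeOf 0 = 0 := by omega
  obtain ⟨M, hM1, hM2⟩ := Nat.exists_infinite_primes ((2 * ω * finrank ℚ K) ^ 2 + 3)
  obtain ⟨ρ, _⟩ := hP.ind1
  have hprim := Complex.isPrimitiveRoot_exp M hM2.ne_zero
  refine tors_false hta hdegg hP P ω M ρ ![Complex.exp (2 * Real.pi * Complex.I / M), 1] hP0 hω
    hM2.pos ?_ ?_ ?_ ?_ h5
  · funext i
    fin_cases i
    · exact hprim.pow_eq_one
    · exact one_pow M
  · intro k hk
    have h1 := congrFun hk 0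
    rw [Pi.pow_apply] at h1
    exact hprim.dvd_of_pow_eq_one k h1
  · rw [aeval_congr_1 P h0 _ (fun i => ρ (![((x : 𝓞 K) : K), ((y : 𝓞 K) : K)] i)) (by simp)]
    have h1 : ρ (aeval ![((x : 𝓞 K) : K), ((y : 𝓞 K) : K)] P) =
        aeval (fun i => ρ (![((x : 𝓞 K) : K), ((y : 𝓞 K) : K)] i)) P := by
      rw [aeval_def, aeval_def, hom_eval₂]
      congr 1
      exact RingHom.ext_int _ _
    rw [← h1, hPz, map_zero]
  · rw [Nat.totient_prime hM2]
    obtain ⟨m, rfl⟩ : ∃ m, M = m + 1 := ⟨M - 1, by omega⟩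
    rw [Nat.add_sub_cancel]
    have h1 : (2 * ω * finrank ℚ K) ^ 2 + 2 ≤ m := by omega
    nlinarith

end

end Pool.Agent.NH69.MI
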