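import Pool.Agent.NH69.MI.Stm

/-!
# The energy estimate for conjugates (`S_ENER`)
-/

set_option autoImplicit false

open NumberField Module

namespace Pool.Agent.NH69.MI

namespace Ener

section
open Finset

/-- the distance of two points of the unit circle and the smoothed kernel -/
theorem kern {z : ℂ} (hz : ‖z‖ = 1) {r : ℝ} (hr0 : 0 < r) (_hr1 : r < 1) :
    √r * ‖1 - z‖ ≤ ‖1 - (r : ℂ) * z‖ := by
  have h1 : ‖1 - z‖ ^ 2 = 2 - 2 * z.re := by
    rw [← Complex.normSq_eq_norm_sq, Complex.normSq_apply]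
    have h2 : z.re * z.re + z.im * z.im = 1 := by
      rw [← Complex.normSq_apply, Complex.normSq_eq_norm_sq, hz, one_pow]
    simp only [Complex.sub_re, Complex.sub_im, Complex.one_re, Complex.one_im]
    nlinarith
  have h3 : ‖1 - (r : ℂ) * z‖ ^ 2 = 1 + r ^ 2 - 2 * r * z.re := by
    rw [← Complex.normSq_eq_norm_sq, Complex.normSq_apply]
    have h2 : z.re * z.re + z.im * z.im = 1 := by
      rw [← Complex.normSq_apply, Complex.normSq_eq_norm_sq, hz, one_pow]
    simp only [Complex.sub_re, Complex.sub_im, Complex.one_re, Complex.one_im, Complex.mul_re,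
      Complex.mul_im, Complex.ofReal_re, Complex.ofReal_im]
    have : (1 - (r * z.re - 0 * z.im)) * (1 - (r * z.re - 0 * z.im)) +
      (0 - (r * z.im + 0 * z.re)) * (0 - (r * z.im + 0 * z.re)) =
      1 - 2 * r * z.re + r ^ 2 * (z.re * z.re + z.im * z.im) := by ring
    rw [this, h2]
    ring
  apply le_of_sq_le_sq _ (norm_nonneg _)
  rw [mul_pow, Real.sq_sqrt hr0.le, h1, h3]
  nlinarith [sq_nonneg (1 - r)]

/-- positivity of the logarithmic kernel -/
theorem posi {ι : Type} (U : Finset ι) (g : ι → ℂ) (h1 : ∀ i ∈ U, ‖g i‖ = 1) {r : ℝ}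
    (hr0 : 0 < r) (hr1 : r < 1) :
    r * ‖∑ i ∈ U, g i‖ ^ 2 ≤
      ∑ q ∈ U ×ˢ U, -Real.log ‖1 - (r : ℂ) * (g q.1 * (starRingEnd ℂ) (g q.2))‖ := by
  have hz : ∀ q ∈ U ×ˢ U, ‖(r : ℂ) * (g q.1 * (starRingEnd ℂ) (g q.2))‖ < 1 := by
    intro q hq
    obtain ⟨hq1, hq2⟩ := mem_product.1 hq
    rw [norm_mul, norm_mul, RCLike.norm_conj, h1 _ hq1, h1 _ hq2, Complex.norm_real,
      Real.norm_eq_abs, abs_of_pos hr0]
    linarith
  have hs : HasSum (fun n : ℕ => ∑ q ∈ U ×ˢ U,
      (((r : ℂ) * (g q.1 * (starRingEnd ℂ) (g q.2))) ^ n / n).re)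
      (∑ q ∈ U ×ˢ U, (-Complex.log (1 - (r : ℂ) * (g q.1 * (starRingEnd ℂ) (g q.2)))).re) :=
    hasSum_sum fun q hq => Complex.hasSum_re (Complex.hasSum_taylorSeries_neg_log (hz q hq))
  have hterm : ∀ n : ℕ, ∑ q ∈ U ×ˢ U,
      (((r : ℂ) * (g q.1 * (starRingEnd ℂ) (g q.2))) ^ n / n).re =
      r ^ n / n * ‖∑ i ∈ U, g i ^ n‖ ^ 2 := by
    intro n
    have e1 : ((r ^ n / n * ‖∑ i ∈ U, g i ^ n‖ ^ 2 : ℝ) : ℂ) =
        ∑ q ∈ U ×ˢ U, ((r : ℂ) * (g q.1 * (starRingEnd ℂ) (g q.2))) ^ n / n := by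
      have e2 : ((‖∑ i ∈ U, g i ^ n‖ ^ 2 : ℝ) : ℂ) =
          (∑ i ∈ U, g i ^ n) * (starRingEnd ℂ) (∑ i ∈ U, g i ^ n) := by
        rw [Complex.mul_conj, Complex.normSq_eq_norm_sq]
      rw [Complex.ofReal_mul, e2, map_sum, sum_mul_sum, ← sum_product', mul_sum]
      refine sum_congr rfl fun q _ => ?_
      rw [map_pow]
      push_cast
      ring
    rw [← Complex.re_sum, ← e1, Complex.ofReal_re]
  simp only [hterm] at hs
  have h2 := le_hasSum hs 1 (fun n _ => by positivity)
  simp only [pow_one, Nat.cast_one, div_one] at h2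
  refine h2.trans (le_of_eq ?_)
  refine sum_congr rfl fun q _ => ?_
  rw [Complex.neg_re, Complex.log_re]

theorem core {ι : Type} [Fintype ι] [DecidableEq ι] (g : ι → ℂ) (S : Finset ι) (Y : ℝ)
    (hY : 1 ≤ Y) (h1 : ∀ i, i ∉ S → ‖g i‖ = 1) (h2 : ∀ i, ‖g i‖ ≤ Y) (hS : 1 ≤ S.card)
    (hm : ∀ i, (univ.filter (fun j => g j = g i)).card ≤ S.card)
    (hd : 0 ≤ ∑ q ∈ (univ : Finset (ι × ι)).filter (fun q => g q.1 ≠ g q.2),
      Real.log ‖g q.1 - g q.2‖) :
    ‖∑ i ∈ Sᶜ, g i‖ ^ 2 ≤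
      2 * S.card * Fintype.card ι * (Real.log (Fintype.card ι + 1) + 2 + 2 * Real.log Y) := by
  set U : Finset ι := Sᶜ with hU
  have hmemU : ∀ i, i ∈ U ↔ i ∉ S := fun i => by rw [hU, mem_compl]
  set D : ℝ := (Fintype.card ι : ℝ) with hD
  set s : ℝ := (S.card : ℝ) with hs
  have hs1 : 1 ≤ s := by rw [hs]; exact_mod_cast hS
  have hsD : s ≤ D := by
    rw [hs, hD]
    exact_mod_cast card_le_univ S
  have hD1 : 1 ≤ D := hs1.trans hsD
  have hD0 : 0 < D := by linarith
  set r : ℝ := D / (D + 1) with hr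
  have hr0 : 0 < r := by positivity
  have hr1 : r < 1 := by
    rw [hr, div_lt_one (by positivity)]
    linarith
  have hrh : 1 / 2 ≤ r := by
    rw [hr, le_div_iff₀ (by positivity)]
    linarith
  have hlogY : 0 ≤ Real.log Y := Real.log_nonneg hY
  have hlogD : 0 ≤ Real.log (D + 1) := Real.log_nonneg (by linarith)
  have hposi := posi U g (fun i hi => h1 i ((hmemU i).1 hi)) hr0 hr1
  -- the bound of every term
  have hterm : ∀ q ∈ U ×ˢ U, -Real.log ‖1 - (r : ℂ) * (g q.1 * (starRingEnd ℂ) (g q.2))‖ ≤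
      (if g q.1 = g q.2 then Real.log (D + 1) else 1 / (2 * D) - Real.log ‖g q.1 - g q.2‖) := by
    intro q hq
    obtain ⟨hq1, hq2⟩ := mem_product.1 hq
    have n1 := h1 _ ((hmemU _).1 hq1)
    have n2 := h1 _ ((hmemU _).1 hq2)
    have hz : ‖g q.1 * (starRingEnd ℂ) (g q.2)‖ = 1 := by
      rw [norm_mul, RCLike.norm_conj, n1, n2, one_mul]
    by_cases he : g q.1 = g q.2
    · rw [if_pos he, he, Complex.mul_conj, Complex.normSq_eq_norm_sq, n2]
      have : (1 : ℂ) - (r : ℂ) * (((1 : ℝ) ^ 2 : ℝ) : ℂ) = ((1 - r : ℝ) : ℂ) := by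
        push_cast
        ring
      rw [this, Complex.norm_real, Real.norm_eq_abs, abs_of_pos (by linarith)]
      have h3 : 1 - r = (D + 1)⁻¹ := by
        rw [hr]
        field_simp
        ring
      rw [h3, Real.log_inv, neg_neg]
    · rw [if_neg he]
      have h3 := kern hz hr0 hr1
      have h4 : ‖1 - g q.1 * (starRingEnd ℂ) (g q.2)‖ = ‖g q.1 - g q.2‖ := by
        have h5 : g q.2 * (starRingEnd ℂ) (g q.2) = 1 := by
          rw [Complex.mul_conj, Complex.normSq_eq_norm_sq, n2]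
          simp
        have h6 : 1 - g q.1 * (starRingEnd ℂ) (g q.2) =
            -((g q.1 - g q.2) * (starRingEnd ℂ) (g q.2)) := by
          linear_combination -h5
        rw [h6, norm_neg, norm_mul, RCLike.norm_conj, n2, mul_one]
      rw [h4] at h3
      have h7 : 0 < ‖g q.1 - g q.2‖ := norm_pos_iff.2 (sub_ne_zero.2 he)
      have h8 : 0 < √r := Real.sqrt_pos.2 hr0
      have h9 := Real.log_le_log (mul_pos h8 h7) h3
      rw [Real.log_mul h8.ne' h7.ne', Real.log_sqrt hr0.le] at h9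
      have h10 : -(1 / D) ≤ Real.log r := by
        have : r = (1 + 1 / D)⁻¹ := by
          rw [hr]
          field_simp
        rw [this, Real.log_inv]
        have h11 := Real.log_le_sub_one_of_pos (show (0 : ℝ) < 1 + 1 / D by positivity)
        linarith
      have h12 : 1 / (2 * D) = (1 / D) / 2 := by
        field_simp
      rw [h12]
      linarith
  have hsum : r * ‖∑ i ∈ U, g i‖ ^ 2 ≤
      ∑ q ∈ U ×ˢ U, (if g q.1 = g q.2 then Real.log (D + 1) else
        1 / (2 * D) - Real.log ‖g q.1 - g q.2‖) := hposi.trans (sum_le_sum hterm)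
  rw [← sum_filter_add_sum_filter_not (U ×ˢ U) (fun q => g q.1 = g q.2)] at hsum
  -- equal values
  have hE : ∑ q ∈ (U ×ˢ U).filter (fun q => g q.1 = g q.2),
      (if g q.1 = g q.2 then Real.log (D + 1) else 1 / (2 * D) - Real.log ‖g q.1 - g q.2‖) ≤
      D * s * Real.log (D + 1) := by
    have e1 : ∑ q ∈ (U ×ˢ U).filter (fun q => g q.1 = g q.2),
        (if g q.1 = g q.2 then Real.log (D + 1) else 1 / (2 * D) - Real.log ‖g q.1 - g q.2‖) =
        ∑ q ∈ (U ×ˢ U).filter (fun q => g q.1 = g q.2), Real.log (D + 1) :=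
      sum_congr rfl fun q hq => if_pos (mem_filter.1 hq).2
    rw [e1, sum_const, nsmul_eq_mul]
    apply mul_le_mul_of_nonneg_right _ hlogD
    have e2 : ((U ×ˢ U).filter (fun q => g q.1 = g q.2)).card ≤ Fintype.card ι * S.card := by
      calc ((U ×ˢ U).filter (fun q => g q.1 = g q.2)).card
          ≤ ((univ : Finset ι).sigma fun i => univ.filter (fun j => g j = g i)).card := by
            apply card_le_card_of_injOn (fun q => (⟨q.1, q.2⟩ : (_ : ι) × ι))
            · intro q hq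
              have := (mem_filter.1 hq).2
              simp only [coe_sigma, Set.mem_sigma_iff, coe_filter, mem_univ, true_and,
                Set.mem_ofPred_eq, coe_univ, Set.mem_univ]
              exact this.symm
            · intro q _ q' _ h
              simp only [Sigma.mk.injEq, heq_eq_eq] at h
              exact Prod.ext h.1 h.2
        _ = ∑ i : ι, (univ.filter (fun j => g j = g i)).card := card_sigma _ _
        _ ≤ ∑ _i : ι, S.card := sum_le_sum fun i _ => hm i
        _ = Fintype.card ι * S.card := by rw [sum_const, card_univ, smul_eq_mul]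
    rw [hD, hs]
    exact_mod_cast e2
  -- different values
  have hN : ∑ q ∈ (U ×ˢ U).filter (fun q => ¬ g q.1 = g q.2),
      (if g q.1 = g q.2 then Real.log (D + 1) else 1 / (2 * D) - Real.log ‖g q.1 - g q.2‖) ≤
      D / 2 + 2 * s * D * (Real.log 2 + Real.log Y) := by
    have e1 : ∑ q ∈ (U ×ˢ U).filter (fun q => ¬ g q.1 = g q.2),
        (if g q.1 = g q.2 then Real.log (D + 1) else 1 / (2 * D) - Real.log ‖g q.1 - g q.2‖) =
        ∑ q ∈ (U ×ˢ U).filter (fun q => ¬ g q.1 = g q.2), 1 / (2 * D) -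
        ∑ q ∈ (U ×ˢ U).filter (fun q => ¬ g q.1 = g q.2), Real.log ‖g q.1 - g q.2‖ := by
      rw [← sum_sub_distrib]
      exact sum_congr rfl fun q hq => if_neg (mem_filter.1 hq).2
    rw [e1]
    have e2 : ∑ q ∈ (U ×ˢ U).filter (fun q => ¬ g q.1 = g q.2), 1 / (2 * D) ≤ D / 2 := by
      rw [sum_const, nsmul_eq_mul]
      have e3 : ((((U ×ˢ U).filter (fun q => ¬ g q.1 = g q.2)).card : ℕ) : ℝ) ≤ D * D := by
        have : ((U ×ˢ U).filter (fun q => ¬ g q.1 = g q.2)).card ≤
            Fintype.card ι * Fintype.card ι := by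
          rw [← Fintype.card_prod]
          exact card_le_univ _
        rw [hD]
        exact_mod_cast this
      calc _ ≤ D * D * (1 / (2 * D)) := mul_le_mul_of_nonneg_right e3 (by positivity)
        _ = D / 2 := by field_simp
    -- the rest of the pairs
    have e4 : (univ : Finset (ι × ι)).filter (fun q => g q.1 ≠ g q.2) =
        (U ×ˢ U).filter (fun q => ¬ g q.1 = g q.2) ∪
        ((univ : Finset (ι × ι)).filter (fun q => ¬ (q.1 ∈ U ∧ q.2 ∈ U))).filter
          (fun q => ¬ g q.1 = g q.2) := by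
      ext q
      simp only [mem_filter, mem_univ, true_and, mem_union, mem_product]
      tauto
    have e5 : Disjoint ((U ×ˢ U).filter (fun q => ¬ g q.1 = g q.2))
        (((univ : Finset (ι × ι)).filter (fun q => ¬ (q.1 ∈ U ∧ q.2 ∈ U))).filter
          (fun q => ¬ g q.1 = g q.2)) := by
      rw [disjoint_left]
      intro q hq hq'
      have a1 := (mem_filter.1 hq).1
      have a2 := (mem_filter.1 (mem_filter.1 hq').1).2
      exact a2 (mem_product.1 a1)
    rw [e4, sum_union e5] at hd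
    have e6 : ∑ q ∈ ((univ : Finset (ι × ι)).filter (fun q => ¬ (q.1 ∈ U ∧ q.2 ∈ U))).filter
          (fun q => ¬ g q.1 = g q.2), Real.log ‖g q.1 - g q.2‖ ≤
        2 * s * D * (Real.log 2 + Real.log Y) := by
      have a1 : ∀ q ∈ ((univ : Finset (ι × ι)).filter (fun q => ¬ (q.1 ∈ U ∧ q.2 ∈ U))).filter
          (fun q => ¬ g q.1 = g q.2), Real.log ‖g q.1 - g q.2‖ ≤ Real.log 2 + Real.log Y := by
        intro q hq
        have a2 := (mem_filter.1 hq).2
        have a3 : 0 < ‖g q.1 - g q.2‖ := norm_pos_iff.2 (sub_ne_zero.2 a2)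
        rw [← Real.log_mul (by norm_num) (by linarith)]
        apply Real.log_le_log a3
        calc ‖g q.1 - g q.2‖ ≤ ‖g q.1‖ + ‖g q.2‖ := norm_sub_le _ _
          _ ≤ 2 * Y := by linarith [h2 q.1, h2 q.2]
      refine (sum_le_sum a1).trans ?_
      rw [sum_const, nsmul_eq_mul]
      apply mul_le_mul_of_nonneg_right _ (add_nonneg (Real.log_nonneg (by norm_num)) hlogY)
      have a4 : (((univ : Finset (ι × ι)).filter (fun q => ¬ (q.1 ∈ U ∧ q.2 ∈ U))).filter
          (fun q => ¬ g q.1 = g q.2)).card ≤ 2 * S.card * Fintype.card ι := by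
        calc _ ≤ (S ×ˢ (univ : Finset ι) ∪ (univ : Finset ι) ×ˢ S).card := by
              apply card_le_card
              intro q hq
              have a5 := (mem_filter.1 (mem_filter.1 hq).1).2
              rw [hmemU, hmemU] at a5
              simp only [mem_union, mem_product, mem_univ, and_true, true_and]
              tauto
          _ ≤ (S ×ˢ (univ : Finset ι)).card + ((univ : Finset ι) ×ˢ S).card := card_union_le _ _
          _ = 2 * S.card * Fintype.card ι := by
              rw [card_product, card_product, card_univ]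
              ring
      rw [hs, hD]
      exact_mod_cast a4
    linarith
  have hfin : r * ‖∑ i ∈ U, g i‖ ^ 2 ≤ D * s * Real.log (D + 1) +
      (D / 2 + 2 * s * D * (Real.log 2 + Real.log Y)) := hsum.trans (add_le_add hE hN)
  have hlog2 : Real.log 2 ≤ 0.7 := by
    have := Real.log_two_lt_d9
    linarith
  have hn0 : 0 ≤ ‖∑ i ∈ U, g i‖ ^ 2 := by positivity
  have hh : ‖∑ i ∈ U, g i‖ ^ 2 ≤ 2 * (D * s * Real.log (D + 1) +
      (D / 2 + 2 * s * D * (Real.log 2 + Real.log Y))) := by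
    nlinarith
  have hsD0 : 0 < s * D := by positivity
  have hDs : D ≤ s * D := by nlinarith
  have h20 : s * D * Real.log 2 ≤ s * D * 0.7 := mul_le_mul_of_nonneg_left hlog2 hsD0.le
  nlinarith

end

section
variable {K : Type} [Field K] [NumberField K]

/-- the embeddings with a given value at `x` -/
theorem fib [DecidableEq ℂ] (x : K) (ρ₀ : K →+* ℂ) :
    (Finset.univ.filter (fun ρ : K →+* ℂ => ρ x = ρ₀ x)).card =
      finrank (IntermediateField.adjoin ℚ {x}) K := by
  classical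
  let F := IntermediateField.adjoin ℚ ({x} : Set K)
  let _ : Algebra F ℂ := (ρ₀.comp (algebraMap F K)).toAlgebra
  have hmap : ∀ y : F, algebraMap F ℂ y = ρ₀ (y : K) := fun y => rfl
  have hagree : ∀ ρ : K →+* ℂ, ρ x = ρ₀ x → ∀ y : K, y ∈ F → ρ y = ρ₀ y := by
    intro ρ hρ y hy
    refine IntermediateField.adjoin_induction ℚ (p := fun y _ => ρ y = ρ₀ y) ?_ ?_ ?_ ?_ ?_ hy
    · intro z hz
      rw [Set.mem_singleton_iff.1 hz]
      exact hρ
    · intro q
      rw [eq_ratCast, map_ratCast, map_ratCast]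
    · intro a b _ _ ha hb
      rw [map_add, map_add, ha, hb]
    · intro a _ ha
      rw [map_inv₀, map_inv₀, ha]
    · intro a b _ _ ha hb
      rw [map_mul, map_mul, ha, hb]
  let e : {ρ : K →+* ℂ // ρ x = ρ₀ x} ≃ (K →ₐ[F] ℂ) :=
    { toFun := fun ρ => { ρ.1 with
        commutes' := fun r => hagree ρ.1 ρ.2 (r : K) r.2 }
      invFun := fun φ => ⟨φ.toRingHom, by
        have hx : x ∈ F := IntermediateField.mem_adjoin_simple_self ℚ x
        have := φ.commutes ⟨x, hx⟩
        exact this⟩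
      left_inv := fun ρ => by
        apply Subtype.ext
        rfl
      right_inv := fun φ => by
        rfl }
  have h1 : Fintype.card {ρ : K →+* ℂ // ρ x = ρ₀ x} = Fintype.card (K →ₐ[F] ℂ) :=
    Fintype.card_congr e
  rw [AlgHom.card F K ℂ] at h1
  rw [← h1, Fintype.card_subtype]

/-- the norm of a nonzero integer -/
theorem one_le_norm (δ : 𝓞 K) (h : δ ≠ 0) : 0 ≤ ∑ ρ : K →+* ℂ, Real.log ‖ρ (δ : K)‖ := by
  have h0 : ∀ ρ : K →+* ℂ, ‖ρ (δ : K)‖ ≠ 0 := by
    intro ρ
    rw [norm_ne_zero_iff, map_ne_zero]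
    exact RingOfIntegers.coe_ne_zero_iff.2 h
  rw [← Real.log_prod (fun ρ _ => h0 ρ)]
  apply Real.log_nonneg
  have h1 : ∏ ρ : K →+* ℂ, ‖ρ (δ : K)‖ = |((Algebra.norm ℤ δ : ℤ) : ℝ)| := by
    have e1 := Algebra.norm_eq_prod_embeddings ℚ ℂ (δ : K)
    have e2 : ∏ ρ : K →+* ℂ, ρ (δ : K) = ∏ σ : K →ₐ[ℚ] ℂ, σ (δ : K) :=
      Fintype.prod_equiv (RingHom.equivRatAlgHom K ℂ) _ _ fun ρ => rfl
    rw [← e2, ← Algebra.coe_norm_int] at e1
    have e3 := congrArg (fun z : ℂ => ‖z‖) e1
    simp only [norm_prod] at e3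
    rw [← e3]
    simp
  rw [h1]
  have h2 : Algebra.norm ℤ δ ≠ 0 := Algebra.norm_ne_zero_iff.2 h
  exact_mod_cast Int.one_le_abs h2

/-- the product of the differences of the conjugates -/
theorem disc [DecidableEq ℂ] (γ : 𝓞 K) :
    0 ≤ ∑ q ∈ (Finset.univ : Finset ((K →+* ℂ) × (K →+* ℂ))).filter
      (fun q => q.1 (γ : K) ≠ q.2 (γ : K)), Real.log ‖q.1 (γ : K) - q.2 (γ : K)‖ := by
  classical
  set x : K := (γ : K) with hx
  set g : (K →+* ℂ) → ℂ := fun ρ => ρ x with hg
  set μ := finrank (IntermediateField.adjoin ℚ {x}) K with hμ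
  set R : Finset ℂ := Finset.univ.image g with hR
  set P : Polynomial ℚ := minpoly ℚ x with hP
  set PC : Polynomial ℂ := P.map (algebraMap ℚ ℂ) with hPC
  have hint : IsIntegral ℚ x := Algebra.IsIntegral.isIntegral x
  have hirr : Irreducible P := minpoly.irreducible hint
  have hsep : PC.Separable := hirr.separable.map
  have hmonic : PC.Monic := (minpoly.monic hint).map _
  have hsplit : PC.Splits := IsAlgClosed.splits _
  have hroots : PC.roots = R.val := by
    have h1 : PC.roots.toFinset = R := by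
      ext z
      rw [Multiset.mem_toFinset, hR, Finset.mem_image]
      have h2 := NumberField.Embeddings.range_eval_eq_rootSet_minpoly K ℂ x
      have h3 : z ∈ PC.roots ↔ z ∈ (minpoly ℚ x).rootSet ℂ := by
        rw [Polynomial.rootSet_def, Finset.mem_coe, Multiset.mem_toFinset]
      rw [h3, ← h2]
      simp [hg]
    rw [← h1, Multiset.toFinset_val, Multiset.dedup_eq_self.2 (Polynomial.nodup_roots hsep)]
  -- the derivative
  have hder : ∀ ρ : K →+* ℂ, PC.derivative.eval (g ρ) = ∏ z ∈ R.erase (g ρ), (g ρ - z) := by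
    intro ρ
    have hmem : g ρ ∈ PC.roots := by
      rw [hroots]
      exact Finset.mem_image_of_mem g (Finset.mem_univ ρ)
    rw [hsplit.eval_root_derivative hmonic hmem, hroots]
    rfl
  -- the derivative is the image of an integer of `K`
  set δ : 𝓞 K := Polynomial.aeval γ (minpoly ℤ x).derivative with hδ
  have hδ1 : ∀ ρ : K →+* ℂ, ρ (δ : K) = PC.derivative.eval (g ρ) := by
    intro ρ
    have e1 : P = (minpoly ℤ x).map (algebraMap ℤ ℚ) := by
      rw [hP]
      exact minpoly.isIntegrallyClosed_eq_field_fractions' ℚ γ.isIntegral_coe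
    have e2 : PC = (minpoly ℤ x).map (algebraMap ℤ ℂ) := by
      rw [hPC, e1, Polynomial.map_map]
      congr 1
    rw [e2, Polynomial.derivative_map, Polynomial.eval_map_algebraMap]
    have e3 : (δ : K) = Polynomial.aeval x (minpoly ℤ x).derivative := by
      rw [hδ, hx]
      exact (Polynomial.aeval_algebraMap_apply K γ _).symm
    rw [e3]
    have e4 := Polynomial.hom_eval₂ (minpoly ℤ x).derivative (algebraMap ℤ K) ρ x
    rw [Polynomial.aeval_def, e4, Polynomial.aeval_def]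
    congr 1
    exact RingHom.ext_int _ _
  have hδ0 : δ ≠ 0 := by
    intro h
    have e1 : PC.derivative.eval (g (Classical.arbitrary (K →+* ℂ))) = 0 := by
      rw [← hδ1, h]
      simp
    rw [hder, Finset.prod_eq_zero_iff] at e1
    obtain ⟨z, hz, hz0⟩ := e1
    exact (Finset.mem_erase.1 hz).1 (sub_eq_zero.1 hz0).symm
  have hpos := one_le_norm δ hδ0
  -- the sum over the second component
  have hrow : ∀ ρ : K →+* ℂ, ∑ ρ' ∈ Finset.univ.filter (fun ρ' : K →+* ℂ => g ρ ≠ g ρ'),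
      Real.log ‖g ρ - g ρ'‖ = μ * Real.log ‖ρ (δ : K)‖ := by
    intro ρ
    rw [hδ1, hder, norm_prod, Real.log_prod (fun z hz => by
      rw [norm_ne_zero_iff, sub_ne_zero]
      exact (Finset.mem_erase.1 hz).1.symm), Finset.mul_sum]
    have e1 : ∀ ρ' ∈ Finset.univ.filter (fun ρ' : K →+* ℂ => g ρ ≠ g ρ'), g ρ' ∈ R.erase (g ρ) := by
      intro ρ' h
      exact Finset.mem_erase.2 ⟨(Finset.mem_filter.1 h).2.symm,
        Finset.mem_image_of_mem g (Finset.mem_univ ρ')⟩
    rw [← Finset.sum_fiberwise_of_maps_to e1]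
    refine Finset.sum_congr rfl fun z hz => ?_
    obtain ⟨hz1, hz2⟩ := Finset.mem_erase.1 hz
    obtain ⟨ρ₁, -, hρ₁⟩ := Finset.mem_image.1 hz2
    have e2 : (Finset.univ.filter (fun ρ' : K →+* ℂ => g ρ ≠ g ρ')).filter (fun ρ' => g ρ' = z) =
        Finset.univ.filter (fun ρ' : K →+* ℂ => ρ' x = ρ₁ x) := by
      ext ρ'
      simp only [Finset.mem_filter, Finset.mem_univ, true_and]
      constructor
      · rintro ⟨-, h⟩
        exact h.trans hρ₁.symm
      · intro h
        have h' : g ρ' = z := h.trans hρ₁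
        exact ⟨by rw [h']; exact hz1.symm, h'⟩
    rw [e2]
    have e3 : ∀ ρ' ∈ Finset.univ.filter (fun ρ' : K →+* ℂ => ρ' x = ρ₁ x),
        Real.log ‖g ρ - g ρ'‖ = Real.log ‖g ρ - z‖ := by
      intro ρ' h
      rw [show g ρ' = z from (Finset.mem_filter.1 h).2.trans hρ₁]
    rw [Finset.sum_congr rfl e3, Finset.sum_const, fib, nsmul_eq_mul]
  have hsum : ∑ q ∈ (Finset.univ : Finset ((K →+* ℂ) × (K →+* ℂ))).filter
      (fun q => q.1 x ≠ q.2 x), Real.log ‖q.1 x - q.2 x‖ =
      ∑ ρ : K →+* ℂ, ∑ ρ' ∈ Finset.univ.filter (fun ρ' : K →+* ℂ => g ρ ≠ g ρ'),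
        Real.log ‖g ρ - g ρ'‖ := by
    rw [Finset.sum_filter, Fintype.sum_prod_type]
    refine Finset.sum_congr rfl fun ρ _ => ?_
    rw [Finset.sum_filter]
  rw [hsum]
  simp only [hrow]
  rw [← Finset.mul_sum]
  exact mul_nonneg (Nat.cast_nonneg _) hpos

end

end Ener

open Classical in
theorem t_ener : S_ENER := by
  intro K _ _ γ S Y h1 hY h2 h3
  obtain ⟨ρ₁, hρ₁⟩ := h3
  have hρS : ρ₁ ∈ S := by
    by_contra h
    exact hρ₁ (h1 ρ₁ h)
  have hS : 1 ≤ S.card := Finset.card_pos.2 ⟨ρ₁, hρS⟩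
  have hm : ∀ ρ : K →+* ℂ, (Finset.univ.filter
      (fun ρ' : K →+* ℂ => ρ' (γ : K) = ρ (γ : K))).card ≤ S.card := by
    intro ρ
    rw [Ener.fib, ← Ener.fib (γ : K) ρ₁]
    apply Finset.card_le_card
    intro ρ' h
    by_contra hn
    have e1 := h1 ρ' hn
    rw [(Finset.mem_filter.1 h).2] at e1
    exact hρ₁ e1
  have key := Ener.core (fun ρ : K →+* ℂ => ρ (γ : K)) S Y hY h1 h2 hS hm (Ener.disc γ)
  rw [NumberField.Embeddings.card K ℂ] at key
  refine le_trans (le_of_eq ?_) key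
  congr 2
  refine Finset.sum_congr ?_ fun _ _ => rfl
  ext ρ
  simp

end Pool.Agent.NH69.MI
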