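import Pool.Agent.NH69.MI.Core6
import Pool.Agent.NH69.MI.Core7
import Pool.Agent.NH69.MI.Ener

/-!
# The sharp two-variable inequality: the case with a relation of small degree
-/

set_option autoImplicit false

open NumberField Module MvPolynomial

namespace Pool.Agent.NH69.MI

/-- numbers for the auxiliary polynomial -/
lemma num_pigr {u l w : ℝ} {k L ω r D : ℕ} (hu : 1000 ≤ u) (hl : 1 ≤ l) (hlu : l = Real.log u)
    (hbig : 10 ^ 6 * ((k : ℝ) + 3) ^ 3 * l ≤ u) (hD : (D : ℝ) + 1 ≤ u ^ k) (hω1 : 1 ≤ ω)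
    (hωD : ω ≤ D) (hLD : L ≤ D) (hw : w = (ω : ℝ) * u) (hwL : w ≤ L)
    (hr : r = 2 * ω * (L + 1)) (hk : 1 ≤ k) :
    2 * (((k + 2 : ℕ) : ℝ) * r) * Real.log (14 * ((L : ℝ) + 1) ^ (k + 2 + 2) *
      (((k + 2 : ℕ) : ℝ) * r + 1)) < ((L : ℝ) + 1) ^ 2 * Real.log 2 := by
  have hk0 : (1 : ℝ) ≤ k := by exact_mod_cast hk
  have hu0 : 0 < u := by linarith
  have hu1 : 1 ≤ u := by linarith
  have hl0 : 0 ≤ l := by linarith
  have hω1' : (1 : ℝ) ≤ ω := by exact_mod_cast hω1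
  have hωD' : (ω : ℝ) ≤ D := by exact_mod_cast hωD
  have hLD' : (L : ℝ) ≤ D := by exact_mod_cast hLD
  have hL0 : (0 : ℝ) ≤ L := Nat.cast_nonneg _
  have hrr : (r : ℝ) = 2 * ω * (L + 1) := by
    rw [hr]
    push_cast
    ring
  have hku : (k : ℝ) + 2 ≤ u := by
    have e1 : (k : ℝ) + 3 ≤ ((k : ℝ) + 3) ^ 3 := le_self_pow₀ (by linarith) (by norm_num)
    have e2 : 0 ≤ ((k : ℝ) + 3) ^ 3 := by positivity
    nlinarith
  have hDu : (D : ℝ) ≤ u ^ k := by linarith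
  have hL1 : (L : ℝ) + 1 ≤ u ^ k := by linarith
  have huk : u ≤ u ^ k := le_self_pow₀ hu1 (by omega)
  -- the logarithm
  have h1 : Real.log (14 * ((L : ℝ) + 1) ^ (k + 2 + 2) * (((k + 2 : ℕ) : ℝ) * r + 1)) ≤
      (k * (k + 8)) * l := by
    have h2 : 14 * ((L : ℝ) + 1) ^ (k + 2 + 2) * (((k + 2 : ℕ) : ℝ) * r + 1) ≤
        u ^ (k * (k + 8)) := by
      have e1 : ((k + 2 : ℕ) : ℝ) * r + 1 ≤ 3 * (u ^ k) ^ 3 := by
        rw [hrr]
        push_cast
        have e2 : ((k : ℝ) + 2) * (2 * ω * (L + 1)) ≤ u ^ k * (2 * u ^ k * u ^ k) := by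
          gcongr
          · linarith
          · linarith
        have e3 : 1 ≤ (u ^ k) ^ 3 := one_le_pow₀ (by linarith)
        nlinarith
      calc 14 * ((L : ℝ) + 1) ^ (k + 2 + 2) * (((k + 2 : ℕ) : ℝ) * r + 1)
          ≤ 14 * (u ^ k) ^ (k + 2 + 2) * (3 * (u ^ k) ^ 3) := by gcongr
        _ = 42 * (u ^ k) ^ (k + 7) := by ring
        _ ≤ u ^ k * (u ^ k) ^ (k + 7) := by
            gcongr
            linarith
        _ = u ^ (k * (k + 8)) := by
            rw [← pow_succ', ← pow_mul]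
    calc _ ≤ Real.log (u ^ (k * (k + 8))) := Real.log_le_log (by positivity) h2
      _ = _ := by
          rw [Real.log_pow, hlu]
          push_cast
          ring
  have h2 : (1 : ℝ) / 2 < Real.log 2 := by
    have := Real.log_two_gt_d9
    linarith
  have h3 : 8 * ((k : ℝ) + 2) * ((k * (k + 8)) * l) < u := by
    have e1 : ((k : ℝ) + 2) * (k * (k + 8)) ≤ 3 * ((k : ℝ) + 3) ^ 3 := by nlinarith [sq_nonneg (k : ℝ)]
    have e2 : ((k : ℝ) + 2) * (k * (k + 8)) * l ≤ 3 * ((k : ℝ) + 3) ^ 3 * l := by gcongr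
    have e3 : 0 < ((k : ℝ) + 3) ^ 3 * l := by positivity
    nlinarith
  have hc : 0 < 2 * (((k : ℝ) + 2) * (2 * ω * (L + 1))) := by positivity
  rw [hrr] at h1 ⊢
  push_cast at h1 ⊢
  calc 2 * (((k : ℝ) + 2) * (2 * ω * (L + 1))) * Real.log (14 * ((L : ℝ) + 1) ^ (k + 2 + 2) *
      (((k : ℝ) + 2) * (2 * ω * (L + 1)) + 1))
      ≤ 2 * (((k : ℝ) + 2) * (2 * ω * (L + 1))) * ((k * (k + 8)) * l) := by gcongr
    _ = (ω * (8 * ((k : ℝ) + 2) * ((k * (k + 8)) * l))) * ((L + 1) * (1 / 2)) := by ring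
    _ < (ω * u) * ((L + 1) * (1 / 2)) := by
        apply mul_lt_mul_of_pos_right _ (by positivity)
        exact mul_lt_mul_of_pos_left h3 (by linarith)
    _ ≤ (L + 1) * ((L + 1) * (1 / 2)) := by
        have : (ω : ℝ) * u ≤ L + 1 := by linarith
        gcongr
    _ = ((L : ℝ) + 1) ^ 2 * (1 / 2) := by ring
    _ ≤ ((L : ℝ) + 1) ^ 2 * Real.log 2 := by gcongr

section

variable {K : Type} [Field K] [NumberField K] {S : Finset (K →+* ℂ)} {u : ℝ} {x y : (𝓞 K)ˣ}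

lemma t_rel (hrk : S_RK) (hfib : S_FIB) (hta : S_TA) (hpigr : S_PIGR) (hvan : S_VAN)
    (hdegg : S_DEGG) {k X₀ : ℕ} (hX₀ : ∀ X : ℕ, X₀ ≤ X →
      X ≤ (((Finset.Ioc X (2 * X)).filter Nat.Prime).card) ^ 2)
    (hE : Env K S u k X₀) (hP : Pair2 K S u x y)
    (hgen : Algebra.adjoin ℚ {((x : 𝓞 K) : K), ((y : 𝓞 K) : K)} = ⊤)
    (G : MvPolynomial (Fin 2) ℤ) (hG0 : G ≠ 0) (hGdeg : ∀ i, G.degreeOf i ≤ ⌊S.card * u ^ 20⌋₊)
    (hGz : aeval ![((x : 𝓞 K) : K), ((y : 𝓞 K) : K)] G = 0) : False := by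
  classical
  obtain ⟨l, hldef⟩ : ∃ l, l = Real.log u := ⟨_, rfl⟩
  obtain ⟨D, hDdef⟩ : ∃ D : ℕ, D = finrank ℚ K := ⟨_, rfl⟩
  obtain ⟨s, hsdef⟩ : ∃ s : ℝ, s = (S.card : ℝ) := ⟨_, rfl⟩
  have hu := hE.hu
  have hl := hE.hl
  have hbig := hE.hbig
  have hS := hE.hS
  have hED := hE.hD
  have hk0 : (0 : ℝ) ≤ k := Nat.cast_nonneg _
  rw [← hldef] at hl hbig
  rw [← hDdef] at hED
  rw [← hDdef, ← hsdef] at hS
  have hs1 : 1 ≤ s := by
    rw [hsdef]
    exact_mod_cast hP.card_pos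
  have hs0 : 0 < s := by linarith
  have hu1 : 1 ≤ u := by linarith
  have hu0 : 0 < u := by linarith
  have hl0 : 0 ≤ l := by linarith
  have hDpos : 0 < D := by
    rw [hDdef]
    exact finrank_pos
  have hD1 : (0 : ℝ) < D := by exact_mod_cast hDpos
  have hk1 : 1 ≤ k := by
    by_contra hcon
    have h0 : k = 0 := by omega
    rw [h0, pow_zero] at hED
    linarith
  have hs2 : s ≤ s ^ 2 := le_self_pow₀ hs1 two_ne_zero
  -- the irreducible relation
  obtain ⟨P, hPirr, hPz, hPdeg⟩ := exists_irred ![((x : 𝓞 K) : K), ((y : 𝓞 K) : K)] G hG0 hGz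
  have hP0 : P ≠ 0 := hPirr.ne_zero
  obtain ⟨ω, hω⟩ : ∃ ω : ℕ, ω = max (P.degreeOf 0) (P.degreeOf 1) := ⟨_, rfl⟩
  have hωdeg : ∀ i, P.degreeOf i ≤ ω := by
    intro i
    rw [hω]
    fin_cases i
    · exact le_max_left _ _
    · exact le_max_right _ _
  have hωle : (ω : ℝ) ≤ s * u ^ 20 := by
    have h1 : ω ≤ ⌊S.card * u ^ 20⌋₊ := by
      rw [hω]
      exact max_le ((hPdeg 0).trans (hGdeg 0)) ((hPdeg 1).trans (hGdeg 1))
    rw [hsdef]
    exact (Nat.le_floor_iff (by positivity)).1 h1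
  have hgen' : Algebra.adjoin ℚ (Set.range ![((x : 𝓞 K) : K), ((y : 𝓞 K) : K)]) = ⊤ := by
    rw [Matrix.range_cons, Matrix.range_cons, Matrix.range_empty, Set.union_empty,
      Set.singleton_union]
    exact hgen
  have hω1 : 1 ≤ ω := by
    by_contra hcon
    have h0 : ω = 0 := by omega
    have h1 := hrk K ![((x : 𝓞 K) : K), ((y : 𝓞 K) : K)] P ω 0 hP0 hPz hωdeg
    rw [h0] at h1
    simp only [mul_zero, zero_mul, nonpos_iff_eq_zero] at h1
    rw [Submodule.finrank_eq_zero, W, Submodule.span_eq_bot] at h1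
    exact one_ne_zero (h1 1 ⟨0, 0, le_rfl, le_rfl, by simp⟩)
  have hω1' : (1 : ℝ) ≤ ω := by exact_mod_cast hω1
  have hωD' : (ω : ℝ) ≤ D := by
    calc (ω : ℝ) ≤ s * u ^ 20 := hωle
      _ ≤ s ^ 2 * u ^ 100 := by
          gcongr
          norm_num
      _ ≤ D := hS
  have hωD : ω ≤ D := by exact_mod_cast hωD'
  have hsω : S.card * ω < finrank ℚ K := by
    have h1 : s * ω < D := by
      calc s * ω ≤ s * (s * u ^ 20) := by gcongr
        _ = s ^ 2 * u ^ 20 := by ring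
        _ < s ^ 2 * u ^ 100 := by
            apply mul_lt_mul_of_pos_left _ (by positivity)
            exact pow_lt_pow_right₀ (by linarith) (by norm_num)
        _ ≤ D := hS
    rw [hsdef] at h1
    rw [← hDdef]
    exact_mod_cast h1
  have hdeg0 := deg0_pos hta hdegg hP P ω hP0 hωdeg hPz hsω
  -- the size of the box
  obtain ⟨L, hL⟩ : ∃ L : ℕ, L = ⌈(ω : ℝ) * u⌉₊ := ⟨_, rfl⟩
  have hLge : (ω : ℝ) * u ≤ L := by
    rw [hL]
    exact Nat.le_ceil _
  have hLle : (L : ℝ) ≤ 2 * (ω * u) := by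
    have h1 : (L : ℝ) < ω * u + 1 := by
      rw [hL]
      exact Nat.ceil_lt_add_one (by positivity)
    have h2 : 1 ≤ (ω : ℝ) * u := by nlinarith
    linarith
  have hLle2 : (L : ℝ) ≤ 2 * (s * u ^ 21) := by
    calc (L : ℝ) ≤ 2 * (ω * u) := hLle
      _ ≤ 2 * ((s * u ^ 20) * u) := by gcongr
      _ = _ := by ring
  have hpow : ∀ (c : ℝ) (n : ℕ), n + 1 ≤ 100 → 0 < c → c ≤ 1000 → c * (s ^ 2 * u ^ n) ≤ D := by
    intro c n hn hc0 hc
    calc c * (s ^ 2 * u ^ n) ≤ u * (s ^ 2 * u ^ n) := by gcongr; linarith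
      _ = s ^ 2 * u ^ (n + 1) := by ring
      _ ≤ s ^ 2 * u ^ 100 := by gcongr
      _ ≤ D := hS
  have hpow' : ∀ (c : ℝ) (n : ℕ), n + 1 ≤ 100 → 0 < c → c ≤ 999 → c * (s ^ 2 * u ^ n) < D := by
    intro c n hn hc0 hc
    have h1 := hpow (c + 1) n hn (by linarith) (by linarith)
    have h2 : 0 < s ^ 2 * u ^ n := by positivity
    linarith
  have hLD' : (L : ℝ) ≤ D := by
    calc (L : ℝ) ≤ 2 * (s * u ^ 21) := hLle2
      _ ≤ 2 * (s ^ 2 * u ^ 21) := by gcongr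
      _ ≤ D := hpow 2 21 (by norm_num) (by norm_num) (by norm_num)
  have hLD : L ≤ D := by exact_mod_cast hLD'
  have hL0 : (0 : ℝ) ≤ L := Nat.cast_nonneg _
  have hlogL : Real.log ((L : ℝ) + 1) ≤ k * l := by
    rw [hldef]
    refine hE.log_le hL0 ?_
    rw [← hDdef]
    exact hLD'
  -- the auxiliary polynomial
  obtain ⟨c, hc1, ⟨m0, hm0, hc2⟩, hc3⟩ := hpigr K (x : 𝓞 K) (y : 𝓞 K) L (k + 2)
    (2 * ω * (L + 1)) (((L : ℝ) + 1) ^ (k + 2 + 2)) (fun ρ => wt S (2 * L * u) ρ)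
    x.ne_zero y.ne_zero (one_le_pow₀ (by linarith))
    (fun ρ => one_le_wt (mul_nonneg (mul_nonneg zero_le_two hL0) hu0.le) ρ)
    (by
      rw [sum_log_wt, ← hDdef, ← hsdef]
      calc s * (2 * L * u) ≤ s * (2 * (2 * (s * u ^ 21)) * u) := by gcongr
        _ = 4 * (s ^ 2 * u ^ 22) := by ring
        _ ≤ D := hpow 4 22 (by norm_num) (by norm_num) (by norm_num))
    (fun ρ a ha => pigr_bound hP hu0.le ρ ha)
    (hrk K ![((x : 𝓞 K) : K), ((y : 𝓞 K) : K)] P ω L hP0 hPz hωdeg)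
    (num_pigr hu hl hldef hbig hED hω1 hωD hLD rfl hLge rfl hk1)
  -- the primes
  obtain ⟨PR, hPR, hPRcard⟩ := primes_range hX₀ hu hE.hX
  have hbox : ∀ m ∈ box L, m.1 ≤ L ∧ m.2 ≤ L := fun m hm => mem_box.1 hm
  have hF0 : tp (box L) id c ≠ 0 := tp_ne _ id Function.injective_id c hm0 hc2
  have hFdeg : ∀ i, (tp (box L) id c).degreeOf i ≤ L := fun i => tp_deg _ id c L hbox i
  -- extrapolation
  have hext : ∀ p ∈ PR, ev (box L) c ((x : 𝓞 K) ^ p) ((y : 𝓞 K) ^ p) = 0 := by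
    intro p hp
    by_contra hne
    obtain ⟨hpp, hp1, hp2⟩ := hPR p hp
    obtain ⟨w, hw⟩ := hvan K (x : 𝓞 K) (y : 𝓞 K) P ω L (k + 2) p c hgen hPirr hPz hωdeg hdeg0
      (by
        rw [← hDdef]
        have h1 : 2 * (ω : ℝ) * ω < D := by
          calc 2 * (ω : ℝ) * ω ≤ 2 * (s * u ^ 20) * (s * u ^ 20) := by gcongr
            _ = 2 * (s ^ 2 * u ^ 40) := by ring
            _ < D := hpow' 2 40 (by norm_num) (by norm_num) (by norm_num)
        exact_mod_cast h1)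
      (by
        rw [← hDdef]
        have h1 : 2 * (ω : ℝ) * L < D := by
          calc 2 * (ω : ℝ) * L ≤ 2 * (s * u ^ 20) * (2 * (s * u ^ 21)) := by gcongr
            _ = 4 * (s ^ 2 * u ^ 41) := by ring
            _ < D := hpow' 4 41 (by norm_num) (by norm_num) (by norm_num)
        exact_mod_cast h1) hc3 hpp
    have hw0 : w ≠ 0 := by
      rintro rfl
      rw [mul_zero] at hw
      exact hne hw
    have h1 := gain_bound2 hP hu0.le hbox hc1 p hne
    have h2 := Ener.one_le_norm w hw0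
    have h3 : ∑ ρ : K →+* ℂ, Real.log ‖ρ ((ev (box L) c ((x : 𝓞 K) ^ p) ((y : 𝓞 K) ^ p) : 𝓞 K) : K)‖
        = D * (((k : ℝ) + 2) * Real.log p) + ∑ ρ : K →+* ℂ, Real.log ‖ρ (w : K)‖ := by
      have h4 : ∀ ρ : K →+* ℂ,
          Real.log ‖ρ ((ev (box L) c ((x : 𝓞 K) ^ p) ((y : 𝓞 K) ^ p) : 𝓞 K) : K)‖ =
          ((k : ℝ) + 2) * Real.log p + Real.log ‖ρ (w : K)‖ := by
        intro ρ
        have h5 : ((ev (box L) c ((x : 𝓞 K) ^ p) ((y : 𝓞 K) ^ p) : 𝓞 K) : K) =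
            (p : K) ^ (k + 2) * (w : K) := by
          rw [hw]
          push_cast
          rfl
        rw [h5, map_mul, map_pow, map_natCast, norm_mul, norm_pow, Complex.norm_natCast,
          Real.log_mul (pow_ne_zero _ (by exact_mod_cast hpp.ne_zero)) (by
            rw [norm_ne_zero_iff, map_ne_zero]
            exact RingOfIntegers.coe_ne_zero_iff.2 hw0), Real.log_pow]
        push_cast
        ring
      simp_rw [h4]
      rw [Finset.sum_add_distrib, Finset.sum_const, Finset.card_univ,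
        NumberField.Embeddings.card, nsmul_eq_mul, hDdef]
    rw [h3, ← hDdef, ← hsdef] at h1
    have h4 : 5 * l ≤ Real.log p := by
      calc 5 * l = Real.log (u ^ 5) := by rw [Real.log_pow, hldef]; norm_num
        _ ≤ Real.log p := Real.log_le_log (by positivity) hp1
    have h5 : s * (2 * (p * L) * u) ≤ D := by
      calc s * (2 * (p * L) * u) ≤ s * (2 * ((2 * u ^ 5) * (2 * (s * u ^ 21))) * u) := by gcongr
        _ = 8 * (s ^ 2 * u ^ 27) := by ring
        _ ≤ D := hpow 8 27 (by norm_num) (by norm_num) (by norm_num)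
    have h6 : (D : ℝ) * (((k : ℝ) + 2) * (5 * l)) ≤ D * (2 * (k * l) + 1) := by
      calc (D : ℝ) * (((k : ℝ) + 2) * (5 * l)) ≤ D * (((k : ℝ) + 2) * Real.log p) := by gcongr
        _ ≤ D * (2 * Real.log (L + 1)) + s * (2 * (p * L) * u) := by linarith
        _ ≤ D * (2 * (k * l)) + D := by gcongr
        _ = _ := by ring
    have h7 := le_of_mul_le_mul_left h6 hD1
    nlinarith [mul_nonneg hk0 hl0]
  -- the fibres
  have hfibre : ∀ p ∈ PR, ∀ z' : Fin 2 → ℂ, aeval z' P = 0 →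
      ∃ ξ : Fin 2 → ℂ, (∀ i, ξ i ^ p = 1) ∧ ξ ≠ 1 ∧ aeval (fun i => ξ i * z' i) P = 0 := by
    intro p hp
    obtain ⟨hpp, hp1, hp2⟩ := hPR p hp
    refine hfib K ![((x : 𝓞 K) : K), ((y : 𝓞 K) : K)] P (tp (box L) id c) ω L p hgen' hPirr hPz
      hωdeg hF0 ?_ hFdeg ?_ hpp.pos ?_ ?_
    · rw [tp_aeval]
      have h1 : (algebraMap (𝓞 K) K) (ev (box L) c ((x : 𝓞 K) ^ p) ((y : 𝓞 K) ^ p)) = 0 := by
        rw [hext p hp, map_zero]
      rw [← h1]
      unfold ev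
      rw [map_sum]
      refine Finset.sum_congr rfl fun m _ => ?_
      simp
    · have h1 : (L : ℝ) < p * ω := by
        calc (L : ℝ) ≤ 2 * (ω * u) := hLle
          _ < u ^ 5 * ω := by
              have e1 : 2 * u < u ^ 5 := by
                have e2 : u ^ 5 = u * u ^ 4 := by ring
                have e3 : u ≤ u ^ 4 := le_self_pow₀ hu1 (by norm_num)
                nlinarith
              nlinarith
          _ ≤ p * ω := by gcongr
      have h2 : L < p * ω := by exact_mod_cast h1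
      rcases max_choice (P.degreeOf 0) (P.degreeOf 1) with h3 | h3
      · rw [h3] at hω
        exact ⟨0, by rw [← hω]; exact h2⟩
      · rw [h3] at hω
        exact ⟨1, by rw [← hω]; exact h2⟩
    · rw [← hDdef]
      have h1 : 2 * (ω : ℝ) * (p ^ 2 * ω) < D := by
        calc 2 * (ω : ℝ) * (p ^ 2 * ω) ≤ 2 * (s * u ^ 20) * ((2 * u ^ 5) ^ 2 * (s * u ^ 20)) := by
              gcongr
          _ = 8 * (s ^ 2 * u ^ 50) := by ring
          _ < D := hpow' 8 50 (by norm_num) (by norm_num) (by norm_num)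
      exact_mod_cast h1
    · rw [← hDdef]
      have h1 : 2 * (ω : ℝ) * (p * L) < D := by
        calc 2 * (ω : ℝ) * (p * L) ≤ 2 * (s * u ^ 20) * ((2 * u ^ 5) * (2 * (s * u ^ 21))) := by
              gcongr
          _ = 8 * (s ^ 2 * u ^ 46) := by ring
          _ < D := hpow' 8 46 (by norm_num) (by norm_num) (by norm_num)
      exact_mod_cast h1
  -- torsion points of large order
  have hkcard : k + 1 ≤ PR.card := by
    have h1 : (k : ℝ) + 1 ≤ PR.card := by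
      refine le_trans ?_ hPRcard
      have e1 : (k : ℝ) + 3 ≤ ((k : ℝ) + 3) ^ 3 := le_self_pow₀ (by linarith) (by norm_num)
      have e2 : 0 ≤ ((k : ℝ) + 3) ^ 3 := by positivity
      have e3 : u ≤ u ^ 2 := le_self_pow₀ hu1 two_ne_zero
      nlinarith
    exact_mod_cast h1
  obtain ⟨A, hA, hAcard⟩ := Finset.exists_subset_card_eq hkcard
  obtain ⟨ρ, _⟩ := hP.ind1
  have hρz : aeval (fun i => ρ (![((x : 𝓞 K) : K), ((y : 𝓞 K) : K)] i)) P = 0 := by
    have h1 : ρ (aeval ![((x : 𝓞 K) : K), ((y : 𝓞 K) : K)] P) =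
        aeval (fun i => ρ (![((x : 𝓞 K) : K), ((y : 𝓞 K) : K)] i)) P := by
      rw [aeval_def, aeval_def, hom_eval₂]
      congr 1
      exact RingHom.ext_int _ _
    rw [← h1, hPz, map_zero]
  obtain ⟨M, ξ, hM, g1, g2, g3, -, g5⟩ := tors_exists P hu A
    (fun p hp => ⟨(hPR p (hA hp)).1, (hPR p (hA hp)).2.1⟩)
    (fun p hp => hfibre p (hA hp)) _ hρz
  refine tors_false hta hdegg hP P ω M ρ ξ hP0 hωdeg hM g1 g2 g3 ?_ hsω
  rw [hAcard] at g5
  rw [← hDdef]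
  have h1 : (2 * (ω : ℝ) * D) ^ 2 * M < (Nat.totient M : ℝ) ^ 2 := by
    have hM' : (0 : ℝ) < M := by exact_mod_cast hM
    calc (2 * (ω : ℝ) * D) ^ 2 * M < ((u ^ 4) ^ (k + 1)) * M := by
          apply mul_lt_mul_of_pos_right _ hM'
          have hDu : (D : ℝ) ≤ u ^ k := by linarith
          calc (2 * (ω : ℝ) * D) ^ 2 ≤ (2 * u ^ k * u ^ k) ^ 2 := by
                gcongr
                linarith
            _ = 4 * (u ^ k) ^ 4 := by ring
            _ < u ^ 4 * (u ^ k) ^ 4 := by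
                apply mul_lt_mul_of_pos_right _ (by positivity)
                have : u ≤ u ^ 4 := le_self_pow₀ hu1 (by norm_num)
                linarith
            _ = (u ^ 4) ^ (k + 1) := by ring
      _ = M * (u ^ 4) ^ (k + 1) := by ring
      _ ≤ _ := g5
  exact_mod_cast h1

end

end Pool.Agent.NH69.MI
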