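import Pool.Agent.NH69.MI.Core8

/-!
# The sharp two-variable inequality
-/

set_option autoImplicit false

open NumberField Module MvPolynomial

namespace Pool.Agent.NH69.MI

lemma large2 (C B : ℝ) : ∃ u₀ : ℝ, 1 ≤ u₀ ∧ ∀ u : ℝ, u₀ ≤ u →
    1000 ≤ u ∧ B ≤ u ∧ C * Real.log u ≤ u ∧ 1 ≤ Real.log u := by
  have h1 : Filter.Tendsto (fun u : ℝ => Real.log u / u) Filter.atTop (nhds 0) :=
    Real.isLittleO_log_id_atTop.tendsto_div_nhds_zero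
  have hC : 0 < 1 / (|C| + 1) := by positivity
  have h2 : ∀ᶠ u : ℝ in Filter.atTop, Real.log u / u < 1 / (|C| + 1) :=
    h1.eventually (gt_mem_nhds hC)
  have h3 : ∀ᶠ u : ℝ in Filter.atTop, 1 ≤ Real.log u :=
    Real.tendsto_log_atTop.eventually_ge_atTop 1
  have h4 : ∀ᶠ u : ℝ in Filter.atTop, 1000 ≤ u := Filter.eventually_ge_atTop 1000
  have h5 : ∀ᶠ u : ℝ in Filter.atTop, B ≤ u := Filter.eventually_ge_atTop B
  obtain ⟨u₀, hu₀⟩ := Filter.eventually_atTop.1 (h2.and (h3.and (h4.and h5)))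
  refine ⟨max u₀ 1, le_max_right _ _, fun u hu => ?_⟩
  obtain ⟨g1, g2, g3, g4⟩ := hu₀ u ((le_max_left _ _).trans hu)
  refine ⟨g3, g4, ?_, g2⟩
  have hu0 : 0 < u := by linarith
  rw [div_lt_div_iff₀ hu0 (by positivity)] at g1
  have h6 : C ≤ |C| := le_abs_self C
  have h7 : C * Real.log u ≤ |C| * Real.log u := by gcongr
  have h8 : 0 ≤ |C| := abs_nonneg C
  nlinarith

theorem t_core2 (hg : S_GAIN) (hr : S_RAM) (hd : S_DISC) (hs : S_SPAN) (hc : S_CRT) (hp : S_PIG)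
    (hprm : S_PRM) (hdega : S_DEGA) (hrk : S_RK) (hfib : S_FIB) (hta : S_TA) (hpigr : S_PIGR)
    (hvan : S_VAN) (hdegg : S_DEGG) : S_CORE2 := by
  intro κ hκ
  obtain ⟨X₀, hX₀⟩ := hprm
  obtain ⟨k, hk⟩ : ∃ k : ℕ, 1 + κ ≤ κ * k := by
    obtain ⟨k, hk⟩ := exists_nat_ge ((1 + κ) / κ)
    refine ⟨k, ?_⟩
    rw [div_le_iff₀ hκ] at hk
    linarith
  obtain ⟨u₀, hu₀1, hu₀⟩ := large2 (10 ^ 6 * ((k : ℝ) + 3) ^ 3) (X₀ + 1)
  refine ⟨⌈u₀ ^ (1 / κ)⌉₊, ?_⟩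
  intro K _ _ S u x y hD hu hS hgen hP
  have hDpos : 0 < finrank ℚ K := finrank_pos
  have hDR : (0 : ℝ) < finrank ℚ K := by exact_mod_cast hDpos
  have huu₀ : u₀ ≤ u := by
    have h1 : u₀ ^ (1 / κ) ≤ (finrank ℚ K : ℝ) := by
      refine (Nat.le_ceil _).trans ?_
      exact_mod_cast hD
    calc u₀ = (u₀ ^ (1 / κ)) ^ κ := by
          rw [← Real.rpow_mul (by linarith), one_div, inv_mul_cancel₀ hκ.ne', Real.rpow_one]
      _ ≤ (finrank ℚ K : ℝ) ^ κ := by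
          apply Real.rpow_le_rpow _ h1 hκ.le
          positivity
      _ = u := hu.symm
  obtain ⟨g1, g2, g3, g4⟩ := hu₀ u huu₀
  have hE : Env K S u k X₀ := by
    refine ⟨g1, g2, hS, ?_, g3, g4⟩
    have h1 : (1 : ℝ) ≤ finrank ℚ K := by exact_mod_cast hDpos
    calc (finrank ℚ K : ℝ) + 1 ≤ finrank ℚ K * u := by nlinarith
      _ = (finrank ℚ K : ℝ) ^ (1 + κ) := by
          rw [Real.rpow_add hDR, Real.rpow_one, hu]
      _ ≤ (finrank ℚ K : ℝ) ^ (κ * k) := Real.rpow_le_rpow_of_exponent_le h1 hk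
      _ = u ^ k := by
          rw [Real.rpow_mul hDR.le, ← hu, Real.rpow_natCast]
  by_cases h : ∃ G : MvPolynomial (Fin 2) ℤ, G ≠ 0 ∧
      (∀ i, G.degreeOf i ≤ ⌊S.card * u ^ 20⌋₊) ∧
      aeval ![((x : 𝓞 K) : K), ((y : 𝓞 K) : K)] G = 0
  · obtain ⟨G, h1, h2, h3⟩ := h
    exact t_rel hrk hfib hta hpigr hvan hdegg hX₀ hE hP hgen G h1 h2 h3
  · refine t_main hg hr hd hs hc hp hdega hX₀ hE hP hgen ?_
    intro G h1 h2 h3
    exact h ⟨G, h1, h2, h3⟩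

end Pool.Agent.NH69.MI
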