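import Pool.Agent.NH69.MI.All
import Pool.Agent.R826.FrobJ
import Pool.Agent.R826.FrobO

/-!
# Fields with small composita: the gap
-/

set_option autoImplicit false

open NumberField Module Pool.Agent.H225R3.Marg

namespace Pool.Agent.NH69.MI

/-- the degree over `ℚ` of the compositum of `σ(k)` and `σ'(k)` in `ℂ` -/
noncomputable def compDeg {k : Type} [Field k] [NumberField k] (σ σ' : k →+* ℂ) : ℕ :=
  finrank ℚ ↥(σ.toRatAlgHom.fieldRange ⊔ σ'.toRatAlgHom.fieldRange)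

/-- small composita: for each nonempty subset `T` of `S` there are an embedding `σ` in `T` and an
embedding `σ'` not in `T` such that `|S| ^ 2 [σ(k) σ'(k) : ℚ] ≤ [k : ℚ] ^ (2 - ε)` -/
def SmallComposita (ε : ℝ) (k : Type) [Field k] [NumberField k] (S : Finset (k →+* ℂ)) : Prop :=
  ∀ T ⊆ S, T.Nonempty → ∃ σ ∈ T, ∃ σ' : k →+* ℂ, σ' ∉ T ∧
    (S.card : ℝ) ^ 2 * compDeg σ σ' ≤ (finrank ℚ k : ℝ) ^ (2 - ε)

instance finComp {k : Type} [Field k] [NumberField k] (σ σ' : k →+* ℂ) :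
    FiniteDimensional ℚ ↥(σ.toRatAlgHom.fieldRange ⊔ σ'.toRatAlgHom.fieldRange) := by
  have h1 : FiniteDimensional ℚ σ.toRatAlgHom.fieldRange :=
    LinearMap.finiteDimensional_range σ.toRatAlgHom.toLinearMap
  have h2 : FiniteDimensional ℚ σ'.toRatAlgHom.fieldRange :=
    LinearMap.finiteDimensional_range σ'.toRatAlgHom.toLinearMap
  infer_instance

/-- the compositum as an abstract field -/
lemma comp_exists {k : Type} [Field k] [NumberField k] (σ σ' : k →+* ℂ) :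
    ∃ (K : Type) (_ : Field K) (_ : NumberField K) (i j : k →+* K) (ρ : K →+* ℂ),
      ρ.comp i = σ ∧ ρ.comp j = σ' ∧ finrank ℚ K = compDeg σ σ' := by
  refine ⟨↥(σ.toRatAlgHom.fieldRange ⊔ σ'.toRatAlgHom.fieldRange), inferInstance, ⟨⟩,
    σ.codRestrict (σ.toRatAlgHom.fieldRange ⊔ σ'.toRatAlgHom.fieldRange) (fun x =>
      (le_sup_left : σ.toRatAlgHom.fieldRange ≤ _) ⟨x, rfl⟩),
    σ'.codRestrict (σ.toRatAlgHom.fieldRange ⊔ σ'.toRatAlgHom.fieldRange) (fun x =>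
      (le_sup_right : σ'.toRatAlgHom.fieldRange ≤ _) ⟨x, rfl⟩),
    (σ.toRatAlgHom.fieldRange ⊔ σ'.toRatAlgHom.fieldRange).val.toRingHom, ?_, ?_, rfl⟩
  · ext x
    rfl
  · ext x
    rfl

/-- the degree of the compositum is at most the degree of any field containing both conjugates -/
lemma compDeg_le {k K : Type} [Field k] [NumberField k] [Field K] [NumberField K] (i j : k →+* K)
    (ρ : K →+* ℂ) : compDeg (ρ.comp i) (ρ.comp j) ≤ finrank ℚ K := by
  have h1 : (ρ.comp i).toRatAlgHom.fieldRange ⊔ (ρ.comp j).toRatAlgHom.fieldRange ≤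
      ρ.toRatAlgHom.fieldRange := by
    refine sup_le ?_ ?_
    · rintro _ ⟨x, rfl⟩
      exact ⟨i x, rfl⟩
    · rintro _ ⟨x, rfl⟩
      exact ⟨j x, rfl⟩
  have h2 : finrank ℚ ρ.toRatAlgHom.fieldRange = finrank ℚ K :=
    (AlgEquiv.ofInjectiveField ρ.toRatAlgHom).symm.toLinearEquiv.finrank_eq
  have h3 : FiniteDimensional ℚ ρ.toRatAlgHom.fieldRange :=
    LinearMap.finiteDimensional_range ρ.toRatAlgHom.toLinearMap
  rw [← h2]
  exact LinearMap.finrank_le_finrank_of_injective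
    (f := (IntermediateField.inclusion h1).toLinearMap)
    (IntermediateField.inclusion_injective h1)

lemma le_compDeg {k : Type} [Field k] [NumberField k] (σ σ' : k →+* ℂ) :
    finrank ℚ k ≤ compDeg σ σ' := by
  obtain ⟨K, _, _, i, j, ρ, h1, h2, h3⟩ := comp_exists σ σ'
  rw [← h3]
  exact LinearMap.finrank_le_finrank_of_injective (f := i.toRatAlgHom.toLinearMap) i.injective

/-- the numerical condition -/
lemma num_cond {s d D ε ε' : ℝ} (hε'1 : 0 < ε') (hε'3 : 4 * ε' ≤ ε) (hSpos : 1 ≤ s) (hd1 : 1 ≤ d)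
    (hDpos : 0 < D) (hle : s ^ 2 * D ≤ d ^ (2 - ε)) : s * D ≤ D ^ (1 / 2 - ε') * d := by
  have hs0 : 0 < s := by linarith
  have hdpos : 0 < d := by linarith
  have hDd2 : D ≤ d ^ (2 : ℝ) := by
    have h1 : D ≤ s ^ 2 * D := by
      have : 1 ≤ s ^ 2 := one_le_pow₀ hSpos
      nlinarith
    have h2 : d ^ (2 - ε) ≤ d ^ (2 : ℝ) :=
      Real.rpow_le_rpow_of_exponent_le hd1 (by linarith)
    linarith
  -- square both sides
  have h1 : (s * D) ^ 2 ≤ (D ^ (1 / 2 - ε') * d) ^ 2 := by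
    have e1 : (D ^ (1 / 2 - ε')) ^ 2 = D ^ (1 - 2 * ε') := by
      rw [← Real.rpow_natCast, ← Real.rpow_mul hDpos.le]
      congr 1
      push_cast
      ring
    have e2 : D ^ (2 * ε') ≤ d ^ ε := by
      calc D ^ (2 * ε') ≤ (d ^ (2 : ℝ)) ^ (2 * ε') :=
            Real.rpow_le_rpow hDpos.le hDd2 (by positivity)
        _ = d ^ (4 * ε') := by
            rw [← Real.rpow_mul hdpos.le]
            congr 1
            ring
        _ ≤ d ^ ε := Real.rpow_le_rpow_of_exponent_le hd1 hε'3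
    have e3 : D ^ (1 - 2 * ε') * D ^ (2 * ε') = D := by
      rw [← Real.rpow_add hDpos]
      ring_nf
      exact Real.rpow_one D
    have e4 : d ^ (2 - ε) * d ^ ε = d ^ 2 := by
      rw [← Real.rpow_add hdpos, ← Real.rpow_natCast]
      congr 1
      push_cast
      ring
    calc (s * D) ^ 2 = (s ^ 2 * D) * D := by ring
      _ ≤ d ^ (2 - ε) * D := by gcongr
      _ = d ^ (2 - ε) * (D ^ (1 - 2 * ε') * D ^ (2 * ε')) := by rw [e3]
      _ ≤ d ^ (2 - ε) * (D ^ (1 - 2 * ε') * d ^ ε) := by gcongr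
      _ = D ^ (1 - 2 * ε') * (d ^ (2 - ε) * d ^ ε) := by ring
      _ = D ^ (1 - 2 * ε') * d ^ 2 := by rw [e4]
      _ = (D ^ (1 / 2 - ε') * d) ^ 2 := by rw [mul_pow, e1]
  exact le_of_sq_le_sq h1 (by positivity)

/-- the growth of the eigenvalues -/
theorem growth (ε : ℝ) (hε : 0 < ε) : ∃ κ : ℝ, 0 < κ ∧ ∀ n : ℕ, ∃ D₀ : ℕ,
    ∀ (k : Type) [Field k] [NumberField k] (S : Finset (k →+* ℂ))
      (A : Matrix (Fin n) (Fin n) (𝓞 k)), D₀ ≤ finrank ℚ k → SmallComposita ε k S → IsUnit A →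
      (∀ σ : k →+* ℂ, σ ∉ S → ∀ l : ℂ, ((emb σ).mapMatrix A).charpoly.IsRoot l → ‖l‖ = 1) →
      (∀ N : ℕ, 0 < N → ¬ IsNilpotent (A ^ N - 1)) →
      ∃ σ ∈ S, ∃ l : ℂ, ((emb σ).mapMatrix A).charpoly.IsRoot l ∧
        (finrank ℚ k : ℝ) ^ κ < Real.log ‖l‖ := by
  classical
  obtain ⟨ε', hε'1, hε'2, hε'3⟩ : ∃ ε' : ℝ, 0 < ε' ∧ ε' < 1 / 2 ∧ 4 * ε' ≤ ε := by
    refine ⟨min (ε / 4) (1 / 4), by positivity, ?_, ?_⟩
    · exact (min_le_right _ _).trans_lt (by norm_num)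
    · have := min_le_left (ε / 4) (1 / 4)
      linarith
  obtain ⟨κ, hκ, h⟩ := mat2 ε' hε'1 hε'2
  refine ⟨κ, hκ, fun n => ?_⟩
  obtain ⟨D₀, hD₀⟩ := h n
  refine ⟨D₀, ?_⟩
  intro k _ _ S A hD hsmall hA hcirc hnil
  -- the embeddings with an eigenvalue off the circle
  obtain ⟨SA, hSA⟩ : ∃ SA : Finset (k →+* ℂ), ∀ σ, σ ∈ SA ↔
      ∃ l : ℂ, ((emb σ).mapMatrix A).charpoly.IsRoot l ∧ ‖l‖ ≠ 1 :=
    ⟨Finset.univ.filter fun σ => ∃ l : ℂ, ((emb σ).mapMatrix A).charpoly.IsRoot l ∧ ‖l‖ ≠ 1,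
      fun σ => by rw [Finset.mem_filter]; exact ⟨fun h => h.2, fun h => ⟨Finset.mem_univ _, h⟩⟩⟩
  have hSAS : SA ⊆ S := by
    intro σ hσ
    by_contra hn
    obtain ⟨l, h1, h2⟩ := (hSA σ).1 hσ
    exact h2 (hcirc σ hn l h1)
  have hSAne : SA.Nonempty := by
    obtain ⟨σ, l, h1, h2⟩ := Pool.Agent.R826.Frob.exists_big S A hA
      (fun σ hσ l hl => (hcirc σ hσ l hl).le) hnil
    exact ⟨σ, (hSA σ).2 ⟨l, h1, h2.ne'⟩⟩
  obtain ⟨σ, hσ, σ', hσ', hle⟩ := hsmall SA hSAS hSAne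
  obtain ⟨K, _, _, i, j, ρ, e1, e2, e3⟩ := comp_exists σ σ'
  have hdpos : (0 : ℝ) < finrank ℚ k := by
    have : 0 < finrank ℚ k := finrank_pos
    exact_mod_cast this
  have hd1 : (1 : ℝ) ≤ finrank ℚ k := by
    have : 0 < finrank ℚ k := finrank_pos
    exact_mod_cast this
  have hdK : (finrank ℚ k : ℝ) ≤ finrank ℚ K := by
    rw [e3]
    exact_mod_cast le_compDeg σ σ'
  have hDpos : (0 : ℝ) < finrank ℚ K := lt_of_lt_of_le hdpos hdK
  have hSpos : (1 : ℝ) ≤ S.card := by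
    have : 0 < S.card := Finset.card_pos.2 (hSAne.mono hSAS)
    exact_mod_cast this
  obtain ⟨τ, hτ, l, hl, hlog⟩ := hD₀ k K i j ρ S A (by
      have h1 := le_compDeg σ σ'
      omega) hA hcirc (by
      rw [e1]
      exact (hSA σ).1 hσ) (by
      intro l hl
      rw [e2] at hl
      by_contra hne
      exact hσ' ((hSA σ').2 ⟨l, hl, hne⟩)) (by
      rw [← e3] at hle
      exact num_cond hε'1 hε'3 hSpos hd1 hDpos hle)
  refine ⟨τ, hτ, l, hl, lt_of_le_of_lt ?_ hlog⟩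
  exact Real.rpow_le_rpow hdpos.le hdK hκ.le

/-- the gap -/
theorem gap (ε : ℝ) (hε : 0 < ε) (N n : ℕ) : ∃ E : ℕ, 0 < E ∧
    ∀ (k : Type) [Field k] [NumberField k] (S : Finset (k →+* ℂ))
      (A : Matrix (Fin n) (Fin n) (𝓞 k)), (finrank ℚ k ≤ N ∨ SmallComposita ε k S) → IsUnit A →
      (∀ σ : k →+* ℂ, σ ∉ S → ∀ l : ℂ, ((emb σ).mapMatrix A).charpoly.IsRoot l → ‖l‖ = 1) →
      (∀ N : ℕ, 0 < N → ¬ IsNilpotent (A ^ N - 1)) →
      ∃ σ ∈ S, ∃ l : ℂ, ((emb σ).mapMatrix A).charpoly.IsRoot l ∧ 2 ≤ ‖l‖ ^ E := by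
  obtain ⟨κ, hκ, hgr⟩ := growth ε hε
  obtain ⟨D₀, hD₀⟩ := hgr n
  obtain ⟨N', hN'⟩ : ∃ N' : ℕ, N' = max N D₀ := ⟨_, rfl⟩
  obtain ⟨E, hE⟩ := Pool.Agent.R826.Frob.high_ram 2 N' n (Real.log (2 * N'))
  refine ⟨E + 1, Nat.succ_pos _, ?_⟩
  intro k _ _ S A hk hA hcirc hnil
  have up : ∀ (N N' : ℕ) (l : ℂ), N ≤ N' → 2 ≤ ‖l‖ ^ N → 2 ≤ ‖l‖ ^ N' := by
    intro N N' l hN h
    have hl : 1 ≤ ‖l‖ := by
      by_contra hlt
      push Not at hlt
      have := pow_le_one₀ (n := N) (norm_nonneg l) hlt.le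
      linarith
    exact h.trans (pow_le_pow_right₀ hl hN)
  by_cases hd : finrank ℚ k ≤ N'
  · have hdpos : 0 < finrank ℚ k := finrank_pos
    have hp2 : Fact (Nat.Prime 2) := ⟨Nat.prime_two⟩
    obtain ⟨σ, hσ, l, hl, _, hl2⟩ := hE k S A 2 Nat.prime_two le_rfl (by
        refine le_trans ?_ hd
        rw [← Embeddings.card k ℂ]
        exact Finset.card_le_univ S) (by
        have h1 := Pool.Agent.TH53.HR.resDegSum_le (K := k) 2 (e := 1) (fun P hP => by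
          have hPp : P.IsPrime := hP.1
          have h3 : 1 ≤ P.ramificationIdx ℤ := P.ramificationIdx_pos ℤ
          exact_mod_cast h3)
        rw [one_mul] at h1
        have h2 : Real.log (2 * finrank ℚ k) ≤ Real.log (2 * N') := by
          apply Real.log_le_log
          · positivity
          · have : (finrank ℚ k : ℝ) ≤ N' := by exact_mod_cast hd
            linarith
        have h3 : 0 ≤ Real.log (2 * finrank ℚ k) := by
          apply Real.log_nonneg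
          have : (1 : ℝ) ≤ finrank ℚ k := by exact_mod_cast hdpos
          linarith
        calc _ ≤ (finrank ℚ k : ℝ) * Real.log (2 * finrank ℚ k) := by gcongr
          _ ≤ finrank ℚ k * Real.log (2 * N') := by gcongr
          _ = _ := mul_comm _ _) hA
      (fun σ hσ l hl => (hcirc σ hσ l hl).le) hnil
    exact ⟨σ, hσ, l, hl, up _ _ l (Nat.le_succ _) hl2⟩
  · have h1 : SmallComposita ε k S := by
      rcases hk with h | h
      · exact absurd (h.trans (hN' ▸ le_max_left _ _)) hd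
      · exact h
    obtain ⟨σ, hσ, l, hl, hlog⟩ := hD₀ k S A (by
      have : D₀ ≤ N' := hN' ▸ le_max_right _ _
      omega) h1 hA hcirc hnil
    refine ⟨σ, hσ, l, hl, up 1 _ l (by omega) ?_⟩
    rw [pow_one]
    have hd1 : (1 : ℝ) ≤ finrank ℚ k := by
      have : 0 < finrank ℚ k := finrank_pos
      exact_mod_cast this
    have h2 : 1 ≤ (finrank ℚ k : ℝ) ^ κ := Real.one_le_rpow hd1 hκ.le
    have h3 : 1 < Real.log ‖l‖ := by linarith
    have hpos : 0 < ‖l‖ := by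
      by_contra hcon
      have : ‖l‖ = 0 := le_antisymm (not_lt.1 hcon) (norm_nonneg _)
      rw [this, Real.log_zero] at h3
      linarith
    rw [Real.lt_log_iff_exp_lt hpos] at h3
    have := Real.exp_one_gt_d9
    linarith

end Pool.Agent.NH69.MI
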