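import Pool.Agent.NH69.MI.Stm
import Pool.Agent.R826.FrobO

/-!
# From matrices to pairs of units: statement
-/

set_option autoImplicit false

open NumberField Module Pool.Agent.H225R3.Marg

namespace Pool.Agent.NH69.MI

/-- H1. Let `n` be given. Let `k ⊆ K` be number fields, `[K : ℚ]` large, `S` a set of embeddings of
`k`, and suppose that there are more than `|S|` embeddings of `k` in `K`, and
`|S| [K : k] ≤ [K : ℚ] ^ (1 / 200)`. Let `A` be an invertible matrix over the ring of integers of `k`,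
no power of which is unipotent, with eigenvalues of absolute value `1` under all embeddings outside
`S`. Then under an embedding in `S` there is an eigenvalue `l` with `log |l| > [K : ℚ] ^ (1 / 400)`.

Proof from `S_CORE`. Write `i` for embeddings of `k` in `K`, `σ` of `k` in `ℂ`, `ρ` of `K` in `ℂ`.
(1) Let `SA` be the set of the `σ` such that `σ A` has an eigenvalue of absolute value `≠ 1`; it is
contained in `S`, and not empty by `Pool.Agent.R826.Frob.exists_big` (with `S`; `= 1` gives `≤ 1`).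
(2) For each `i` let `Σ_i = {ρ | ρ.comp i ∈ SA}`; it has `|SA| [K : k]` elements, independent of `i`
(each `σ` has `[K : k]` extensions along `i`, and `[K : k] = [K : ℚ] / [k : ℚ]` for each `i`). If all
`Σ_i` were equal, take `ρ` in `Σ_{i₀}`; then `i ↦ ρ.comp i` is an injection of `k →+* K` into `SA ⊆ S`,
contradiction. So there are `i₁`, `i₂` with `Σ_{i₁} ≠ Σ_{i₂}`, and since the cardinalities are equal
there are `ρ₁ ∈ Σ_{i₁} \ Σ_{i₂}` and `ρ₂ ∈ Σ_{i₂} \ Σ_{i₁}`.
(3) Let `E ⊇ K` be a splitting field of the product of the characteristic polynomials of `i₁ A` and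
`i₂ A`, of degree at most `(2 n)!` over `K` (it is enough to have a bound depending only on `n`).
Extend `ρ₁`, `ρ₂` to embeddings `τ₁`, `τ₂` of `E`. There is a root `α` in `E` of the characteristic
polynomial of `i₁ A` with `‖τ₁ α‖ ≠ 1` and a root `β` for `i₂ A` with `‖τ₂ β‖ ≠ 1`; also
`‖τ₁ β‖ = 1` and `‖τ₂ α‖ = 1`, as `ρ₁.comp i₂ ∉ SA`, `ρ₂.comp i₁ ∉ SA`. Both are units of the ring of
integers of `E` (roots of a monic polynomial whose constant term is a unit). The number of the
embeddings `τ` of `E` with `‖τ α‖ ≠ 1` or `‖τ β‖ ≠ 1` is at most `2 |SA| [E : k] ≤ X :=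
2 (2 n)! |S| [K : k]`.
(4) Let `F = ℚ(α, β)`, a subfield of `E`; `[E : F] ≤ X` as all `τ` which agree with `τ₁` on `F` are among
those of (3). The set `S'` of the embeddings of `F` with `‖τ α‖ ≠ 1` or `‖τ β‖ ≠ 1` has at most `X`
elements, and `[F : ℚ] ≥ [E : ℚ] / X ≥ [K : ℚ] / X`.
(5) Suppose `log ‖l‖ ≤ η := [K : ℚ] ^ (1 / 400)` for all eigenvalues `l` of `σ A`, `σ ∈ S` (for the other
`σ` they have absolute value 1). Then all conjugates of `α`, `β` have absolute value at most `exp η`,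
and, as the product of all conjugates of `α` (over the embeddings of `F`) has absolute value 1 and at
most `X` of them are off the circle, at least `exp (-X η)`. So `Pair F S' (X η) α β` holds (also
`Pair F S' u α β` for any `u ≥ X η`).
(6) Since `X ≤ 2 (2 n)! [K : ℚ] ^ (1 / 200)` and `[F : ℚ] ≥ [K : ℚ] / X`, for `[K : ℚ]` large
`X ≤ X η ≤ [F : ℚ] ^ (1 / 100)` and `[F : ℚ]` is large, contradicting `S_CORE`. -/
def S_MAT : Prop := ∀ n : ℕ, ∃ D₀ : ℕ, ∀ (k K : Type) [Field k] [NumberField k] [Field K]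
  [NumberField K] [Algebra k K] (S : Finset (k →+* ℂ)) (A : Matrix (Fin n) (Fin n) (𝓞 k)),
  D₀ ≤ finrank ℚ K → IsUnit A →
  (∀ σ : k →+* ℂ, σ ∉ S → ∀ l : ℂ, ((emb σ).mapMatrix A).charpoly.IsRoot l → ‖l‖ = 1) →
  (∀ N : ℕ, 0 < N → ¬ IsNilpotent (A ^ N - 1)) →
  S.card < Nat.card (k →+* K) →
  (S.card * finrank k K : ℝ) ≤ (finrank ℚ K : ℝ) ^ (1 / 200 : ℝ) →
  ∃ σ ∈ S, ∃ l : ℂ, ((emb σ).mapMatrix A).charpoly.IsRoot l ∧
    (finrank ℚ K : ℝ) ^ (1 / 400 : ℝ) < Real.log ‖l‖

end Pool.Agent.NH69.MI
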