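import Pool.Agent.NH69.MI.MatA
import Pool.Agent.NH69.MI.Stm2

/-!
# Project MI, job MI-H1: from matrices to pairs of units
-/

set_option autoImplicit false

open NumberField Module Pool.Agent.H225R3.Marg

namespace Pool.Agent.NH69.MI.Mat

open Polynomial

theorem charpoly_emb {k K : Type} [Field k] [Field K] {n : ℕ}
    (A : Matrix (Fin n) (Fin n) (𝓞 k)) (i : k →+* K) (ρ : K →+* ℂ) :
    ((emb (ρ.comp i)).mapMatrix A).charpoly =
      (A.charpoly.map (i.comp (algebraMap (𝓞 k) k))).map ρ := by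
  rw [RingHom.mapMatrix_apply, Matrix.charpoly_map, Polynomial.map_map]
  rfl

/-- a root of the image of a polynomial under an embedding comes from an algebraic closure -/
theorem lift_root {K : Type} [Field K] (Q : K[X]) (hQ : Q ≠ 0) (ρ : K →+* ℂ) (l : ℂ)
    (hl : (Q.map ρ).IsRoot l) : ∃ (τ : AlgebraicClosure K →+* ℂ) (α : AlgebraicClosure K),
      τ.comp (algebraMap K (AlgebraicClosure K)) = ρ ∧ aeval α Q = 0 ∧ τ α = l := by
  let a1 : Algebra K ℂ := ρ.toAlgebra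
  let τ' : AlgebraicClosure K →ₐ[K] ℂ := IsAlgClosed.lift
  have hτ : (τ' : AlgebraicClosure K →+* ℂ).comp (algebraMap K (AlgebraicClosure K)) = ρ := by
    ext x
    exact τ'.commutes x
  obtain ⟨Q', hQ'⟩ : ∃ Q', Q' = Q.map (algebraMap K (AlgebraicClosure K)) := ⟨_, rfl⟩
  have h1 : Q'.map (τ' : AlgebraicClosure K →+* ℂ) = Q.map ρ := by
    rw [hQ', Polynomial.map_map, hτ]
  have hs : Q'.Splits := IsAlgClosed.splits Q'
  have h2 : (Q'.map (τ' : AlgebraicClosure K →+* ℂ)).roots =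
      Q'.roots.map (τ' : AlgebraicClosure K →+* ℂ) := hs.roots_map _
  have h3 : l ∈ (Q'.map (τ' : AlgebraicClosure K →+* ℂ)).roots := by
    rw [h1, Polynomial.mem_roots (Polynomial.map_ne_zero hQ)]
    exact hl
  rw [h2, Multiset.mem_map] at h3
  obtain ⟨α, hα, hαl⟩ := h3
  refine ⟨τ', α, hτ, ?_, hαl⟩
  have h4 := Polynomial.isRoot_of_mem_roots hα
  rw [hQ', Polynomial.IsRoot.def, Polynomial.eval_map] at h4
  exact h4

/-- the eigenvalues are units -/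
theorem root_int {k : Type} [Field k] [NumberField k] {n : ℕ}
    (A : Matrix (Fin n) (Fin n) (𝓞 k)) (hA : IsUnit A) {Ω : Type} [Field Ω] [CharZero Ω]
    (f : 𝓞 k →+* Ω) (α : Ω) (h : eval₂ f α A.charpoly = 0) :
    α ≠ 0 ∧ IsIntegral ℤ α ∧ IsIntegral ℤ α⁻¹ := by
  have hf : ∀ x : 𝓞 k, f x ∈ integralClosure ℤ Ω := by
    intro x
    have h1 : IsIntegral ℤ x := Algebra.IsIntegral.isIntegral x
    exact h1.map f.toIntAlgHom
  let f' : 𝓞 k →+* integralClosure ℤ Ω := f.codRestrict (integralClosure ℤ Ω) hf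
  have hα : IsIntegral ℤ α := by
    have h1 : IsIntegral (integralClosure ℤ Ω) α := by
      refine ⟨A.charpoly.map f', (Matrix.charpoly_monic A).map _, ?_⟩
      rw [Polynomial.eval₂_map]
      exact h
    exact isIntegral_trans α h1
  have hdet : IsUnit (A.charpoly.coeff 0) := by
    have h1 : IsUnit A.det := (Matrix.isUnit_iff_isUnit_det A).1 hA
    rw [Matrix.det_eq_sign_charpoly_coeff] at h1
    exact isUnit_of_mul_isUnit_right h1
  obtain ⟨c, hc⟩ := hdet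
  have hev : eval₂ f α A.charpoly = eval₂ f α A.charpoly.divX * α + f (c : 𝓞 k) := by
    conv_lhs => rw [← Polynomial.divX_mul_X_add A.charpoly]
    rw [Polynomial.eval₂_add, Polynomial.eval₂_mul, Polynomial.eval₂_X, Polynomial.eval₂_C, hc]
  have hq : eval₂ f α A.charpoly.divX ∈ integralClosure ℤ Ω := by
    rw [Polynomial.eval₂_eq_sum_range]
    exact Subalgebra.sum_mem _ fun i _ => Subalgebra.mul_mem _ (hf _)
      (Subalgebra.pow_mem _ hα _)
  have hci : f (c : 𝓞 k) * f ((c⁻¹ : (𝓞 k)ˣ) : 𝓞 k) = 1 := by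
    rw [← map_mul, Units.mul_inv, map_one]
  have hinv : α * (-(eval₂ f α A.charpoly.divX) * f ((c⁻¹ : (𝓞 k)ˣ) : 𝓞 k)) = 1 := by
    rw [hev] at h
    have h1 : eval₂ f α A.charpoly.divX * α = -f (c : 𝓞 k) := eq_neg_of_add_eq_zero_left h
    calc α * (-(eval₂ f α A.charpoly.divX) * f ((c⁻¹ : (𝓞 k)ˣ) : 𝓞 k))
        = -(eval₂ f α A.charpoly.divX * α) * f ((c⁻¹ : (𝓞 k)ˣ) : 𝓞 k) := by ring
      _ = 1 := by rw [h1, neg_neg, hci]
  have hα0 : α ≠ 0 := left_ne_zero_of_mul_eq_one hinv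
  refine ⟨hα0, hα, ?_⟩
  have h2 : α⁻¹ = -(eval₂ f α A.charpoly.divX) * f ((c⁻¹ : (𝓞 k)ˣ) : 𝓞 k) :=
    inv_eq_of_mul_eq_one_right hinv
  rw [h2]
  exact Subalgebra.mul_mem (integralClosure ℤ Ω) (Subalgebra.neg_mem _ hq) (hf _)

theorem aeval_sub {K Ω : Type} [Field K] [Field Ω] [Algebra K Ω] (E : IntermediateField K Ω)
    (x : Ω) (hx : x ∈ E) (Q : K[X]) (h : aeval x Q = 0) :
    eval₂ (algebraMap K E) (⟨x, hx⟩ : E) Q = 0 := by
  have h1 : aeval (E.val ⟨x, hx⟩) Q = E.val (aeval (⟨x, hx⟩ : E) Q) :=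
    Polynomial.aeval_algHom_apply E.val ⟨x, hx⟩ Q
  have h2 : E.val (aeval (⟨x, hx⟩ : E) Q) = 0 := by
    rw [← h1]
    exact h
  have h3 : aeval (⟨x, hx⟩ : E) Q = 0 := Subtype.ext h2
  exact h3

theorem pair_mono {K : Type} [Field K] [NumberField K] {S : Finset (K →+* ℂ)} {η η' : ℝ}
    {α β : (𝓞 K)ˣ} (h : Pair K S η α β) (hη : η ≤ η') : Pair K S η' α β :=
  ⟨h.circ1, h.circ2, fun ρ => (h.bd1 ρ).trans hη, fun ρ => (h.bd2 ρ).trans hη, h.ind1, h.ind2⟩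

theorem exists_two {k K : Type} [Field k] [NumberField k] [Field K] [NumberField K]
    [Algebra k K] (SA : Finset (k →+* ℂ)) (hne : SA.Nonempty) (hc : SA.card < Nat.card (k →+* K)) :
    ∃ (i₁ i₂ : k →+* K) (ρ₁ ρ₂ : K →+* ℂ), ρ₁.comp i₁ ∈ SA ∧ ρ₁.comp i₂ ∉ SA ∧
      ρ₂.comp i₂ ∈ SA ∧ ρ₂.comp i₁ ∉ SA := by
  classical
  have hex : ∀ i : k →+* K, ∃ T : Finset (K →+* ℂ), ∀ ρ, ρ ∈ T ↔ ρ.comp i ∈ SA := fun i =>
    ⟨Finset.univ.filter fun ρ => ρ.comp i ∈ SA, fun ρ => by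
      rw [Finset.mem_filter]
      exact ⟨fun h => h.2, fun h => ⟨Finset.mem_univ _, h⟩⟩⟩
  choose Sg hSg using hex
  have hcard : ∀ i j, (Sg i).card = (Sg j).card := by
    intro i j
    have h1 := ext_card_set i SA (Sg i) (hSg i)
    have h2 := ext_card_set j SA (Sg j) (hSg j)
    have h3 : 0 < finrank ℚ k := Module.finrank_pos
    exact Nat.eq_of_mul_eq_mul_right h3 (h1.trans h2.symm)
  have hne2 : ∃ i₁ i₂, Sg i₁ ≠ Sg i₂ := by
    by_contra hcon
    push Not at hcon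
    obtain ⟨σ0, hσ0⟩ := hne
    obtain ⟨ρ, hρ⟩ := ext_exists (algebraMap k K) σ0
    have h1 : ρ ∈ Sg (algebraMap k K) := by
      rw [hSg, hρ]
      exact hσ0
    have h2 : ∀ i : k →+* K, ρ.comp i ∈ SA := by
      intro i
      rw [← hSg, hcon i (algebraMap k K)]
      exact h1
    let f : (k →+* K) → SA := fun i => ⟨ρ.comp i, h2 i⟩
    have hf : Function.Injective f := by
      intro i j hij
      have h3 : ρ.comp i = ρ.comp j := congrArg Subtype.val hij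
      ext x
      exact ρ.injective (RingHom.congr_fun h3 x)
    have h3 := Nat.card_le_card_of_injective f hf
    rw [Nat.card_eq_fintype_card (α := SA), Fintype.card_coe] at h3
    omega
  obtain ⟨i₁, i₂, h12⟩ := hne2
  have h1 : ¬ Sg i₁ ⊆ Sg i₂ := fun h =>
    h12 (Finset.eq_of_subset_of_card_le h (hcard _ _).le)
  have h2 : ¬ Sg i₂ ⊆ Sg i₁ := fun h =>
    h12 (Finset.eq_of_subset_of_card_le h (hcard _ _).le).symm
  rw [Finset.not_subset] at h1 h2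
  obtain ⟨ρ₁, a1, a2⟩ := h1
  obtain ⟨ρ₂, b1, b2⟩ := h2
  rw [hSg] at a1 a2 b1 b2
  exact ⟨i₁, i₂, ρ₁, ρ₂, a1, a2, b1, b2⟩

end Pool.Agent.NH69.MI.Mat

namespace Pool.Agent.NH69.MI

open Mat Polynomial IntermediateField

theorem t_mat (h : S_CORE) : S_MAT := by
  classical
  intro n
  obtain ⟨D', hD'⟩ := h
  obtain ⟨D₀, hD₀⟩ := numer n D'
  refine ⟨D₀, ?_⟩
  intro k K _ _ _ _ _ S A hD hA hcirc hnil hcard hsmall
  by_contra hcon
  push Not at hcon
  obtain ⟨η, hη⟩ : ∃ η : ℝ, η = (finrank ℚ K : ℝ) ^ (1 / 400 : ℝ) := ⟨_, rfl⟩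
  rw [← hη] at hcon
  have hη0 : 0 ≤ η := by rw [hη]; positivity
  -- the embeddings with an eigenvalue off the circle
  obtain ⟨SA, hSA⟩ : ∃ SA : Finset (k →+* ℂ), ∀ σ, σ ∈ SA ↔
      ∃ l : ℂ, ((emb σ).mapMatrix A).charpoly.IsRoot l ∧ ‖l‖ ≠ 1 :=
    ⟨Finset.univ.filter fun σ => ∃ l : ℂ, ((emb σ).mapMatrix A).charpoly.IsRoot l ∧ ‖l‖ ≠ 1,
      fun σ => by rw [Finset.mem_filter]; exact ⟨fun h => h.2, fun h => ⟨Finset.mem_univ _, h⟩⟩⟩
  have hSAS : SA ⊆ S := by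
    intro σ hσ
    by_contra hn
    obtain ⟨l, h1, h2⟩ := (hSA σ).1 hσ
    exact h2 (hcirc σ hn l h1)
  have hSAc : SA.card ≤ S.card := Finset.card_le_card hSAS
  have hSAne : SA.Nonempty := by
    obtain ⟨σ, l, h1, h2⟩ := Pool.Agent.R826.Frob.exists_big S A hA
      (fun σ hσ l hl => (hcirc σ hσ l hl).le) hnil
    exact ⟨σ, (hSA σ).2 ⟨l, h1, h2.ne'⟩⟩
  obtain ⟨i₁, i₂, ρ₁, ρ₂, a1, a2, b1, b2⟩ := exists_two (K := K) SA hSAne
    (hSAc.trans_lt hcard)
  obtain ⟨l₁, c1, c2⟩ := (hSA _).1 a1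
  obtain ⟨l₂, e1, e2⟩ := (hSA _).1 b1
  rw [charpoly_emb] at c1 e1
  have hQm : ∀ i : k →+* K, (A.charpoly.map (i.comp (algebraMap (𝓞 k) k))).Monic :=
    fun i => (Matrix.charpoly_monic A).map _
  have hQd : ∀ i : k →+* K, (A.charpoly.map (i.comp (algebraMap (𝓞 k) k))).natDegree = n := by
    intro i
    rw [(Matrix.charpoly_monic A).natDegree_map, Matrix.charpoly_natDegree_eq_dim,
      Fintype.card_fin]
  obtain ⟨τ₁, α, f1, f2, f3⟩ := lift_root _ (hQm i₁).ne_zero ρ₁ l₁ c1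
  obtain ⟨τ₂, β, g1, g2, g3⟩ := lift_root _ (hQm i₂).ne_zero ρ₂ l₂ e1
  have hαi : IsIntegral K α := ⟨_, hQm i₁, f2⟩
  have hβi : IsIntegral K β := ⟨_, hQm i₂, g2⟩
  have dα : finrank K K⟮α⟯ ≤ n := by
    rw [IntermediateField.adjoin.finrank hαi, ← hQd i₁]
    exact Polynomial.natDegree_le_of_dvd (minpoly.dvd K α f2) (hQm i₁).ne_zero
  have dβ : finrank K K⟮β⟯ ≤ n := by
    rw [IntermediateField.adjoin.finrank hβi, ← hQd i₂]
    exact Polynomial.natDegree_le_of_dvd (minpoly.dvd K β g2) (hQm i₂).ne_zero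
  have fdα : FiniteDimensional K K⟮α⟯ := IntermediateField.adjoin.finiteDimensional hαi
  have fdβ : FiniteDimensional K K⟮β⟯ := IntermediateField.adjoin.finiteDimensional hβi
  obtain ⟨E, hE⟩ : ∃ E : IntermediateField K (AlgebraicClosure K), E = K⟮α⟯ ⊔ K⟮β⟯ := ⟨_, rfl⟩
  have fdE : FiniteDimensional K E := by
    rw [hE]
    infer_instance
  have dE : finrank K E ≤ n * n := by
    rw [hE]
    exact (IntermediateField.finrank_sup_le _ _).trans (Nat.mul_le_mul dα dβ)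
  have hαE : α ∈ E := by
    rw [hE]
    exact (le_sup_left : K⟮α⟯ ≤ _) (IntermediateField.mem_adjoin_simple_self K α)
  have hβE : β ∈ E := by
    rw [hE]
    exact (le_sup_right : K⟮β⟯ ≤ _) (IntermediateField.mem_adjoin_simple_self K β)
  have fdQ : FiniteDimensional ℚ E := Module.Finite.trans K E
  have nfE : NumberField E := ⟨⟩
  have evα : ∀ τ : E →+* ℂ, ((emb ((τ.comp (algebraMap K E)).comp i₁)).mapMatrix A).charpoly.IsRoot
      (τ ⟨α, hαE⟩) := by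
    intro τ
    rw [charpoly_emb, Polynomial.IsRoot.def, Polynomial.eval_map, ← Polynomial.hom_eval₂,
      aeval_sub E α hαE _ f2, map_zero]
  have evβ : ∀ τ : E →+* ℂ, ((emb ((τ.comp (algebraMap K E)).comp i₂)).mapMatrix A).charpoly.IsRoot
      (τ ⟨β, hβE⟩) := by
    intro τ
    rw [charpoly_emb, Polynomial.IsRoot.def, Polynomial.eval_map, ← Polynomial.hom_eval₂,
      aeval_sub E β hβE _ g2, map_zero]
  have intα : (⟨α, hαE⟩ : E) ≠ 0 ∧ IsIntegral ℤ (⟨α, hαE⟩ : E) ∧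
      IsIntegral ℤ (⟨α, hαE⟩ : E)⁻¹ := by
    apply root_int A hA ((algebraMap K E).comp (i₁.comp (algebraMap (𝓞 k) k)))
    rw [← Polynomial.eval₂_map]
    exact aeval_sub E α hαE _ f2
  have intβ : (⟨β, hβE⟩ : E) ≠ 0 ∧ IsIntegral ℤ (⟨β, hβE⟩ : E) ∧
      IsIntegral ℤ (⟨β, hβE⟩ : E)⁻¹ := by
    apply root_int A hA ((algebraMap K E).comp (i₂.comp (algebraMap (𝓞 k) k)))
    rw [← Polynomial.eval₂_map]
    exact aeval_sub E β hβE _ g2
  have logle : ∀ (σ : k →+* ℂ) (l : ℂ), ((emb σ).mapMatrix A).charpoly.IsRoot l →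
      Real.log ‖l‖ ≤ η := by
    intro σ l hl
    by_cases hσ : σ ∈ S
    · exact hcon σ hσ l hl
    · rw [hcirc σ hσ l hl, Real.log_one]
      exact hη0
  have circ : ∀ (σ : k →+* ℂ), σ ∉ SA → ∀ l : ℂ, ((emb σ).mapMatrix A).charpoly.IsRoot l →
      ‖l‖ = 1 := by
    intro σ hσ l hl
    by_contra hn
    exact hσ ((hSA σ).2 ⟨l, hl, hn⟩)
  -- the embeddings of `E` off the circle
  have hexT : ∀ i : k →+* K, ∃ T : Finset (E →+* ℂ),
      (∀ τ, τ ∈ T ↔ (τ.comp (algebraMap K E)).comp i ∈ SA) ∧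
      T.card ≤ S.card * finrank k K * (n * n) := by
    intro i
    obtain ⟨U, hU⟩ : ∃ U : Finset (K →+* ℂ), ∀ ρ, ρ ∈ U ↔ ρ.comp i ∈ SA :=
      ⟨Finset.univ.filter fun ρ => ρ.comp i ∈ SA, fun ρ => by
        rw [Finset.mem_filter]
        exact ⟨fun h => h.2, fun h => ⟨Finset.mem_univ _, h⟩⟩⟩
    obtain ⟨T, hT⟩ : ∃ T : Finset (E →+* ℂ), ∀ τ, τ ∈ T ↔ τ.comp (algebraMap K E) ∈ U :=
      ⟨Finset.univ.filter fun τ => τ.comp (algebraMap K E) ∈ U, fun ρ => by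
        rw [Finset.mem_filter]
        exact ⟨fun h => h.2, fun h => ⟨Finset.mem_univ _, h⟩⟩⟩
    refine ⟨T, fun τ => by rw [hT, hU], ?_⟩
    have h1 := ext_card_set i SA U hU
    have h2 := ext_card_set (algebraMap K E) U T hT
    have h3 : finrank ℚ k * finrank k K = finrank ℚ K := Module.finrank_mul_finrank ℚ k K
    have h4 : finrank ℚ K * finrank K E = finrank ℚ E := Module.finrank_mul_finrank ℚ K E
    have hk : 0 < finrank ℚ k := Module.finrank_pos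
    have hK : 0 < finrank ℚ K := Module.finrank_pos
    have h5 : U.card = SA.card * finrank k K := by
      apply Nat.eq_of_mul_eq_mul_right hk
      rw [h1, ← h3]
      ring
    have h6 : T.card = U.card * finrank K E := by
      apply Nat.eq_of_mul_eq_mul_right hK
      rw [h2, ← h4]
      ring
    rw [h6, h5]
    exact Nat.mul_le_mul (Nat.mul_le_mul_right _ hSAc) dE
  obtain ⟨T₁, hT₁, hT₁c⟩ := hexT i₁
  obtain ⟨T₂, hT₂, hT₂c⟩ := hexT i₂
  obtain ⟨X, hX⟩ : ∃ X : ℕ, X = 2 * (S.card * finrank k K * (n * n)) := ⟨_, rfl⟩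
  have hTX : (T₁ ∪ T₂).card ≤ X := by
    refine (Finset.card_union_le _ _).trans ?_
    omega
  obtain ⟨F, iF, nF, S', α', β', k1, k2, k3, k4⟩ := pair_field (⟨α, hαE⟩ : E) ⟨β, hβE⟩ intα.1
    intβ.1 intα.2.1 intα.2.2 intβ.2.1 intβ.2.2 (T₁ ∪ T₂) (by
      intro τ hτ
      rw [Finset.notMem_union, hT₁, hT₂] at hτ
      exact ⟨circ _ hτ.1 _ (evα τ), circ _ hτ.2 _ (evβ τ)⟩) X hTX η hη0
    ⟨τ₁.comp (algebraMap E (AlgebraicClosure K)), by
      refine ⟨?_, ?_⟩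
      · change ‖τ₁ α‖ ≠ 1
        rw [f3]
        exact c2
      · refine circ _ ?_ _ (evβ _)
        have h1 : (τ₁.comp (algebraMap E (AlgebraicClosure K))).comp (algebraMap K E) = ρ₁ := by
          rw [← f1]
          rfl
        rw [h1]
        exact a2⟩
    ⟨τ₂.comp (algebraMap E (AlgebraicClosure K)), by
      refine ⟨?_, ?_⟩
      · change ‖τ₂ β‖ ≠ 1
        rw [g3]
        exact e2
      · refine circ _ ?_ _ (evα _)
        have h1 : (τ₂.comp (algebraMap E (AlgebraicClosure K))).comp (algebraMap K E) = ρ₂ := by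
          rw [← g1]
          rfl
        rw [h1]
        exact b2⟩
    (fun τ => logle _ _ (evα τ)) (fun τ => logle _ _ (evβ τ))
  have h4 : finrank ℚ K * finrank K E = finrank ℚ E := Module.finrank_mul_finrank ℚ K E
  have hE1 : 0 < finrank K E := Module.finrank_pos
  have hE2 : finrank ℚ K ≤ X * finrank ℚ F := by
    refine le_trans ?_ k2
    rw [← h4]
    exact Nat.le_mul_of_pos_right _ hE1
  have hKpos : 0 < finrank ℚ K := Module.finrank_pos
  have hX1 : 1 ≤ X := by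
    by_contra hX0
    have : X = 0 := by omega
    rw [this, zero_mul] at hE2
    omega
  obtain ⟨m1, m2, m3⟩ := hD₀ (finrank ℚ K) X (finrank ℚ F) hD hX1 (by
    rw [hX]
    push_cast
    have h5 : (0 : ℝ) ≤ 2 * (n : ℝ) ^ 2 := by positivity
    calc (2 : ℝ) * (S.card * finrank k K * (n * n)) = 2 * (n : ℝ) ^ 2 * (S.card * finrank k K) := by
          ring
      _ ≤ 2 * (n : ℝ) ^ 2 * (finrank ℚ K : ℝ) ^ (1 / 200 : ℝ) :=
          mul_le_mul_of_nonneg_left hsmall h5) hE2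
  rw [← hη] at m2
  refine hD' F S' ((finrank ℚ F : ℝ) ^ (1 / 100 : ℝ)) α' β' m1 rfl ?_ k3 (pair_mono k4 m2)
  refine le_trans ?_ m3
  exact_mod_cast k1

end Pool.Agent.NH69.MI
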