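import Pool.Agent.NH69.MI.Stm

/-!
# Project MI, job MI-H1, first part: counting embeddings and the field generated by two units
-/

set_option autoImplicit false

open NumberField Module

namespace Pool.Agent.NH69.MI.Mat

/-- the number of extensions of an embedding -/
theorem ext_card {k K : Type} [Field k] [NumberField k] [Field K] [NumberField K] (i : k →+* K)
    (σ : k →+* ℂ) : Nat.card {ρ : K →+* ℂ // ρ.comp i = σ} * finrank ℚ k = finrank ℚ K := by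
  let a1 : Algebra k K := i.toAlgebra
  let a2 : Algebra k ℂ := σ.toAlgebra
  have t1 : IsScalarTower ℚ k K := inferInstance
  have t2 : FiniteDimensional k K := Module.Finite.of_restrictScalars_finite ℚ k K
  have e : {ρ : K →+* ℂ // ρ.comp i = σ} ≃ (K →ₐ[k] ℂ) :=
    { toFun := fun ρ => { toRingHom := ρ.1, commutes' := fun x => RingHom.congr_fun ρ.2 x }
      invFun := fun φ => ⟨φ.toRingHom, by
        ext x
        exact φ.commutes x⟩
      left_inv := fun ρ => rfl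
      right_inv := fun φ => rfl }
  rw [Nat.card_congr e, Nat.card_eq_fintype_card, AlgHom.card k K ℂ, mul_comm,
    Module.finrank_mul_finrank ℚ k K]

theorem ext_exists {k K : Type} [Field k] [NumberField k] [Field K] [NumberField K] (i : k →+* K)
    (σ : k →+* ℂ) : ∃ ρ : K →+* ℂ, ρ.comp i = σ := by
  have h1 := ext_card i σ
  have h2 : 0 < finrank ℚ K := Module.finrank_pos
  have h3 : 0 < Nat.card {ρ : K →+* ℂ // ρ.comp i = σ} := by
    rw [← h1] at h2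
    exact Nat.pos_of_mul_pos_right h2
  obtain ⟨⟨ρ, hρ⟩⟩ := (Nat.card_pos_iff.1 h3).1
  exact ⟨ρ, hρ⟩

/-- the number of extensions of the embeddings in a set -/
theorem ext_card_set {k K : Type} [Field k] [NumberField k] [Field K] [NumberField K]
    (i : k →+* K) (S : Finset (k →+* ℂ)) (T : Finset (K →+* ℂ))
    (h : ∀ ρ : K →+* ℂ, ρ ∈ T ↔ ρ.comp i ∈ S) :
    T.card * finrank ℚ k = S.card * finrank ℚ K := by
  classical
  have hmaps : Set.MapsTo (fun ρ : K →+* ℂ => ρ.comp i) (T : Set (K →+* ℂ))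
      (S : Set (k →+* ℂ)) := by
    intro ρ hρ
    exact (h ρ).1 hρ
  rw [Finset.card_eq_sum_card_fiberwise hmaps, Finset.sum_mul, Finset.card_eq_sum_ones,
    Finset.sum_mul]
  refine Finset.sum_congr rfl fun σ hσ => ?_
  rw [one_mul, ← ext_card i σ]
  congr 1
  rw [← Nat.subtype_card]
  intro ρ
  rw [Finset.mem_filter]
  constructor
  · exact fun h => h.2
  · intro h1
    exact ⟨(h ρ).2 (by rw [h1]; exact hσ), h1⟩

/-- the product of the conjugates of a unit -/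
theorem sum_log {F : Type} [Field F] [NumberField F] (u : (𝓞 F)ˣ) :
    ∑ ρ : F →+* ℂ, Real.log ‖ρ ((u : 𝓞 F) : F)‖ = 0 := by
  rw [← Real.log_prod]
  · have h1 : ∏ ρ : F →+* ℂ, ‖ρ ((u : 𝓞 F) : F)‖ = 1 := by
      rw [← norm_prod]
      have h2 : ∏ ρ : F →+* ℂ, ρ ((u : 𝓞 F) : F) =
          algebraMap ℚ ℂ (Algebra.norm ℚ ((u : 𝓞 F) : F)) := by
        rw [Algebra.norm_eq_prod_embeddings]
        exact Fintype.prod_equiv (RingHom.equivRatAlgHom F ℂ) _ _ fun ρ => rfl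
      rw [h2]
      have h3 := NumberField.isUnit_iff_norm.1 u.isUnit
      have h4 : Algebra.norm ℚ ((u : 𝓞 F) : F) = ((RingOfIntegers.norm ℚ (u : 𝓞 F) : 𝓞 ℚ) : ℚ) :=
        rfl
      rw [← h4] at h3
      rw [eq_ratCast, Complex.norm_ratCast]
      exact_mod_cast h3
    rw [h1, Real.log_one]
  · intro ρ _
    rw [norm_ne_zero_iff]
    exact (map_ne_zero ρ).2 (by
      rw [Ne, RingOfIntegers.coe_eq_zero_iff]
      exact u.ne_zero)

/-- lower bound for the conjugates -/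
theorem abs_log_le {F : Type} [Field F] [NumberField F] (u : (𝓞 F)ˣ) (S : Finset (F →+* ℂ))
    (X : ℕ) (η : ℝ) (hX : S.card ≤ X) (hX1 : 1 ≤ X) (hη : 0 ≤ η)
    (h1 : ∀ ρ, ρ ∉ S → ‖ρ ((u : 𝓞 F) : F)‖ = 1)
    (h2 : ∀ ρ : F →+* ℂ, Real.log ‖ρ ((u : 𝓞 F) : F)‖ ≤ η) (ρ : F →+* ℂ) :
    |Real.log ‖ρ ((u : 𝓞 F) : F)‖| ≤ X * η := by
  classical
  have hX1' : (1 : ℝ) ≤ X := by exact_mod_cast hX1
  rw [abs_le]
  constructor
  · have h3 := sum_log u
    rw [← Finset.add_sum_erase _ _ (Finset.mem_univ ρ)] at h3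
    have h4 : ∑ ρ' ∈ Finset.univ.erase ρ, Real.log ‖ρ' ((u : 𝓞 F) : F)‖ ≤ S.card * η := by
      calc ∑ ρ' ∈ Finset.univ.erase ρ, Real.log ‖ρ' ((u : 𝓞 F) : F)‖
          ≤ ∑ ρ' ∈ Finset.univ.erase ρ, (if ρ' ∈ S then η else 0) := by
            refine Finset.sum_le_sum fun ρ' _ => ?_
            split_ifs with h
            · exact h2 ρ'
            · rw [h1 ρ' h, Real.log_one]
        _ ≤ ∑ ρ' : F →+* ℂ, (if ρ' ∈ S then η else 0) := by
            refine Finset.sum_le_sum_of_subset_of_nonneg (Finset.subset_univ _) fun ρ' _ _ => ?_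
            split_ifs
            · exact hη
            · exact le_refl _
        _ = S.card * η := by
            rw [← Finset.sum_filter, Finset.sum_const, nsmul_eq_mul, Finset.filter_univ_mem]
    have h5 : (S.card : ℝ) * η ≤ X * η := by
      apply mul_le_mul_of_nonneg_right _ hη
      exact_mod_cast hX
    linarith
  · refine (h2 ρ).trans ?_
    nlinarith

/-- an integral element of a subfield with integral inverse is a unit -/
theorem exists_unit {F : Type} [Field F] [NumberField F] (x : F) (hx : x ≠ 0)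
    (h1 : IsIntegral ℤ x) (h2 : IsIntegral ℤ x⁻¹) : ∃ u : (𝓞 F)ˣ, ((u : 𝓞 F) : F) = x := by
  refine ⟨⟨⟨x, h1⟩, ⟨x⁻¹, h2⟩, ?_, ?_⟩, rfl⟩
  · apply RingOfIntegers.ext
    exact mul_inv_cancel₀ hx
  · apply RingOfIntegers.ext
    exact inv_mul_cancel₀ hx

theorem adjoin_top {F E : Type} [Field F] [NumberField F] [Field E] [NumberField E] (j : F →+* E)
    (a b : F) (h : ∀ x : F, j x ∈ Algebra.adjoin ℚ {j a, j b}) :
    Algebra.adjoin ℚ {a, b} = ⊤ := by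
  have h2 : (Algebra.adjoin ℚ {a, b}).map j.toRatAlgHom = Algebra.adjoin ℚ {j a, j b} := by
    rw [AlgHom.map_adjoin, Set.image_pair]
    rfl
  rw [eq_top_iff]
  intro x _
  have h3 := h x
  rw [← h2] at h3
  obtain ⟨y, hy, hyx⟩ := h3
  have h4 : y = x := j.injective hyx
  rw [← h4]
  exact hy

theorem pair_field {E : Type} [Field E] [NumberField E] (α β : E) (hα : α ≠ 0) (hβ : β ≠ 0)
    (a1 : IsIntegral ℤ α) (a2 : IsIntegral ℤ α⁻¹) (b1 : IsIntegral ℤ β) (b2 : IsIntegral ℤ β⁻¹)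
    (T : Finset (E →+* ℂ)) (hT : ∀ τ, τ ∉ T → ‖τ α‖ = 1 ∧ ‖τ β‖ = 1) (X : ℕ) (hX : T.card ≤ X)
    (η : ℝ) (hη : 0 ≤ η) (c1 : ∃ τ : E →+* ℂ, ‖τ α‖ ≠ 1 ∧ ‖τ β‖ = 1)
    (c2 : ∃ τ : E →+* ℂ, ‖τ β‖ ≠ 1 ∧ ‖τ α‖ = 1)
    (d1 : ∀ τ : E →+* ℂ, Real.log ‖τ α‖ ≤ η) (d2 : ∀ τ : E →+* ℂ, Real.log ‖τ β‖ ≤ η) :
    ∃ (F : Type) (_ : Field F) (_ : NumberField F) (S' : Finset (F →+* ℂ)) (α' β' : (𝓞 F)ˣ),
      S'.card ≤ X ∧ finrank ℚ E ≤ X * finrank ℚ F ∧
      Algebra.adjoin ℚ {((α' : 𝓞 F) : F), ((β' : 𝓞 F) : F)} = ⊤ ∧ Pair F S' (X * η) α' β' := by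
  classical
  obtain ⟨F, hF⟩ : ∃ F : IntermediateField ℚ E, F = IntermediateField.adjoin ℚ {α, β} :=
    ⟨_, rfl⟩
  have hαF : α ∈ F := by
    rw [hF]
    exact IntermediateField.subset_adjoin _ _ (Set.mem_insert _ _)
  have hβF : β ∈ F := by
    rw [hF]
    exact IntermediateField.subset_adjoin _ _ (Set.mem_insert_of_mem _ (Set.mem_singleton _))
  have int : ∀ x : F, IsIntegral ℤ (x : E) → IsIntegral ℤ x := by
    intro x hx
    exact (isIntegral_algHom_iff (F.val.restrictScalars ℤ) (RingHom.injective _)).1 hx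
  obtain ⟨α', hα'⟩ := exists_unit (⟨α, hαF⟩ : F) (fun h => hα (congrArg Subtype.val h))
    (int _ a1) (int _ (by rw [IntermediateField.coe_inv]; exact a2))
  obtain ⟨β', hβ'⟩ := exists_unit (⟨β, hβF⟩ : F) (fun h => hβ (congrArg Subtype.val h))
    (int _ b1) (int _ (by rw [IntermediateField.coe_inv]; exact b2))
  let j : F →+* E := F.val.toRingHom
  have hjα : j ((α' : 𝓞 F) : F) = α := by rw [hα']; rfl
  have hjβ : j ((β' : 𝓞 F) : F) = β := by rw [hβ']; rfl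
  obtain ⟨S', hS'⟩ : ∃ S' : Finset (F →+* ℂ), ∀ σ, σ ∈ S' ↔
      (‖σ ((α' : 𝓞 F) : F)‖ ≠ 1 ∨ ‖σ ((β' : 𝓞 F) : F)‖ ≠ 1) :=
    ⟨Finset.univ.filter fun σ => ‖σ ((α' : 𝓞 F) : F)‖ ≠ 1 ∨ ‖σ ((β' : 𝓞 F) : F)‖ ≠ 1,
      fun σ => by rw [Finset.mem_filter]; exact ⟨fun h => h.2, fun h => ⟨Finset.mem_univ _, h⟩⟩⟩
  obtain ⟨T', hT'⟩ : ∃ T' : Finset (E →+* ℂ), ∀ τ, τ ∈ T' ↔ τ.comp j ∈ S' :=
    ⟨Finset.univ.filter fun τ => τ.comp j ∈ S',
      fun σ => by rw [Finset.mem_filter]; exact ⟨fun h => h.2, fun h => ⟨Finset.mem_univ _, h⟩⟩⟩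
  have hcount := ext_card_set j S' T' hT'
  have hTX : T'.card ≤ X := by
    refine le_trans (Finset.card_le_card ?_) hX
    intro τ hτ
    rw [hT', hS'] at hτ
    by_contra hcon
    have h1 := hT τ hcon
    rcases hτ with h | h
    · rw [RingHom.comp_apply, hjα] at h
      exact h h1.1
    · rw [RingHom.comp_apply, hjβ] at h
      exact h h1.2
  have hSpos : 0 < S'.card := by
    obtain ⟨τ, hτ, -⟩ := c1
    apply Finset.card_pos.2
    refine ⟨τ.comp j, (hS' _).2 (Or.inl ?_)⟩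
    rw [RingHom.comp_apply, hjα]
    exact hτ
  have hdF : 0 < finrank ℚ F := Module.finrank_pos
  have hle : finrank ℚ F ≤ finrank ℚ E := by
    exact Submodule.finrank_le F.toSubmodule
  have hS1 : S'.card ≤ X := by
    have h1 : S'.card * finrank ℚ F ≤ X * finrank ℚ F := by
      calc S'.card * finrank ℚ F ≤ S'.card * finrank ℚ E := Nat.mul_le_mul_left _ hle
        _ = _ := hcount.symm
        _ ≤ X * finrank ℚ F := Nat.mul_le_mul_right _ hTX
    exact Nat.le_of_mul_le_mul_right h1 hdF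
  have hS2 : finrank ℚ E ≤ X * finrank ℚ F := by
    calc finrank ℚ E ≤ S'.card * finrank ℚ E := Nat.le_mul_of_pos_left _ hSpos
      _ = _ := hcount.symm
      _ ≤ X * finrank ℚ F := Nat.mul_le_mul_right _ hTX
  have hX1 : 1 ≤ X := hSpos.trans_le hS1
  have hS'1 : ∀ ρ, ρ ∉ S' → ‖ρ ((α' : 𝓞 F) : F)‖ = 1 ∧ ‖ρ ((β' : 𝓞 F) : F)‖ = 1 := by
    intro ρ hρ
    rw [hS'] at hρ
    push Not at hρ
    exact hρ
  have hlogα : ∀ ρ : F →+* ℂ, Real.log ‖ρ ((α' : 𝓞 F) : F)‖ ≤ η := by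
    intro ρ
    obtain ⟨τ, rfl⟩ := ext_exists j ρ
    rw [RingHom.comp_apply, hjα]
    exact d1 τ
  have hlogβ : ∀ ρ : F →+* ℂ, Real.log ‖ρ ((β' : 𝓞 F) : F)‖ ≤ η := by
    intro ρ
    obtain ⟨τ, rfl⟩ := ext_exists j ρ
    rw [RingHom.comp_apply, hjβ]
    exact d2 τ
  refine ⟨F, inferInstance, inferInstance, S', α', β', hS1, hS2, ?_, ?_⟩
  · have h1 : (Algebra.adjoin ℚ {α, β}) = F.toSubalgebra := by
      rw [hF]
      symm
      apply IntermediateField.adjoin_toSubalgebra_of_isAlgebraic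
      intro x _
      exact Algebra.IsAlgebraic.isAlgebraic x
    refine adjoin_top j _ _ fun x => ?_
    rw [hjα, hjβ, h1]
    exact x.2
  · refine ⟨fun ρ h => (hS'1 ρ h).1, fun ρ h => (hS'1 ρ h).2,
      abs_log_le α' S' X η hS1 hX1 hη (fun ρ h => (hS'1 ρ h).1) hlogα,
      abs_log_le β' S' X η hS1 hX1 hη (fun ρ h => (hS'1 ρ h).2) hlogβ, ?_, ?_⟩
    · obtain ⟨τ, t1, t2⟩ := c1
      refine ⟨τ.comp j, ?_, ?_⟩
      · rw [RingHom.comp_apply, hjα]
        exact t1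
      · rw [RingHom.comp_apply, hjβ]
        exact t2
    · obtain ⟨τ, t1, t2⟩ := c2
      refine ⟨τ.comp j, ?_, ?_⟩
      · rw [RingHom.comp_apply, hjβ]
        exact t1
      · rw [RingHom.comp_apply, hjα]
        exact t2

/-- the numerical estimate -/
theorem numer (n D' : ℕ) : ∃ D₀ : ℕ, ∀ (D X d : ℕ), D₀ ≤ D → 1 ≤ X →
    (X : ℝ) ≤ 2 * (n : ℝ) ^ 2 * (D : ℝ) ^ (1 / 200 : ℝ) → D ≤ X * d →
    D' ≤ d ∧ (X : ℝ) * (D : ℝ) ^ (1 / 400 : ℝ) ≤ (d : ℝ) ^ (1 / 100 : ℝ) ∧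
      (X : ℝ) ≤ (d : ℝ) ^ (1 / 100 : ℝ) := by
  refine ⟨(2 * n ^ 2 + 1) ^ 1000 + D' ^ 2 + 1, ?_⟩
  intro D X d hD hX1 hX hDX
  obtain ⟨c, hc⟩ : ∃ c : ℝ, c = 2 * (n : ℝ) ^ 2 + 1 := ⟨_, rfl⟩
  have hc1 : 1 ≤ c := by
    rw [hc]
    have : (0 : ℝ) ≤ (n : ℝ) ^ 2 := by positivity
    linarith
  obtain ⟨y, hy⟩ : ∃ y : ℝ, y = (D : ℝ) ^ (1 / 400 : ℝ) := ⟨_, rfl⟩
  have hDpos : (1 : ℝ) ≤ D := by
    have : 1 ≤ D := by
      have := Nat.zero_le ((2 * n ^ 2 + 1) ^ 1000 + D' ^ 2)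
      omega
    exact_mod_cast this
  have hy1 : 1 ≤ y := by
    rw [hy]
    exact Real.one_le_rpow hDpos (by norm_num)
  have hy400 : y ^ 400 = D := by
    rw [hy, ← Real.rpow_natCast, ← Real.rpow_mul (by linarith)]
    norm_num
  have hy2 : (D : ℝ) ^ (1 / 200 : ℝ) = y ^ 2 := by
    rw [hy, ← Real.rpow_natCast, ← Real.rpow_mul (by linarith)]
    norm_num
  have hXc : (X : ℝ) ≤ c * y ^ 2 := by
    rw [hy2] at hX
    refine hX.trans ?_
    apply mul_le_mul_of_nonneg_right _ (by positivity)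
    rw [hc]
    linarith
  have hdR : (0 : ℝ) ≤ d := Nat.cast_nonneg _
  have h1 : y ^ 400 ≤ c * y ^ 2 * d := by
    rw [hy400]
    calc (D : ℝ) ≤ X * d := by exact_mod_cast hDX
      _ ≤ c * y ^ 2 * d := mul_le_mul_of_nonneg_right hXc hdR
  have h2 : y ^ 398 ≤ c * d := by
    have h3 : y ^ 2 * y ^ 398 ≤ y ^ 2 * (c * d) := by
      rw [← pow_add]
      calc y ^ (2 + 398) ≤ c * y ^ 2 * d := h1
        _ = _ := by ring
    exact le_of_mul_le_mul_left h3 (by positivity)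
  have hDc : c ^ 1000 ≤ y ^ 400 := by
    rw [hy400, hc]
    have : (2 * n ^ 2 + 1) ^ 1000 ≤ D := by
      have h0 := Nat.zero_le (D' ^ 2)
      omega
    exact_mod_cast this
  have hc5 : c ^ 5 ≤ y ^ 2 := by
    have h3 : (c ^ 5) ^ 200 ≤ (y ^ 2) ^ 200 := by
      rw [← pow_mul, ← pow_mul]
      exact hDc
    exact le_of_pow_le_pow_left₀ (by norm_num) (by positivity) h3
  have hc101 : c ^ 101 ≤ y ^ 98 := by
    calc c ^ 101 ≤ c ^ 245 := pow_le_pow_right₀ hc1 (by norm_num)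
      _ = (c ^ 5) ^ 49 := by rw [← pow_mul]
      _ ≤ (y ^ 2) ^ 49 := pow_le_pow_left₀ (by positivity) hc5 _
      _ = y ^ 98 := by rw [← pow_mul]
  have h4 : c ^ 100 * y ^ 300 ≤ d := by
    have h5 : c * (c ^ 100 * y ^ 300) ≤ c * d := by
      calc c * (c ^ 100 * y ^ 300) = c ^ 101 * y ^ 300 := by ring
        _ ≤ y ^ 98 * y ^ 300 := mul_le_mul_of_nonneg_right hc101 (by positivity)
        _ = y ^ 398 := by rw [← pow_add]
        _ ≤ c * d := h2
    exact le_of_mul_le_mul_left h5 (by linarith)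
  have h6 : (X * y) ^ 100 ≤ (d : ℝ) := by
    refine le_trans ?_ h4
    calc ((X : ℝ) * y) ^ 100 ≤ (c * y ^ 2 * y) ^ 100 := by
          apply pow_le_pow_left₀ (by positivity)
          exact mul_le_mul_of_nonneg_right hXc (by positivity)
      _ = c ^ 100 * y ^ 300 := by ring
  have h7 : (X : ℝ) * y ≤ (d : ℝ) ^ (1 / 100 : ℝ) := by
    have h8 : ((X * y) ^ 100) ^ (1 / 100 : ℝ) = (X * y : ℝ) := by
      rw [← Real.rpow_natCast, ← Real.rpow_mul (by positivity)]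
      norm_num
    rw [← h8]
    exact Real.rpow_le_rpow (by positivity) h6 (by norm_num)
  refine ⟨?_, by rw [← hy]; exact h7, ?_⟩
  · have h9 : (D' : ℝ) ≤ y ^ 200 := by
      have h10 : (D' : ℝ) ^ 2 ≤ (y ^ 200) ^ 2 := by
        rw [← pow_mul, hy400]
        have : D' ^ 2 ≤ D := by
          have h0 := Nat.zero_le ((2 * n ^ 2 + 1) ^ 1000)
          omega
        exact_mod_cast this
      exact le_of_pow_le_pow_left₀ (by norm_num) (by positivity) h10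
    have h11 : (D' : ℝ) ≤ d := by
      calc (D' : ℝ) ≤ y ^ 200 := h9
        _ ≤ y ^ 300 := pow_le_pow_right₀ hy1 (by norm_num)
        _ ≤ c ^ 100 * y ^ 300 := le_mul_of_one_le_left (by positivity) (one_le_pow₀ hc1)
        _ ≤ d := h4
    exact_mod_cast h11
  · refine le_trans ?_ h7
    exact le_mul_of_one_le_right (Nat.cast_nonneg _) hy1

end Pool.Agent.NH69.MI.Mat
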