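import Pool.Agent.NH69.MI.Stm

/-!
No relation of small degree between the powers of the units.
-/

set_option autoImplicit false

open NumberField Module

namespace Pool.Agent.NH69.MI

section norel

variable {K : Type} [Field K]

/-- the logarithm of the absolute value of a unit at an embedding -/
noncomputable def lgu (ρ : K →+* ℂ) (u : (𝓞 K)ˣ) : ℝ := Real.log ‖ρ ((u : 𝓞 K) : K)‖

theorem vu_mul (ρ : K →+* ℂ) (u v : (𝓞 K)ˣ) :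
    ρ (((u * v : (𝓞 K)ˣ) : 𝓞 K) : K) = ρ ((u : 𝓞 K) : K) * ρ ((v : 𝓞 K) : K) := by
  rw [← map_mul]
  rfl

theorem vu_one (ρ : K →+* ℂ) : ρ (((1 : (𝓞 K)ˣ) : 𝓞 K) : K) = 1 := map_one ρ

theorem vu_pow (ρ : K →+* ℂ) (u : (𝓞 K)ˣ) (m : ℕ) :
    ρ (((u ^ m : (𝓞 K)ˣ) : 𝓞 K) : K) = ρ ((u : 𝓞 K) : K) ^ m := by
  rw [← map_pow]
  rfl

theorem vu_inv (ρ : K →+* ℂ) (u : (𝓞 K)ˣ) :
    ρ (((u⁻¹ : (𝓞 K)ˣ) : 𝓞 K) : K) = (ρ ((u : 𝓞 K) : K))⁻¹ := by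
  apply eq_inv_of_mul_eq_one_left
  rw [← vu_mul, inv_mul_cancel, vu_one]

theorem vu_ne (ρ : K →+* ℂ) (u : (𝓞 K)ˣ) : ρ ((u : 𝓞 K) : K) ≠ 0 := by
  intro h
  have h1 := vu_mul ρ u u⁻¹
  rw [mul_inv_cancel, vu_one, h, zero_mul] at h1
  exact one_ne_zero h1

theorem vu_norm (ρ : K →+* ℂ) (u : (𝓞 K)ˣ) : ‖ρ ((u : 𝓞 K) : K)‖ = Real.exp (lgu ρ u) := by
  rw [lgu, Real.exp_log (norm_pos_iff.2 (vu_ne ρ u))]

theorem lgu_mul (ρ : K →+* ℂ) (u v : (𝓞 K)ˣ) : lgu ρ (u * v) = lgu ρ u + lgu ρ v := by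
  rw [lgu, vu_mul, norm_mul, Real.log_mul (norm_ne_zero_iff.2 (vu_ne ρ u))
    (norm_ne_zero_iff.2 (vu_ne ρ v))]
  rfl

theorem lgu_inv (ρ : K →+* ℂ) (u : (𝓞 K)ˣ) : lgu ρ u⁻¹ = -lgu ρ u := by
  rw [lgu, vu_inv, norm_inv, Real.log_inv]
  rfl

theorem lgu_pow (ρ : K →+* ℂ) (u : (𝓞 K)ˣ) (m : ℕ) : lgu ρ (u ^ m) = m * lgu ρ u := by
  rw [lgu, vu_pow, norm_pow, Real.log_pow]
  rfl

theorem lgu_eq_zero {ρ : K →+* ℂ} {u : (𝓞 K)ˣ} : lgu ρ u = 0 ↔ ‖ρ ((u : 𝓞 K) : K)‖ = 1 := by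
  rw [vu_norm, Real.exp_eq_one_iff]

/-- the monomials -/
noncomputable def mo (α β : (𝓞 K)ˣ) (p : ℕ) {δ : ℕ} (k : Fin δ × Fin δ) : (𝓞 K)ˣ :=
  (α ^ p) ^ (k.1 : ℕ) * (β ^ p) ^ (k.2 : ℕ)

theorem lgu_mo (ρ : K →+* ℂ) (α β : (𝓞 K)ˣ) (p : ℕ) {δ : ℕ} (k l : Fin δ × Fin δ) :
    lgu ρ (mo α β p k * (mo α β p l)⁻¹) = p * (((k.1 : ℕ) : ℝ) - (l.1 : ℕ)) * lgu ρ α +
      p * (((k.2 : ℕ) : ℝ) - (l.2 : ℕ)) * lgu ρ β := by
  rw [lgu_mul, lgu_inv, mo, mo, lgu_mul, lgu_mul]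
  simp only [lgu_pow]
  ring

theorem abs_sub_fin {δ : ℕ} (a b : Fin δ) : |((a : ℕ) : ℝ) - (b : ℕ)| ≤ δ := by
  have h1 : ((a : ℕ) : ℝ) ≤ δ := by exact_mod_cast a.2.le
  have h2 : ((b : ℕ) : ℝ) ≤ δ := by exact_mod_cast b.2.le
  have h3 : (0 : ℝ) ≤ ((a : ℕ) : ℝ) := Nat.cast_nonneg _
  have h4 : (0 : ℝ) ≤ ((b : ℕ) : ℝ) := Nat.cast_nonneg _
  rw [abs_le]
  constructor <;> linarith

variable [NumberField K]

theorem lgu_mo_le {S : Finset (K →+* ℂ)} {η : ℝ} {α β : (𝓞 K)ˣ} (hP : Pair K S η α β)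
    (ρ : K →+* ℂ) (p : ℕ) {δ : ℕ} (k l : Fin δ × Fin δ) :
    lgu ρ (mo α β p k * (mo α β p l)⁻¹) ≤ 2 * p * δ * η := by
  rw [lgu_mo]
  have hη : 0 ≤ η := (abs_nonneg _).trans (hP.bd1 ρ)
  have h1 : (p : ℝ) * (((k.1 : ℕ) : ℝ) - (l.1 : ℕ)) * lgu ρ α ≤ p * δ * η := by
    refine (le_abs_self _).trans ?_
    rw [abs_mul, abs_mul, Nat.abs_cast]
    exact mul_le_mul (mul_le_mul_of_nonneg_left (abs_sub_fin _ _) (Nat.cast_nonneg _))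
      (hP.bd1 ρ) (abs_nonneg _) (by positivity)
  have h2 : (p : ℝ) * (((k.2 : ℕ) : ℝ) - (l.2 : ℕ)) * lgu ρ β ≤ p * δ * η := by
    refine (le_abs_self _).trans ?_
    rw [abs_mul, abs_mul, Nat.abs_cast]
    exact mul_le_mul (mul_le_mul_of_nonneg_left (abs_sub_fin _ _) (Nat.cast_nonneg _))
      (hP.bd2 ρ) (abs_nonneg _) (by positivity)
  linarith

theorem exists_off {S : Finset (K →+* ℂ)} {η : ℝ} {α β : (𝓞 K)ˣ} (hP : Pair K S η α β)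
    {p : ℕ} (hp : 1 ≤ p) {δ : ℕ} {k l : Fin δ × Fin δ} (hkl : k ≠ l) :
    ∃ ρ : K →+* ℂ, ‖ρ (((mo α β p k * (mo α β p l)⁻¹ : (𝓞 K)ˣ) : 𝓞 K) : K)‖ ≠ 1 := by
  have hp' : (p : ℝ) ≠ 0 := by
    have : p ≠ 0 := by omega
    exact_mod_cast this
  by_cases h1 : k.1 = l.1
  · have h2 : k.2 ≠ l.2 := fun h => hkl (Prod.ext h1 h)
    obtain ⟨ρ, hβ, hα⟩ := hP.ind2
    refine ⟨ρ, fun h => ?_⟩
    rw [← lgu_eq_zero, lgu_mo, lgu_eq_zero.2 hα, mul_zero, zero_add] at h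
    rcases mul_eq_zero.1 h with h | h
    · rcases mul_eq_zero.1 h with h | h
      · exact hp' h
      · have h3 : ((k.2 : ℕ) : ℝ) = (l.2 : ℕ) := by linarith
        exact h2 (Fin.ext (by exact_mod_cast h3))
    · exact hβ (lgu_eq_zero.1 h)
  · obtain ⟨ρ, hα, hβ⟩ := hP.ind1
    refine ⟨ρ, fun h => ?_⟩
    rw [← lgu_eq_zero, lgu_mo, lgu_eq_zero.2 hβ, mul_zero, add_zero] at h
    rcases mul_eq_zero.1 h with h | h
    · rcases mul_eq_zero.1 h with h | h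
      · exact hp' h
      · have h3 : ((k.1 : ℕ) : ℝ) = (l.1 : ℕ) := by linarith
        exact h1 (Fin.ext (by exact_mod_cast h3))
    · exact hα (lgu_eq_zero.1 h)

open Classical in
theorem sum_le (h : S_ENER) {S : Finset (K →+* ℂ)} {η : ℝ} {α β : (𝓞 K)ˣ}
    (hP : Pair K S η α β) {p : ℕ} (hp : 1 ≤ p) {δ : ℕ} {k l : Fin δ × Fin δ} (hkl : k ≠ l) :
    ‖∑ ρ : K →+* ℂ with ρ ∉ S,
      ρ (((mo α β p k * (mo α β p l)⁻¹ : (𝓞 K)ˣ) : 𝓞 K) : K)‖ ≤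
      √(2 * S.card * finrank ℚ K * (Real.log (finrank ℚ K + 1) + 2 + 4 * p * δ * η)) := by
  have hη : 0 ≤ η := by
    obtain ⟨ρ, _⟩ := hP.ind1
    exact (abs_nonneg _).trans (hP.bd1 ρ)
  have h1 := h K ((mo α β p k * (mo α β p l)⁻¹ : (𝓞 K)ˣ) : 𝓞 K) S (Real.exp (2 * p * δ * η))
    (fun ρ hρ => by
      rw [← lgu_eq_zero, lgu_mo, lgu_eq_zero.2 (hP.circ1 ρ hρ), lgu_eq_zero.2 (hP.circ2 ρ hρ)]
      ring)
    (Real.one_le_exp (by positivity))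
    (fun ρ => by
      rw [vu_norm]
      exact Real.exp_le_exp.2 (lgu_mo_le hP ρ p k l))
    (exists_off hP hp hkl)
  rw [Real.log_exp] at h1
  refine Real.le_sqrt_of_sq_le (h1.trans (le_of_eq ?_))
  ring

theorem sq_zero {α β : (𝓞 K)ˣ} {p δ : ℕ} {g : Fin δ × Fin δ → ℚ}
    (hg : ∑ k, g k • ((((α : 𝓞 K) : K) ^ p) ^ (k.1 : ℕ) * (((β : 𝓞 K) : K) ^ p) ^ (k.2 : ℕ)) = 0)
    (ρ : K →+* ℂ) :
    ∑ k, ∑ l, ((g k : ℂ) * (g l : ℂ)) *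
      ρ (((mo α β p k * (mo α β p l)⁻¹ : (𝓞 K)ˣ) : 𝓞 K) : K) = 0 := by
  have h1 : ∑ k : Fin δ × Fin δ, (g k : ℂ) * ρ ((mo α β p k : 𝓞 K) : K) = 0 := by
    have h2 := congrArg ρ hg
    rw [map_sum, map_zero] at h2
    rw [← h2]
    refine Finset.sum_congr rfl fun k _ => ?_
    rw [Algebra.smul_def, map_mul]
    congr 1
    · simp
  have h2 : ∀ k l : Fin δ × Fin δ, ((g k : ℂ) * (g l : ℂ)) *
      ρ (((mo α β p k * (mo α β p l)⁻¹ : (𝓞 K)ˣ) : 𝓞 K) : K) =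
      ((g k : ℂ) * ρ ((mo α β p k : 𝓞 K) : K)) *
        ((g l : ℂ) * (ρ ((mo α β p l : 𝓞 K) : K))⁻¹) := by
    intro k l
    rw [vu_mul, vu_inv]
    ring
  simp only [h2]
  rw [← Finset.sum_mul_sum, h1, zero_mul]

open Classical in
/-- C2 -/
theorem t_norel (h : S_ENER) : S_NOREL := by
  intro K _ _ S η α β hP p δ hp hδ hlt
  set B : ℝ := √(2 * S.card * finrank ℚ K *
    (Real.log (finrank ℚ K + 1) + 2 + 4 * p * δ * η)) with hB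
  rw [Fintype.linearIndependent_iff]
  intro g hg
  have hB0 : 0 ≤ B := Real.sqrt_nonneg _
  -- the sum over the embeddings
  have h1 : ∑ k, ∑ l, ((g k : ℂ) * (g l : ℂ)) * ∑ ρ : K →+* ℂ with ρ ∉ S,
      ρ (((mo α β p k * (mo α β p l)⁻¹ : (𝓞 K)ˣ) : 𝓞 K) : K) = 0 := by
    have h2 : ∑ ρ : K →+* ℂ with ρ ∉ S, ∑ k, ∑ l, ((g k : ℂ) * (g l : ℂ)) *
      ρ (((mo α β p k * (mo α β p l)⁻¹ : (𝓞 K)ˣ) : 𝓞 K) : K) = 0 :=
      Finset.sum_eq_zero fun ρ _ => sq_zero hg ρ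
    rw [← h2]
    symm
    rw [Finset.sum_comm]
    refine Finset.sum_congr rfl fun k _ => ?_
    rw [Finset.sum_comm]
    refine Finset.sum_congr rfl fun l _ => ?_
    rw [Finset.mul_sum]
  have hcard : (((Finset.univ.filter fun ρ : K →+* ℂ => ρ ∉ S).card : ℕ) : ℝ) =
      finrank ℚ K - S.card := by
    have h3 := Finset.card_filter_add_card_filter_not (s := (Finset.univ : Finset (K →+* ℂ)))
      (fun ρ => ρ ∈ S)
    rw [Finset.filter_mem_eq_inter, Finset.univ_inter, Finset.card_univ,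
      NumberField.Embeddings.card] at h3
    have h4 : ((S.card : ℕ) : ℝ) + ((Finset.univ.filter fun ρ : K →+* ℂ => ρ ∉ S).card : ℕ) =
      finrank ℚ K := by exact_mod_cast h3
    linarith
  -- the diagonal
  have h5 : ∀ k, ∑ l, ((g k : ℂ) * (g l : ℂ)) * ∑ ρ : K →+* ℂ with ρ ∉ S,
      ρ (((mo α β p k * (mo α β p l)⁻¹ : (𝓞 K)ˣ) : 𝓞 K) : K) =
      (((g k : ℝ) ^ 2 * (finrank ℚ K - S.card) : ℝ) : ℂ) +
      ∑ l ∈ Finset.univ.erase k, ((g k : ℂ) * (g l : ℂ)) * ∑ ρ : K →+* ℂ with ρ ∉ S,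
        ρ (((mo α β p k * (mo α β p l)⁻¹ : (𝓞 K)ˣ) : 𝓞 K) : K) := by
    intro k
    rw [← Finset.add_sum_erase _ _ (Finset.mem_univ k)]
    congr 1
    simp only [mul_inv_cancel, vu_one]
    rw [Finset.sum_const, nsmul_eq_mul, mul_one, ← hcard]
    push_cast
    ring
  simp only [h5] at h1
  rw [Finset.sum_add_distrib, ← Complex.ofReal_sum] at h1
  have h6 := eq_neg_of_add_eq_zero_left h1
  have h7 := congrArg norm h6
  rw [norm_neg, Complex.norm_real, ← Finset.sum_mul, Real.norm_eq_abs] at h7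
  have h8 : ‖∑ k, ∑ l ∈ Finset.univ.erase k, ((g k : ℂ) * (g l : ℂ)) *
      ∑ ρ : K →+* ℂ with ρ ∉ S,
        ρ (((mo α β p k * (mo α β p l)⁻¹ : (𝓞 K)ˣ) : 𝓞 K) : K)‖ ≤
      B * ((δ : ℝ) ^ 2 * ∑ k, (g k : ℝ) ^ 2) := by
    calc _ ≤ ∑ k, ∑ l ∈ Finset.univ.erase k, |(g k : ℝ)| * |(g l : ℝ)| * B := by
          refine (norm_sum_le _ _).trans (Finset.sum_le_sum fun k _ => ?_)
          refine (norm_sum_le _ _).trans (Finset.sum_le_sum fun l hl => ?_)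
          rw [norm_mul, norm_mul]
          have e1 : ∀ q : ℚ, ‖(q : ℂ)‖ = |(q : ℝ)| := by
            intro q
            rw [← Complex.ofReal_ratCast, Complex.norm_real, Real.norm_eq_abs]
          rw [e1, e1]
          exact mul_le_mul_of_nonneg_left (sum_le h hP hp (Finset.ne_of_mem_erase hl).symm)
            (by positivity)
      _ ≤ ∑ k, ∑ l, |(g k : ℝ)| * |(g l : ℝ)| * B := by
          refine Finset.sum_le_sum fun k _ => ?_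
          exact Finset.sum_le_sum_of_subset_of_nonneg (Finset.erase_subset _ _)
            fun l _ _ => by positivity
      _ = B * (∑ k, |(g k : ℝ)|) ^ 2 := by
          rw [sq, Finset.sum_mul_sum, Finset.mul_sum]
          refine Finset.sum_congr rfl fun k _ => ?_
          rw [Finset.mul_sum]
          exact Finset.sum_congr rfl fun l _ => by ring
      _ ≤ B * ((δ : ℝ) ^ 2 * ∑ k, (g k : ℝ) ^ 2) := by
          refine mul_le_mul_of_nonneg_left ?_ hB0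
          have e2 := sq_sum_le_card_mul_sum_sq (s := (Finset.univ : Finset (Fin δ × Fin δ)))
            (f := fun k => |(g k : ℝ)|)
          rw [Finset.card_univ, Fintype.card_prod, Fintype.card_fin] at e2
          refine e2.trans (le_of_eq ?_)
          push_cast
          simp only [sq_abs]
          ring
  have h9 : (∑ k, (g k : ℝ) ^ 2) * ((finrank ℚ K : ℝ) - S.card) ≤
      B * ((δ : ℝ) ^ 2 * ∑ k, (g k : ℝ) ^ 2) :=
    (le_abs_self _).trans (h7.le.trans h8)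
  have h10 : 0 ≤ ∑ k, (g k : ℝ) ^ 2 := Finset.sum_nonneg fun k _ => sq_nonneg _
  have h11 : ∑ k, (g k : ℝ) ^ 2 = 0 := by
    by_contra hne
    have hpos : 0 < ∑ k, (g k : ℝ) ^ 2 := lt_of_le_of_ne h10 (Ne.symm hne)
    nlinarith
  intro k
  have h12 := (Finset.sum_eq_zero_iff_of_nonneg fun k _ => sq_nonneg (g k : ℝ)).1 h11 k
    (Finset.mem_univ k)
  have h13 : (g k : ℝ) = 0 := by
    simpa using h12
  exact_mod_cast h13

end norel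

end Pool.Agent.NH69.MI
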