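import Mathlib
import Pool.Agent.NH69.MI.Stm
import Pool.Agent.Y642.ND.Shp
import Pool.Agent.Y220.ND.Ols

/-!
# The monomials generate a subfield; its degree
-/

set_option autoImplicit false

open NumberField Module

namespace Pool.Agent.NH69.MI

lemma adj_eq {K : Type} [Field K] [NumberField K] (s : Set K) :
    (IntermediateField.adjoin ℚ s).toSubalgebra = Algebra.adjoin ℚ s := by
  apply IntermediateField.adjoin_toSubalgebra_of_isAlgebraic
  intro x _
  exact Algebra.IsAlgebraic.isAlgebraic x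

lemma span_aux {K F : Type} [Field K] [NumberField K] [Field F] [NumberField F] (f : F →ₐ[ℚ] K)
    (x y : K) (x' y' : F) (hx' : f x' = x) (hy' : f y' = y)
    (hr : f.range = Algebra.adjoin ℚ {x, y}) (δ L : ℕ) (hδ : 1 ≤ δ)
    (hli : LinearIndependent ℚ (fun k : Fin δ × Fin δ => x ^ (k.1 : ℕ) * y ^ (k.2 : ℕ)))
    (hL : 2 * finrank ℚ K ≤ L * δ) :
    W L x y = Subalgebra.toSubmodule (Algebra.adjoin ℚ {x, y}) := by
  classical
  let z : Fin 2 → F := ![x', y']
  have hz0 : f (z 0) = x := hx'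
  have hz1 : f (z 1) = y := hy'
  have hfinj : Function.Injective f := f.toRingHom.injective
  have hgen : Algebra.adjoin ℚ (Set.range z) = ⊤ := by
    apply Subalgebra.map_injective (f := f) hfinj
    rw [AlgHom.map_adjoin, Algebra.map_top]
    have h1 : (f : F → K) '' Set.range z = {x, y} := by
      ext w
      simp only [Set.mem_image, Set.mem_range, Fin.exists_fin_two, Set.mem_insert_iff,
        Set.mem_singleton_iff]
      constructor
      · rintro ⟨_, h | h, rfl⟩
        · left; rw [← h]; exact hz0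
        · right; rw [← h]; exact hz1
      · rintro (rfl | rfl)
        · exact ⟨z 0, Or.inl rfl, hz0⟩
        · exact ⟨z 1, Or.inr rfl, hz1⟩
    rw [h1, hr]
  have hl : LinearIndependent ℚ (fun k : (j : Fin 2) → Fin ((fun _ => δ) j) =>
      ∏ j, z j ^ (k j : ℕ)) := by
    apply LinearIndependent.of_comp f.toLinearMap
    have h1 := hli.comp (fun k : Fin 2 → Fin δ => ((k 0, k 1) : Fin δ × Fin δ)) (by
      intro a b hab
      have h2 := congrArg Prod.fst hab
      have h3 := congrArg Prod.snd hab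
      funext i
      fin_cases i
      · exact h2
      · exact h3)
    have h2 : (f.toLinearMap : F → K) ∘ (fun k : (j : Fin 2) → Fin ((fun _ => δ) j) =>
      ∏ j, z j ^ (k j : ℕ)) = (fun k : Fin δ × Fin δ => x ^ (k.1 : ℕ) * y ^ (k.2 : ℕ)) ∘
        (fun k : Fin 2 → Fin δ => ((k 0, k 1) : Fin δ × Fin δ)) := by
      funext k
      simp [Fin.prod_univ_two, hz0, hz1]
    rw [h2]
    exact h1
  obtain ⟨M, hM1, hM2⟩ := Pool.Agent.Y642.ND.Shp.span Pool.Agent.Y220.ND.t hgen
    (δ := fun _ => δ) (fun _ => hδ) hl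
  have hML : ∀ j, M j ≤ L := by
    intro j
    have h1 := hM1 j
    simp only [Finset.prod_const, Finset.card_univ, Fintype.card_fin] at h1
    have h2 : finrank ℚ F ≤ finrank ℚ K :=
      LinearMap.finrank_le_finrank_of_injective (f := f.toLinearMap) hfinj
    have h3 : M j * δ * δ ≤ L * δ * δ := by
      calc M j * δ * δ = M j * δ ^ 2 := by ring
        _ ≤ 2 * finrank ℚ F * δ := h1
        _ ≤ 2 * finrank ℚ K * δ := by gcongr
        _ ≤ L * δ * δ := Nat.mul_le_mul_right _ hL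
    have h4 := Nat.le_of_mul_le_mul_right h3 (by omega)
    exact Nat.le_of_mul_le_mul_right h4 (by omega)
  apply le_antisymm
  · unfold W
    rw [Submodule.span_le]
    rintro _ ⟨i, j, _, _, rfl⟩
    have hx1 : x ∈ Algebra.adjoin ℚ {x, y} := Algebra.subset_adjoin (by simp)
    have hy1 : y ∈ Algebra.adjoin ℚ {x, y} := Algebra.subset_adjoin (by simp)
    show x ^ i * y ^ j ∈ Algebra.adjoin ℚ {x, y}
    exact mul_mem (pow_mem hx1 i) (pow_mem hy1 j)
  · rw [← hr]
    rintro _ ⟨w, rfl⟩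
    have h1 : w ∈ Submodule.span ℚ
        {z' : F | ∃ k : Fin 2 → ℕ, (∀ j, k j ≤ M j) ∧ z' = ∏ j, z j ^ k j} := by
      rw [hM2]; exact Submodule.mem_top
    have h2 := Submodule.mem_map_of_mem (f := f.toLinearMap) h1
    rw [Submodule.map_span] at h2
    refine (Submodule.span_mono ?_) h2
    rintro _ ⟨_, ⟨k, hk, rfl⟩, rfl⟩
    refine ⟨k 0, k 1, (hk 0).trans (hML 0), (hk 1).trans (hML 1), ?_⟩
    simp [Fin.prod_univ_two, hz0, hz1]

theorem t_span : S_SPAN := by
  intro K _ _ x y δ L hδ hli hL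
  classical
  have hFA : (IntermediateField.adjoin ℚ {x, y}).toSubalgebra = Algebra.adjoin ℚ {x, y} :=
    adj_eq _
  have hxF : x ∈ IntermediateField.adjoin ℚ {x, y} :=
    IntermediateField.subset_adjoin ℚ _ (by simp)
  have hyF : y ∈ IntermediateField.adjoin ℚ {x, y} :=
    IntermediateField.subset_adjoin ℚ _ (by simp)
  refine span_aux (F := IntermediateField.adjoin ℚ {x, y})
    ((IntermediateField.adjoin ℚ {x, y}).val : IntermediateField.adjoin ℚ {x, y} →+* K).toRatAlgHom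
    x y ⟨x, hxF⟩ ⟨y, hyF⟩ rfl rfl ?_ δ L hδ hli hL
  rw [← hFA]
  ext w
  constructor
  · rintro ⟨v, rfl⟩
    exact v.2
  · intro hw
    exact ⟨⟨w, hw⟩, rfl⟩

theorem t_deg : S_DEG := by
  intro K _ _ S η α β hP p hp
  classical
  set F : IntermediateField ℚ K :=
    IntermediateField.adjoin ℚ {((α : 𝓞 K) : K) ^ p, ((β : 𝓞 K) : K) ^ p} with hF
  have hFA : F.toSubalgebra = Algebra.adjoin ℚ
      {((α : 𝓞 K) : K) ^ p, ((β : 𝓞 K) : K) ^ p} := adj_eq _
  have hfr : finrank ℚ (Algebra.adjoin ℚ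
      {((α : 𝓞 K) : K) ^ p, ((β : 𝓞 K) : K) ^ p} : Subalgebra ℚ K) = finrank ℚ F := by
    rw [← hFA]
    rfl
  rw [hfr]
  have hmul : finrank ℚ F * finrank F K = finrank ℚ K := Module.finrank_mul_finrank ℚ F K
  obtain ⟨ρ, hρ, _⟩ := hP.ind1
  have hαF : ((α : 𝓞 K) : K) ^ p ∈ F := IntermediateField.subset_adjoin ℚ _ (by simp)
  letI : Algebra F ℂ := (ρ.comp (algebraMap F K)).toAlgebra
  have hcard : Fintype.card (K →ₐ[F] ℂ) = finrank F K := AlgHom.card F K ℂ
  have hle : Fintype.card (K →ₐ[F] ℂ) ≤ S.card := by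
    rw [← Finset.card_univ]
    apply Finset.card_le_card_of_injOn (fun τ : K →ₐ[F] ℂ => (τ : K →+* ℂ))
    · intro τ _
      by_contra hτ
      have h1 := hP.circ1 (τ : K →+* ℂ) hτ
      have h2 : τ (((α : 𝓞 K) : K) ^ p) = ρ (((α : 𝓞 K) : K) ^ p) :=
        τ.commutes (⟨((α : 𝓞 K) : K) ^ p, hαF⟩ : F)
      rw [map_pow, map_pow] at h2
      have h3 : ‖ρ ((α : 𝓞 K) : K)‖ ^ p = 1 := by
        rw [← norm_pow, ← h2, norm_pow]
        have h4 : ‖τ ((α : 𝓞 K) : K)‖ = 1 := h1
        rw [h4, one_pow]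
      exact hρ ((pow_eq_one_iff_of_nonneg (norm_nonneg _) (by omega)).1 h3)
    · intro τ _ τ' _ h
      exact AlgHom.coe_ringHom_injective h
  rw [hcard] at hle
  calc finrank ℚ K = finrank ℚ F * finrank F K := hmul.symm
    _ ≤ finrank ℚ F * S.card := Nat.mul_le_mul_left _ hle
    _ = S.card * finrank ℚ F := Nat.mul_comm _ _

end Pool.Agent.NH69.MI
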